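import Mathlib

namespace Pool.Agent.MP_df3d6f_co

/-- Vertices are placed on a circle in the cyclic order given by the injective function `pos`;
the chords `e` and `f` cross exactly when their end points alternate around the circle. -/
def Crosses {V : Type*} (pos : V → ℕ) (e f : Sym2 V) : Prop :=
  ∃ a b c d : V, e = s(a, b) ∧ f = s(c, d) ∧
    ((pos a < pos c ∧ pos c < pos b ∧ pos b < pos d) ∨
      (pos c < pos a ∧ pos a < pos d ∧ pos d < pos b))

/-- `G` has a drawing with its vertices on a circle (in convex position) and straight edges,
in which every edge is crossed by at most `k` other edges. -/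
def OuterKPlanar {V : Type*} (k : ℕ) (G : SimpleGraph V) : Prop :=
  ∃ pos : V → ℕ, Function.Injective pos ∧
    ∀ e ∈ G.edgeSet, {f ∈ G.edgeSet | Crosses pos e f}.ncard ≤ k

end Pool.Agent.MP_df3d6f_co
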