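import Mathlib
import Pool.Agent.MP_df3d6f_co.Defs

namespace Pool.Agent.MP_df3d6f_co

open Finset

/-- The vertices of `X` are consecutive on the circle: no chord between two vertices of `X` crosses
a chord between two vertices outside `X`. -/
def IsArc {V : Type*} (pos : V → ℕ) (X : Finset V) : Prop :=
  ∀ x ∈ X, ∀ x' ∈ X, ∀ y ∉ X, ∀ y' ∉ X, ¬ Crosses pos s(x, x') s(y, y')

lemma crosses_of_sep {V : Type*} {pos : V → ℕ} {a b c d : V}
    (h : (pos a < pos c ∧ pos c < pos b ∧ (pos d < pos a ∨ pos b < pos d)) ∨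
      (pos b < pos c ∧ pos c < pos a ∧ (pos d < pos b ∨ pos a < pos d))) :
    Crosses pos s(a, b) s(c, d) := by
  rcases h with ⟨h1, h2, h3 | h3⟩ | ⟨h1, h2, h3 | h3⟩
  · exact ⟨a, b, d, c, rfl, Sym2.eq_swap, Or.inr ⟨h3, h1, h2⟩⟩
  · exact ⟨a, b, c, d, rfl, rfl, Or.inl ⟨h1, h2, h3⟩⟩
  · exact ⟨b, a, d, c, Sym2.eq_swap, Sym2.eq_swap, Or.inr ⟨h3, h1, h2⟩⟩
  · exact ⟨b, a, c, d, Sym2.eq_swap, rfl, Or.inl ⟨h1, h2, h3⟩⟩

/-- position on the circle, read clockwise from `x` -/
def tau {V : Type*} (pos : V → ℕ) (M : ℕ) (x v : V) : ℕ :=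
  if pos x < pos v then pos v else pos v + M

lemma crosses_of_tau {V : Type*} {pos : V → ℕ} {M : ℕ} (hM : ∀ v, pos v < M) {x u v w : V}
    (hw : pos w ≠ pos x)
    (h1 : tau pos M x u < tau pos M x v) (h2 : tau pos M x v < tau pos M x w) :
    Crosses pos s(x, v) s(u, w) := by
  have a1 := hM u
  have a2 := hM v
  have a3 := hM w
  have a4 := hM x
  unfold tau at h1 h2
  by_cases hvx : pos x < pos v
  · rw [if_pos hvx] at h1 h2
    have hux : pos x < pos u := by
      by_contra hh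
      rw [if_neg hh] at h1
      omega
    rw [if_pos hux] at h1
    apply crosses_of_sep
    left
    split_ifs at h2 <;> omega
  · rw [if_neg hvx] at h1 h2
    have hwx : ¬ pos x < pos w := by
      intro hh
      rw [if_pos hh] at h2
      omega
    rw [if_neg hwx] at h2
    rw [Sym2.eq_swap (a := u) (b := w)]
    apply crosses_of_sep
    right
    split_ifs at h1 <;> omega

/-- The chords between vertices of `X` do not cross the chords between vertices of `Y`. -/
def Sep {V : Type*} (pos : V → ℕ) (X Y : Finset V) : Prop :=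
  ∀ x ∈ X, ∀ x' ∈ X, ∀ y ∈ Y, ∀ y' ∈ Y, ¬ Crosses pos s(x, x') s(y, y')

/-- For a vertex `x` of `X` and the set `N` of its neighbours in `Y`, apart from two of
these neighbours the edges between `X` and `N` cross one of two edges at `x`. -/
lemma key_vertex {V : Type*} [Fintype V] [DecidableEq V] {k : ℕ} {G : SimpleGraph V}
    [DecidableRel G.Adj] {pos : V → ℕ}
    (hpos : Function.Injective pos)
    (hk : ∀ e ∈ G.edgeSet, {f ∈ G.edgeSet | Crosses pos e f}.ncard ≤ k)
    {X Y : Finset V} (hXY : Disjoint X Y) (hX : Sep pos X Y) {x : V} (hx : x ∈ X) :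
    ∃ L R : V, (((X ×ˢ (((Y.filter (fun y => G.Adj x y)).erase L).erase R)).filter
      (fun p => G.Adj p.1 p.2 ∧ p.1 ≠ x)).card ≤ 2 * k) := by
  classical
  set N := Y.filter (fun y => G.Adj x y) with hN
  rcases N.eq_empty_or_nonempty with h0 | hne
  · refine ⟨x, x, ?_⟩
    rw [h0]
    simp
  set M := (∑ v, pos v) + 1 with hMdef
  have hM : ∀ v, pos v < M := by
    intro v
    have : pos v ≤ ∑ v, pos v := Finset.single_le_sum (fun _ _ => Nat.zero_le _) (mem_univ v)
    omega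
  obtain ⟨L, hL, hLmin⟩ := N.exists_min_image (tau pos M x) hne
  obtain ⟨R, hR, hRmax⟩ := N.exists_max_image (tau pos M x) hne
  refine ⟨L, R, ?_⟩
  have hYX : ∀ y ∈ Y, y ∉ X := fun y hy hx => (Finset.disjoint_left.mp hXY) hx hy
  have hNY : ∀ y ∈ N, y ∈ Y ∧ G.Adj x y := fun y hy => by
    rw [hN, mem_filter] at hy
    exact hy
  have tinj : ∀ u v : V, tau pos M x u = tau pos M x v → u = v := by
    intro u v huv
    have a1 := hM u
    have a2 := hM v
    unfold tau at huv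
    apply hpos
    split_ifs at huv <;> omega
  have pne : ∀ v : V, v ≠ x → pos v ≠ pos x := fun v hv h => hv (hpos h)
  -- bound of the set of pairs crossing an edge
  have hC : ∀ y : V, G.Adj x y → (((X ×ˢ Y).filter (fun p => G.Adj p.1 p.2 ∧
      Crosses pos s(x, y) s(p.1, p.2))).card ≤ k) := by
    intro y hy
    refine le_trans ?_ (hk s(x, y) hy)
    rw [Set.ncard_eq_toFinset_card _ (Set.toFinite _)]
    refine Finset.card_le_card_of_injOn (fun p => s(p.1, p.2)) ?_ ?_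
    · intro p hp
      rw [mem_coe, mem_filter] at hp
      rw [mem_coe, Set.Finite.mem_toFinset]
      exact ⟨hp.2.1, hp.2.2⟩
    · intro p hp q hq hpq
      rw [mem_coe, mem_filter, mem_product] at hp hq
      have hpq' : s(p.1, p.2) = s(q.1, q.2) := hpq
      rw [Sym2.eq_iff] at hpq'
      rcases hpq' with ⟨h1, h2⟩ | ⟨h1, h2⟩
      · exact Prod.ext h1 h2
      · exfalso
        exact hYX q.2 hq.1.2 (h1 ▸ hp.1.1)
  have hsub : ((X ×ˢ ((N.erase L).erase R)).filter (fun p => G.Adj p.1 p.2 ∧ p.1 ≠ x)) ⊆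
      ((X ×ˢ Y).filter (fun p => G.Adj p.1 p.2 ∧ Crosses pos s(x, L) s(p.1, p.2))) ∪
      ((X ×ˢ Y).filter (fun p => G.Adj p.1 p.2 ∧ Crosses pos s(x, R) s(p.1, p.2))) := by
    rintro ⟨x', y⟩ hp
    rw [mem_filter, mem_product] at hp
    obtain ⟨⟨hx', hy⟩, hadj, hne'⟩ := hp
    simp only at hx' hy hadj hne'
    rw [mem_erase, mem_erase] at hy
    obtain ⟨hyR, hyL, hyN⟩ := hy
    have t1 : tau pos M x L < tau pos M x y :=
      lt_of_le_of_ne (hLmin y hyN) (fun h => hyL (tinj _ _ h).symm)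
    have t2 : tau pos M x y < tau pos M x R :=
      lt_of_le_of_ne (hRmax y hyN) (fun h => hyR (tinj _ _ h))
    have nX : ∀ v ∈ N, v ≠ x := fun v hv h => hYX v (hNY v hv).1 (h ▸ hx)
    have cR := pne R (nX R hR)
    have cy := pne y (nX y hyN)
    have cx' := pne x' hne'
    have hx'1 : x' ∉ N := fun h => hYX x' (hNY x' h).1 hx'
    have hnot : ¬ (tau pos M x L < tau pos M x x' ∧ tau pos M x x' < tau pos M x R) := by
      rintro ⟨g1, g2⟩
      exact hX x hx x' hx' L (hNY L hL).1 R (hNY R hR).1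
        (crosses_of_tau hM cR g1 g2)
    have hneL : tau pos M x x' ≠ tau pos M x L := fun h => hx'1 (tinj _ _ h ▸ hL)
    have hneR : tau pos M x x' ≠ tau pos M x R := fun h => hx'1 (tinj _ _ h ▸ hR)
    rw [mem_union, mem_filter, mem_filter, mem_product]
    rcases lt_or_ge (tau pos M x x') (tau pos M x L) with g | g
    · left
      exact ⟨⟨hx', (hNY y hyN).1⟩, hadj, crosses_of_tau hM cy g t1⟩
    · right
      have g3 : tau pos M x R < tau pos M x x' := by
        by_contra hh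
        exact hnot ⟨lt_of_le_of_ne g hneL.symm, lt_of_le_of_ne (not_lt.mp hh) hneR⟩
      refine ⟨⟨hx', (hNY y hyN).1⟩, hadj, ?_⟩
      have := crosses_of_tau hM cx' t2 g3
      rw [Sym2.eq_swap (a := y) (b := x')] at this
      exact this
  calc _ ≤ _ := card_le_card hsub
    _ ≤ _ := card_union_le _ _
    _ ≤ k + k := Nat.add_le_add (hC L (hNY L hL).2) (hC R (hNY R hR).2)
    _ = 2 * k := by ring

lemma real_step {m s q K : ℝ} (hs0 : 0 ≤ s) (hs2 : s * s = K * q) (hq : 0 ≤ q)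
    (h : m ^ 2 ≤ q * (K + m)) : m ≤ s + q := by
  by_contra hlt
  push Not at hlt
  have h3 : s < m - q := by linarith
  have h4 : 0 < m := by linarith
  have h5 : s * s < m * (m - q) := by nlinarith
  nlinarith

lemma quad_step {V : Type*} (Y : Finset V) (D : V → ℕ) (p k : ℕ)
    (hq : ∑ y ∈ Y, D y * (D y - 1) ≤ 2 * k * p) :
    ((∑ y ∈ Y, D y : ℕ) : ℝ) ≤ Real.sqrt (2 * k * p * Y.card) + Y.card := by
  have hcs : ((∑ y ∈ Y, D y : ℕ) : ℝ) ^ 2 ≤ Y.card * ∑ y ∈ Y, ((D y : ℝ)) ^ 2 := by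
    have := sq_sum_le_card_mul_sum_sq (s := Y) (f := fun y => (D y : ℝ))
    rw [Nat.cast_sum]
    exact this
  have hq2 : ∑ y ∈ Y, ((D y : ℝ)) ^ 2 ≤ 2 * k * p + ((∑ y ∈ Y, D y : ℕ) : ℝ) := by
    have h1 : ∑ y ∈ Y, (D y) ^ 2 = (∑ y ∈ Y, D y * (D y - 1)) + ∑ y ∈ Y, D y := by
      rw [← sum_add_distrib]
      refine sum_congr rfl fun y hy => ?_
      rcases Nat.eq_zero_or_pos (D y) with h | h
      · rw [h]; rfl
      · obtain ⟨c, hc⟩ : ∃ c, D y = c + 1 := ⟨D y - 1, by omega⟩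
        rw [hc, Nat.add_sub_cancel]
        ring
    have h2 : ∑ y ∈ Y, (D y) ^ 2 ≤ 2 * k * p + ∑ y ∈ Y, D y := by omega
    exact_mod_cast h2
  have hs2 : Real.sqrt (2 * k * p * Y.card) * Real.sqrt (2 * k * p * Y.card) =
      2 * k * p * Y.card := Real.mul_self_sqrt (by positivity)
  exact real_step (K := 2 * k * p) (Real.sqrt_nonneg _) hs2 (by positivity)
    (hcs.trans (mul_le_mul_of_nonneg_left hq2 (by positivity)))

/-- The number of edges between two separated sets. -/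
theorem sep_bound {V : Type*} [Fintype V] {k : ℕ} {G : SimpleGraph V} {pos : V → ℕ}
    (hpos : Function.Injective pos)
    (hk : ∀ e ∈ G.edgeSet, {f ∈ G.edgeSet | Crosses pos e f}.ncard ≤ k)
    {X Y : Finset V} (hXY : Disjoint X Y) (hX : Sep pos X Y) :
    ({e ∈ G.edgeSet | ∃ x ∈ X, ∃ y ∈ Y, e = s(x, y)}.ncard : ℝ) ≤
      Real.sqrt (2 * k * X.card * Y.card) + 2 * X.card + Y.card := by
  classical
  have hYX : ∀ y ∈ Y, y ∉ X := fun y hy hx => (Finset.disjoint_left.mp hXY) hx hy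
  -- the set of pairs
  set B := (X ×ˢ Y).filter (fun p => G.Adj p.1 p.2) with hB
  have hcard : {e ∈ G.edgeSet | ∃ x ∈ X, ∃ y ∈ Y, e = s(x, y)}.ncard ≤ B.card := by
    have : {e ∈ G.edgeSet | ∃ x ∈ X, ∃ y ∈ Y, e = s(x, y)} ⊆
        ((B.image (fun p => s(p.1, p.2)) : Finset (Sym2 V)) : Set (Sym2 V)) := by
      rintro e ⟨he, x, hx, y, hy, rfl⟩
      rw [mem_coe, mem_image]
      refine ⟨(x, y), ?_, rfl⟩
      rw [hB, mem_filter, mem_product]
      exact ⟨⟨hx, hy⟩, he⟩
    refine (Set.ncard_le_ncard this (Finset.finite_toSet _)).trans ?_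
    rw [Set.ncard_coe_finset]
    exact card_image_le
  choose! L R hLR using fun (x : V) (hx : x ∈ X) => key_vertex hpos hk hXY hX hx
  set S : V → Finset V := fun x => ((Y.filter (fun y => G.Adj x y)).erase (L x)).erase (R x) with hS
  have hSY : ∀ x, ∀ y ∈ S x, y ∈ Y ∧ G.Adj x y := by
    intro x y hy
    simp only [hS] at hy
    have := mem_of_mem_erase (mem_of_mem_erase hy)
    rw [mem_filter] at this
    exact this
  -- number of pairs
  have hB1 : B.card = ∑ x ∈ X, (Y.filter (fun y => G.Adj x y)).card := by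
    rw [hB, card_filter, sum_product]
    simp only [card_filter]
  have hB2 : B.card ≤ (∑ x ∈ X, (S x).card) + 2 * X.card := by
    rw [hB1, two_mul, ← mul_two, ← smul_eq_mul, ← sum_const, ← sum_add_distrib]
    refine sum_le_sum fun x hx => ?_
    simp only [hS]
    have h1 := Finset.pred_card_le_card_erase (s := (Y.filter (fun y => G.Adj x y)).erase (L x))
      (a := R x)
    have h2 := Finset.pred_card_le_card_erase (s := (Y.filter (fun y => G.Adj x y))) (a := L x)
    omega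
  -- degrees
  set D : V → ℕ := fun y => (X.filter (fun x => y ∈ S x)).card with hD
  have hm : ∑ x ∈ X, (S x).card = ∑ y ∈ Y, D y := by
    have e1 : ∀ x ∈ X, (S x).card = ∑ y ∈ Y, if y ∈ S x then 1 else 0 := by
      intro x hx
      rw [← card_filter]
      congr 1
      ext y
      rw [mem_filter]
      exact ⟨fun h => ⟨(hSY x y h).1, h⟩, fun h => h.2⟩
    rw [sum_congr rfl e1, sum_comm]
    refine sum_congr rfl fun y hy => ?_
    simp only [hD, card_filter]
  have hq : ∑ y ∈ Y, D y * (D y - 1) ≤ 2 * k * X.card := by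
    have e1 : ∀ x ∈ X, ∑ y ∈ S x, (D y - 1) ≤ 2 * k := by
      intro x hx
      refine le_trans ?_ (hLR x hx)
      have e2 : ((X ×ˢ S x).filter (fun p => G.Adj p.1 p.2 ∧ p.1 ≠ x)).card =
          ∑ y ∈ S x, (X.filter (fun z => G.Adj z y ∧ z ≠ x)).card := by
        rw [card_filter, sum_product_right]
        simp only [card_filter]
      change ∑ y ∈ S x, (D y - 1) ≤ ((X ×ˢ S x).filter (fun p => G.Adj p.1 p.2 ∧ p.1 ≠ x)).card
      rw [e2]
      refine sum_le_sum fun y hy => ?_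
      have hsub : (X.filter (fun x => y ∈ S x)).erase x ⊆
          X.filter (fun z => G.Adj z y ∧ z ≠ x) := by
        intro z hz
        rw [mem_erase, mem_filter] at hz
        rw [mem_filter]
        exact ⟨hz.2.1, (hSY z y hz.2.2).2, hz.1⟩
      have hmem : x ∈ X.filter (fun x => y ∈ S x) := by
        rw [mem_filter]
        exact ⟨hx, hy⟩
      have := card_le_card hsub
      rw [card_erase_of_mem hmem] at this
      exact this
    calc ∑ y ∈ Y, D y * (D y - 1) = ∑ y ∈ Y, ∑ x ∈ X, if y ∈ S x then (D y - 1) else 0 := by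
          refine sum_congr rfl fun y hy => ?_
          rw [← sum_filter, sum_const, smul_eq_mul]
      _ = ∑ x ∈ X, ∑ y ∈ Y, if y ∈ S x then (D y - 1) else 0 := sum_comm
      _ = ∑ x ∈ X, ∑ y ∈ S x, (D y - 1) := by
          refine sum_congr rfl fun x hx => ?_
          rw [← sum_filter]
          refine sum_congr ?_ fun _ _ => rfl
          ext y
          rw [mem_filter]
          exact ⟨fun h => h.2, fun h => ⟨(hSY x y h).1, h⟩⟩
      _ ≤ ∑ x ∈ X, 2 * k := sum_le_sum e1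
      _ = 2 * k * X.card := by rw [sum_const, smul_eq_mul]; ring
  have h1 : {e ∈ G.edgeSet | ∃ x ∈ X, ∃ y ∈ Y, e = s(x, y)}.ncard ≤
      (∑ y ∈ Y, D y) + 2 * X.card := by
    rw [← hm]
    exact hcard.trans hB2
  have h2 := quad_step Y D X.card k hq
  clear_value D
  have h3 : (({e ∈ G.edgeSet | ∃ x ∈ X, ∃ y ∈ Y, e = s(x, y)}.ncard : ℕ) : ℝ) ≤
      ((∑ y ∈ Y, D y : ℕ) : ℝ) + 2 * X.card := by
    have := (Nat.cast_le (α := ℝ)).mpr h1
    rw [Nat.cast_add, Nat.cast_mul] at this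
    exact this
  linarith

/-- The number of edges between an arc `X` and a set `Y` outside of `X`. -/
theorem arc_bound {V : Type*} [Fintype V] {k : ℕ} {G : SimpleGraph V} {pos : V → ℕ}
    (hpos : Function.Injective pos)
    (hk : ∀ e ∈ G.edgeSet, {f ∈ G.edgeSet | Crosses pos e f}.ncard ≤ k)
    {X Y : Finset V} (hXY : Disjoint X Y) (hX : IsArc pos X) :
    ({e ∈ G.edgeSet | ∃ x ∈ X, ∃ y ∈ Y, e = s(x, y)}.ncard : ℝ) ≤
      Real.sqrt (2 * k * X.card * Y.card) + 2 * X.card + Y.card :=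
  sep_bound hpos hk hXY (fun x hx x' hx' y hy y' hy' =>
    hX x hx x' hx' y (fun h => (Finset.disjoint_left.mp hXY) h hy)
      y' (fun h => (Finset.disjoint_left.mp hXY) h hy'))

lemma crosses_symm {V : Type*} {pos : V → ℕ} {e f : Sym2 V} (h : Crosses pos e f) :
    Crosses pos f e := by
  obtain ⟨a, b, c, d, h1, h2, h3⟩ := h
  exact ⟨c, d, a, b, h2, h1, h3.symm⟩

/-- Symmetric form. -/
theorem sep_bound_sym {V : Type*} [Fintype V] {k : ℕ} {G : SimpleGraph V} {pos : V → ℕ}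
    (hpos : Function.Injective pos)
    (hk : ∀ e ∈ G.edgeSet, {f ∈ G.edgeSet | Crosses pos e f}.ncard ≤ k)
    {X Y : Finset V} (hXY : Disjoint X Y) (hX : Sep pos X Y) :
    ({e ∈ G.edgeSet | ∃ x ∈ X, ∃ y ∈ Y, e = s(x, y)}.ncard : ℝ) ≤
      (Real.sqrt (k / 2) + 3 / 2) * (X.card + Y.card) := by
  have h1 := sep_bound hpos hk hXY hX
  have h2 := sep_bound hpos hk hXY.symm (X := Y) (Y := X)
    (fun y hy y' hy' x hx x' hx' h => hX x hx x' hx' y hy y' hy' (crosses_symm h))
  have e1 : {e ∈ G.edgeSet | ∃ x ∈ Y, ∃ y ∈ X, e = s(x, y)} =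
      {e ∈ G.edgeSet | ∃ x ∈ X, ∃ y ∈ Y, e = s(x, y)} := by
    ext e
    constructor
    · rintro ⟨he, x, hx, y, hy, h⟩
      exact ⟨he, y, hy, x, hx, by rw [h, Sym2.eq_swap]⟩
    · rintro ⟨he, x, hx, y, hy, h⟩
      exact ⟨he, y, hy, x, hx, by rw [h, Sym2.eq_swap]⟩
  rw [e1] at h2
  have e2 : (2 * (k : ℝ) * Y.card * X.card) = 2 * k * X.card * Y.card := by ring
  rw [e2] at h2
  have hk0 : (0 : ℝ) ≤ k / 2 := by positivity
  have e3 : Real.sqrt (2 * k * X.card * Y.card) ≤ Real.sqrt (k / 2) * (X.card + Y.card) := by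
    have h3 : (0 : ℝ) ≤ X.card + Y.card := by positivity
    rw [← Real.sqrt_mul_self h3, ← Real.sqrt_mul hk0]
    apply Real.sqrt_le_sqrt
    have hk1 : (0 : ℝ) ≤ k := by positivity
    nlinarith [mul_nonneg hk1 (sq_nonneg ((X.card : ℝ) - Y.card))]
  nlinarith

end Pool.Agent.MP_df3d6f_co
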