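import Mathlib

namespace Pool.Agent.MP_df3d6f_co

open Finset

/-- Two pairs `e`, `f` of numbers (smaller entry first) alternate. -/
def Alt (e f : ℕ × ℕ) : Prop :=
  (e.1 < f.1 ∧ f.1 < e.2 ∧ e.2 < f.2) ∨ (f.1 < e.1 ∧ e.1 < f.2 ∧ f.2 < e.2)

instance : DecidableRel Alt := fun _ _ => by unfold Alt; infer_instance

/-- Number of elements of `V` strictly between the entries of `e`. -/
def btw (V : Finset ℕ) (e : ℕ × ℕ) : Finset ℕ := V.filter (fun c => e.1 < c ∧ c < e.2)

lemma card_low_le (s : ℕ) (U : Finset ℕ) :
    (U.filter (fun b => (U.filter (fun c => c < b)).card < s)).card ≤ s := by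
  by_contra h
  push Not at h
  set T := U.filter (fun b => (U.filter (fun c => c < b)).card < s) with hT
  have hne : T.Nonempty := by
    rw [← Finset.card_pos]; omega
  have hmem := T.max'_mem hne
  have h1 : (U.filter (fun c => c < T.max' hne)).card < s := (Finset.mem_filter.mp hmem).2
  have h2 : T.erase (T.max' hne) ⊆ U.filter (fun c => c < T.max' hne) := by
    intro c hc
    rw [Finset.mem_erase] at hc
    rw [Finset.mem_filter]
    refine ⟨(Finset.mem_filter.mp hc.2).1, ?_⟩
    exact lt_of_le_of_ne (T.le_max' c hc.2) hc.1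
  have h3 := Finset.card_le_card h2
  rw [Finset.card_erase_of_mem hmem] at h3
  omega

/-- pairs of elements of `U` with fewer than `s` elements of `U` in between. -/
def shortPairs (s : ℕ) (U : Finset ℕ) : Finset (ℕ × ℕ) :=
  (U ×ˢ U).filter (fun e => e.1 < e.2 ∧ (btw U e).card < s)

lemma card_shortPairs_le (s : ℕ) (U : Finset ℕ) :
    (shortPairs s U).card ≤ ∑ i ∈ range U.card, min s i := by
  induction U using Finset.induction_on_min with
  | empty => simp [shortPairs]
  | insert a U ha ih =>
    have hnot : a ∉ U := fun h => lt_irrefl _ (ha a h)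
    rw [Finset.card_insert_of_notMem hnot, Finset.sum_range_succ]
    have hsub : shortPairs s (insert a U) ⊆ shortPairs s U ∪
        (U.filter (fun b => (U.filter (fun c => c < b)).card < s)).image (fun b => (a, b)) := by
      intro e he
      obtain ⟨x, y⟩ := e
      simp only [shortPairs, Finset.mem_filter, Finset.mem_product, Finset.mem_insert] at he
      obtain ⟨⟨hx, hy⟩, hxy, hs⟩ := he
      rw [Finset.mem_union]
      rcases hx with rfl | hx
      · right
        have hyU : y ∈ U := by
          rcases hy with rfl | hy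
          · exact absurd hxy (lt_irrefl _)
          · exact hy
        rw [Finset.mem_image]
        refine ⟨y, ?_, rfl⟩
        rw [Finset.mem_filter]
        refine ⟨hyU, lt_of_le_of_lt (Finset.card_le_card ?_) hs⟩
        intro c hc
        rw [Finset.mem_filter] at hc
        simp only [btw, Finset.mem_filter, Finset.mem_insert]
        exact ⟨Or.inr hc.1, ha c hc.1, hc.2⟩
      · left
        have hyU : y ∈ U := by
          rcases hy with rfl | hy
          · exact absurd (ha x hx) (not_lt.mpr hxy.le)
          · exact hy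
        simp only [shortPairs, Finset.mem_filter, Finset.mem_product]
        refine ⟨⟨hx, hyU⟩, hxy, lt_of_le_of_lt (Finset.card_le_card ?_) hs⟩
        intro c hc
        simp only [btw, Finset.mem_filter, Finset.mem_insert] at hc ⊢
        exact ⟨Or.inr hc.1, hc.2⟩
    refine (Finset.card_le_card hsub).trans ((Finset.card_union_le _ _).trans ?_)
    refine Nat.add_le_add ih ?_
    refine Finset.card_image_le.trans (le_min (card_low_le s U) (Finset.card_filter_le _ _))

lemma sum_min (s u : ℕ) (h : s ≤ u) :
    2 * ∑ i ∈ range u, min s i + s * (s + 1) = 2 * (s * u) := by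
  induction u, h using Nat.le_induction with
  | base =>
    have : ∑ i ∈ range s, min s i = ∑ i ∈ range s, i := by
      refine Finset.sum_congr rfl fun i hi => ?_
      rw [Finset.mem_range] at hi
      exact min_eq_right hi.le
    rw [this]
    have h2 := Finset.sum_range_id_mul_two s
    rcases s with _ | s
    · simp
    · have : s + 1 - 1 = s := rfl
      rw [this] at h2
      nlinarith [h2]
  | succ u hu ih =>
    rw [Finset.sum_range_succ, min_eq_left hu]
    nlinarith [ih]

/-- `E` is a set of pairs from `V`, smaller entry first, each alternating with at most `k`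
others. -/
structure Good (k : ℕ) (V : Finset ℕ) (E : Finset (ℕ × ℕ)) : Prop where
  mem : ∀ e ∈ E, e.1 ∈ V ∧ e.2 ∈ V ∧ e.1 < e.2
  cr : ∀ e ∈ E, (E.filter (Alt e)).card ≤ k

lemma Good.mono {k : ℕ} {V : Finset ℕ} {E : Finset (ℕ × ℕ)} (h : Good k V E)
    {V' : Finset ℕ} {E' : Finset (ℕ × ℕ)} (hE : E' ⊆ E)
    (hV : ∀ e ∈ E', e.1 ∈ V' ∧ e.2 ∈ V') : Good k V' E' := by
  refine ⟨fun e he => ⟨(hV e he).1, (hV e he).2, (h.mem e (hE he)).2.2⟩, fun e he => ?_⟩
  refine (Finset.card_le_card ?_).trans (h.cr e (hE he))
  exact Finset.filter_subset_filter _ hE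

lemma Good.card_le_choose {k : ℕ} {V : Finset ℕ} {E : Finset (ℕ × ℕ)} (h : Good k V E) :
    2 * E.card ≤ V.card * (V.card - 1) := by
  have h1 : E ⊆ shortPairs V.card V := by
    intro e he
    obtain ⟨h1, h2, h3⟩ := h.mem e he
    simp only [shortPairs, Finset.mem_filter, Finset.mem_product]
    refine ⟨⟨h1, h2⟩, h3, ?_⟩
    refine Finset.card_lt_card ?_
    have hsub : btw V e ⊆ V := Finset.filter_subset _ _
    rw [Finset.ssubset_iff_of_subset hsub]
    exact ⟨e.1, h1, by simp [btw]⟩
  have h2 := (Finset.card_le_card h1).trans (card_shortPairs_le _ _)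
  have h3 := sum_min V.card V.card le_rfl
  rcases hV : V.card with _ | n
  · rw [hV] at h2; simp at h2; simp [h2]
  · rw [hV] at h2 h3
    have : n + 1 - 1 = n := rfl
    rw [this]
    nlinarith [h2, h3]

lemma Good.insert_minmax {k : ℕ} {V : Finset ℕ} {E : Finset (ℕ × ℕ)} (h : Good k V E)
    {a b : ℕ} (ha : a ∈ V) (hb : b ∈ V) (hab : a < b) (hmin : ∀ c ∈ V, a ≤ c)
    (hmax : ∀ c ∈ V, c ≤ b) : Good k V (insert (a, b) E) := by
  have hno : ∀ e ∈ insert (a, b) E, ¬ Alt e (a, b) := by
    intro e he hA
    rw [Finset.mem_insert] at he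
    rcases he with rfl | he
    · rcases hA with hA | hA <;> exact absurd hA.1 (lt_irrefl _)
    · obtain ⟨h1, h2, -⟩ := h.mem e he
      rcases hA with hA | hA
      · exact absurd hA.1 (not_lt.mpr (hmin _ h1))
      · exact absurd hA.2.2 (not_lt.mpr (hmax _ h2))
  have hno' : ∀ e ∈ insert (a, b) E, ¬ Alt (a, b) e := by
    intro e he hA
    apply hno e he
    rcases hA with hA | hA
    · exact Or.inr hA
    · exact Or.inl hA
  refine ⟨?_, ?_⟩
  · intro e he
    rw [Finset.mem_insert] at he
    rcases he with rfl | he
    · exact ⟨ha, hb, hab⟩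
    · exact h.mem e he
  · intro e he
    have h1 : (insert (a, b) E).filter (Alt e) = E.filter (Alt e) := by
      rw [Finset.filter_insert, if_neg (hno e he)]
    rw [h1]
    rw [Finset.mem_insert] at he
    rcases he with rfl | he
    · have : E.filter (Alt (a, b)) = ∅ := by
        rw [Finset.filter_eq_empty_iff]
        intro e he
        exact hno' e (Finset.mem_insert_of_mem he)
      rw [this]
      simp
    · exact h.cr e he

/-- Main bound in the linear-order model. -/
theorem main_bound (k s : ℕ) (hs : 1 ≤ s) (ρ : ℝ) (h1 : (s : ℝ) ≤ ρ)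
    (h2 : (s : ℝ) * (s + 3) / 2 + k ≤ ρ * s) :
    ∀ (n : ℕ) (V : Finset ℕ) (E : Finset (ℕ × ℕ)), V.card = n → 2 ≤ n → Good k V E →
      (E.card : ℝ) ≤ ρ * (n - 2) + 1 := by
  have hs' : (1 : ℝ) ≤ s := by exact_mod_cast hs
  have h3 : ((s : ℝ) + 3) / 2 ≤ ρ := by
    have : (s : ℝ) * ((s + 3) / 2) ≤ s * ρ := by
      have hk : (0 : ℝ) ≤ k := Nat.cast_nonneg k
      nlinarith
    exact le_of_mul_le_mul_left this (by linarith)
  intro n
  induction n using Nat.strong_induction_on with
  | _ n ih =>
  intro V E hV hn hG
  have hn' : (2 : ℝ) ≤ n := by exact_mod_cast hn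
  by_cases hsmall : n ≤ s + 1
  · -- few vertices
    have h4 := hG.card_le_choose
    rw [hV] at h4
    have h5 : (2 : ℝ) * E.card ≤ n * (n - 1) := by
      have : ((2 * E.card : ℕ) : ℝ) ≤ ((n * (n - 1) : ℕ) : ℝ) := by exact_mod_cast h4
      rw [Nat.cast_mul, Nat.cast_mul, Nat.cast_sub (by omega)] at this
      simpa using this
    have h6 : (n : ℝ) ≤ s + 1 := by exact_mod_cast hsmall
    nlinarith
  · push Not at hsmall
    -- add the pair (min, max)
    have hVne : V.Nonempty := by rw [← Finset.card_pos]; omega
    set a := V.min' hVne with ha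
    set b := V.max' hVne with hb
    have haV : a ∈ V := V.min'_mem hVne
    have hbV : b ∈ V := V.max'_mem hVne
    have hmin : ∀ c ∈ V, a ≤ c := fun c hc => V.min'_le c hc
    have hmax : ∀ c ∈ V, c ≤ b := fun c hc => V.le_max' c hc
    have hab : a < b := by
      rcases lt_or_eq_of_le (hmin b hbV) with h | h
      · exact h
      · exfalso
        have : V ⊆ {a} := by
          intro c hc
          rw [Finset.mem_singleton]
          exact le_antisymm (h ▸ hmax c hc) (hmin c hc)
        have := Finset.card_le_card this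
        simp at this
        omega
    set F := insert (a, b) E with hF
    have hGF : Good k V F := hG.insert_minmax haV hbV hab hmin hmax
    have hEF : (E.card : ℝ) ≤ F.card := by
      exact_mod_cast Finset.card_le_card (Finset.subset_insert _ _)
    refine hEF.trans ?_
    -- the long pairs
    have hbtw_ab : (btw V (a, b)).card = n - 2 := by
      have : btw V (a, b) = (V.erase a).erase b := by
        ext c
        simp only [btw, Finset.mem_filter, Finset.mem_erase]
        constructor
        · rintro ⟨h1, h2, h3⟩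
          exact ⟨ne_of_lt h3, ne_of_gt h2, h1⟩
        · rintro ⟨h1, h2, h3⟩
          exact ⟨h3, lt_of_le_of_ne (hmin c h3) (Ne.symm h2), lt_of_le_of_ne (hmax c h3) h1⟩
      rw [this, Finset.card_erase_of_mem (Finset.mem_erase.mpr ⟨hab.ne', hbV⟩),
        Finset.card_erase_of_mem haV, hV]
      omega
    set L := F.filter (fun e => s ≤ (btw V e).card) with hL
    have hLne : L.Nonempty := by
      refine ⟨(a, b), ?_⟩
      rw [hL, Finset.mem_filter]
      refine ⟨Finset.mem_insert_self _ _, ?_⟩
      rw [hbtw_ab]; omega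
    obtain ⟨e0, he0, he0min⟩ := Finset.exists_min_image L (fun e => (btw V e).card) hLne
    rw [hL, Finset.mem_filter] at he0
    obtain ⟨he0F, he0s⟩ := he0
    obtain ⟨hx, hy, hxy⟩ := hGF.mem e0 he0F
    obtain ⟨x, y⟩ := e0
    simp only at hx hy hxy
    set J := btw V (x, y) with hJ
    set j := J.card with hj
    have hJV : J ⊆ V := Finset.filter_subset _ _
    set V' := V \ J with hV'
    set F' := F.filter (fun e => e.1 ∉ J ∧ e.2 ∉ J) with hF'
    have hxV' : x ∈ V' := by
      rw [hV', Finset.mem_sdiff]
      exact ⟨hx, by simp [hJ, btw]⟩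
    have hyV' : y ∈ V' := by
      rw [hV', Finset.mem_sdiff]
      exact ⟨hy, by simp [hJ, btw]⟩
    have hcardV' : V'.card = n - j := by
      rw [hV', Finset.card_sdiff_of_subset hJV, hV]
    have h2V' : 2 ≤ V'.card := by
      have : ({x, y} : Finset ℕ) ⊆ V' := by
        intro c hc
        simp only [Finset.mem_insert, Finset.mem_singleton] at hc
        rcases hc with rfl | rfl
        · exact hxV'
        · exact hyV'
      have h := Finset.card_le_card this
      rwa [Finset.card_pair hxy.ne] at h
    have hjn : j + 2 ≤ n := by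
      have := Finset.card_le_card hJV
      omega
    have hGF' : Good k V' F' := by
      refine hGF.mono (Finset.filter_subset _ _) ?_
      intro e he
      rw [hF', Finset.mem_filter] at he
      obtain ⟨h1, h2, h3⟩ := he
      obtain ⟨h4, h5, -⟩ := hGF.mem e h1
      exact ⟨Finset.mem_sdiff.mpr ⟨h4, h2⟩, Finset.mem_sdiff.mpr ⟨h5, h3⟩⟩
    have hj1 : 1 ≤ j := le_trans hs he0s
    have hIH := ih (n - j) (by omega) V' F' hcardV' (by omega) hGF'
    -- the removed pairs
    set U := insert x (insert y J) with hU
    have hxJ : x ∉ insert y J := by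
      rw [Finset.mem_insert]
      push Not
      exact ⟨hxy.ne, by simp [hJ, btw]⟩
    have hyJ : y ∉ J := by simp [hJ, btw]
    have hUcard : U.card = j + 2 := by
      rw [hU, Finset.card_insert_of_notMem hxJ, Finset.card_insert_of_notMem hyJ]
    have hrem : F.filter (fun e => ¬ (e.1 ∉ J ∧ e.2 ∉ J)) ⊆
        shortPairs s U ∪ F.filter (Alt (x, y)) := by
      intro e he
      rw [Finset.mem_filter] at he
      obtain ⟨heF, heJ⟩ := he
      obtain ⟨h4, h5, h6⟩ := hGF.mem e heF
      obtain ⟨p, q⟩ := e
      simp only at h4 h5 h6 heJ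
      rw [Finset.mem_union]
      have hmemJ : ∀ c, c ∈ V → (c ∈ J ↔ x < c ∧ c < y) := by
        intro c hc
        simp [hJ, btw, hc]
      have hcase : (x ≤ p ∧ q ≤ y) ∨ Alt (x, y) (p, q) := by
        have hor : p ∈ J ∨ q ∈ J := by
          by_contra hcon
          push Not at hcon
          exact heJ hcon
        rcases hor with hp | hq
        · rw [hmemJ p h4] at hp
          by_cases hqy : q ≤ y
          · left; exact ⟨hp.1.le, hqy⟩
          · right; left; exact ⟨hp.1, hp.2, not_le.mp hqy⟩
        · rw [hmemJ q h5] at hq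
          by_cases hpx : x ≤ p
          · left; exact ⟨hpx, hq.2.le⟩
          · right; right; exact ⟨not_le.mp hpx, hq.1, hq.2⟩
      rcases hcase with ⟨hxp, hqy⟩ | hA
      · left
        have hmemU : ∀ c, c ∈ V → x ≤ c → c ≤ y → c ∈ U := by
          intro c hc h1 h2
          rw [hU, Finset.mem_insert, Finset.mem_insert, hmemJ c hc]
          rcases eq_or_lt_of_le h1 with h | h
          · left; exact h.symm
          · rcases eq_or_lt_of_le h2 with h' | h'
            · right; left; exact h'
            · right; right; exact ⟨h, h'⟩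
        simp only [shortPairs, Finset.mem_filter, Finset.mem_product]
        refine ⟨⟨hmemU p h4 hxp (by omega), hmemU q h5 (by omega) hqy⟩, h6, ?_⟩
        -- if (p,q) were long then minimality gives contradiction
        by_contra hlong
        push Not at hlong
        have hUV : U ⊆ V := by
          intro c hc
          rw [hU, Finset.mem_insert, Finset.mem_insert] at hc
          rcases hc with rfl | rfl | hc
          · exact hx
          · exact hy
          · exact hJV hc
        have hsub1 : btw U (p, q) ⊆ btw V (p, q) := Finset.filter_subset_filter _ hUV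
        have hlongV : s ≤ (btw V (p, q)).card := hlong.trans (Finset.card_le_card hsub1)
        have hmem : (p, q) ∈ L := by
          rw [hL, Finset.mem_filter]
          exact ⟨heF, hlongV⟩
        have hge := he0min (p, q) hmem
        -- strict containment
        have hss : btw V (p, q) ⊂ J := by
          rw [Finset.ssubset_iff_of_subset]
          · have hor : p ∈ J ∨ q ∈ J := by
              by_contra hcon
              push Not at hcon
              exact heJ hcon
            rcases hor with hp | hq
            · exact ⟨p, hp, by simp [btw]⟩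
            · exact ⟨q, hq, by simp [btw]⟩
          · intro c hc
            simp only [btw, Finset.mem_filter] at hc
            rw [hmemJ c hc.1]
            exact ⟨lt_of_le_of_lt hxp hc.2.1, lt_of_lt_of_le hc.2.2 hqy⟩
        have := Finset.card_lt_card hss
        omega
      · right
        rw [Finset.mem_filter]
        exact ⟨heF, hA⟩
    have hsplit : F.card = F'.card + (F.filter (fun e => ¬ (e.1 ∉ J ∧ e.2 ∉ J))).card := by
      rw [hF']
      exact (Finset.card_filter_add_card_filter_not (fun e : ℕ × ℕ => e.1 ∉ J ∧ e.2 ∉ J)).symm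
    have hcard1 : (F.filter (fun e => ¬ (e.1 ∉ J ∧ e.2 ∉ J))).card ≤
        ∑ i ∈ range (j + 2), min s i + k := by
      refine (Finset.card_le_card hrem).trans ((Finset.card_union_le _ _).trans ?_)
      refine Nat.add_le_add ?_ (hGF.cr _ he0F)
      have := card_shortPairs_le s U
      rwa [hUcard] at this
    have hsum := sum_min s (j + 2) (by omega)
    have hsumR : 2 * ((∑ i ∈ range (j + 2), min s i : ℕ) : ℝ) + s * (s + 1) = 2 * (s * (j + 2)) := by
      have : ((2 * ∑ i ∈ range (j + 2), min s i + s * (s + 1) : ℕ) : ℝ) =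
          ((2 * (s * (j + 2)) : ℕ) : ℝ) := by rw [hsum]
      push_cast at this ⊢
      linarith
    have hcard1R : ((F.filter (fun e => ¬ (e.1 ∉ J ∧ e.2 ∉ J))).card : ℝ) ≤
        ((∑ i ∈ range (j + 2), min s i : ℕ) : ℝ) + k := by exact_mod_cast hcard1
    have hsplitR : (F.card : ℝ) = F'.card +
        ((F.filter (fun e => ¬ (e.1 ∉ J ∧ e.2 ∉ J))).card : ℝ) := by exact_mod_cast hsplit
    have hjs : (s : ℝ) ≤ j := by exact_mod_cast he0s
    have hcastn : ((n - j : ℕ) : ℝ) = n - j := by
      rw [Nat.cast_sub (by omega)]
    rw [hcastn] at hIH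
    nlinarith [mul_nonneg (sub_nonneg.mpr h1) (sub_nonneg.mpr hjs)]

end Pool.Agent.MP_df3d6f_co
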