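import Mathlib
import Pool.Agent.MP_df3d6f_co.Arc1
import Pool.Agent.MP_df3d6f_co.Bound

namespace Pool.Agent.MP_df3d6f_co

open Finset

lemma alt_symm {e f : ℕ × ℕ} (h : Alt e f) : Alt f e := by
  simp only [Alt] at h ⊢
  omega

/-- maximal non-crossing subset -/
lemma exists_noncrossing (Q : Finset (ℕ × ℕ)) :
    ∃ P ⊆ Q, (∀ p ∈ P, ∀ q ∈ P, ¬ Alt p q) ∧ (∀ q ∈ Q, q ∉ P → ∃ p ∈ P, Alt p q) := by
  obtain ⟨P, hP, hmax⟩ := (Q.powerset.filter (fun P => ∀ p ∈ P, ∀ q ∈ P, ¬ Alt p q)).exists_max_image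
    (fun P => P.card) ⟨∅, by simp⟩
  rw [mem_filter, mem_powerset] at hP
  refine ⟨P, hP.1, hP.2, ?_⟩
  intro q hq hqP
  by_contra hno
  push Not at hno
  have hself : ∀ e : ℕ × ℕ, ¬ Alt e e := by
    intro e he
    simp only [Alt] at he
    omega
  have h1 : insert q P ∈ Q.powerset.filter (fun P => ∀ p ∈ P, ∀ q ∈ P, ¬ Alt p q) := by
    rw [mem_filter, mem_powerset]
    refine ⟨insert_subset hq hP.1, ?_⟩
    intro a ha b hb
    rw [mem_insert] at ha hb
    rcases ha with rfl | ha <;> rcases hb with rfl | hb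
    · exact hself _
    · exact fun h => hno b hb (alt_symm h)
    · exact hno a ha
    · exact hP.2 a ha b hb
  have h2 : (insert q P).card ≤ P.card := hmax _ h1
  rw [card_insert_of_notMem hqP] at h2
  omega

lemma noncrossing_card {r : ℕ} {P : Finset (ℕ × ℕ)} (h1 : ∀ p ∈ P, p.1 < p.2 ∧ p.2 < r)
    (h2 : ∀ p ∈ P, ∀ q ∈ P, ¬ Alt p q) : P.card ≤ 2 * r := by
  rcases Nat.lt_or_ge r 2 with hr | hr
  · have : P = ∅ := by
      rw [eq_empty_iff_forall_notMem]
      intro p hp
      have := h1 p hp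
      omega
    rw [this]
    simp
  · have hgood : Good 0 (range r) P := by
      refine ⟨?_, ?_⟩
      · intro e he
        have := h1 e he
        simp only [mem_range]
        omega
      · intro e he
        rw [Nat.le_zero, card_eq_zero, filter_eq_empty_iff]
        intro f hf
        exact h2 e he f hf
    have := main_bound 0 1 le_rfl 2 (by norm_num) (by norm_num) r (range r) P (card_range r) hr hgood
    have h3 : (P.card : ℝ) ≤ 2 * r := by linarith
    exact_mod_cast h3

/-- cyclic order of the arcs read from the arc `i` -/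
def kap (r i j : ℕ) : ℕ := if i < j then j else j + r

/-- Number of edges between different arcs of a partition of the circle into arcs. -/
theorem multi_arc {V : Type*} [Fintype V] {k r : ℕ} {G : SimpleGraph V} {pos c : V → ℕ}
    (hpos : Function.Injective pos)
    (hk : ∀ e ∈ G.edgeSet, {f ∈ G.edgeSet | Crosses pos e f}.ncard ≤ k)
    (hc : ∀ u v, pos u < pos v → c u ≤ c v) (hr : ∀ v, c v < r) :
    ({e ∈ G.edgeSet | ∃ u v, e = s(u, v) ∧ c u ≠ c v}.ncard : ℝ) ≤
      (Real.sqrt (k / 2) + 3 / 2) * (Fintype.card V + 4 * r) + 6 * k * r := by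
  classical
  rcases isEmpty_or_nonempty V with hV | hV
  · have h0 : {e ∈ G.edgeSet | ∃ u v, e = s(u, v) ∧ c u ≠ c v} = ∅ := by
      ext e
      constructor
      · rintro ⟨_, u, _⟩
        exact isEmptyElim u
      · intro h
        exact absurd h (Set.notMem_empty _)
    rw [h0, Set.ncard_empty, Nat.cast_zero]
    positivity
  have hlt : ∀ u v, c u < c v → pos u < pos v := by
    intro u v h
    by_contra hn
    rcases Nat.lt_or_ge (pos v) (pos u) with h1 | h1
    · have := hc v u h1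
      omega
    · have : u = v := hpos (by omega)
      subst this
      omega
  obtain ⟨PB, hPBm⟩ : ∃ PB : Finset (V × V), ∀ p : V × V, p ∈ PB ↔ G.Adj p.1 p.2 ∧ c p.1 < c p.2 :=
    ⟨univ.filter (fun p => G.Adj p.1 p.2 ∧ c p.1 < c p.2), fun p => by simp⟩
  have hinj : ∀ p ∈ PB, ∀ q ∈ PB, s(p.1, p.2) = s(q.1, q.2) → p = q := by
    intro p hp q hq h
    rw [hPBm] at hp hq
    rw [Sym2.eq_iff] at h
    rcases h with ⟨h1, h2⟩ | ⟨h1, h2⟩
    · exact Prod.ext h1 h2
    · rw [h1, h2] at hp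
      omega
  have hcount : {e ∈ G.edgeSet | ∃ u v, e = s(u, v) ∧ c u ≠ c v}.ncard ≤ PB.card := by
    have : {e ∈ G.edgeSet | ∃ u v, e = s(u, v) ∧ c u ≠ c v} ⊆
        ((PB.image (fun p => s(p.1, p.2)) : Finset (Sym2 V)) : Set (Sym2 V)) := by
      rintro e ⟨he, u, v, rfl, hne⟩
      rw [mem_coe, mem_image]
      rcases Nat.lt_or_gt_of_ne hne with h | h
      · exact ⟨(u, v), (hPBm _).mpr ⟨he, h⟩, rfl⟩
      · exact ⟨(v, u), (hPBm _).mpr ⟨he.symm, h⟩, Sym2.eq_swap⟩
    refine (Set.ncard_le_ncard this (Finset.finite_toSet _)).trans ?_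
    rw [Set.ncard_coe_finset]
    exact card_image_le
  have hC : ∀ x y, G.Adj x y →
      (PB.filter (fun p => Crosses pos s(x, y) s(p.1, p.2))).card ≤ k := by
    intro x y hxy
    refine le_trans ?_ (hk s(x, y) hxy)
    rw [Set.ncard_eq_toFinset_card _ (Set.toFinite _)]
    refine Finset.card_le_card_of_injOn (fun p => s(p.1, p.2)) ?_ ?_
    · intro p hp
      rw [mem_coe, mem_filter] at hp
      rw [mem_coe, Set.Finite.mem_toFinset]
      exact ⟨((hPBm p).mp hp.1).1, hp.2⟩
    · intro p hp q hq hpq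
      rw [mem_coe, mem_filter] at hp hq
      exact hinj p hp.1 q hq.1 hpq
  -- types of pairs
  set ty : V × V → ℕ × ℕ := fun p => (c p.1, c p.2) with hty
  obtain ⟨P, hPQ, hPnc, hPmax⟩ := exists_noncrossing (PB.image ty)
  have hrep : ∀ p ∈ P, ∃ e ∈ PB, ty e = p := by
    intro p hp
    have := hPQ hp
    rw [mem_image] at this
    exact this
  have hPlt : ∀ p ∈ P, p.1 < p.2 ∧ p.2 < r := by
    intro p hp
    obtain ⟨e, he, rfl⟩ := hrep p hp
    exact ⟨((hPBm e).mp he).2, hr _⟩
  have hPcard : P.card ≤ 2 * r := noncrossing_card hPlt hPnc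
  choose! ρ hρ1 hρ2 using hrep
  -- pairs of other types
  have hD1 : (PB.filter (fun e => ty e ∉ P)).card ≤ P.card * k := by
    have hsub : PB.filter (fun e => ty e ∉ P) ⊆
        P.biUnion (fun p => PB.filter (fun e => Crosses pos s((ρ p).1, (ρ p).2) s(e.1, e.2))) := by
      intro e he
      rw [mem_filter] at he
      obtain ⟨p, hp, hA⟩ := hPmax (ty e) (mem_image_of_mem _ he.1) he.2
      rw [mem_biUnion]
      refine ⟨p, hp, ?_⟩
      rw [mem_filter]
      refine ⟨he.1, (ρ p).1, (ρ p).2, e.1, e.2, rfl, rfl, ?_⟩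
      have h1 : p = (c (ρ p).1, c (ρ p).2) := (hρ2 p hp).symm
      rw [h1] at hA
      simp only [Alt, hty] at hA
      rcases hA with ⟨a1, a2, a3⟩ | ⟨a1, a2, a3⟩
      · exact Or.inl ⟨hlt _ _ a1, hlt _ _ a2, hlt _ _ a3⟩
      · exact Or.inr ⟨hlt _ _ a1, hlt _ _ a2, hlt _ _ a3⟩
    refine (card_le_card hsub).trans (card_biUnion_le_card_mul _ _ _ ?_)
    intro p hp
    exact hC _ _ ((hPBm _).mp (hρ1 p hp)).1
  -- the symmetric relation
  obtain ⟨H, hH⟩ : ∃ H : V → V → Prop, ∀ x v, H x v ↔ (G.Adj x v ∧ ((c x < c v ∧ (c x, c v) ∈ P) ∨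
    (c v < c x ∧ (c v, c x) ∈ P))) := ⟨_, fun _ _ => Iff.rfl⟩
  have hHsymm : ∀ x v, H x v → H v x := fun x v h => by
    rw [hH] at h ⊢
    exact ⟨h.1.symm, h.2.symm⟩
  set OP : Finset (ℕ × ℕ) := P ∪ P.image Prod.swap with hOP
  have hOPcard : OP.card ≤ 2 * P.card := by
    refine (card_union_le _ _).trans ?_
    have := card_image_le (s := P) (f := Prod.swap)
    omega
  have hHOP : ∀ x v, H x v → (c x, c v) ∈ OP := by
    intro x v h
    rw [hH] at h
    rw [hOP, mem_union, mem_image]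
    rcases h.2 with h2 | h2
    · exact Or.inl h2.2
    · exact Or.inr ⟨_, h2.2, rfl⟩
  have hz : ∀ o ∈ OP, ∃ z y : V, c z = o.1 ∧ c y = o.2 ∧ H z y ∧
      ∀ x v, c x = o.1 → c v = o.2 → H x v → pos z ≤ pos x := by
    intro o ho
    set T := univ.filter (fun x => c x = o.1 ∧ ∃ v, c v = o.2 ∧ H x v) with hT
    have hne : T.Nonempty := by
      rw [hOP, mem_union, mem_image] at ho
      rcases ho with ho | ⟨p, hp, rfl⟩
      · have h1 := hρ1 o ho
        have h2 := hρ2 o ho
        have h3 := (hPBm _).mp h1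
        have h4 : c (ρ o).1 = o.1 := congrArg Prod.fst h2
        have h5 : c (ρ o).2 = o.2 := congrArg Prod.snd h2
        refine ⟨(ρ o).1, ?_⟩
        rw [hT, mem_filter]
        refine ⟨mem_univ _, h4, (ρ o).2, h5, (hH _ _).mpr ⟨h3.1, Or.inl ⟨h3.2, ?_⟩⟩⟩
        rw [h4, h5]
        exact ho
      · have h1 := hρ1 p hp
        have h2 := hρ2 p hp
        have h3 := (hPBm _).mp h1
        have h4 : c (ρ p).1 = p.1 := congrArg Prod.fst h2
        have h5 : c (ρ p).2 = p.2 := congrArg Prod.snd h2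
        refine ⟨(ρ p).2, ?_⟩
        rw [hT, mem_filter]
        refine ⟨mem_univ _, h5, (ρ p).1, h4, (hH _ _).mpr ⟨h3.1.symm, Or.inr ⟨h3.2, ?_⟩⟩⟩
        rw [h4, h5]
        exact hp
    obtain ⟨z, hz, hmin⟩ := T.exists_min_image pos hne
    rw [hT, mem_filter] at hz
    obtain ⟨-, hz1, y, hy1, hy2⟩ := hz
    refine ⟨z, y, hz1, hy1, hy2, ?_⟩
    intro x v hx hv hxv
    apply hmin
    rw [hT, mem_filter]
    exact ⟨mem_univ _, hx, v, hv, hxv⟩
  choose! z y hz1 hy1 hzy hzmin using hz
  -- crossing at an arc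
  have hcr : ∀ a b x v : V, c a = c x → pos a < pos x → c b ≠ c a → c v ≠ c x →
      kap r (c x) (c b) < kap r (c x) (c v) → Crosses pos s(a, b) s(x, v) := by
    intro a b x v hax hpax hb hv hkap
    have hrb := hr b
    have hrv := hr v
    unfold kap at hkap
    split_ifs at hkap with h1 h2 h2
    · -- both after
      have g1 := hlt x b h1
      have g2 := hlt b v hkap
      exact crosses_of_sep (Or.inl ⟨hpax, g1, Or.inr g2⟩)
    · have g1 := hlt x b h1
      have g2 := hlt v a (by omega)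
      exact crosses_of_sep (Or.inl ⟨hpax, g1, Or.inl g2⟩)
    · omega
    · have g1 := hlt b v (by omega)
      have g2 := hlt v a (by omega)
      rw [Sym2.eq_swap (a := x) (b := v)]
      exact crosses_of_sep (Or.inr ⟨g1, g2, Or.inr hpax⟩)
  have hHne : ∀ x v, H x v → c v ≠ c x := by
    intro x v h
    rw [hH] at h
    rcases h.2 with h2 | h2 <;> omega
  -- bad pairs
  obtain ⟨bad, hbad⟩ : ∃ bad : V → V → Prop, ∀ x v, bad x v ↔ (H x v ∧ ∃ x' v', c x' = c x ∧
    pos x' < pos x ∧ H x' v' ∧ kap r (c x) (c v') < kap r (c x) (c v)) := ⟨_, fun _ _ => Iff.rfl⟩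
  have hbadcr : ∀ x v, bad x v → ∃ o ∈ OP, Crosses pos s(z o, y o) s(x, v) := by
    intro x v hb
    rw [hbad] at hb
    obtain ⟨h1, x', v', h2, h3, h4, h5⟩ := hb
    have ho : (c x, c v') ∈ OP := by
      rw [← h2]
      exact hHOP x' v' h4
    refine ⟨_, ho, ?_⟩
    have g1 := hz1 _ ho
    have g2 := hy1 _ ho
    have g3 := hzmin _ ho x' v' h2 rfl h4
    simp only at g1 g2
    refine hcr _ _ _ _ g1 (by omega) ?_ (hHne _ _ h1) ?_
    · exact hHne _ _ (hzy _ ho)
    · rw [g2]
      exact h5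
  have hD2 : (PB.filter (fun e => bad e.1 e.2 ∨ bad e.2 e.1)).card ≤ OP.card * k := by
    have hsub : PB.filter (fun e => bad e.1 e.2 ∨ bad e.2 e.1) ⊆
        OP.biUnion (fun o => PB.filter (fun e => Crosses pos s(z o, y o) s(e.1, e.2))) := by
      intro e he
      rw [mem_filter] at he
      rw [mem_biUnion]
      rcases he.2 with h | h
      · obtain ⟨o, ho, hcro⟩ := hbadcr _ _ h
        exact ⟨o, ho, mem_filter.mpr ⟨he.1, hcro⟩⟩
      · obtain ⟨o, ho, hcro⟩ := hbadcr _ _ h
        rw [Sym2.eq_swap (a := e.2) (b := e.1)] at hcro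
        exact ⟨o, ho, mem_filter.mpr ⟨he.1, hcro⟩⟩
    refine (card_le_card hsub).trans (card_biUnion_le_card_mul _ _ _ ?_)
    intro o ho
    exact hC _ _ ((hH _ _).mp (hzy o ho)).1
  -- good pairs
  obtain ⟨good, hgood⟩ : ∃ good : V → V → Prop, ∀ x v, good x v ↔
    (H x v ∧ ¬ bad x v ∧ ¬ bad v x) := ⟨_, fun _ _ => Iff.rfl⟩
  have hgH : ∀ x v, good x v → H x v := fun x v h => ((hgood _ _).mp h).1
  have hgsymm : ∀ x v, good x v → good v x := fun x v h => by
    rw [hgood] at h ⊢
    exact ⟨hHsymm _ _ h.1, h.2.2, h.2.1⟩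
  set GE := PB.filter (fun e => good e.1 e.2) with hGE
  have hsplit : PB.card ≤ (PB.filter (fun e => ty e ∉ P)).card +
      ((PB.filter (fun e => bad e.1 e.2 ∨ bad e.2 e.1)).card + GE.card) := by
    have hsub : PB ⊆ (PB.filter (fun e => ty e ∉ P)) ∪
        ((PB.filter (fun e => bad e.1 e.2 ∨ bad e.2 e.1)) ∪ GE) := by
      intro e he
      by_cases h1 : ty e ∈ P
      · by_cases h2 : bad e.1 e.2 ∨ bad e.2 e.1
        · exact mem_union_right _ (mem_union_left _ (mem_filter.mpr ⟨he, h2⟩))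
        · push Not at h2
          have h3 := (hPBm e).mp he
          refine mem_union_right _ (mem_union_right _ ?_)
          rw [hGE]
          exact mem_filter.mpr ⟨he, (hgood _ _).mpr
            ⟨(hH _ _).mpr ⟨h3.1, Or.inl ⟨h3.2, h1⟩⟩, h2.1, h2.2⟩⟩
      · exact mem_union_left _ (mem_filter.mpr ⟨he, h1⟩)
    refine (card_le_card hsub).trans ((card_union_le _ _).trans ?_)
    exact Nat.add_le_add_left (card_union_le _ _) _
  -- incidences vertex / arc
  set S : Finset (V × ℕ) := (univ ×ˢ range r).filter (fun q => ∃ v, c v = q.2 ∧ good q.1 v) with hS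
  have hSm : ∀ x j, (x, j) ∈ S ↔ ∃ v, c v = j ∧ good x v := by
    intro x j
    rw [hS, mem_filter, mem_product, mem_range]
    constructor
    · exact fun h => h.2
    · rintro ⟨v, hv, hg⟩
      exact ⟨⟨mem_univ _, hv ▸ hr v⟩, v, hv, hg⟩
  have hScard : S.card ≤ Fintype.card V + OP.card := by
    set Sn := S.filter (fun q => ∃ j', (q.1, j') ∈ S ∧ kap r (c q.1) q.2 < kap r (c q.1) j') with hSn
    have hcs : S.card = (S.filter (fun q => ¬ ∃ j', (q.1, j') ∈ S ∧
        kap r (c q.1) q.2 < kap r (c q.1) j')).card + Sn.card := by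
      rw [hSn, add_comm]
      exact (card_filter_add_card_filter_not _).symm
    rw [hcs]
    refine Nat.add_le_add ?_ ?_
    · rw [← card_univ]
      refine card_le_card_of_injOn Prod.fst (fun _ _ => mem_coe.mpr (mem_univ _)) ?_
      rintro ⟨x, j⟩ hx ⟨x', j'⟩ hx' h
      have h' : x = x' := h
      subst h'
      rw [mem_coe, mem_filter] at hx hx'
      obtain ⟨h1, h2⟩ := hx
      obtain ⟨h1', h2'⟩ := hx'
      simp only [not_exists, not_and] at h2 h2'
      have g1 := h2 j' h1'
      have g2 := h2' j h1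
      obtain ⟨v, hv, hgv⟩ := (hSm _ _).mp h1
      obtain ⟨v', hv', hgv'⟩ := (hSm _ _).mp h1'
      have q1 := hHne _ _ (hgH _ _ hgv)
      have q2 := hHne _ _ (hgH _ _ hgv')
      have q3 := hr v
      have q4 := hr v'
      unfold kap at g1 g2
      rw [Prod.mk.injEq]
      refine ⟨rfl, ?_⟩
      split_ifs at g1 g2 <;> omega
    · refine card_le_card_of_injOn (fun q => (c q.1, q.2)) ?_ ?_
      · rintro ⟨x, j⟩ hx
        rw [hSn, mem_coe, mem_filter] at hx
        obtain ⟨v, hv, hgv⟩ := (hSm _ _).mp hx.1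
        have := hHOP _ _ (hgH _ _ hgv)
        rw [hv] at this
        exact this
      · have key : ∀ x j, (x, j) ∈ Sn → pos x = pos (z (c x, j)) := by
          intro x j hx
          rw [hSn, mem_filter] at hx
          obtain ⟨h1, j', h2, h3⟩ := hx
          obtain ⟨v, hv, hgv⟩ := (hSm _ _).mp h1
          obtain ⟨v', hv', hgv'⟩ := (hSm _ _).mp h2
          have ho : (c x, j) ∈ OP := by
            rw [← hv]
            exact hHOP _ _ (hgH _ _ hgv)
          have g1 : pos (z (c x, j)) ≤ pos x := hzmin _ ho x v rfl hv (hgH _ _ hgv)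
          have g2 := hz1 _ ho
          have g3 := hy1 _ ho
          simp only at g2 g3 h3
          by_contra hne
          apply ((hgood _ _).mp hgv').2.1
          rw [hbad]
          have g5 : pos (z (c x, j)) < pos x := by omega
          refine ⟨hgH _ _ hgv', z (c x, j), y (c x, j), g2, g5, hzy _ ho, ?_⟩
          rw [g3, hv']
          exact h3
        rintro ⟨x, j⟩ hx ⟨x', j'⟩ hx' h
        simp only [Prod.mk.injEq] at h
        rw [mem_coe] at hx hx'
        have k1 := key x j hx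
        have k2 := key x' j' hx'
        rw [← h.1, ← h.2] at k2
        rw [Prod.mk.injEq]
        exact ⟨hpos (by omega), h.2⟩
  -- the parts
  set GP : ℕ × ℕ → Finset (V × V) := fun p => GE.filter (fun e => ty e = p) with hGP
  have hGPm : ∀ p e, e ∈ GP p → e ∈ PB ∧ good e.1 e.2 ∧ c e.1 = p.1 ∧ c e.2 = p.2 := by
    intro p e he
    simp only [hGP] at he
    rw [mem_filter, hGE, mem_filter] at he
    exact ⟨he.1.1, he.1.2, congrArg Prod.fst he.2, congrArg Prod.snd he.2⟩
  have hGEcard : GE.card = ∑ p ∈ P, (GP p).card := by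
    apply card_eq_sum_card_fiberwise
    intro e he
    rw [mem_coe, hGE, mem_filter] at he
    have h3 := (hPBm e).mp he.1
    have h4 := hgH _ _ he.2
    rw [hH] at h4
    rcases h4.2 with h | h
    · exact h.2
    · omega
  set XP : ℕ × ℕ → Finset V := fun p => (GP p).image Prod.fst with hXP
  set YP : ℕ × ℕ → Finset V := fun p => (GP p).image Prod.snd with hYP
  have hXPm : ∀ p x, x ∈ XP p → c x = p.1 ∧ (x, p.2) ∈ S := by
    intro p x hx
    simp only [hXP] at hx
    rw [mem_image] at hx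
    obtain ⟨e, he, rfl⟩ := hx
    obtain ⟨-, h2, h3, h4⟩ := hGPm p e he
    exact ⟨h3, (hSm _ _).mpr ⟨e.2, h4, h2⟩⟩
  have hYPm : ∀ p x, x ∈ YP p → c x = p.2 ∧ (x, p.1) ∈ S := by
    intro p x hx
    simp only [hYP] at hx
    rw [mem_image] at hx
    obtain ⟨e, he, rfl⟩ := hx
    obtain ⟨-, h2, h3, h4⟩ := hGPm p e he
    exact ⟨h4, (hSm _ _).mpr ⟨e.1, h3, hgsymm _ _ h2⟩⟩
  have hGPcard : ∀ p ∈ P, ((GP p).card : ℝ) ≤
      (Real.sqrt (k / 2) + 3 / 2) * ((XP p).card + (YP p).card) := by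
    intro p hp
    have hpl := hPlt p hp
    have hdisj : Disjoint (XP p) (YP p) := by
      rw [disjoint_left]
      intro x hx hy
      have := (hXPm p x hx).1
      have := (hYPm p x hy).1
      omega
    have hsep : Sep pos (XP p) (YP p) := by
      rintro x hx x' hx' w hw w' hw' ⟨a, b, c', d', h1, h2, h3⟩
      have e1 := (hXPm p x hx).1
      have e2 := (hXPm p x' hx').1
      have e3 := (hYPm p w hw).1
      have e4 := (hYPm p w' hw').1
      have l1 := hlt x w (by omega)
      have l2 := hlt x w' (by omega)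
      have l3 := hlt x' w (by omega)
      have l4 := hlt x' w' (by omega)
      rw [Sym2.eq_iff] at h1 h2
      rcases h1 with ⟨rfl, rfl⟩ | ⟨rfl, rfl⟩ <;> rcases h2 with ⟨rfl, rfl⟩ | ⟨rfl, rfl⟩ <;> omega
    refine le_trans ?_ (sep_bound_sym hpos hk hdisj hsep)
    have hle : (GP p).card ≤
        {e ∈ G.edgeSet | ∃ x ∈ XP p, ∃ y ∈ YP p, e = s(x, y)}.ncard := by
      rw [Set.ncard_eq_toFinset_card _ (Set.toFinite _)]
      refine Finset.card_le_card_of_injOn (fun p => s(p.1, p.2)) ?_ ?_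
      · intro e he
        rw [mem_coe] at he
        have := hGPm p e he
        rw [mem_coe, Set.Finite.mem_toFinset]
        exact ⟨((hPBm e).mp this.1).1, e.1, mem_image_of_mem _ he, e.2, mem_image_of_mem _ he, rfl⟩
      · intro e he f hf hef
        rw [mem_coe] at he hf
        exact hinj e (hGPm p e he).1 f (hGPm p f hf).1 hef
    exact_mod_cast hle
  have hparts : ∑ p ∈ P, ((XP p).card + (YP p).card) ≤ S.card := by
    have h1 : ∑ p ∈ P, (XP p).card ≤ (S.filter (fun q => c q.1 < q.2)).card := by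
      rw [← card_sigma]
      refine card_le_card_of_injOn (fun q => (q.2, q.1.2)) ?_ ?_
      · rintro ⟨p, x⟩ hq
        rw [mem_coe, mem_sigma] at hq
        have := hXPm p x hq.2
        have := hPlt p hq.1
        rw [mem_coe, mem_filter]
        simp only
        exact ⟨(hXPm p x hq.2).2, by omega⟩
      · rintro ⟨p, x⟩ hq ⟨p', x'⟩ hq' h
        rw [mem_coe, mem_sigma] at hq hq'
        simp only [Prod.mk.injEq] at h
        obtain ⟨rfl, h2⟩ := h
        have e1 := (hXPm p x hq.2).1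
        have e2 := (hXPm p' x hq'.2).1
        have : p = p' := Prod.ext (by omega) h2
        subst this
        rfl
    have h2 : ∑ p ∈ P, (YP p).card ≤ (S.filter (fun q => ¬ c q.1 < q.2)).card := by
      rw [← card_sigma]
      refine card_le_card_of_injOn (fun q => (q.2, q.1.1)) ?_ ?_
      · rintro ⟨p, x⟩ hq
        rw [mem_coe, mem_sigma] at hq
        have := hYPm p x hq.2
        have := hPlt p hq.1
        rw [mem_coe, mem_filter]
        simp only
        exact ⟨(hYPm p x hq.2).2, by omega⟩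
      · rintro ⟨p, x⟩ hq ⟨p', x'⟩ hq' h
        rw [mem_coe, mem_sigma] at hq hq'
        simp only [Prod.mk.injEq] at h
        obtain ⟨rfl, h2⟩ := h
        have e1 := (hYPm p x hq.2).1
        have e2 := (hYPm p' x hq'.2).1
        have : p = p' := Prod.ext h2 (by omega)
        subst this
        rfl
    rw [sum_add_distrib]
    refine (Nat.add_le_add h1 h2).trans ?_
    rw [card_filter_add_card_filter_not]
  -- conclusion
  have hfin1 : (GE.card : ℝ) ≤ (Real.sqrt (k / 2) + 3 / 2) * S.card := by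
    rw [hGEcard]
    push_cast
    calc ∑ p ∈ P, ((GP p).card : ℝ)
        ≤ ∑ p ∈ P, (Real.sqrt (k / 2) + 3 / 2) * ((XP p).card + (YP p).card) :=
          sum_le_sum hGPcard
      _ = (Real.sqrt (k / 2) + 3 / 2) * ∑ p ∈ P, ((XP p).card + (YP p).card : ℝ) := by
          rw [mul_sum]
      _ ≤ (Real.sqrt (k / 2) + 3 / 2) * S.card := by
          refine mul_le_mul_of_nonneg_left ?_ (by positivity)
          exact_mod_cast hparts
  have hOP2 : OP.card ≤ 4 * r := by omega
  have hS2 : (S.card : ℝ) ≤ Fintype.card V + 4 * r := by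
    have : S.card ≤ Fintype.card V + 4 * r := hScard.trans (by omega)
    exact_mod_cast this
  have hfin2 : PB.card ≤ 6 * k * r + GE.card := by
    have g1 : P.card * k ≤ 2 * r * k := Nat.mul_le_mul_right k hPcard
    have g2 : OP.card * k ≤ 4 * r * k := Nat.mul_le_mul_right k hOP2
    have g3 : 6 * k * r = 2 * r * k + 4 * r * k := by ring
    omega
  have hfin3 : (({e ∈ G.edgeSet | ∃ u v, e = s(u, v) ∧ c u ≠ c v}.ncard : ℕ) : ℝ) ≤
      6 * k * r + GE.card := by
    exact_mod_cast hcount.trans hfin2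
  have hfin4 : (Real.sqrt (k / 2) + 3 / 2) * S.card ≤
      (Real.sqrt (k / 2) + 3 / 2) * (Fintype.card V + 4 * r) :=
    mul_le_mul_of_nonneg_left hS2 (by positivity)
  linarith

end Pool.Agent.MP_df3d6f_co
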