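import Mathlib
import Pool.Agent.MP_df3d6f_co.Defs
import Pool.Agent.MP_df3d6f_co.Bound

namespace Pool.Agent.MP_df3d6f_co

open Finset

/-- the ordered pair of positions of an edge -/
noncomputable def phi {V : Type*} (pos : V → ℕ) (e : Sym2 V) : ℕ × ℕ :=
  (Sym2.sortEquiv (e.map pos)).1

lemma phi_injective {V : Type*} {pos : V → ℕ} (h : Function.Injective pos) :
    Function.Injective (phi pos) := by
  intro e f hef
  unfold phi at hef
  exact Sym2.map.injective h (Sym2.sortEquiv.injective (Subtype.val_injective hef))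

lemma phi_mk {V : Type*} (pos : V → ℕ) (a b : V) (h : pos a < pos b) :
    phi pos s(a, b) = (pos a, pos b) := by
  simp [phi, Sym2.sortEquiv, h.le]

lemma exists_rep {V : Type*} {pos : V → ℕ} (h : Function.Injective pos) {G : SimpleGraph V}
    {e : Sym2 V} (he : e ∈ G.edgeSet) : ∃ a b : V, e = s(a, b) ∧ pos a < pos b ∧ G.Adj a b := by
  induction e using Sym2.ind with
  | _ a b =>
    rw [SimpleGraph.mem_edgeSet] at he
    have hne : pos a ≠ pos b := fun hh => he.ne (h hh)
    rcases lt_or_gt_of_ne hne with hlt | hlt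
    · exact ⟨a, b, rfl, hlt, he⟩
    · exact ⟨b, a, Sym2.eq_swap, hlt, he.symm⟩

/-- positions of the vertices -/
noncomputable def vset {V : Type*} [Fintype V] (pos : V → ℕ) : Finset ℕ := by
  classical exact Finset.univ.image pos

/-- ordered pairs of positions of the edges -/
noncomputable def eset {V : Type*} [Fintype V] (pos : V → ℕ) (G : SimpleGraph V) :
    Finset (ℕ × ℕ) := by
  classical exact (Set.toFinite G.edgeSet).toFinset.image (phi pos)

lemma card_vset {V : Type*} [Fintype V] {pos : V → ℕ} (h : Function.Injective pos) :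
    (vset pos).card = Fintype.card V := by
  classical
  unfold vset
  rw [Finset.card_image_of_injective _ h, Finset.card_univ]

lemma card_eset {V : Type*} [Fintype V] {pos : V → ℕ} (h : Function.Injective pos)
    (G : SimpleGraph V) : (eset pos G).card = G.edgeSet.ncard := by
  classical
  unfold eset
  rw [Finset.card_image_of_injective _ (phi_injective h),
    Set.ncard_eq_toFinset_card _ (Set.toFinite G.edgeSet)]

lemma good_of_outer {V : Type*} [Fintype V] {k : ℕ} {G : SimpleGraph V} {pos : V → ℕ}
    (h : Function.Injective pos)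
    (hk : ∀ e ∈ G.edgeSet, {f ∈ G.edgeSet | Crosses pos e f}.ncard ≤ k) :
    Good k (vset pos) (eset pos G) := by
  classical
  have key : ∀ p ∈ eset pos G, ∃ a b : V, G.Adj a b ∧ pos a < pos b ∧ p = (pos a, pos b) := by
    intro p hp
    unfold eset at hp
    rw [Finset.mem_image] at hp
    obtain ⟨e, he, rfl⟩ := hp
    rw [Set.Finite.mem_toFinset] at he
    obtain ⟨a, b, rfl, hab, hadj⟩ := exists_rep h he
    exact ⟨a, b, hadj, hab, phi_mk pos a b hab⟩
  refine ⟨?_, ?_⟩
  · intro p hp
    obtain ⟨a, b, hadj, hab, rfl⟩ := key p hp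
    refine ⟨?_, ?_, hab⟩ <;> simp [vset]
  · intro p hp
    obtain ⟨a, b, hadj, hab, rfl⟩ := key p hp
    have hsub : (eset pos G).filter (Alt (pos a, pos b)) ⊆
        ((Set.toFinite {f ∈ G.edgeSet | Crosses pos s(a, b) f}).toFinset).image (phi pos) := by
      intro q hq
      rw [Finset.mem_filter] at hq
      obtain ⟨hq, hA⟩ := hq
      obtain ⟨c, d, hadj', hcd, rfl⟩ := key q hq
      rw [Finset.mem_image]
      refine ⟨s(c, d), ?_, phi_mk pos c d hcd⟩
      rw [Set.Finite.mem_toFinset]
      refine ⟨hadj', a, b, c, d, rfl, rfl, hA⟩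
    refine (Finset.card_le_card hsub).trans (Finset.card_image_le.trans ?_)
    rw [← Set.ncard_eq_toFinset_card]
    exact hk _ hadj

end Pool.Agent.MP_df3d6f_co
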