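import Mathlib
import Pool.Agent.MP_df3d6f_co.Trans

namespace Pool.Agent.MP_df3d6f_co

open Finset

/-- rank of `v` in `V` -/
def rk (V : Finset ℕ) (v : ℕ) : ℕ := (V.filter (fun u => u < v)).card

lemma rk_lt {V : Finset ℕ} {u v : ℕ} (hu : u ∈ V) (huv : u < v) : rk V u < rk V v := by
  unfold rk
  apply card_lt_card
  rw [ssubset_iff_of_subset]
  · refine ⟨u, ?_, ?_⟩
    · rw [mem_filter]
      exact ⟨hu, huv⟩
    · rw [mem_filter]
      simp
  · intro w hw
    rw [mem_filter] at hw ⊢
    exact ⟨hw.1, hw.2.trans huv⟩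

lemma rk_lt_iff {V : Finset ℕ} {u v : ℕ} (hu : u ∈ V) (hv : v ∈ V) :
    rk V u < rk V v ↔ u < v := by
  constructor
  · intro h
    by_contra hh
    rcases Nat.lt_or_ge v u with h1 | h1
    · exact absurd (rk_lt hv h1) (by omega)
    · have : u = v := by omega
      subst this
      exact lt_irrefl _ h
  · exact rk_lt hu

lemma rk_inj {V : Finset ℕ} {u v : ℕ} (hu : u ∈ V) (hv : v ∈ V) (h : rk V u = rk V v) :
    u = v := by
  have h1 := rk_lt_iff hu hv
  have h2 := rk_lt_iff hv hu
  omega

lemma rk_lt_card {V : Finset ℕ} {u : ℕ} (hu : u ∈ V) : rk V u < V.card := by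
  unfold rk
  apply card_lt_card
  rw [ssubset_iff_of_subset (filter_subset _ _)]
  refine ⟨u, hu, ?_⟩
  rw [mem_filter]
  simp

/-- Renumbering of the positions. -/
lemma good_rank {k : ℕ} {V : Finset ℕ} {E : Finset (ℕ × ℕ)} (h : Good k V E) :
    ∃ E' : Finset (ℕ × ℕ), Good k (range V.card) E' ∧ E'.card = E.card := by
  refine ⟨E.image (fun e => (rk V e.1, rk V e.2)), ⟨?_, ?_⟩, ?_⟩
  · intro e he
    rw [mem_image] at he
    obtain ⟨f, hf, rfl⟩ := he
    obtain ⟨h1, h2, h3⟩ := h.mem f hf
    exact ⟨mem_range.mpr (rk_lt_card h1), mem_range.mpr (rk_lt_card h2), rk_lt h1 h3⟩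
  · intro e he
    rw [mem_image] at he
    obtain ⟨f, hf, rfl⟩ := he
    refine le_trans ?_ (h.cr f hf)
    have hsub : (E.image (fun e => (rk V e.1, rk V e.2))).filter (Alt (rk V f.1, rk V f.2)) ⊆
        (E.filter (Alt f)).image (fun e => (rk V e.1, rk V e.2)) := by
      intro g hg
      rw [mem_filter, mem_image] at hg
      obtain ⟨⟨g', hg', rfl⟩, hA⟩ := hg
      rw [mem_image]
      refine ⟨g', ?_, rfl⟩
      rw [mem_filter]
      refine ⟨hg', ?_⟩
      obtain ⟨f1, f2, f3⟩ := h.mem f hf
      obtain ⟨g1, g2, g3⟩ := h.mem g' hg'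
      simp only [Alt, rk_lt_iff f1 g1, rk_lt_iff g1 f2, rk_lt_iff f2 g2, rk_lt_iff g1 f1,
        rk_lt_iff f1 g2, rk_lt_iff g2 f2] at hA
      exact hA
    exact (card_le_card hsub).trans card_image_le
  · apply card_image_of_injOn
    intro e he f hf hef
    obtain ⟨e1, e2, e3⟩ := h.mem e he
    obtain ⟨f1, f2, f3⟩ := h.mem f hf
    simp only [Prod.mk.injEq] at hef
    exact Prod.ext (rk_inj e1 f1 hef.1) (rk_inj e2 f2 hef.2)

/-- all pairs -/
def allp (n : ℕ) : Finset (ℕ × ℕ) := (range n ×ˢ range n).filter (fun e => e.1 < e.2)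

lemma mem_allp {n a b : ℕ} : (a, b) ∈ allp n ↔ a < b ∧ b < n := by
  simp only [allp, mem_filter, mem_product, mem_range]
  omega

lemma card_allp (n : ℕ) : (allp n).card = n.choose 2 := by
  have h1 : (allp n).card = ∑ b ∈ range n, b := by
    unfold allp
    rw [card_filter, sum_product_right]
    refine sum_congr rfl fun b hb => ?_
    rw [mem_range] at hb
    rw [← card_filter]
    have : (range n).filter (fun x => x < b) = range b := by
      ext x
      rw [mem_filter, mem_range, mem_range]
      omega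
    rw [this, card_range]
  rw [h1, Finset.sum_range_id, Nat.choose_two_right]

lemma good_sub {k n : ℕ} {E : Finset (ℕ × ℕ)} (h : Good k (range n) E) : E ⊆ allp n := by
  rintro ⟨a, b⟩ he
  obtain ⟨h1, h2, h3⟩ := h.mem _ he
  rw [mem_allp]
  exact ⟨h3, mem_range.mp h2⟩

lemma card_cross {n a b : ℕ} (hab : a < b) (hb : b < n) :
    ((allp n).filter (Alt (a, b))).card = (b - a - 1) * (n - 1 - (b - a)) := by
  have h1 : (allp n).filter (Alt (a, b)) = ((Ioo a b) ×ˢ ((range n) \ (Icc a b))).image
      (fun p => if p.1 < p.2 then (p.1, p.2) else (p.2, p.1)) := by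
    ext ⟨u, v⟩
    rw [mem_filter, mem_allp, mem_image]
    constructor
    · rintro ⟨⟨h1, h2⟩, h3⟩
      simp only [Alt] at h3
      rcases h3 with h3 | h3
      · refine ⟨(u, v), ?_, ?_⟩
        · simp only [mem_product, mem_Ioo, mem_sdiff, mem_range, mem_Icc]
          omega
        · simp only
          rw [if_pos h1]
      · refine ⟨(v, u), ?_, ?_⟩
        · simp only [mem_product, mem_Ioo, mem_sdiff, mem_range, mem_Icc]
          omega
        · simp only
          rw [if_neg (by omega)]
    · rintro ⟨⟨x, y⟩, h1, h2⟩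
      simp only [mem_product, mem_Ioo, mem_sdiff, mem_range, mem_Icc] at h1
      simp only at h2
      simp only [Alt]
      split_ifs at h2 with h3
      · rw [Prod.mk.injEq] at h2
        omega
      · rw [Prod.mk.injEq] at h2
        omega
  rw [h1, card_image_of_injOn, card_product, Nat.card_Ioo, card_sdiff_of_subset, card_range,
    Nat.card_Icc]
  · congr 1
    omega
  · intro x hx
    rw [mem_Icc] at hx
    rw [mem_range]
    omega
  · rintro ⟨x, y⟩ hx ⟨x', y'⟩ hx' h
    simp only [coe_product, Set.mem_prod, mem_coe, mem_Ioo, mem_sdiff, mem_range, mem_Icc] at hx hx'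
    simp only at h
    split_ifs at h <;> rw [Prod.mk.injEq] at h <;> rw [Prod.mk.injEq] <;> omega

/-- For an edge many of the missing pairs cross it. -/
lemma missing_cross {k n : ℕ} {E : Finset (ℕ × ℕ)} (h : Good k (range n) E) {a b : ℕ}
    (hab : (a, b) ∈ E) :
    (b - a - 1) * (n - 1 - (b - a)) ≤ k + ((allp n \ E).filter (Alt (a, b))).card := by
  have h0 := mem_allp.mp (good_sub h hab)
  rw [← card_cross h0.1 h0.2]
  have h1 : (allp n).filter (Alt (a, b)) =
      (E.filter (Alt (a, b))) ∪ ((allp n \ E).filter (Alt (a, b))) := by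
    rw [← filter_union, union_sdiff_of_subset (good_sub h)]
  rw [h1]
  exact (card_union_le _ _).trans (Nat.add_le_add_right (h.cr _ hab) _)

lemma missing_split {n : ℕ} {E : Finset (ℕ × ℕ)} (a b : ℕ) :
    ((allp n \ E).filter (Alt (a, b))).card + ((allp n \ E).filter (fun f => ¬ Alt (a, b) f)).card
      = (allp n \ E).card := card_filter_add_card_filter_not (Alt (a, b))

/-- Upper bound for `n = 2 d + 2`. -/
theorem even_upper {d t : ℕ} (ht1 : 1 ≤ t) (htd : t ≤ d) {E : Finset (ℕ × ℕ)}
    (h : Good (d ^ 2 - t) (range (2 * d + 2)) E) :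
    t + (if 2 * t ≤ d + 1 then 0 else 1) ≤ (allp (2 * d + 2) \ E).card := by
  set F := allp (2 * d + 2) \ E with hF
  have hmem : ∀ {a b : ℕ}, a < b → b < 2 * d + 2 → (a, b) ∉ F → (a, b) ∈ E := by
    intro a b h1 h2 h3
    by_contra h4
    exact h3 (by rw [hF, mem_sdiff, mem_allp]; exact ⟨⟨h1, h2⟩, h4⟩)
  have hdd : t ≤ d ^ 2 := by nlinarith
  -- kept diameters
  have hD : ∀ i ≤ d, (i, i + d + 1) ∉ F → t ≤ (F.filter (Alt (i, i + d + 1))).card := by
    intro i hi hn
    have h1 := missing_cross h (hmem (by omega) (by omega) hn)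
    have e1 : i + d + 1 - i - 1 = d := by omega
    have e2 : 2 * d + 2 - 1 - (i + d + 1 - i) = d := by omega
    rw [e1, e2, ← hF] at h1
    have : d * d = d ^ 2 := by ring
    omega
  -- kept almost-diameters
  have hO : ∀ a b, a < b → b < 2 * d + 2 → (b = a + d ∨ b = a + d + 2) → (a, b) ∉ F →
      t ≤ (F.filter (Alt (a, b))).card + 1 := by
    intro a b hab hb hor hn
    have h1 := missing_cross h (hmem hab hb hn)
    rw [← hF] at h1
    obtain ⟨c, rfl⟩ : ∃ c, d = c + 1 := ⟨d - 1, by omega⟩
    have h2 : c * (c + 2) ≤ (c + 1) ^ 2 - t + (F.filter (Alt (a, b))).card := by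
      rcases hor with rfl | rfl
      · have e1 : a + (c + 1) - a - 1 = c := by omega
        have e2 : 2 * (c + 1) + 2 - 1 - (a + (c + 1) - a) = c + 2 := by omega
        rw [e1, e2] at h1
        exact h1
      · have e1 : a + (c + 1) + 2 - a - 1 = c + 2 := by omega
        have e2 : 2 * (c + 1) + 2 - 1 - (a + (c + 1) + 2 - a) = c := by omega
        rw [e1, e2, mul_comm] at h1
        exact h1
    have e3 : (c + 1) ^ 2 = c * (c + 2) + 1 := by ring
    omega
  -- many diameters missing is impossible
  have hall : F.card ≤ d → ∃ i ≤ d, (i, i + d + 1) ∉ F := by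
    intro hc
    by_contra hh
    push Not at hh
    have hsub : (range (d + 1)).image (fun i => (i, i + d + 1)) ⊆ F := by
      intro x hx
      rw [mem_image] at hx
      obtain ⟨i, hi, rfl⟩ := hx
      rw [mem_range] at hi
      exact hh i (by omega)
    have := card_le_card hsub
    rw [card_image_of_injective _ (fun i j hij => (Prod.mk.inj hij).1), card_range] at this
    omega
  by_contra hlt
  push Not at hlt
  have hFt : F.card ≤ t := by
    split_ifs at hlt <;> omega
  obtain ⟨i0, hi0, hi0F⟩ := hall (by omega)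
  have hFt' : F.card = t := by
    have h1 := hD i0 hi0 hi0F
    have h2 := card_filter_le F (Alt (i0, i0 + d + 1))
    omega
  have h2t : d + 1 < 2 * t := by
    by_contra hh
    rw [if_pos (by omega)] at hlt
    omega
  -- all missing pairs cross every kept diameter
  have hDall : ∀ i ≤ d, (i, i + d + 1) ∉ F → ∀ f ∈ F, Alt (i, i + d + 1) f := by
    intro i hi hn f hf
    have h1 := hD i hi hn
    have h2 : F.filter (Alt (i, i + d + 1)) = F :=
      Finset.eq_of_subset_of_card_le (filter_subset _ _) (by omega)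
    rw [← h2, mem_filter] at hf
    exact hf.2
  -- two missing pairs not crossing an almost-diameter
  have hOtwo : ∀ a b, a < b → b < 2 * d + 2 → (b = a + d ∨ b = a + d + 2) → ∀ f ∈ F, ∀ g ∈ F,
      f ≠ g → ¬ Alt (a, b) f → ¬ Alt (a, b) g → (a, b) ∈ F := by
    intro a b hab hb hor f hf g hg hfg hfA hgA
    by_contra hn
    have h1 := hO a b hab hb hor hn
    have h2 := missing_split (n := 2 * d + 2) (E := E) a b
    rw [← hF] at h2
    have h3 : 1 < (F.filter (fun f => ¬ Alt (a, b) f)).card := by
      rw [one_lt_card]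
      exact ⟨f, mem_filter.mpr ⟨hf, hfA⟩, g, mem_filter.mpr ⟨hg, hgA⟩, hfg⟩
    omega
  have hup1 : ∀ i, i + 1 ≤ d → (i, i + d + 1) ∈ F → (i + 1, i + 1 + d + 1) ∈ F →
      (i, i + d + 2) ∈ F := by
    intro i hi h1 h2
    refine hOtwo _ _ (by omega) (by omega) (Or.inr rfl) _ h1 _ h2 ?_ ?_ ?_
    · intro hh
      have := (Prod.mk.inj hh).1
      omega
    · simp only [Alt]; omega
    · simp only [Alt]; omega
  have hup : ∀ i, i + 2 ≤ d → (i, i + d + 1) ∈ F → (i + 1, i + 1 + d + 1) ∈ F →
      (i + 2, i + 2 + d + 1) ∈ F := by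
    intro i hi h1 h2
    have h3 := hup1 i (by omega) h1 h2
    have h4 : (i + 2, i + 2 + d) ∈ F := by
      refine hOtwo _ _ (by omega) (by omega) (Or.inl rfl) _ h2 _ h3 ?_ ?_ ?_
      · intro hh
        have := (Prod.mk.inj hh).1
        omega
      · simp only [Alt]; omega
      · simp only [Alt]; omega
    by_contra hn
    have := hDall (i + 2) hi hn _ h4
    simp only [Alt] at this
    omega
  have hdown : ∀ i, 1 ≤ i → i + 1 ≤ d → (i, i + d + 1) ∈ F → (i + 1, i + 1 + d + 1) ∈ F →
      (i - 1, i - 1 + d + 1) ∈ F := by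
    intro i hi0 hi h1 h2
    have h3 := hup1 i (by omega) h1 h2
    have h4 : (i, i + d) ∈ F := by
      refine hOtwo _ _ (by omega) (by omega) (Or.inl rfl) _ h1 _ h3 ?_ ?_ ?_
      · intro hh
        have := (Prod.mk.inj hh).2
        omega
      · simp only [Alt]; omega
      · simp only [Alt]; omega
    by_contra hn
    have := hDall (i - 1) (by omega) hn _ h4
    simp only [Alt] at this
    omega
  have hupall : ∀ i, i + 1 ≤ d → (i, i + d + 1) ∈ F → (i + 1, i + 1 + d + 1) ∈ F →
      ∀ j, i ≤ j → j + 1 ≤ d → (j, j + d + 1) ∈ F ∧ (j + 1, j + 1 + d + 1) ∈ F := by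
    intro i hi h1 h2 j hij
    induction j, hij using Nat.le_induction with
    | base => exact fun _ => ⟨h1, h2⟩
    | succ j hij ih =>
      intro hj
      obtain ⟨g1, g2⟩ := ih (by omega)
      exact ⟨g2, hup j (by omega) g1 g2⟩
  have hdownall : ∀ m i, i = m → i + 1 ≤ d → (i, i + d + 1) ∈ F → (i + 1, i + 1 + d + 1) ∈ F →
      (0, 0 + d + 1) ∈ F ∧ (0 + 1, 0 + 1 + d + 1) ∈ F := by
    intro m
    induction m with
    | zero =>
      rintro i rfl hi h1 h2
      exact ⟨h1, h2⟩
    | succ m ih =>
      rintro i rfl hi h1 h2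
      have := hdown (m + 1) (by omega) hi h1 h2
      rw [Nat.add_sub_cancel] at this
      exact ih m rfl (by omega) this h1
  have hcons : ∀ i, i + 1 ≤ d → (i, i + d + 1) ∈ F → (i + 1, i + 1 + d + 1) ∈ F → False := by
    intro i hi h1 h2
    obtain ⟨g1, g2⟩ := hdownall i i rfl hi h1 h2
    have g3 := hupall 0 (by omega) g1 g2
    rcases Nat.lt_or_ge i0 d with hlt0 | hge0
    · exact hi0F (g3 i0 (Nat.zero_le _) (by omega)).1
    · have e0 : i0 = d - 1 + 1 := by omega
      have := (g3 (d - 1) (Nat.zero_le _) (by omega)).2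
      rw [← e0] at this
      exact hi0F this
  have hwrap : (0, 0 + d + 1) ∈ F → (d, d + d + 1) ∈ F → False := by
    intro h1 h2
    rcases Nat.lt_or_ge d 2 with hd | hd
    · have hd1 : d = 1 := by omega
      subst hd1
      exact hcons 0 (by omega) h1 h2
    have h3 : (d + 1, d + 1 + d) ∈ F := by
      refine hOtwo _ _ (by omega) (by omega) (Or.inl rfl) _ h1 _ h2 ?_ ?_ ?_
      · intro hh
        have := (Prod.mk.inj hh).1
        omega
      · simp only [Alt]; omega
      · simp only [Alt]; omega
    have h4 : (1, 1 + d) ∈ F := by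
      refine hOtwo _ _ (by omega) (by omega) (Or.inl rfl) _ h1 _ h3 ?_ ?_ ?_
      · intro hh
        have := (Prod.mk.inj hh).1
        omega
      · simp only [Alt]; omega
      · simp only [Alt]; omega
    have h5 : (0 + 1, 0 + 1 + d + 1) ∈ F := by
      by_contra hn
      have := hDall (0 + 1) (by omega) hn _ h4
      simp only [Alt] at this
      omega
    exact hcons 0 (by omega) h1 h5
  -- every missing pair is a diameter
  have hdia : ∀ f ∈ F, f.1 ≤ d ∧ f.2 = f.1 + d + 1 := by
    rintro ⟨a, b⟩ hf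
    have hab : a < b ∧ b < 2 * d + 2 := by
      rw [hF, mem_sdiff, mem_allp] at hf
      exact hf.1
    simp only
    by_contra hne
    have hne' : b ≠ a + d + 1 := by
      intro hh
      exact hne ⟨by omega, hh⟩
    have hin : ∀ i ≤ d, ¬ Alt (i, i + d + 1) (a, b) → (i, i + d + 1) ∈ F := by
      intro i hi hA
      by_contra hn
      exact hA (hDall i hi hn _ hf)
    rcases Nat.lt_or_ge (b - a) (d + 1) with hm | hm
    · rcases Nat.lt_trichotomy b d with hb | hb | hb
      · exact hcons b (by omega) (hin b (by omega) (by simp only [Alt]; omega))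
          (hin (b + 1) (by omega) (by simp only [Alt]; omega))
      · exact hwrap (hin 0 (by omega) (by simp only [Alt]; omega))
          (hin d (by omega) (by simp only [Alt]; omega))
      · rcases Nat.lt_or_ge b (2 * d + 1) with hb2 | hb2
        · have g1 := hin (b - d - 1) (by omega) (by simp only [Alt]; omega)
          have g2 := hin (b - d - 1 + 1) (by omega) (by simp only [Alt]; omega)
          exact hcons (b - d - 1) (by omega) g1 g2
        · exact hwrap (hin 0 (by omega) (by simp only [Alt]; omega))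
            (hin d (by omega) (by simp only [Alt]; omega))
    · exact hcons a (by omega) (hin a (by omega) (by simp only [Alt]; omega))
        (hin (a + 1) (by omega) (by simp only [Alt]; omega))
  -- counting
  set S := F.image Prod.fst with hS
  have hSc : S.card = F.card := by
    rw [hS]
    apply card_image_of_injOn
    intro f hf g hg hfg
    have := hdia f hf
    have := hdia g hg
    have hfg' : f.1 = g.1 := hfg
    exact Prod.ext hfg' (by omega)
  have hSm : ∀ i, i ∈ S ↔ i ≤ d ∧ (i, i + d + 1) ∈ F := by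
    intro i
    rw [hS, mem_image]
    constructor
    · rintro ⟨f, hf, rfl⟩
      have := hdia f hf
      refine ⟨this.1, ?_⟩
      have e : (f.1, f.1 + d + 1) = f := Prod.ext rfl this.2.symm
      rw [e]
      exact hf
    · rintro ⟨h1, h2⟩
      exact ⟨_, h2, rfl⟩
  set nx : ℕ → ℕ := fun i => if i = d then 0 else i + 1 with hnx
  have hdisj : Disjoint S (S.image nx) := by
    rw [disjoint_left]
    intro j hj hj'
    rw [mem_image] at hj'
    obtain ⟨i, hi, hij⟩ := hj'
    rw [hSm] at hi hj
    simp only [hnx] at hij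
    split_ifs at hij with hid
    · subst hij
      subst hid
      exact hwrap hj.2 hi.2
    · subst hij
      exact hcons i (by omega) hi.2 hj.2
  have hsubS : S ∪ S.image nx ⊆ range (d + 1) := by
    intro j hj
    rw [mem_union] at hj
    rw [mem_range]
    rcases hj with hj | hj
    · rw [hSm] at hj
      omega
    · obtain ⟨i, hi, hij⟩ := mem_image.mp hj
      rw [hSm] at hi
      simp only [hnx] at hij
      split_ifs at hij <;> omega
  have hc2 : (S.image nx).card = S.card := by
    apply card_image_of_injOn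
    intro i hi j hj hij
    rw [mem_coe, hSm] at hi hj
    simp only [hnx] at hij
    split_ifs at hij <;> omega
  have hcard := card_le_card hsubS
  rw [card_union_of_disjoint hdisj, card_range, hc2, hSc] at hcard
  omega

/-- Upper bound for `n = 2 d + 1`. -/
theorem odd_upper {d t : ℕ} (ht1 : 1 ≤ t) (htd : t + 1 ≤ d) {E : Finset (ℕ × ℕ)}
    (h : Good (d * (d - 1) - t) (range (2 * d + 1)) E) :
    t + 1 ≤ (allp (2 * d + 1) \ E).card := by
  set F := allp (2 * d + 1) \ E with hF
  have hmem : ∀ {a b : ℕ}, a < b → b < 2 * d + 1 → (a, b) ∉ F → (a, b) ∈ E := by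
    intro a b h1 h2 h3
    by_contra h4
    exact h3 (by rw [hF, mem_sdiff, mem_allp]; exact ⟨⟨h1, h2⟩, h4⟩)
  have hdd : t ≤ d * (d - 1) := by
    obtain ⟨c, rfl⟩ : ∃ c, d = c + 2 := ⟨d - 2, by omega⟩
    have e : c + 2 - 1 = c + 1 := by omega
    rw [e]
    nlinarith
  have hD : ∀ a b, a < b → b < 2 * d + 1 → (b = a + d ∨ b = a + d + 1) → (a, b) ∉ F →
      t ≤ (F.filter (Alt (a, b))).card := by
    intro a b hab hb hor hn
    have h1 := missing_cross h (hmem hab hb hn)
    rw [← hF] at h1
    have h2 : d * (d - 1) ≤ d * (d - 1) - t + (F.filter (Alt (a, b))).card := by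
      rcases hor with rfl | rfl
      · have e1 : a + d - a - 1 = d - 1 := by omega
        have e2 : 2 * d + 1 - 1 - (a + d - a) = d := by omega
        rw [e1, e2, mul_comm] at h1
        exact h1
      · have e1 : a + d + 1 - a - 1 = d := by omega
        have e2 : 2 * d + 1 - 1 - (a + d + 1 - a) = d - 1 := by omega
        rw [e1, e2] at h1
        exact h1
    omega
  by_contra hlt
  push Not at hlt
  have hFt : F.card ≤ t := by omega
  -- there is a kept one among the pairs (i, i + d)
  have hex : ∃ i ≤ d, (i, i + d) ∉ F := by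
    by_contra hh
    push Not at hh
    have hsub : (range (d + 1)).image (fun i => (i, i + d)) ⊆ F := by
      intro x hx
      rw [mem_image] at hx
      obtain ⟨i, hi, rfl⟩ := hx
      rw [mem_range] at hi
      exact hh i (by omega)
    have := card_le_card hsub
    rw [card_image_of_injective _ (fun i j hij => (Prod.mk.inj hij).1), card_range] at this
    omega
  obtain ⟨i0, hi0, hi0F⟩ := hex
  have hFt' : F.card = t := by
    have h1 := hD i0 (i0 + d) (by omega) (by omega) (Or.inl rfl) hi0F
    have h2 := card_filter_le F (Alt (i0, i0 + d))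
    omega
  have hDall : ∀ a b, a < b → b < 2 * d + 1 → (b = a + d ∨ b = a + d + 1) → ∀ f ∈ F,
      ¬ Alt (a, b) f → (a, b) ∈ F := by
    intro a b hab hb hor f hf hA
    by_contra hn
    have h1 := hD a b hab hb hor hn
    have h2 : F.filter (Alt (a, b)) = F :=
      Finset.eq_of_subset_of_card_le (filter_subset _ _) (by omega)
    rw [← h2, mem_filter] at hf
    exact hA hf.2
  have hup : ∀ i, i + 1 ≤ d → (i, i + d) ∈ F → (i + 1, i + 1 + d) ∈ F := by
    intro i hi h1
    have h2 : (i, i + d + 1) ∈ F :=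
      hDall _ _ (by omega) (by omega) (Or.inr rfl) _ h1 (by simp only [Alt]; omega)
    exact hDall _ _ (by omega) (by omega) (Or.inl rfl) _ h2 (by simp only [Alt]; omega)
  have hdown : ∀ i, i + 1 ≤ d → (i + 1, i + 1 + d) ∈ F → (i, i + d) ∈ F := by
    intro i hi h1
    have h2 : (i, i + d + 1) ∈ F :=
      hDall _ _ (by omega) (by omega) (Or.inr rfl) _ h1 (by simp only [Alt]; omega)
    exact hDall _ _ (by omega) (by omega) (Or.inl rfl) _ h2 (by simp only [Alt]; omega)
  have hzero : ∀ i, i ≤ d → (i, i + d) ∈ F → (0, 0 + d) ∈ F := by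
    intro i
    induction i with
    | zero => exact fun _ h => h
    | succ i ih => exact fun hi h => ih (by omega) (hdown i hi h)
  have hfromzero : (0, 0 + d) ∈ F → ∀ i, i ≤ d → (i, i + d) ∈ F := by
    intro h0 i
    induction i with
    | zero => exact fun _ => h0
    | succ i ih => exact fun hi => hup i hi (ih (by omega))
  have hnone : ∀ i ≤ d, (i, i + d) ∉ F := by
    intro i hi hh
    exact hi0F (hfromzero (hzero i hi hh) i0 hi0)
  have hne : F.Nonempty := by
    rw [← card_pos]
    omega
  obtain ⟨⟨a, b⟩, hf⟩ := hne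
  have hab : a < b ∧ b < 2 * d + 1 := by
    rw [hF, mem_sdiff, mem_allp] at hf
    exact hf.1
  rcases Nat.lt_or_ge d a with ha | ha
  · have := hDall (a - d) a (by omega) (by omega) (Or.inl (by omega)) _ hf (by simp only [Alt]; omega)
    apply hnone (a - d) (by omega)
    have e : a - d + d = a := by omega
    rw [e]
    exact this
  · have := hDall a (a + d) (by omega) (by omega) (Or.inl rfl) _ hf (by simp only [Alt]; omega)
    exact hnone a ha this

end Pool.Agent.MP_df3d6f_co
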