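import Mathlib
import Pool.Agent.MP_df3d6f_co.Near1

namespace Pool.Agent.MP_df3d6f_co

open Finset

lemma good_of_missing {n k : ℕ} {F : Finset (ℕ × ℕ)} (hF : F ⊆ allp n)
    (h : ∀ a b, a < b → b < n → (a, b) ∉ F →
      (b - a - 1) * (n - 1 - (b - a)) + (F.filter (fun f => ¬ Alt (a, b) f)).card ≤ k + F.card) :
    Good k (range n) (allp n \ F) := by
  refine ⟨?_, ?_⟩
  · rintro ⟨a, b⟩ he
    rw [mem_sdiff, mem_allp] at he
    simp only [mem_range]
    omega
  · rintro ⟨a, b⟩ he
    rw [mem_sdiff, mem_allp] at he
    have h1 := h a b he.1.1 he.1.2 he.2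
    have h2 := card_cross he.1.1 he.1.2
    have h3 : (allp n).filter (Alt (a, b)) =
        ((allp n \ F).filter (Alt (a, b))) ∪ (F.filter (Alt (a, b))) := by
      rw [← filter_union, sdiff_union_of_subset hF]
    have h4 : Disjoint ((allp n \ F).filter (Alt (a, b))) (F.filter (Alt (a, b))) := by
      apply disjoint_filter_filter
      exact sdiff_disjoint
    rw [h3, card_union_of_disjoint h4] at h2
    have h5 : (F.filter (Alt (a, b))).card + (F.filter (fun f => ¬ Alt (a, b) f)).card = F.card :=
      card_filter_add_card_filter_not (Alt (a, b))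
    omega

/-- graph with a given set of pairs -/
def gr (n : ℕ) (E : Finset (ℕ × ℕ)) : SimpleGraph (Fin n) where
  Adj a b := ((a : ℕ) < b ∧ ((a : ℕ), (b : ℕ)) ∈ E) ∨ ((b : ℕ) < a ∧ ((b : ℕ), (a : ℕ)) ∈ E)
  symm := ⟨fun _ _ h => h.symm⟩
  loopless := ⟨fun _ h => by rcases h with h | h <;> exact lt_irrefl _ h.1⟩

lemma val_inj (n : ℕ) : Function.Injective (fun x : Fin n => (x : ℕ)) := fun _ _ h => Fin.ext h

lemma eset_gr {n : ℕ} {E : Finset (ℕ × ℕ)} (hE : E ⊆ allp n) :
    eset (fun x : Fin n => (x : ℕ)) (gr n E) = E := by
  classical
  ext ⟨u, v⟩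
  unfold eset
  rw [mem_image]
  constructor
  · rintro ⟨e, he, h⟩
    rw [Set.Finite.mem_toFinset] at he
    obtain ⟨a, b, rfl, hab, hadj⟩ := exists_rep (val_inj n) he
    rw [phi_mk _ a b hab] at h
    rw [Prod.mk.injEq] at h
    obtain ⟨rfl, rfl⟩ := h
    rcases hadj with h | h
    · exact h.2
    · exfalso
      have h5 := h.1
      have hab' : (a : ℕ) < b := hab
      omega
  · intro h
    have h1 := mem_allp.mp (hE h)
    refine ⟨s(⟨u, by omega⟩, ⟨v, by omega⟩), ?_, ?_⟩
    · rw [Set.Finite.mem_toFinset, SimpleGraph.mem_edgeSet]
      exact Or.inl ⟨h1.1, h⟩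
    · rw [phi_mk]
      exact h1.1

lemma crosses_phi {V : Type*} {pos : V → ℕ} {e f : Sym2 V} (h : Crosses pos e f) :
    Alt (phi pos e) (phi pos f) := by
  obtain ⟨a, b, c, d, rfl, rfl, h⟩ := h
  rw [phi_mk pos a b (by omega), phi_mk pos c d (by omega)]
  exact h

lemma drawn_gr {n k : ℕ} {E : Finset (ℕ × ℕ)} (h : Good k (range n) E) :
    ∀ e ∈ (gr n E).edgeSet,
      {f ∈ (gr n E).edgeSet | Crosses (fun x : Fin n => (x : ℕ)) e f}.ncard ≤ k := by
  classical
  intro e he
  have hE := eset_gr (good_sub h)
  have hmem : ∀ f ∈ (gr n E).edgeSet, phi (fun x : Fin n => (x : ℕ)) f ∈ E := by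
    intro f hf
    rw [← hE]
    unfold eset
    rw [mem_image]
    exact ⟨f, by rw [Set.Finite.mem_toFinset]; exact hf, rfl⟩
  refine le_trans ?_ (h.cr _ (hmem e he))
  rw [← Set.ncard_coe_finset]
  refine Set.ncard_le_ncard_of_injOn (phi (fun x : Fin n => (x : ℕ))) ?_
    ((phi_injective (val_inj n)).injOn) (Finset.finite_toSet _)
  rintro f ⟨hf, hc⟩
  rw [mem_coe, mem_filter]
  exact ⟨hmem f hf, crosses_phi hc⟩

lemma card_gr {n k : ℕ} {E : Finset (ℕ × ℕ)} (h : Good k (range n) E) :
    (gr n E).edgeSet.ncard = E.card := by
  rw [← card_eset (val_inj n), eset_gr (good_sub h)]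

lemma outer_good {k n : ℕ} {G : SimpleGraph (Fin n)} (h : OuterKPlanar k G) :
    ∃ E : Finset (ℕ × ℕ), Good k (range n) E ∧ E.card = G.edgeSet.ncard := by
  obtain ⟨pos, hpos, hk⟩ := h
  have h1 := good_of_outer hpos hk
  obtain ⟨E', h2, h3⟩ := good_rank h1
  rw [card_vset hpos, Fintype.card_fin] at h2
  exact ⟨E', h2, by rw [h3, card_eset hpos]⟩

/-- diameters not crossing a given chord -/
lemma nonalt_even {d a b : ℕ} (hab : a < b) (hb : b < 2 * d + 2) {j : ℕ}
    (hj : b - a + j = d + 1 ∨ b - a = d + 1 + j) :
    ((range (d + 1)).filter (fun i => ¬ Alt (a, b) (i, i + d + 1))).card ≤ j + 1 := by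
  rcases Nat.lt_or_ge (d + 1) (b - a) with hm | hm
  · have hsub : (range (d + 1)).filter (fun i => ¬ Alt (a, b) (i, i + d + 1)) ⊆
        Icc a (b - d - 1) := by
      intro i hi
      rw [mem_filter, mem_range] at hi
      simp only [Alt] at hi
      rw [mem_Icc]
      omega
    have := card_le_card hsub
    rw [Nat.card_Icc] at this
    omega
  · rcases Nat.lt_or_ge d b with hb1 | hb1
    · rcases Nat.lt_or_ge d a with ha1 | ha1
      · have hsub : (range (d + 1)).filter (fun i => ¬ Alt (a, b) (i, i + d + 1)) ⊆
            range (a - d) ∪ Icc (b - d - 1) d := by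
          intro i hi
          rw [mem_filter, mem_range] at hi
          simp only [Alt] at hi
          rw [mem_union, mem_range, mem_Icc]
          omega
        have := (card_le_card hsub).trans (card_union_le _ _)
        rw [Nat.card_Icc, card_range] at this
        omega
      · have hsub : (range (d + 1)).filter (fun i => ¬ Alt (a, b) (i, i + d + 1)) ⊆
            Icc (b - d - 1) a := by
          intro i hi
          rw [mem_filter, mem_range] at hi
          simp only [Alt] at hi
          rw [mem_Icc]
          omega
        have := card_le_card hsub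
        rw [Nat.card_Icc] at this
        omega
    · have hsub : (range (d + 1)).filter (fun i => ¬ Alt (a, b) (i, i + d + 1)) ⊆
          range (a + 1) ∪ Icc b d := by
        intro i hi
        rw [mem_filter, mem_range] at hi
        simp only [Alt] at hi
        rw [mem_union, mem_range, mem_Icc]
        omega
      have := (card_le_card hsub).trans (card_union_le _ _)
      rw [Nat.card_Icc, card_range] at this
      omega

/-- The construction for `n = 2 d + 2`. -/
theorem even_good {d t : ℕ} {S : Finset ℕ} (hS : S ⊆ range (d + 1)) (htd : t ≤ d) (hd : 1 ≤ d)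
    (hcase : S.card = t + 1 ∨ (S.card = t ∧ ∀ i ∈ S, i % 2 = 0 ∧ i < d)) :
    Good (d ^ 2 - t) (range (2 * d + 2))
      (allp (2 * d + 2) \ S.image (fun i => (i, i + d + 1))) := by
  have hinj : Function.Injective (fun i : ℕ => (i, i + d + 1)) :=
    fun i j hij => (Prod.mk.inj hij).1
  apply good_of_missing
  · intro f hf
    rw [mem_image] at hf
    obtain ⟨i, hi, rfl⟩ := hf
    have := mem_range.mp (hS hi)
    rw [mem_allp]
    omega
  · intro a b hab hb hnot
    rw [card_image_of_injective _ hinj]
    have hν : ((S.image (fun i => (i, i + d + 1))).filter (fun f => ¬ Alt (a, b) f)).card ≤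
        (S.filter (fun i => ¬ Alt (a, b) (i, i + d + 1))).card := by
      rw [filter_image]
      exact card_image_le
    set ν := (S.filter (fun i => ¬ Alt (a, b) (i, i + d + 1))).card with hνdef
    have hdd : t ≤ d ^ 2 := by nlinarith
    obtain ⟨j, hj⟩ : ∃ j, b - a + j = d + 1 ∨ b - a = d + 1 + j := by
      rcases Nat.lt_or_ge (b - a) (d + 1) with h | h
      · exact ⟨d + 1 - (b - a), Or.inl (by omega)⟩
      · exact ⟨b - a - (d + 1), Or.inr (by omega)⟩
    have hjd : j ≤ d := by omega
    have hfull : (b - a - 1) * (2 * d + 2 - 1 - (b - a)) = (d - j) * (d + j) := by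
      rcases hj with hj | hj
      · have e1 : b - a - 1 = d - j := by omega
        have e2 : 2 * d + 2 - 1 - (b - a) = d + j := by omega
        rw [e1, e2]
      · have e1 : b - a - 1 = d + j := by omega
        have e2 : 2 * d + 2 - 1 - (b - a) = d - j := by omega
        rw [e1, e2, mul_comm]
    have hsq : (d - j) * (d + j) + j * j = d ^ 2 := by
      obtain ⟨c, rfl⟩ : ∃ c, d = j + c := ⟨d - j, by omega⟩
      have e1 : j + c - j = c := by omega
      rw [e1]
      ring
    have hcount : ν ≤ j + 1 := by
      refine le_trans (card_le_card ?_) (nonalt_even hab hb hj)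
      exact filter_subset_filter _ hS
    have hkey : ν + t ≤ S.card + j * j := by
      rcases hcase with hc | ⟨hc, hpar⟩
      · have : j ≤ j * j := Nat.le_mul_self j
        omega
      · rcases Nat.lt_or_ge j 2 with hj2 | hj2
        · rcases Nat.lt_or_ge j 1 with hj1 | hj1
          · -- j = 0
            have hj0 : j = 0 := by omega
            have h0 : ν = 0 := by
              rw [hνdef, card_eq_zero, filter_eq_empty_iff]
              intro i hi hA
              have := mem_range.mp (hS hi)
              simp only [Alt] at hA
              have hne : i ≠ a := by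
                rintro rfl
                apply hnot
                rw [mem_image]
                exact ⟨i, hi, by rw [Prod.mk.injEq]; omega⟩
              omega
            omega
          · have hj1' : j = 1 := by omega
            have h1 : ν ≤ 1 := by
              rw [hνdef, card_le_one]
              intro i hi i' hi'
              rw [mem_filter] at hi hi'
              have p1 := hpar i hi.1
              have p2 := hpar i' hi'.1
              have q1 := hi.2
              have q2 := hi'.2
              simp only [Alt] at q1 q2
              omega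
            subst hj1'
            omega
        · have : j + 1 ≤ j * j := by nlinarith
          omega
    omega

/-- number of even numbers -/
lemma card_Icc_half (p q : ℕ) : (Icc p q).card = q + 1 - p := Nat.card_Icc p q

/-- The missing pairs for `n = 2 d + 1`. -/
def oddF (d p p' : ℕ) : Finset (ℕ × ℕ) :=
  ((range p).image (fun q => (2 * q, 2 * q + d))) ∪
    ((range p').image (fun q => (2 * q, 2 * q + d + 1)))

lemma card_oddF (d p p' : ℕ) : (oddF d p p').card = p + p' := by
  unfold oddF
  rw [card_union_of_disjoint, card_image_of_injective, card_image_of_injective, card_range,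
    card_range]
  · intro i j hij
    have := (Prod.mk.inj hij).1
    omega
  · intro i j hij
    have := (Prod.mk.inj hij).1
    omega
  · rw [disjoint_left]
    intro f hf hf'
    rw [mem_image] at hf hf'
    obtain ⟨q, hq, rfl⟩ := hf
    obtain ⟨q', hq', h⟩ := hf'
    rw [Prod.mk.injEq] at h
    omega

lemma mem_oddF {d p p' : ℕ} {f : ℕ × ℕ} (h : f ∈ oddF d p p') :
    ∃ q, (f = (2 * q, 2 * q + d) ∧ q < p) ∨ (f = (2 * q, 2 * q + d + 1) ∧ q < p') := by
  unfold oddF at h
  rw [mem_union, mem_image, mem_image] at h
  rcases h with ⟨q, hq, rfl⟩ | ⟨q, hq, rfl⟩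
  · exact ⟨q, Or.inl ⟨rfl, mem_range.mp hq⟩⟩
  · exact ⟨q, Or.inr ⟨rfl, mem_range.mp hq⟩⟩

lemma nonalt_odd {d p p' a b N M : ℕ}
    (h1 : ((range p).filter (fun q => ¬ Alt (a, b) (2 * q, 2 * q + d))).card ≤ N)
    (h2 : ((range p').filter (fun q => ¬ Alt (a, b) (2 * q, 2 * q + d + 1))).card ≤ M) :
    ((oddF d p p').filter (fun f => ¬ Alt (a, b) f)).card ≤ N + M := by
  unfold oddF
  rw [filter_union, filter_image, filter_image]
  refine (card_union_le _ _).trans ?_
  exact Nat.add_le_add (card_image_le.trans h1) (card_image_le.trans h2)

/-- The construction for `n = 2 d + 1`. -/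
theorem odd_good {d t : ℕ} (ht1 : 1 ≤ t) (htd : t + 1 ≤ d) :
    Good (d * (d - 1) - t) (range (2 * d + 1))
      (allp (2 * d + 1) \ oddF d ((t + 2) / 2) ((t + 1) / 2)) := by
  set p := (t + 2) / 2 with hp
  set p' := (t + 1) / 2 with hp'
  apply good_of_missing
  · intro f hf
    obtain ⟨q, h | h⟩ := mem_oddF hf
    · rw [h.1, mem_allp]
      omega
    · rw [h.1, mem_allp]
      omega
  · intro a b hab hb hnot
    rw [card_oddF]
    have hpp : p + p' = t + 1 := by omega
    have hdd : t ≤ d * (d - 1) := by
      obtain ⟨c, rfl⟩ : ∃ c, d = c + 2 := ⟨d - 2, by omega⟩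
      have e : c + 2 - 1 = c + 1 := by omega
      rw [e]
      nlinarith
    obtain ⟨j, hj⟩ : ∃ j, b - a + j = d ∨ b - a = d + 1 + j := by
      rcases Nat.lt_or_ge (b - a) (d + 1) with h | h
      · exact ⟨d - (b - a), Or.inl (by omega)⟩
      · exact ⟨b - a - (d + 1), Or.inr (by omega)⟩
    have hjd : j + 1 ≤ d := by omega
    have hfull : (b - a - 1) * (2 * d + 1 - 1 - (b - a)) = (d - 1 - j) * (d + j) := by
      rcases hj with hj | hj
      · have e1 : b - a - 1 = d - 1 - j := by omega
        have e2 : 2 * d + 1 - 1 - (b - a) = d + j := by omega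
        rw [e1, e2]
      · have e1 : b - a - 1 = d + j := by omega
        have e2 : 2 * d + 1 - 1 - (b - a) = d - 1 - j := by omega
        rw [e1, e2, mul_comm]
    have hsq : (d - 1 - j) * (d + j) + j * (j + 1) = d * (d - 1) := by
      obtain ⟨c, rfl⟩ : ∃ c, d = j + 1 + c := ⟨d - j - 1, by omega⟩
      have e1 : j + 1 + c - 1 - j = c := by omega
      have e2 : j + 1 + c - 1 = j + c := by omega
      rw [e1, e2]
      ring
    suffices hkey : ((oddF d p p').filter (fun f => ¬ Alt (a, b) f)).card ≤ 1 + j * (j + 1) by
      rw [hfull]
      omega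
    rcases Nat.lt_or_ge j 1 with hj1 | hj1
    · -- j = 0
      have hj0 : j = 0 := by omega
      have hA : b = a + d → ¬ (a % 2 = 0 ∧ a / 2 < p) := by
        rintro h ⟨h1, h2⟩
        apply hnot
        unfold oddF
        rw [mem_union, mem_image]
        left
        exact ⟨a / 2, mem_range.mpr h2, by rw [Prod.mk.injEq]; omega⟩
      have hB : b = a + d + 1 → ¬ (a % 2 = 0 ∧ a / 2 < p') := by
        rintro h ⟨h1, h2⟩
        apply hnot
        unfold oddF
        rw [mem_union, mem_image, mem_image]
        right
        exact ⟨a / 2, mem_range.mpr h2, by rw [Prod.mk.injEq]; omega⟩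
      subst hj0
      have : ((oddF d p p').filter (fun f => ¬ Alt (a, b) f)).card ≤ 1 := by
        rw [card_le_one]
        intro f hf g hg
        rw [mem_filter] at hf hg
        obtain ⟨q, hq⟩ := mem_oddF hf.1
        obtain ⟨q', hq'⟩ := mem_oddF hg.1
        have a1 := hf.2
        have a2 := hg.2
        rcases hj with hj | hj
        · have hb' : b = a + d := by omega
          have hA' := hA hb'
          rcases hq with ⟨rfl, hq⟩ | ⟨rfl, hq⟩ <;> rcases hq' with ⟨rfl, hq'⟩ | ⟨rfl, hq'⟩ <;>
            simp only [Alt] at a1 a2 <;> rw [Prod.mk.injEq] <;> omega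
        · have hb' : b = a + d + 1 := by omega
          have hB' := hB hb'
          rcases hq with ⟨rfl, hq⟩ | ⟨rfl, hq⟩ <;> rcases hq' with ⟨rfl, hq'⟩ | ⟨rfl, hq'⟩ <;>
            simp only [Alt] at a1 a2 <;> rw [Prod.mk.injEq] <;> omega
      omega
    · -- j ≥ 1
      have harith : 2 ≤ j → j + 4 ≤ 1 + j * (j + 1) := by
        intro h
        nlinarith
      have hj3 : j = 1 → 1 + j * (j + 1) = 3 := by rintro rfl; rfl
      rcases Nat.lt_or_ge d (b - a) with hm | hm
      · -- long chords
        have g1 : ((range p).filter (fun q => ¬ Alt (a, b) (2 * q, 2 * q + d))).card ≤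
            (b - d) / 2 + 1 - (a + 1) / 2 := by
          rw [← card_Icc_half]
          apply card_le_card
          intro q hq
          rw [mem_filter, mem_range] at hq
          simp only [Alt] at hq
          rw [mem_Icc]
          omega
        have g2 : ((range p').filter (fun q => ¬ Alt (a, b) (2 * q, 2 * q + d + 1))).card ≤
            (b - d - 1) / 2 + 1 - (a + 1) / 2 := by
          rw [← card_Icc_half]
          apply card_le_card
          intro q hq
          rw [mem_filter, mem_range] at hq
          simp only [Alt] at hq
          rw [mem_Icc]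
          omega
        refine (nonalt_odd g1 g2).trans ?_
        rcases Nat.lt_or_ge j 2 with hj2 | hj2
        · rw [hj3 (by omega)]
          omega
        · have := harith hj2
          omega
      · rcases Nat.lt_or_ge d b with hb1 | hb1
        · rcases Nat.lt_trichotomy a d with ha1 | ha1 | ha1
          · have g1 : ((range p).filter (fun q => ¬ Alt (a, b) (2 * q, 2 * q + d))).card ≤
                a / 2 + 1 - (b - d + 1) / 2 := by
              rw [← card_Icc_half]
              apply card_le_card
              intro q hq
              rw [mem_filter, mem_range] at hq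
              simp only [Alt] at hq
              rw [mem_Icc]
              omega
            have g2 : ((range p').filter (fun q => ¬ Alt (a, b) (2 * q, 2 * q + d + 1))).card ≤
                a / 2 + 1 - (b - d) / 2 := by
              rw [← card_Icc_half]
              apply card_le_card
              intro q hq
              rw [mem_filter, mem_range] at hq
              simp only [Alt] at hq
              rw [mem_Icc]
              omega
            refine (nonalt_odd g1 g2).trans ?_
            rcases Nat.lt_or_ge j 2 with hj2 | hj2
            · rw [hj3 (by omega)]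
              omega
            · have := harith hj2
              omega
          · have g1 : ((range p).filter (fun q => ¬ Alt (a, b) (2 * q, 2 * q + d))).card ≤
                1 + ((d - 1) / 2 + 1 - (b - d + 1) / 2) := by
              refine le_trans (card_le_card (t := {0} ∪ Icc ((b - d + 1) / 2) ((d - 1) / 2)) ?_)
                ((card_union_le _ _).trans (by rw [card_singleton, Nat.card_Icc]))
              intro q hq
              rw [mem_filter, mem_range] at hq
              simp only [Alt] at hq
              rw [mem_union, mem_singleton, mem_Icc]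
              omega
            have g2 : ((range p').filter (fun q => ¬ Alt (a, b) (2 * q, 2 * q + d + 1))).card ≤
                ((d - 2) / 2 + 1 - (b - d) / 2) := by
              rw [← card_Icc_half]
              apply card_le_card
              intro q hq
              rw [mem_filter, mem_range] at hq
              simp only [Alt] at hq
              rw [mem_Icc]
              omega
            refine (nonalt_odd g1 g2).trans ?_
            rcases Nat.lt_or_ge j 2 with hj2 | hj2
            · rw [hj3 (by omega)]
              omega
            · have := harith hj2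
              omega
          · have g1 : ((range p).filter (fun q => ¬ Alt (a, b) (2 * q, 2 * q + d))).card ≤
                ((a - d) / 2 + 1) + ((d - 1) / 2 + 1 - (b - d + 1) / 2) := by
              rw [← card_Icc_half, ← card_range ((a - d) / 2 + 1)]
              refine le_trans (card_le_card ?_) (card_union_le _ _)
              intro q hq
              rw [mem_filter, mem_range] at hq
              simp only [Alt] at hq
              rw [mem_union, mem_range, mem_Icc]
              omega
            have g2 : ((range p').filter (fun q => ¬ Alt (a, b) (2 * q, 2 * q + d + 1))).card ≤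
                ((a - d - 1) / 2 + 1) + ((d - 2) / 2 + 1 - (b - d) / 2) := by
              rw [← card_Icc_half, ← card_range ((a - d - 1) / 2 + 1)]
              refine le_trans (card_le_card ?_) (card_union_le _ _)
              intro q hq
              rw [mem_filter, mem_range] at hq
              simp only [Alt] at hq
              rw [mem_union, mem_range, mem_Icc]
              omega
            refine (nonalt_odd g1 g2).trans ?_
            rcases Nat.lt_or_ge j 2 with hj2 | hj2
            · rw [hj3 (by omega)]
              omega
            · have := harith hj2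
              omega
        · have g1 : ((range p).filter (fun q => ¬ Alt (a, b) (2 * q, 2 * q + d))).card ≤
              (a / 2 + 1) + ((d - 1) / 2 + 1 - (b + 1) / 2) := by
            rw [← card_Icc_half, ← card_range (a / 2 + 1)]
            refine le_trans (card_le_card ?_) (card_union_le _ _)
            intro q hq
            rw [mem_filter, mem_range] at hq
            simp only [Alt] at hq
            rw [mem_union, mem_range, mem_Icc]
            omega
          have g2 : ((range p').filter (fun q => ¬ Alt (a, b) (2 * q, 2 * q + d + 1))).card ≤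
              (a / 2 + 1) + ((d - 2) / 2 + 1 - (b + 1) / 2) := by
            rw [← card_Icc_half, ← card_range (a / 2 + 1)]
            refine le_trans (card_le_card ?_) (card_union_le _ _)
            intro q hq
            rw [mem_filter, mem_range] at hq
            simp only [Alt] at hq
            rw [mem_union, mem_range, mem_Icc]
            omega
          refine (nonalt_odd g1 g2).trans ?_
          rcases Nat.lt_or_ge j 2 with hj2 | hj2
          · rw [hj3 (by omega)]
            omega
          · have := harith hj2
            omega

end Pool.Agent.MP_df3d6f_co
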