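import Mathlib
import Pool.Agent.MP_df3d6f_co.Multi
import Pool.Agent.MP_df3d6f_co.Near2

namespace Pool.Agent.MP_df3d6f_co

open Finset

/-- Decomposition of the edges between different arcs of a partition of the circle into arcs. -/
theorem arc_decomp {V : Type*} [Fintype V] {k r : ℕ} {G : SimpleGraph V}
    {pos c : V → ℕ}
    (hpos : Function.Injective pos)
    (hk : ∀ e ∈ G.edgeSet, {f ∈ G.edgeSet | Crosses pos e f}.ncard ≤ k)
    (hc : ∀ u v, pos u < pos v → c u ≤ c v) (hr : ∀ v, c v < r) :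
    ∃ (P : Finset (ℕ × ℕ)) (GP : ℕ × ℕ → Finset (V × V)) (HX HY : ℕ × ℕ → Finset V)
      (U : Finset V), P.card ≤ 2 * r ∧ (∀ p ∈ P, p.1 < p.2 ∧ p.2 < r) ∧
      {e ∈ G.edgeSet | ∃ u v, e = s(u, v) ∧ c u ≠ c v}.ncard ≤
        6 * k * r + ∑ p ∈ P, (GP p).card ∧
      (∀ p ∈ P, ∀ e ∈ GP p, G.Adj e.1 e.2 ∧ c e.1 = p.1 ∧ c e.2 = p.2) ∧
      (∀ p ∈ P, ∀ x, x ∈ HX p ↔
        ∃ e ∈ GP p, ∃ f ∈ GP p, pos e.1 ≤ pos x ∧ pos x ≤ pos f.1) ∧
      (∀ p ∈ P, ∀ x, x ∈ HY p ↔
        ∃ e ∈ GP p, ∃ f ∈ GP p, pos e.2 ≤ pos x ∧ pos x ≤ pos f.2) ∧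
      (∀ x ∈ U, ∃ p ∈ P, x ∈ HX p ∨ x ∈ HY p) ∧
      ∑ p ∈ P, ((HX p).card + (HY p).card) ≤ U.card + 4 * r := by
  classical
  rcases isEmpty_or_nonempty V with hV | hV
  · have h0 : {e ∈ G.edgeSet | ∃ u v, e = s(u, v) ∧ c u ≠ c v} = ∅ := by
      ext e
      constructor
      · rintro ⟨_, u, _⟩
        exact isEmptyElim u
      · intro h
        exact absurd h (Set.notMem_empty _)
    refine ⟨∅, fun _ => ∅, fun _ => ∅, fun _ => ∅, ∅, by simp, by simp, ?_, by simp, by simp,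
      by simp, by simp, by simp⟩
    rw [h0, Set.ncard_empty]
    exact Nat.zero_le _
  have hlt : ∀ u v, c u < c v → pos u < pos v := by
    intro u v h
    by_contra hn
    rcases Nat.lt_or_ge (pos v) (pos u) with h1 | h1
    · have := hc v u h1
      omega
    · have : u = v := hpos (by omega)
      subst this
      omega
  obtain ⟨PB, hPBm⟩ : ∃ PB : Finset (V × V), ∀ p : V × V, p ∈ PB ↔ G.Adj p.1 p.2 ∧ c p.1 < c p.2 :=
    ⟨univ.filter (fun p => G.Adj p.1 p.2 ∧ c p.1 < c p.2), fun p => by simp⟩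
  have hinj : ∀ p ∈ PB, ∀ q ∈ PB, s(p.1, p.2) = s(q.1, q.2) → p = q := by
    intro p hp q hq h
    rw [hPBm] at hp hq
    rw [Sym2.eq_iff] at h
    rcases h with ⟨h1, h2⟩ | ⟨h1, h2⟩
    · exact Prod.ext h1 h2
    · rw [h1, h2] at hp
      omega
  have hcount : {e ∈ G.edgeSet | ∃ u v, e = s(u, v) ∧ c u ≠ c v}.ncard ≤ PB.card := by
    have : {e ∈ G.edgeSet | ∃ u v, e = s(u, v) ∧ c u ≠ c v} ⊆
        ((PB.image (fun p => s(p.1, p.2)) : Finset (Sym2 V)) : Set (Sym2 V)) := by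
      rintro e ⟨he, u, v, rfl, hne⟩
      rw [mem_coe, mem_image]
      rcases Nat.lt_or_gt_of_ne hne with h | h
      · exact ⟨(u, v), (hPBm _).mpr ⟨he, h⟩, rfl⟩
      · exact ⟨(v, u), (hPBm _).mpr ⟨he.symm, h⟩, Sym2.eq_swap⟩
    refine (Set.ncard_le_ncard this (Finset.finite_toSet _)).trans ?_
    rw [Set.ncard_coe_finset]
    exact card_image_le
  have hC : ∀ x y, G.Adj x y →
      (PB.filter (fun p => Crosses pos s(x, y) s(p.1, p.2))).card ≤ k := by
    intro x y hxy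
    refine le_trans ?_ (hk s(x, y) hxy)
    rw [Set.ncard_eq_toFinset_card _ (Set.toFinite _)]
    refine Finset.card_le_card_of_injOn (fun p => s(p.1, p.2)) ?_ ?_
    · intro p hp
      rw [mem_coe, mem_filter] at hp
      rw [mem_coe, Set.Finite.mem_toFinset]
      exact ⟨((hPBm p).mp hp.1).1, hp.2⟩
    · intro p hp q hq hpq
      rw [mem_coe, mem_filter] at hp hq
      exact hinj p hp.1 q hq.1 hpq
  -- types of pairs
  set ty : V × V → ℕ × ℕ := fun p => (c p.1, c p.2) with hty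
  obtain ⟨P, hPQ, hPnc, hPmax⟩ := exists_noncrossing (PB.image ty)
  have hrep : ∀ p ∈ P, ∃ e ∈ PB, ty e = p := by
    intro p hp
    have := hPQ hp
    rw [mem_image] at this
    exact this
  have hPlt : ∀ p ∈ P, p.1 < p.2 ∧ p.2 < r := by
    intro p hp
    obtain ⟨e, he, rfl⟩ := hrep p hp
    exact ⟨((hPBm e).mp he).2, hr _⟩
  have hPcard : P.card ≤ 2 * r := noncrossing_card hPlt hPnc
  choose! ρ hρ1 hρ2 using hrep
  -- pairs of other types
  have hD1 : (PB.filter (fun e => ty e ∉ P)).card ≤ P.card * k := by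
    have hsub : PB.filter (fun e => ty e ∉ P) ⊆
        P.biUnion (fun p => PB.filter (fun e => Crosses pos s((ρ p).1, (ρ p).2) s(e.1, e.2))) := by
      intro e he
      rw [mem_filter] at he
      obtain ⟨p, hp, hA⟩ := hPmax (ty e) (mem_image_of_mem _ he.1) he.2
      rw [mem_biUnion]
      refine ⟨p, hp, ?_⟩
      rw [mem_filter]
      refine ⟨he.1, (ρ p).1, (ρ p).2, e.1, e.2, rfl, rfl, ?_⟩
      have h1 : p = (c (ρ p).1, c (ρ p).2) := (hρ2 p hp).symm
      rw [h1] at hA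
      simp only [Alt, hty] at hA
      rcases hA with ⟨a1, a2, a3⟩ | ⟨a1, a2, a3⟩
      · exact Or.inl ⟨hlt _ _ a1, hlt _ _ a2, hlt _ _ a3⟩
      · exact Or.inr ⟨hlt _ _ a1, hlt _ _ a2, hlt _ _ a3⟩
    refine (card_le_card hsub).trans (card_biUnion_le_card_mul _ _ _ ?_)
    intro p hp
    exact hC _ _ ((hPBm _).mp (hρ1 p hp)).1
  -- the symmetric relation
  obtain ⟨H, hH⟩ : ∃ H : V → V → Prop, ∀ x v, H x v ↔ (G.Adj x v ∧ ((c x < c v ∧ (c x, c v) ∈ P) ∨
    (c v < c x ∧ (c v, c x) ∈ P))) := ⟨_, fun _ _ => Iff.rfl⟩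
  have hHsymm : ∀ x v, H x v → H v x := fun x v h => by
    rw [hH] at h ⊢
    exact ⟨h.1.symm, h.2.symm⟩
  set OP : Finset (ℕ × ℕ) := P ∪ P.image Prod.swap with hOP
  have hOPcard : OP.card ≤ 2 * P.card := by
    refine (card_union_le _ _).trans ?_
    have := card_image_le (s := P) (f := Prod.swap)
    omega
  have hHOP : ∀ x v, H x v → (c x, c v) ∈ OP := by
    intro x v h
    rw [hH] at h
    rw [hOP, mem_union, mem_image]
    rcases h.2 with h2 | h2
    · exact Or.inl h2.2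
    · exact Or.inr ⟨_, h2.2, rfl⟩
  have hz : ∀ o ∈ OP, ∃ z y : V, c z = o.1 ∧ c y = o.2 ∧ H z y ∧
      ∀ x v, c x = o.1 → c v = o.2 → H x v → pos z ≤ pos x := by
    intro o ho
    set T := univ.filter (fun x => c x = o.1 ∧ ∃ v, c v = o.2 ∧ H x v) with hT
    have hne : T.Nonempty := by
      rw [hOP, mem_union, mem_image] at ho
      rcases ho with ho | ⟨p, hp, rfl⟩
      · have h1 := hρ1 o ho
        have h2 := hρ2 o ho
        have h3 := (hPBm _).mp h1
        have h4 : c (ρ o).1 = o.1 := congrArg Prod.fst h2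
        have h5 : c (ρ o).2 = o.2 := congrArg Prod.snd h2
        refine ⟨(ρ o).1, ?_⟩
        rw [hT, mem_filter]
        refine ⟨mem_univ _, h4, (ρ o).2, h5, (hH _ _).mpr ⟨h3.1, Or.inl ⟨h3.2, ?_⟩⟩⟩
        rw [h4, h5]
        exact ho
      · have h1 := hρ1 p hp
        have h2 := hρ2 p hp
        have h3 := (hPBm _).mp h1
        have h4 : c (ρ p).1 = p.1 := congrArg Prod.fst h2
        have h5 : c (ρ p).2 = p.2 := congrArg Prod.snd h2
        refine ⟨(ρ p).2, ?_⟩
        rw [hT, mem_filter]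
        refine ⟨mem_univ _, h5, (ρ p).1, h4, (hH _ _).mpr ⟨h3.1.symm, Or.inr ⟨h3.2, ?_⟩⟩⟩
        rw [h4, h5]
        exact hp
    obtain ⟨z, hz, hmin⟩ := T.exists_min_image pos hne
    rw [hT, mem_filter] at hz
    obtain ⟨-, hz1, y, hy1, hy2⟩ := hz
    refine ⟨z, y, hz1, hy1, hy2, ?_⟩
    intro x v hx hv hxv
    apply hmin
    rw [hT, mem_filter]
    exact ⟨mem_univ _, hx, v, hv, hxv⟩
  choose! z y hz1 hy1 hzy hzmin using hz
  -- crossing at an arc
  have hcr : ∀ a b x v : V, c a = c x → pos a < pos x → c b ≠ c a → c v ≠ c x →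
      kap r (c x) (c b) < kap r (c x) (c v) → Crosses pos s(a, b) s(x, v) := by
    intro a b x v hax hpax hb hv hkap
    have hrb := hr b
    have hrv := hr v
    unfold kap at hkap
    split_ifs at hkap with h1 h2 h2
    · -- both after
      have g1 := hlt x b h1
      have g2 := hlt b v hkap
      exact crosses_of_sep (Or.inl ⟨hpax, g1, Or.inr g2⟩)
    · have g1 := hlt x b h1
      have g2 := hlt v a (by omega)
      exact crosses_of_sep (Or.inl ⟨hpax, g1, Or.inl g2⟩)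
    · omega
    · have g1 := hlt b v (by omega)
      have g2 := hlt v a (by omega)
      rw [Sym2.eq_swap (a := x) (b := v)]
      exact crosses_of_sep (Or.inr ⟨g1, g2, Or.inr hpax⟩)
  have hHne : ∀ x v, H x v → c v ≠ c x := by
    intro x v h
    rw [hH] at h
    rcases h.2 with h2 | h2 <;> omega
  -- bad pairs
  obtain ⟨bad, hbad⟩ : ∃ bad : V → V → Prop, ∀ x v, bad x v ↔ (H x v ∧ ∃ x' v', c x' = c x ∧
    pos x' < pos x ∧ H x' v' ∧ kap r (c x) (c v') < kap r (c x) (c v)) := ⟨_, fun _ _ => Iff.rfl⟩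
  have hbadcr : ∀ x v, bad x v → ∃ o ∈ OP, Crosses pos s(z o, y o) s(x, v) := by
    intro x v hb
    rw [hbad] at hb
    obtain ⟨h1, x', v', h2, h3, h4, h5⟩ := hb
    have ho : (c x, c v') ∈ OP := by
      rw [← h2]
      exact hHOP x' v' h4
    refine ⟨_, ho, ?_⟩
    have g1 := hz1 _ ho
    have g2 := hy1 _ ho
    have g3 := hzmin _ ho x' v' h2 rfl h4
    simp only at g1 g2
    refine hcr _ _ _ _ g1 (by omega) ?_ (hHne _ _ h1) ?_
    · exact hHne _ _ (hzy _ ho)
    · rw [g2]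
      exact h5
  have hD2 : (PB.filter (fun e => bad e.1 e.2 ∨ bad e.2 e.1)).card ≤ OP.card * k := by
    have hsub : PB.filter (fun e => bad e.1 e.2 ∨ bad e.2 e.1) ⊆
        OP.biUnion (fun o => PB.filter (fun e => Crosses pos s(z o, y o) s(e.1, e.2))) := by
      intro e he
      rw [mem_filter] at he
      rw [mem_biUnion]
      rcases he.2 with h | h
      · obtain ⟨o, ho, hcro⟩ := hbadcr _ _ h
        exact ⟨o, ho, mem_filter.mpr ⟨he.1, hcro⟩⟩
      · obtain ⟨o, ho, hcro⟩ := hbadcr _ _ h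
        rw [Sym2.eq_swap (a := e.2) (b := e.1)] at hcro
        exact ⟨o, ho, mem_filter.mpr ⟨he.1, hcro⟩⟩
    refine (card_le_card hsub).trans (card_biUnion_le_card_mul _ _ _ ?_)
    intro o ho
    exact hC _ _ ((hH _ _).mp (hzy o ho)).1
  -- good pairs
  obtain ⟨good, hgood⟩ : ∃ good : V → V → Prop, ∀ x v, good x v ↔
    (H x v ∧ ¬ bad x v ∧ ¬ bad v x) := ⟨_, fun _ _ => Iff.rfl⟩
  have hgH : ∀ x v, good x v → H x v := fun x v h => ((hgood _ _).mp h).1
  have hgsymm : ∀ x v, good x v → good v x := fun x v h => by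
    rw [hgood] at h ⊢
    exact ⟨hHsymm _ _ h.1, h.2.2, h.2.1⟩
  set GE := PB.filter (fun e => good e.1 e.2) with hGE
  have hsplit : PB.card ≤ (PB.filter (fun e => ty e ∉ P)).card +
      ((PB.filter (fun e => bad e.1 e.2 ∨ bad e.2 e.1)).card + GE.card) := by
    have hsub : PB ⊆ (PB.filter (fun e => ty e ∉ P)) ∪
        ((PB.filter (fun e => bad e.1 e.2 ∨ bad e.2 e.1)) ∪ GE) := by
      intro e he
      by_cases h1 : ty e ∈ P
      · by_cases h2 : bad e.1 e.2 ∨ bad e.2 e.1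
        · exact mem_union_right _ (mem_union_left _ (mem_filter.mpr ⟨he, h2⟩))
        · push Not at h2
          have h3 := (hPBm e).mp he
          refine mem_union_right _ (mem_union_right _ ?_)
          rw [hGE]
          exact mem_filter.mpr ⟨he, (hgood _ _).mpr
            ⟨(hH _ _).mpr ⟨h3.1, Or.inl ⟨h3.2, h1⟩⟩, h2.1, h2.2⟩⟩
      · exact mem_union_left _ (mem_filter.mpr ⟨he, h1⟩)
    refine (card_le_card hsub).trans ((card_union_le _ _).trans ?_)
    exact Nat.add_le_add_left (card_union_le _ _) _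
  -- the parts
  set GP : ℕ × ℕ → Finset (V × V) := fun p => GE.filter (fun e => ty e = p) with hGP
  have hGPm : ∀ p e, e ∈ GP p → e ∈ PB ∧ good e.1 e.2 ∧ c e.1 = p.1 ∧ c e.2 = p.2 := by
    intro p e he
    simp only [hGP] at he
    rw [mem_filter, hGE, mem_filter] at he
    exact ⟨he.1.1, he.1.2, congrArg Prod.fst he.2, congrArg Prod.snd he.2⟩
  have hGPmem : ∀ x v, good x v → c x < c v → (x, v) ∈ GP (c x, c v) := by
    intro x v hg hlt'
    simp only [hGP]
    rw [mem_filter, hGE, mem_filter]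
    exact ⟨⟨(hPBm _).mpr ⟨((hH _ _).mp (hgH _ _ hg)).1, hlt'⟩, hg⟩, rfl⟩
  have hGEcard : GE.card = ∑ p ∈ P, (GP p).card := by
    apply card_eq_sum_card_fiberwise
    intro e he
    rw [mem_coe, hGE, mem_filter] at he
    have h3 := (hPBm e).mp he.1
    have h4 := hgH _ _ he.2
    rw [hH] at h4
    rcases h4.2 with h | h
    · exact h.2
    · omega
  -- hulls
  set HX : ℕ × ℕ → Finset V := fun p => univ.filter (fun x =>
    ∃ e ∈ GP p, ∃ f ∈ GP p, pos e.1 ≤ pos x ∧ pos x ≤ pos f.1) with hHX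
  set HY : ℕ × ℕ → Finset V := fun p => univ.filter (fun x =>
    ∃ e ∈ GP p, ∃ f ∈ GP p, pos e.2 ≤ pos x ∧ pos x ≤ pos f.2) with hHY
  have hHXm : ∀ p x, x ∈ HX p ↔ ∃ e ∈ GP p, ∃ f ∈ GP p, pos e.1 ≤ pos x ∧ pos x ≤ pos f.1 := by
    intro p x
    simp only [hHX, mem_filter, mem_univ, true_and]
  have hHYm : ∀ p x, x ∈ HY p ↔ ∃ e ∈ GP p, ∃ f ∈ GP p, pos e.2 ≤ pos x ∧ pos x ≤ pos f.2 := by
    intro p x
    simp only [hHY, mem_filter, mem_univ, true_and]
  have hbetw : ∀ x1 x x2 : V, pos x1 ≤ pos x → pos x ≤ pos x2 → c x1 = c x2 → c x = c x1 := by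
    intro x1 x x2 h1 h2 h3
    have g1 : c x1 ≤ c x := by
      rcases Nat.lt_or_ge (pos x1) (pos x) with h | h
      · exact hc _ _ h
      · have : x1 = x := hpos (by omega)
        rw [this]
    have g2 : c x ≤ c x2 := by
      rcases Nat.lt_or_ge (pos x) (pos x2) with h | h
      · exact hc _ _ h
      · have : x = x2 := hpos (by omega)
        rw [this]
    omega
  -- incidences vertex / arc
  set S : Finset (V × ℕ) := (univ ×ˢ range r).filter (fun q => ∃ x1 v1 x2 v2, c x1 = c q.1 ∧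
    c x2 = c q.1 ∧ c v1 = q.2 ∧ c v2 = q.2 ∧ good x1 v1 ∧ good x2 v2 ∧ pos x1 ≤ pos q.1 ∧
    pos q.1 ≤ pos x2) with hS
  have hSm : ∀ x j, (x, j) ∈ S ↔ ∃ x1 v1 x2 v2, c x1 = c x ∧
    c x2 = c x ∧ c v1 = j ∧ c v2 = j ∧ good x1 v1 ∧ good x2 v2 ∧ pos x1 ≤ pos x ∧
    pos x ≤ pos x2 := by
    intro x j
    rw [hS, mem_filter, mem_product, mem_range]
    constructor
    · exact fun h => h.2
    · intro h
      refine ⟨⟨mem_univ _, ?_⟩, h⟩
      obtain ⟨x1, v1, x2, v2, h1, h2, h3, -⟩ := h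
      exact h3 ▸ hr v1
  set U : Finset V := S.image Prod.fst with hU
  have hScard : S.card ≤ U.card + OP.card := by
    set Sn := S.filter (fun q => ∃ j', (q.1, j') ∈ S ∧ kap r (c q.1) q.2 < kap r (c q.1) j') with hSn
    have hcs : S.card = (S.filter (fun q => ¬ ∃ j', (q.1, j') ∈ S ∧
        kap r (c q.1) q.2 < kap r (c q.1) j')).card + Sn.card := by
      rw [hSn, add_comm]
      exact (card_filter_add_card_filter_not _).symm
    rw [hcs]
    refine Nat.add_le_add ?_ ?_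
    · refine card_le_card_of_injOn Prod.fst ?_ ?_
      · intro q hq
        rw [mem_coe, mem_filter] at hq
        rw [mem_coe, hU]
        exact mem_image_of_mem _ hq.1
      · rintro ⟨x, j⟩ hx ⟨x', j'⟩ hx' h
        have h' : x = x' := h
        subst h'
        rw [mem_coe, mem_filter] at hx hx'
        obtain ⟨h1, h2⟩ := hx
        obtain ⟨h1', h2'⟩ := hx'
        simp only [not_exists, not_and] at h2 h2'
        have g1 := h2 j' h1'
        have g2 := h2' j h1
        obtain ⟨x1, v1, x2, v2, e1, e2, e3, e4, e5, e6, e7, e8⟩ := (hSm _ _).mp h1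
        obtain ⟨x1', v1', x2', v2', e1', e2', e3', e4', e5', e6', e7', e8'⟩ := (hSm _ _).mp h1'
        have q1 := hHne _ _ (hgH _ _ e5)
        have q2 := hHne _ _ (hgH _ _ e5')
        have q3 := hr v1
        have q4 := hr v1'
        unfold kap at g1 g2
        rw [Prod.mk.injEq]
        refine ⟨rfl, ?_⟩
        split_ifs at g1 g2 <;> omega
    · refine card_le_card_of_injOn (fun q => (c q.1, q.2)) ?_ ?_
      · rintro ⟨x, j⟩ hx
        rw [hSn, mem_coe, mem_filter] at hx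
        obtain ⟨x1, v1, x2, v2, e1, e2, e3, e4, e5, e6, e7, e8⟩ := (hSm _ _).mp hx.1
        have := hHOP _ _ (hgH _ _ e5)
        rw [e1, e3] at this
        exact this
      · have key : ∀ x j, (x, j) ∈ Sn → pos x = pos (z (c x, j)) := by
          intro x j hx
          rw [hSn, mem_filter] at hx
          obtain ⟨h1, j', h2, h3⟩ := hx
          obtain ⟨x1, v1, x2, v2, e1, e2, e3, e4, e5, e6, e7, e8⟩ := (hSm _ _).mp h1
          obtain ⟨x1', v1', x2', v2', e1', e2', e3', e4', e5', e6', e7', e8'⟩ := (hSm _ _).mp h2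
          have ho : (c x, j) ∈ OP := by
            rw [← e1, ← e3]
            exact hHOP _ _ (hgH _ _ e5)
          have g1 : pos (z (c x, j)) ≤ pos x1 := hzmin _ ho x1 v1 e1 e3 (hgH _ _ e5)
          have g2 := hz1 _ ho
          have g3 := hy1 _ ho
          simp only at g2 g3 h3
          by_contra hne
          apply ((hgood _ _).mp e6').2.1
          rw [hbad]
          have e7x : pos x1 ≤ pos x := e7
          have e8x : pos x ≤ pos x2' := e8'
          have g5 : pos (z (c x, j)) < pos x2' := by omega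
          refine ⟨hgH _ _ e6', z (c x, j), y (c x, j), by rw [g2, e2'], g5, hzy _ ho, ?_⟩
          rw [g3, e4', e2']
          exact h3
        rintro ⟨x, j⟩ hx ⟨x', j'⟩ hx' h
        simp only [Prod.mk.injEq] at h
        rw [mem_coe] at hx hx'
        have k1 := key x j hx
        have k2 := key x' j' hx'
        rw [← h.1, ← h.2] at k2
        rw [Prod.mk.injEq]
        exact ⟨hpos (by omega), h.2⟩
  have hHXc : ∀ p x, x ∈ HX p → c x = p.1 ∧ (x, p.2) ∈ S := by
    intro p x hx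
    rw [hHXm] at hx
    obtain ⟨e, he, f, hf, h1, h2⟩ := hx
    obtain ⟨-, g1, g2, g3⟩ := hGPm p e he
    obtain ⟨-, g1', g2', g3'⟩ := hGPm p f hf
    have h3 := hbetw _ _ _ h1 h2 (by rw [g2, g2'])
    refine ⟨by rw [h3, g2], (hSm _ _).mpr ⟨e.1, e.2, f.1, f.2, h3.symm, ?_, g3, g3', g1, g1',
      h1, h2⟩⟩
    rw [g2', h3, g2]
  have hHYc : ∀ p x, x ∈ HY p → c x = p.2 ∧ (x, p.1) ∈ S := by
    intro p x hx
    rw [hHYm] at hx
    obtain ⟨e, he, f, hf, h1, h2⟩ := hx
    obtain ⟨-, g1, g2, g3⟩ := hGPm p e he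
    obtain ⟨-, g1', g2', g3'⟩ := hGPm p f hf
    have h3 := hbetw _ _ _ h1 h2 (by rw [g3, g3'])
    refine ⟨by rw [h3, g3], (hSm _ _).mpr ⟨e.2, e.1, f.2, f.1, h3.symm, ?_, g2, g2',
      hgsymm _ _ g1, hgsymm _ _ g1', h1, h2⟩⟩
    rw [g3', h3, g3]
  have hparts : ∑ p ∈ P, ((HX p).card + (HY p).card) ≤ S.card := by
    have h1 : ∑ p ∈ P, (HX p).card ≤ (S.filter (fun q => c q.1 < q.2)).card := by
      rw [← card_sigma]
      refine card_le_card_of_injOn (fun q => (q.2, q.1.2)) ?_ ?_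
      · rintro ⟨p, x⟩ hq
        rw [mem_coe, mem_sigma] at hq
        have := hHXc p x hq.2
        have := hPlt p hq.1
        rw [mem_coe, mem_filter]
        simp only
        exact ⟨(hHXc p x hq.2).2, by omega⟩
      · rintro ⟨p, x⟩ hq ⟨p', x'⟩ hq' h
        rw [mem_coe, mem_sigma] at hq hq'
        simp only [Prod.mk.injEq] at h
        obtain ⟨rfl, h2⟩ := h
        have e1 := (hHXc p x hq.2).1
        have e2 := (hHXc p' x hq'.2).1
        have : p = p' := Prod.ext (by omega) h2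
        subst this
        rfl
    have h2 : ∑ p ∈ P, (HY p).card ≤ (S.filter (fun q => ¬ c q.1 < q.2)).card := by
      rw [← card_sigma]
      refine card_le_card_of_injOn (fun q => (q.2, q.1.1)) ?_ ?_
      · rintro ⟨p, x⟩ hq
        rw [mem_coe, mem_sigma] at hq
        have := hHYc p x hq.2
        have := hPlt p hq.1
        rw [mem_coe, mem_filter]
        simp only
        exact ⟨(hHYc p x hq.2).2, by omega⟩
      · rintro ⟨p, x⟩ hq ⟨p', x'⟩ hq' h
        rw [mem_coe, mem_sigma] at hq hq'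
        simp only [Prod.mk.injEq] at h
        obtain ⟨rfl, h2⟩ := h
        have e1 := (hHYc p x hq.2).1
        have e2 := (hHYc p' x hq'.2).1
        have : p = p' := Prod.ext h2 (by omega)
        subst this
        rfl
    rw [sum_add_distrib]
    refine (Nat.add_le_add h1 h2).trans ?_
    rw [card_filter_add_card_filter_not]
  -- conclusion
  have hOP2 : OP.card ≤ 4 * r := by omega
  refine ⟨P, GP, HX, HY, U, hPcard, hPlt, ?_, ?_, fun p _ => hHXm p, fun p _ => hHYm p, ?_,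
    hparts.trans (hScard.trans (by omega))⟩
  · rw [← hGEcard]
    have g1 : P.card * k ≤ 2 * r * k := Nat.mul_le_mul_right k hPcard
    have g2 : OP.card * k ≤ 4 * r * k := Nat.mul_le_mul_right k hOP2
    have g3 : 6 * k * r = 2 * r * k + 4 * r * k := by ring
    omega
  · intro p _ e he
    obtain ⟨g1, g2, g3, g4⟩ := hGPm p e he
    exact ⟨((hPBm e).mp g1).1, g3, g4⟩
  · intro x hx
    rw [hU, mem_image] at hx
    obtain ⟨⟨x', j⟩, hq, rfl⟩ := hx
    obtain ⟨x1, v1, x2, v2, e1, e2, e3, e4, e5, e6, e7, e8⟩ := (hSm _ _).mp hq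
    have h1 := (hH _ _).mp (hgH _ _ e5)
    simp only
    rw [e1, e3] at h1
    rcases h1.2 with ⟨h3, h4⟩ | ⟨h3, h4⟩
    · refine ⟨(c x', j), h4, Or.inl ?_⟩
      rw [hHXm]
      have k1 := hGPmem x1 v1 e5 (by omega)
      have k2 := hGPmem x2 v2 e6 (by omega)
      rw [e1, e3] at k1
      rw [e2, e4] at k2
      exact ⟨_, k1, _, k2, e7, e8⟩
    · refine ⟨(j, c x'), h4, Or.inr ?_⟩
      rw [hHYm]
      have k1 := hGPmem v1 x1 (hgsymm _ _ e5) (by omega)
      have k2 := hGPmem v2 x2 (hgsymm _ _ e6) (by omega)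
      rw [e1, e3] at k1
      rw [e2, e4] at k2
      exact ⟨_, k1, _, k2, e7, e8⟩

end Pool.Agent.MP_df3d6f_co
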