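import Mathlib
import Pool.Agent.MP_df3d6f_co.Near2

namespace Pool.Agent.MP_df3d6f_co

open Finset

/-- `G` has a drawing with its vertices in convex position (in the cyclic order given by `pos`) and
straight edges, in which every edge is crossed by at most `k` other edges and every side of the
convex polygon is an edge of `G`.  The outer boundary of the drawing is then this polygon, and no
crossing lies on it. -/
def FullyOuter {V : Type*} (k : ℕ) (G : SimpleGraph V) : Prop :=
  ∃ pos : V → ℕ, Function.Injective pos ∧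
    (∀ e ∈ G.edgeSet, {f ∈ G.edgeSet | Crosses pos e f}.ncard ≤ k) ∧
    ∀ a b : V, pos a < pos b →
      ((∀ v, ¬ (pos a < pos v ∧ pos v < pos b)) ∨ (∀ v, pos a ≤ pos v ∧ pos v ≤ pos b)) →
      G.Adj a b

/-- `m` is the maximum number of edges of an outer `k`-planar graph on `n` vertices and also the
maximum number of edges of a fully-outer `k`-planar graph on `n` vertices. -/
def MaxEdges (k n m : ℕ) : Prop :=
  IsGreatest {x | ∃ G : SimpleGraph (Fin n), OuterKPlanar k G ∧ G.edgeSet.ncard = x} m ∧
  IsGreatest {x | ∃ G : SimpleGraph (Fin n), FullyOuter k G ∧ G.edgeSet.ncard = x} m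

lemma maxEdges_of {k n m : ℕ}
    (hup : ∀ E : Finset (ℕ × ℕ), Good k (range n) E → E.card ≤ m)
    {F : Finset (ℕ × ℕ)} (hF : F ⊆ allp n) (hgood : Good k (range n) (allp n \ F))
    (hcard : n.choose 2 = m + F.card)
    (hbd : ∀ a b, (a, b) ∈ F → b ≠ a + 1 ∧ ¬ (a = 0 ∧ b + 1 = n)) : MaxEdges k n m := by
  have hc : (allp n \ F).card = m := by
    rw [card_sdiff_of_subset hF, card_allp, hcard, Nat.add_sub_cancel]
  have hdr := drawn_gr hgood
  have hm : (gr n (allp n \ F)).edgeSet.ncard = m := by
    rw [card_gr hgood, hc]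
  have hO : OuterKPlanar k (gr n (allp n \ F)) := ⟨_, val_inj n, hdr⟩
  have hFO : FullyOuter k (gr n (allp n \ F)) := by
    refine ⟨_, val_inj n, hdr, ?_⟩
    intro a b hab hor
    have hab' : (a : ℕ) < b := hab
    have hb := b.2
    refine Or.inl ⟨hab', ?_⟩
    rw [mem_sdiff, mem_allp]
    refine ⟨⟨hab', hb⟩, ?_⟩
    intro hmem
    obtain ⟨h1, h2⟩ := hbd _ _ hmem
    rcases hor with hor | hor
    · have := hor ⟨(a : ℕ) + 1, by omega⟩
      simp only at this
      omega
    · have g1 := (hor ⟨0, by omega⟩).1
      have g2 := (hor ⟨n - 1, by omega⟩).2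
      simp only at g1 g2
      omega
  have hupper : ∀ x, (∃ G : SimpleGraph (Fin n), OuterKPlanar k G ∧ G.edgeSet.ncard = x) →
      x ≤ m := by
    rintro x ⟨G, hG, rfl⟩
    obtain ⟨E, hE, hEc⟩ := outer_good hG
    rw [← hEc]
    exact hup E hE
  refine ⟨⟨⟨_, hO, hm⟩, fun x hx => hupper x hx⟩, ⟨⟨_, hFO, hm⟩, ?_⟩⟩
  rintro x ⟨G, ⟨pos, h1, h2, _⟩, hx⟩
  exact hupper x ⟨G, ⟨pos, h1, h2⟩, hx⟩

lemma card_le_of_missing {n s : ℕ} {k : ℕ} {E : Finset (ℕ × ℕ)} (h : Good k (range n) E)
    (hs : s ≤ (allp n \ E).card) : E.card ≤ n.choose 2 - s := by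
  rw [card_sdiff_of_subset (good_sub h), card_allp] at hs
  have := card_le_card (good_sub h)
  rw [card_allp] at this
  omega

lemma maxEdges_complete {k n : ℕ} (h : ∀ x y : ℕ, x + y + 2 = n → x * y ≤ k) :
    MaxEdges k n (n.choose 2) := by
  refine maxEdges_of (F := ∅) ?_ (empty_subset _) ?_ ?_ ?_
  · intro E hE
    have := card_le_card (good_sub hE)
    rw [card_allp] at this
    exact this
  · apply good_of_missing (empty_subset _)
    intro a b hab hb _
    have := h (b - a - 1) (n - 1 - (b - a)) (by omega)
    simpa using this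
  · simp
  · intro a b hab
    exact absurd hab (notMem_empty _)

lemma choose_ge {n s : ℕ} (h : 2 * s ≤ n) (hn : 2 ≤ n) : s ≤ n.choose 2 := by
  have h1 : n * (n - 1) / 2 = n.choose 2 := (Nat.choose_two_right n).symm
  rw [← h1, Nat.le_div_iff_mul_le (by norm_num)]
  obtain ⟨c, rfl⟩ : ∃ c, n = c + 2 := ⟨n - 2, by omega⟩
  have e : c + 2 - 1 = c + 1 := by omega
  rw [e]
  nlinarith

/-- For every `k ≥ 0`, with `s = ⌊√k⌋`, the exact maximum number of edges of outer `k`-planar
and of fully-outer `k`-planar graphs on `n` vertices for every `n` up to the first one for which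
the complete graph is not outer `k`-planar.  (Not a hand-in: no slot.) -/
theorem exact_small (k s : ℕ) (hs1 : s ^ 2 ≤ k) (hs2 : k < (s + 1) ^ 2) :
    (s * (s + 1) ≤ k →
      (∀ n ≤ 2 * s + 3, MaxEdges k n (n.choose 2)) ∧
      MaxEdges k (2 * s + 4) ((2 * s + 4).choose 2 - (((s + 1) ^ 2 - k) +
        if 2 * ((s + 1) ^ 2 - k) ≤ s + 2 then 0 else 1))) ∧
    (k < s * (s + 1) →
      (∀ n ≤ 2 * s + 2, MaxEdges k n (n.choose 2)) ∧
      MaxEdges k (2 * s + 3) ((2 * s + 3).choose 2 - (s * (s + 1) - k + 1))) := by
  refine ⟨?_, ?_⟩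
  · intro hk
    refine ⟨?_, ?_⟩
    · intro n hn
      apply maxEdges_complete
      intro x y hxy
      refine le_trans ?_ hk
      rcases Nat.le_total x y with h | h
      · have hx : x ≤ s := by omega
        obtain ⟨c, rfl⟩ : ∃ c, s = x + c := ⟨s - x, by omega⟩
        have hy : y ≤ x + 2 * c + 1 := by omega
        nlinarith
      · have hy : y ≤ s := by omega
        obtain ⟨c, rfl⟩ : ∃ c, s = y + c := ⟨s - y, by omega⟩
        have hx : x ≤ y + 2 * c + 1 := by omega
        nlinarith
    · -- even case, d = s + 1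
      obtain ⟨t, ht⟩ : ∃ t, (s + 1) ^ 2 - k = t := ⟨_, rfl⟩
      have ht1 : 1 ≤ t := by omega
      have htd : t ≤ s + 1 := by
        have : (s + 1) ^ 2 = s * (s + 1) + (s + 1) := by ring
        omega
      have hkt : k = (s + 1) ^ 2 - t := by omega
      rw [ht, hkt]
      have en : 2 * s + 4 = 2 * (s + 1) + 2 := by ring
      have es : s + 2 = (s + 1) + 1 := by ring
      rw [en, es]
      set ε := (if 2 * t ≤ s + 1 + 1 then 0 else 1 : ℕ) with hε
      have hch : t + ε ≤ (2 * (s + 1) + 2).choose 2 := by
        apply choose_ge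
        · rw [hε]; split_ifs <;> omega
        · omega
      -- the set of removed diameters
      obtain ⟨S, hS1, hS2, hS3⟩ : ∃ S : Finset ℕ, S ⊆ range (s + 1 + 1) ∧ S.card = t + ε ∧
          (S.card = t + 1 ∨ (S.card = t ∧ ∀ i ∈ S, i % 2 = 0 ∧ i < s + 1)) := by
        by_cases h2 : 2 * t ≤ s + 1 + 1
        · have hε0 : ε = 0 := by rw [hε, if_pos h2]
          have hc : ((range t).image (fun i => 2 * i)).card = t := by
            rw [card_image_of_injective, card_range]
            intro i j hij
            have hij' : 2 * i = 2 * j := hij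
            omega
          refine ⟨(range t).image (fun i => 2 * i), ?_, by rw [hc, hε0, add_zero], Or.inr ⟨hc, ?_⟩⟩
          · intro i hi
            rw [mem_image] at hi
            obtain ⟨j, hj, rfl⟩ := hi
            rw [mem_range] at hj ⊢
            omega
          · intro i hi
            rw [mem_image] at hi
            obtain ⟨j, hj, rfl⟩ := hi
            rw [mem_range] at hj
            omega
        · have hε1 : ε = 1 := by rw [hε, if_neg h2]
          refine ⟨range (t + 1), ?_, by rw [card_range, hε1], Or.inl (card_range _)⟩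
          intro i hi
          rw [mem_range] at hi ⊢
          omega
      have hinj : Function.Injective (fun i : ℕ => (i, i + (s + 1) + 1)) :=
        fun i j hij => (Prod.mk.inj hij).1
      refine maxEdges_of (F := S.image (fun i => (i, i + (s + 1) + 1))) ?_ ?_
        (even_good hS1 htd (by omega) hS3) ?_ ?_
      · intro E hE
        exact card_le_of_missing hE (even_upper ht1 htd hE)
      · intro f hf
        rw [mem_image] at hf
        obtain ⟨i, hi, rfl⟩ := hf
        have := mem_range.mp (hS1 hi)
        rw [mem_allp]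
        omega
      · rw [card_image_of_injective _ hinj, hS2]
        omega
      · intro a b hab
        rw [mem_image] at hab
        obtain ⟨i, hi, h⟩ := hab
        rw [Prod.mk.injEq] at h
        omega
  · intro hk
    refine ⟨?_, ?_⟩
    · intro n hn
      apply maxEdges_complete
      intro x y hxy
      refine le_trans ?_ hs1
      rcases Nat.le_total x y with h | h
      · have hx : x ≤ s := by omega
        obtain ⟨c, rfl⟩ : ∃ c, s = x + c := ⟨s - x, by omega⟩
        have hy : y ≤ x + 2 * c := by omega
        nlinarith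
      · have hy : y ≤ s := by omega
        obtain ⟨c, rfl⟩ : ∃ c, s = y + c := ⟨s - y, by omega⟩
        have hx : x ≤ y + 2 * c := by omega
        nlinarith
    · -- odd case, d = s + 1
      obtain ⟨t, ht⟩ : ∃ t, s * (s + 1) - k = t := ⟨_, rfl⟩
      have ht1 : 1 ≤ t := by omega
      have htd : t + 1 ≤ s + 1 := by
        have : s * (s + 1) = s ^ 2 + s := by ring
        omega
      have hkt : k = (s + 1) * (s + 1 - 1) - t := by
        rw [Nat.add_sub_cancel, mul_comm]
        omega
      rw [ht, hkt]
      have en : 2 * s + 3 = 2 * (s + 1) + 1 := by ring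
      rw [en]
      have hch : t + 1 ≤ (2 * (s + 1) + 1).choose 2 := by
        apply choose_ge <;> omega
      refine maxEdges_of (F := oddF (s + 1) ((t + 2) / 2) ((t + 1) / 2)) ?_ ?_
        (odd_good ht1 htd) ?_ ?_
      · intro E hE
        exact card_le_of_missing hE (odd_upper ht1 htd hE)
      · intro f hf
        obtain ⟨q, h | h⟩ := mem_oddF hf
        · rw [h.1, mem_allp]
          omega
        · rw [h.1, mem_allp]
          omega
      · rw [card_oddF]
        omega
      · intro a b hab
        obtain ⟨q, h | h⟩ := mem_oddF hab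
        · have := h.1
          rw [Prod.mk.injEq] at this
          omega
        · have := h.1
          rw [Prod.mk.injEq] at this
          omega

end Pool.Agent.MP_df3d6f_co
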