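import Mathlib
import Pool.Agent.MP_df3d6f_co.Defs
import Pool.Agent.MP_df3d6f_co.Trans

namespace Pool.Agent.MP_df3d6f_co

open Finset

lemma alt_of_crosses {V : Type*} {pos : V → ℕ} {i j c d : V}
    (hij : pos i < pos j) (hcd : pos c < pos d) (h : Crosses pos s(i, j) s(c, d)) :
    Alt (pos i, pos j) (pos c, pos d) := by
  obtain ⟨a, b, c', d', h1, h2, h3⟩ := h
  rw [Sym2.eq_iff] at h1 h2
  unfold Alt
  simp only
  rcases h1 with ⟨rfl, rfl⟩ | ⟨rfl, rfl⟩ <;> rcases h2 with ⟨rfl, rfl⟩ | ⟨rfl, rfl⟩ <;> omega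

/-- the extremal pattern -/
def adjN (a b : ℕ) : Prop := a < b ∧ (a = 0 ∨ b ≤ 3 * ((a - 1) / 3) + 4)

instance : DecidableRel adjN := fun _ _ => by unfold adjN; infer_instance

lemma adjN_cross (i j : ℕ) (h : adjN i j) : ∃ p q : ℕ × ℕ, ∀ c d : ℕ, adjN c d →
    Alt (i, j) (c, d) → (c, d) = p ∨ (c, d) = q := by
  unfold adjN at h
  by_cases hi : i = 0
  · subst hi
    by_cases h2 : j % 3 = 2
    · refine ⟨(j - 1, j + 1), (j - 1, j + 2), fun c d hcd hA => ?_⟩
      unfold adjN at hcd
      simp only [Alt, Prod.mk.injEq] at hA ⊢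
      omega
    · refine ⟨(j - 2, j + 1), (j - 1, j + 1), fun c d hcd hA => ?_⟩
      unfold adjN at hcd
      simp only [Alt, Prod.mk.injEq] at hA ⊢
      omega
  · by_cases h1 : i % 3 = 1
    · by_cases h3 : j = i + 2
      · refine ⟨(i + 1, i + 3), (0, i + 1), fun c d hcd hA => ?_⟩
        unfold adjN at hcd
        simp only [Alt, Prod.mk.injEq] at hA ⊢
        omega
      · refine ⟨(0, i + 1), (0, i + 2), fun c d hcd hA => ?_⟩
        unfold adjN at hcd
        simp only [Alt, Prod.mk.injEq] at hA ⊢
        omega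
    · refine ⟨(0, i + 1), (i - 1, i + 1), fun c d hcd hA => ?_⟩
      unfold adjN at hcd
      simp only [Alt, Prod.mk.injEq] at hA ⊢
      omega

/-- number of pairs of the pattern among the first `n` vertices -/
def patPairs (n : ℕ) : Finset (ℕ × ℕ) :=
  (range n ×ˢ range n).filter (fun p => adjN p.1 p.2)

lemma patPairs_succ (n : ℕ) : patPairs (n + 1) =
    patPairs n ∪ ((range n).filter (fun a => adjN a n)).image (fun a => (a, n)) := by
  ext ⟨a, b⟩
  simp only [patPairs, Finset.mem_filter, Finset.mem_product, Finset.mem_range, Finset.mem_union,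
    Finset.mem_image, Prod.mk.injEq]
  constructor
  · rintro ⟨⟨h1, h2⟩, h3⟩
    by_cases hb : b = n
    · right
      subst hb
      exact ⟨a, ⟨by unfold adjN at h3; omega, h3⟩, rfl, rfl⟩
    · left
      exact ⟨⟨by unfold adjN at h3; omega, by omega⟩, h3⟩
  · rintro (⟨⟨h1, h2⟩, h3⟩ | ⟨c, ⟨h1, h2⟩, rfl, rfl⟩)
    · exact ⟨⟨by omega, by omega⟩, h3⟩
    · exact ⟨⟨by omega, by omega⟩, h2⟩

lemma card_patPairs_succ (n : ℕ) : (patPairs (n + 1)).card =
    (patPairs n).card + ((range n).filter (fun a => adjN a n)).card := by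
  rw [patPairs_succ, Finset.card_union_of_disjoint, Finset.card_image_of_injective]
  · intro a b h
    simpa using h
  · rw [Finset.disjoint_left]
    rintro ⟨a, b⟩ h1 h2
    simp only [patPairs, Finset.mem_filter, Finset.mem_product, Finset.mem_range,
      Finset.mem_image, Prod.mk.injEq] at h1 h2
    obtain ⟨c, -, -, h3⟩ := h2
    omega

lemma card_new (n : ℕ) (hn : 2 ≤ n) : ((range n).filter (fun a => adjN a n)).card =
    if n % 3 = 2 then 2 else if n % 3 = 0 then 3 else 4 := by
  by_cases h2 : n % 3 = 2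
  · rw [if_pos h2]
    have : (range n).filter (fun a => adjN a n) = {0, n - 1} := by
      ext a
      rw [Finset.mem_filter, Finset.mem_range]
      simp only [Finset.mem_insert, Finset.mem_singleton]
      unfold adjN
      omega
    rw [this, Finset.card_pair (by omega)]
  · rw [if_neg h2]
    by_cases h0 : n % 3 = 0
    · rw [if_pos h0]
      have : (range n).filter (fun a => adjN a n) = {0, n - 2, n - 1} := by
        ext a
        rw [Finset.mem_filter, Finset.mem_range]
        simp only [Finset.mem_insert, Finset.mem_singleton]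
        unfold adjN
        omega
      rw [this, Finset.card_insert_of_notMem, Finset.card_pair (by omega)]
      simp only [Finset.mem_insert, Finset.mem_singleton]
      omega
    · rw [if_neg h0]
      have : (range n).filter (fun a => adjN a n) = {0, n - 3, n - 2, n - 1} := by
        ext a
        rw [Finset.mem_filter, Finset.mem_range]
        simp only [Finset.mem_insert, Finset.mem_singleton]
        unfold adjN
        omega
      rw [this, Finset.card_insert_of_notMem, Finset.card_insert_of_notMem,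
        Finset.card_pair (by omega)]
      · simp only [Finset.mem_insert, Finset.mem_singleton]
        omega
      · simp only [Finset.mem_insert, Finset.mem_singleton]
        omega

lemma card_patPairs (n : ℕ) (hn : 2 ≤ n) : (patPairs n).card =
    if n % 3 = 2 then 3 * n - 5 else 3 * n - 6 := by
  induction n, hn using Nat.le_induction with
  | base => decide
  | succ n hn ih =>
    rw [card_patPairs_succ, card_new n hn, ih]
    split_ifs <;> omega

/-- the extremal graph -/
def patGraph (n : ℕ) : SimpleGraph (Fin n) :=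
  SimpleGraph.fromRel (fun i j => adjN i.val j.val)

lemma patGraph_adj {n : ℕ} {i j : Fin n} (h : i.val < j.val) :
    (patGraph n).Adj i j ↔ adjN i.val j.val := by
  unfold patGraph
  rw [SimpleGraph.fromRel_adj]
  constructor
  · rintro ⟨-, h1 | h1⟩
    · exact h1
    · exact absurd h1.1 (not_lt.mpr h.le)
  · intro h1
    exact ⟨fun h2 => by subst h2; exact absurd h (lt_irrefl _), Or.inl h1⟩

lemma eset_patGraph (n : ℕ) : eset (fun i : Fin n => i.val) (patGraph n) = patPairs n := by
  classical
  have hinj : Function.Injective (fun i : Fin n => i.val) := Fin.val_injective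
  ext ⟨a, b⟩
  unfold eset patPairs
  simp only [Finset.mem_image, Set.Finite.mem_toFinset, Finset.mem_filter, Finset.mem_product,
    Finset.mem_range]
  constructor
  · rintro ⟨e, he, h⟩
    obtain ⟨i, j, rfl, hij, hadj⟩ := exists_rep hinj he
    rw [phi_mk _ _ _ hij] at h
    simp only [Prod.mk.injEq] at h
    obtain ⟨rfl, rfl⟩ := h
    exact ⟨⟨i.isLt, j.isLt⟩, (patGraph_adj hij).mp hadj⟩
  · rintro ⟨⟨ha, hb⟩, hab⟩
    have hlt : a < b := hab.1
    refine ⟨s(⟨a, ha⟩, ⟨b, hb⟩), ?_, ?_⟩
    · rw [SimpleGraph.mem_edgeSet]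
      exact (patGraph_adj hlt).mpr hab
    · rw [phi_mk _ _ _ hlt]

lemma card_patGraph (n : ℕ) (hn : 2 ≤ n) : (patGraph n).edgeSet.ncard =
    if n % 3 = 2 then 3 * n - 5 else 3 * n - 6 := by
  rw [← card_eset (pos := fun i : Fin n => i.val) Fin.val_injective, eset_patGraph,
    card_patPairs n hn]

lemma outer_patGraph (n : ℕ) : OuterKPlanar 2 (patGraph n) := by
  classical
  have hinj : Function.Injective (fun i : Fin n => i.val) := Fin.val_injective
  refine ⟨fun i => i.val, hinj, ?_⟩
  intro e he
  obtain ⟨i, j, rfl, hij, hadj⟩ := exists_rep hinj he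
  obtain ⟨p, q, hpq⟩ := adjN_cross i.val j.val ((patGraph_adj hij).mp hadj)
  rw [← Set.ncard_image_of_injective _ (phi_injective hinj)]
  have hsub : phi (fun i : Fin n => i.val) ''
      {f ∈ (patGraph n).edgeSet | Crosses (fun i : Fin n => i.val) s(i, j) f} ⊆
      (({p, q} : Finset (ℕ × ℕ)) : Set (ℕ × ℕ)) := by
    rintro _ ⟨f, ⟨hf, hcr⟩, rfl⟩
    obtain ⟨c, d, rfl, hcd, hadj'⟩ := exists_rep hinj hf
    rw [phi_mk _ _ _ hcd]
    have hA := alt_of_crosses hij hcd hcr
    have := hpq c.val d.val ((patGraph_adj hcd).mp hadj') hA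
    simpa using this
  refine (Set.ncard_le_ncard hsub (Finset.finite_toSet _)).trans ?_
  rw [Set.ncard_coe_finset]
  exact Finset.card_le_two

end Pool.Agent.MP_df3d6f_co
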