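import Mathlib
import Pool.Agent.MP_df3d6f_co.Bound

namespace Pool.Agent.MP_df3d6f_co

open Finset

/-- The extremal number for `k = 2`. -/
def hh (n : ℕ) : ℕ := if n % 3 = 2 then 3 * n - 5 else 3 * n - 6

lemma hh_step2 {n : ℕ} (h : 4 ≤ n) : hh (n - 2) + 5 ≤ hh n := by
  unfold hh; split_ifs <;> omega

lemma hh_step1 {n : ℕ} (h : 3 ≤ n) : hh (n - 1) + 2 ≤ hh n := by
  unfold hh; split_ifs <;> omega

lemma hh_step3 {n : ℕ} (h : 5 ≤ n) : hh (n - 3) + 9 ≤ hh n := by
  unfold hh; split_ifs <;> omega

lemma hh_step4 {n j : ℕ} (h : j + 2 ≤ n) (hj : 4 ≤ j) : hh (n - j) + (2 * j + 3) ≤ hh n := by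
  unfold hh; split_ifs <;> omega

lemma hh_split {a c n : ℕ} (ha : 2 ≤ a) (hc : 2 ≤ c) (h : a + c + 1 = n) :
    hh a + hh c + 8 ≤ hh n := by
  unfold hh; split_ifs <;> omega

/-- adding pairs that alternate with nothing -/
lemma Good.union_free {k : ℕ} {V : Finset ℕ} {E N : Finset (ℕ × ℕ)} (h : Good k V E)
    (hN : ∀ e ∈ N, e.1 ∈ V ∧ e.2 ∈ V ∧ e.1 < e.2)
    (hfree : ∀ e ∈ N, ∀ f : ℕ × ℕ, f.1 ∈ V → f.2 ∈ V → f.1 < f.2 → ¬ Alt e f) :
    Good k V (E ∪ N) := by
  have hmem : ∀ e ∈ E ∪ N, e.1 ∈ V ∧ e.2 ∈ V ∧ e.1 < e.2 := by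
    intro e he
    rcases Finset.mem_union.mp he with he | he
    · exact h.mem e he
    · exact hN e he
  have hsymm : ∀ e f : ℕ × ℕ, Alt e f → Alt f e := by
    intro e f hA
    rcases hA with hA | hA
    · exact Or.inr hA
    · exact Or.inl hA
  refine ⟨hmem, ?_⟩
  intro e he
  rcases Finset.mem_union.mp he with heE | heN
  · have : (E ∪ N).filter (Alt e) ⊆ E.filter (Alt e) := by
      intro f hf
      rw [Finset.mem_filter] at hf ⊢
      refine ⟨?_, hf.2⟩
      rcases Finset.mem_union.mp hf.1 with hfE | hfN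
      · exact hfE
      · obtain ⟨h1, h2, h3⟩ := h.mem e heE
        exact absurd (hsymm _ _ hf.2) (hfree f hfN e h1 h2 h3)
    exact (Finset.card_le_card this).trans (h.cr e heE)
  · have : (E ∪ N).filter (Alt e) = ∅ := by
      rw [Finset.filter_eq_empty_iff]
      intro f hf
      obtain ⟨h1, h2, h3⟩ := hmem f hf
      exact hfree e heN f h1 h2 h3
    rw [this]
    simp

/-- consecutive pairs -/
def sides (V : Finset ℕ) : Finset (ℕ × ℕ) :=
  (V ×ˢ V).filter (fun e => e.1 < e.2 ∧ btw V e = ∅)

lemma Good.union_sides {k : ℕ} {V : Finset ℕ} {E : Finset (ℕ × ℕ)} (h : Good k V E) :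
    Good k V (E ∪ sides V) := by
  refine h.union_free ?_ ?_
  · intro e he
    simp only [sides, Finset.mem_filter, Finset.mem_product] at he
    exact ⟨he.1.1, he.1.2, he.2.1⟩
  · intro e he f h1 h2 h3 hA
    simp only [sides, Finset.mem_filter, Finset.mem_product] at he
    have hemp := he.2.2
    rcases hA with hA | hA
    · have : f.1 ∈ btw V e := by
        simp only [btw, Finset.mem_filter]
        exact ⟨h1, hA.1, hA.2.1⟩
      rw [hemp] at this
      simp at this
    · have : f.2 ∈ btw V e := by
        simp only [btw, Finset.mem_filter]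
        exact ⟨h2, hA.2.1, hA.2.2⟩
      rw [hemp] at this
      simp at this

lemma split_card {F : Finset (ℕ × ℕ)} {A C : Finset ℕ} {e0 : ℕ × ℕ}
    (hE : ∀ e ∈ F, e = e0 ∨ (e.1 ∈ A ∧ e.2 ∈ A) ∨ (e.1 ∈ C ∧ e.2 ∈ C)) :
    F.card ≤ 1 + (F.filter (fun e => e.1 ∈ A ∧ e.2 ∈ A)).card +
      (F.filter (fun e => e.1 ∈ C ∧ e.2 ∈ C)).card := by
  have hsub : F ⊆ {e0} ∪ F.filter (fun e => e.1 ∈ A ∧ e.2 ∈ A) ∪
      F.filter (fun e => e.1 ∈ C ∧ e.2 ∈ C) := by
    intro e he
    rw [Finset.mem_union, Finset.mem_union, Finset.mem_singleton, Finset.mem_filter,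
      Finset.mem_filter]
    rcases hE e he with h | h | h
    · left; left; exact h
    · left; right; exact ⟨he, h⟩
    · right; exact ⟨he, h⟩
  refine (Finset.card_le_card hsub).trans ((Finset.card_union_le _ _).trans ?_)
  refine Nat.add_le_add_right ((Finset.card_union_le _ _).trans ?_) _
  simp

set_option maxHeartbeats 4000000 in
theorem two_upper : ∀ (n : ℕ) (V : Finset ℕ) (E : Finset (ℕ × ℕ)), V.card = n → 2 ≤ n →
    Good 2 V E → E.card ≤ hh n := by
  intro n
  induction n using Nat.strong_induction_on with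
  | _ n ih =>
  intro V E hV hn hG
  by_cases hsmall : n ≤ 4
  · have h4 := hG.card_le_choose
    rw [hV] at h4
    interval_cases n <;> simp [hh] at h4 ⊢ <;> omega
  push Not at hsmall
  have hVne : V.Nonempty := by rw [← Finset.card_pos]; omega
  set a := V.min' hVne with ha
  set b := V.max' hVne with hb
  have haV : a ∈ V := V.min'_mem hVne
  have hbV : b ∈ V := V.max'_mem hVne
  have hmin : ∀ c ∈ V, a ≤ c := fun c hc => V.min'_le c hc
  have hmax : ∀ c ∈ V, c ≤ b := fun c hc => V.le_max' c hc
  have hab : a < b := by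
    rcases lt_or_eq_of_le (hmin b hbV) with h | h
    · exact h
    · exfalso
      have : V ⊆ {a} := by
        intro c hc
        rw [Finset.mem_singleton]
        exact le_antisymm (h ▸ hmax c hc) (hmin c hc)
      have := Finset.card_le_card this
      simp at this
      omega
  set F := insert (a, b) E ∪ sides V with hF
  have hGF : Good 2 V F := (hG.insert_minmax haV hbV hab hmin hmax).union_sides
  have hEF : E.card ≤ F.card := Finset.card_le_card
    ((Finset.subset_insert _ _).trans Finset.subset_union_left)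
  refine hEF.trans ?_
  have hbtw_ab : (btw V (a, b)).card = n - 2 := by
    have : btw V (a, b) = (V.erase a).erase b := by
      ext c
      simp only [btw, Finset.mem_filter, Finset.mem_erase]
      constructor
      · rintro ⟨h1, h2, h3⟩
        exact ⟨ne_of_lt h3, ne_of_gt h2, h1⟩
      · rintro ⟨h1, h2, h3⟩
        exact ⟨h3, lt_of_le_of_ne (hmin c h3) (Ne.symm h2), lt_of_le_of_ne (hmax c h3) h1⟩
    rw [this, Finset.card_erase_of_mem (Finset.mem_erase.mpr ⟨hab.ne', hbV⟩),
      Finset.card_erase_of_mem haV, hV]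
    omega
  set L := F.filter (fun e => 2 ≤ (btw V e).card) with hL
  have hLne : L.Nonempty := by
    refine ⟨(a, b), ?_⟩
    rw [hL, Finset.mem_filter]
    refine ⟨Finset.mem_union_left _ (Finset.mem_insert_self _ _), ?_⟩
    rw [hbtw_ab]; omega
  obtain ⟨e0, he0, he0min⟩ := Finset.exists_min_image L (fun e => (btw V e).card) hLne
  rw [hL, Finset.mem_filter] at he0
  obtain ⟨he0F, he0s⟩ := he0
  obtain ⟨hx, hy, hxy⟩ := hGF.mem e0 he0F
  obtain ⟨x, y⟩ := e0
  simp only at hx hy hxy
  set J := btw V (x, y) with hJ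
  set j := J.card with hj
  have hJV : J ⊆ V := Finset.filter_subset _ _
  have hmemJ : ∀ c, c ∈ V → (c ∈ J ↔ x < c ∧ c < y) := by
    intro c hc
    simp [hJ, btw, hc]
  set V' := V \ J with hV'
  set F' := F.filter (fun e => e.1 ∉ J ∧ e.2 ∉ J) with hF'
  have hxJ' : x ∉ J := by simp [hJ, btw]
  have hyJ' : y ∉ J := by simp [hJ, btw]
  have hxV' : x ∈ V' := Finset.mem_sdiff.mpr ⟨hx, hxJ'⟩
  have hyV' : y ∈ V' := Finset.mem_sdiff.mpr ⟨hy, hyJ'⟩
  have hcardV' : V'.card = n - j := by
    rw [hV', Finset.card_sdiff_of_subset hJV, hV]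
  have h2V' : 2 ≤ V'.card := by
    have : ({x, y} : Finset ℕ) ⊆ V' := by
      intro c hc
      simp only [Finset.mem_insert, Finset.mem_singleton] at hc
      rcases hc with rfl | rfl
      · exact hxV'
      · exact hyV'
    have h := Finset.card_le_card this
    rwa [Finset.card_pair hxy.ne] at h
  have hjn : j + 2 ≤ n := by
    have := Finset.card_le_card hJV
    omega
  have hF'mem : ∀ e ∈ F', e.1 ∈ V' ∧ e.2 ∈ V' := by
    intro e he
    rw [hF', Finset.mem_filter] at he
    obtain ⟨h1, h2, h3⟩ := he
    obtain ⟨h4, h5, -⟩ := hGF.mem e h1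
    exact ⟨Finset.mem_sdiff.mpr ⟨h4, h2⟩, Finset.mem_sdiff.mpr ⟨h5, h3⟩⟩
  have hGF' : Good 2 V' F' := hGF.mono (Finset.filter_subset _ _) hF'mem
  have hIH := ih (n - j) (by omega) V' F' hcardV' (by omega) hGF'
  set U := insert x (insert y J) with hU
  have hxJ : x ∉ insert y J := by
    rw [Finset.mem_insert]
    push Not
    exact ⟨hxy.ne, hxJ'⟩
  have hUcard : U.card = j + 2 := by
    rw [hU, Finset.card_insert_of_notMem hxJ, Finset.card_insert_of_notMem hyJ']
  set Rm := F.filter (fun e => ¬ (e.1 ∉ J ∧ e.2 ∉ J)) with hRm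
  have hsplit : F.card = F'.card + Rm.card := by
    rw [hF', hRm]
    exact (Finset.card_filter_add_card_filter_not (fun e : ℕ × ℕ => e.1 ∉ J ∧ e.2 ∉ J)).symm
  -- shape of removed pairs
  have hshape : ∀ e ∈ Rm, (e ∈ shortPairs 2 U) ∨ Alt (x, y) e := by
    intro e he
    rw [hRm, Finset.mem_filter] at he
    obtain ⟨heF, heJ⟩ := he
    obtain ⟨h4, h5, h6⟩ := hGF.mem e heF
    obtain ⟨p, q⟩ := e
    simp only at h4 h5 h6 heJ
    have hor : p ∈ J ∨ q ∈ J := by
      by_contra hcon
      push Not at hcon
      exact heJ hcon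
    have hcase : (x ≤ p ∧ q ≤ y) ∨ Alt (x, y) (p, q) := by
      rcases hor with hp | hq
      · rw [hmemJ p h4] at hp
        by_cases hqy : q ≤ y
        · left; exact ⟨hp.1.le, hqy⟩
        · right; left; exact ⟨hp.1, hp.2, not_le.mp hqy⟩
      · rw [hmemJ q h5] at hq
        by_cases hpx : x ≤ p
        · left; exact ⟨hpx, hq.2.le⟩
        · right; right; exact ⟨not_le.mp hpx, hq.1, hq.2⟩
    rcases hcase with ⟨hxp, hqy⟩ | hA
    · left
      have hmemU : ∀ c, c ∈ V → x ≤ c → c ≤ y → c ∈ U := by
        intro c hc h1 h2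
        rw [hU, Finset.mem_insert, Finset.mem_insert, hmemJ c hc]
        rcases eq_or_lt_of_le h1 with h | h
        · left; exact h.symm
        · rcases eq_or_lt_of_le h2 with h' | h'
          · right; left; exact h'
          · right; right; exact ⟨h, h'⟩
      simp only [shortPairs, Finset.mem_filter, Finset.mem_product]
      refine ⟨⟨hmemU p h4 hxp (by omega), hmemU q h5 (by omega) hqy⟩, h6, ?_⟩
      by_contra hlong
      push Not at hlong
      have hUV : U ⊆ V := by
        intro c hc
        rw [hU, Finset.mem_insert, Finset.mem_insert] at hc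
        rcases hc with rfl | rfl | hc
        · exact hx
        · exact hy
        · exact hJV hc
      have hsub1 : btw U (p, q) ⊆ btw V (p, q) := Finset.filter_subset_filter _ hUV
      have hlongV : 2 ≤ (btw V (p, q)).card := hlong.trans (Finset.card_le_card hsub1)
      have hmem : (p, q) ∈ L := by
        rw [hL, Finset.mem_filter]
        exact ⟨heF, hlongV⟩
      have hge := he0min (p, q) hmem
      have hss : btw V (p, q) ⊂ J := by
        rw [Finset.ssubset_iff_of_subset]
        · rcases hor with hp | hq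
          · exact ⟨p, hp, by simp [btw]⟩
          · exact ⟨q, hq, by simp [btw]⟩
        · intro c hc
          simp only [btw, Finset.mem_filter] at hc
          rw [hmemJ c hc.1]
          exact ⟨lt_of_le_of_lt hxp hc.2.1, lt_of_lt_of_le hc.2.2 hqy⟩
      have := Finset.card_lt_card hss
      omega
    · right; exact hA
  set Lv := F.filter (Alt (x, y)) with hLv
  have hLv2 : Lv.card ≤ 2 := hGF.cr _ he0F
  have hRmcard : Rm.card ≤ ∑ i ∈ range (j + 2), min 2 i + 2 := by
    have hsub : Rm ⊆ shortPairs 2 U ∪ Lv := by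
      intro e he
      rw [Finset.mem_union]
      rcases hshape e he with h | h
      · left; exact h
      · right
        rw [hLv, Finset.mem_filter]
        exact ⟨(Finset.mem_filter.mp he).1, h⟩
    refine (Finset.card_le_card hsub).trans ((Finset.card_union_le _ _).trans ?_)
    refine Nat.add_le_add ?_ hLv2
    have := card_shortPairs_le 2 U
    rwa [hUcard] at this
  have hsum := sum_min 2 (j + 2) (by omega)
  by_cases hj4 : 4 ≤ j
  · have := hh_step4 hjn hj4
    omega
  by_cases hj3 : j = 3
  · rw [hj3] at hIH hRmcard hsum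
    have := hh_step3 (n := n) (by omega)
    omega
  have hj2 : j = 2 := by omega
  -- the two interior points
  obtain ⟨p, q, hpq, hJpq⟩ : ∃ p q : ℕ, p < q ∧ J = {p, q} := by
    obtain ⟨p, q, hne, hh⟩ := Finset.card_eq_two.mp (hj ▸ hj2 : J.card = 2)
    rcases lt_or_gt_of_ne hne with h | h
    · exact ⟨p, q, h, hh⟩
    · exact ⟨q, p, h, by rw [hh, Finset.pair_comm]⟩
  have hpJ : p ∈ J := by rw [hJpq]; simp
  have hqJ : q ∈ J := by rw [hJpq]; simp
  have hpV := hJV hpJ
  have hqV := hJV hqJ
  have hp := (hmemJ p hpV).mp hpJ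
  have hq := (hmemJ q hqV).mp hqJ
  have honly : ∀ c ∈ V, x < c → c < y → c = p ∨ c = q := by
    intro c hc h1 h2
    have : c ∈ J := (hmemJ c hc).mpr ⟨h1, h2⟩
    rw [hJpq] at this
    simpa using this
  -- removed pairs, explicitly
  have hshape2 : ∀ e ∈ Rm, e = (x, p) ∨ e = (p, q) ∨ e = (q, y) ∨ e = (x, q) ∨ e = (p, y) ∨
      Alt (x, y) e := by
    intro e he
    rcases hshape e he with h | h
    · obtain ⟨c, d⟩ := e
      have heJ := (Finset.mem_filter.mp he).2
      simp only [shortPairs, Finset.mem_filter, Finset.mem_product, hU, hJpq,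
        Finset.mem_insert, Finset.mem_singleton] at h
      simp only [hJpq, Finset.mem_insert, Finset.mem_singleton] at heJ
      obtain ⟨⟨h1, h2⟩, h3, -⟩ := h
      simp only [Prod.mk.injEq]
      omega
    · right; right; right; right; right; exact h
  rcases Nat.lt_or_ge Rm.card 6 with hR5 | hR6
  · have := hh_step2 (n := n) (by omega)
    rw [hj2] at hIH
    omega
  -- the splitting situation
  have hRm7 : Rm.card ≤ 7 := by
    rw [hj2] at hRmcard hsum
    omega
  have hfinish : ∀ A C : Finset ℕ, A ⊆ V' → C ⊆ V' → A.card + C.card = V'.card + 1 →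
      2 ≤ A.card → 2 ≤ C.card →
      (∀ e ∈ F', e = (x, y) ∨ (e.1 ∈ A ∧ e.2 ∈ A) ∨ (e.1 ∈ C ∧ e.2 ∈ C)) → F.card ≤ hh n := by
    intro A C hA hC hAC hA2 hC2 hE
    have h1 := split_card hE
    have h2 := ih A.card (by omega) A (F'.filter (fun e => e.1 ∈ A ∧ e.2 ∈ A)) rfl hA2
      (hGF'.mono (Finset.filter_subset _ _) (fun e he => (Finset.mem_filter.mp he).2))
    have h3 := ih C.card (by omega) C (F'.filter (fun e => e.1 ∈ C ∧ e.2 ∈ C)) rfl hC2
      (hGF'.mono (Finset.filter_subset _ _) (fun e he => (Finset.mem_filter.mp he).2))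
    have h4 := hh_split hA2 hC2 (n := n) (by omega)
    omega
  -- a leaving pair crossing two removed-or-(x,y) pairs gives a split
  have hsplitR : ∀ u z : ℕ, x < u → u < y → y < z → z ∈ V →
      (∀ e ∈ F', Alt (u, z) e → e = (x, y)) → F.card ≤ hh n := by
    intro u z hu1 hu2 hz hzV hcr
    have hzV' : z ∈ V' := by
      rw [hV', Finset.mem_sdiff, hmemJ z hzV]
      exact ⟨hzV, by omega⟩
    refine hfinish (V'.filter (fun c => y ≤ c ∧ c ≤ z)) (V'.filter (fun c => ¬ (y ≤ c ∧ c < z)))
      (Finset.filter_subset _ _) (Finset.filter_subset _ _) ?_ ?_ ?_ ?_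
    · have h1 : V'.filter (fun c => y ≤ c ∧ c ≤ z) =
          insert z (V'.filter (fun c => y ≤ c ∧ c < z)) := by
        ext c
        simp only [Finset.mem_filter, Finset.mem_insert]
        constructor
        · rintro ⟨h1, h2, h3⟩
          rcases eq_or_lt_of_le h3 with h | h
          · left; exact h
          · right; exact ⟨h1, h2, h⟩
        · rintro (rfl | ⟨h1, h2, h3⟩)
          · exact ⟨hzV', hz.le, le_rfl⟩
          · exact ⟨h1, h2, h3.le⟩
      rw [h1, Finset.card_insert_of_notMem (by simp)]
      have := Finset.card_filter_add_card_filter_not (s := V') (fun c : ℕ => y ≤ c ∧ c < z)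
      omega
    · have : ({y, z} : Finset ℕ) ⊆ V'.filter (fun c => y ≤ c ∧ c ≤ z) := by
        intro c hc
        simp only [Finset.mem_insert, Finset.mem_singleton] at hc
        rw [Finset.mem_filter]
        rcases hc with rfl | rfl
        · exact ⟨hyV', le_rfl, hz.le⟩
        · exact ⟨hzV', hz.le, le_rfl⟩
      have h := Finset.card_le_card this
      rwa [Finset.card_pair hz.ne] at h
    · have : ({x, z} : Finset ℕ) ⊆ V'.filter (fun c => ¬ (y ≤ c ∧ c < z)) := by
        intro c hc
        simp only [Finset.mem_insert, Finset.mem_singleton] at hc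
        rw [Finset.mem_filter]
        rcases hc with rfl | rfl
        · exact ⟨hxV', by omega⟩
        · exact ⟨hzV', by omega⟩
      have h := Finset.card_le_card this
      rwa [Finset.card_pair (by omega)] at h
    · intro e he
      obtain ⟨h1, h2⟩ := hF'mem e he
      have h3 : e.1 < e.2 := (hGF'.mem e he).2.2
      have hc := hcr e he
      have h1V := (Finset.mem_sdiff.mp h1).1
      have h2V := (Finset.mem_sdiff.mp h2).1
      have h1J : ¬ (x < e.1 ∧ e.1 < y) := fun h => (Finset.mem_sdiff.mp h1).2 ((hmemJ _ h1V).mpr h)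
      have h2J : ¬ (x < e.2 ∧ e.2 < y) := fun h => (Finset.mem_sdiff.mp h2).2 ((hmemJ _ h2V).mpr h)
      by_cases hexy : e = (x, y)
      · left; exact hexy
      right
      have hnA : ¬ Alt (u, z) e := fun h => hexy (hc h)
      simp only [Alt] at hnA
      simp only [Finset.mem_filter, h1, h2, true_and]
      omega
  have hsplitL : ∀ u z : ℕ, x < u → u < y → z < x → z ∈ V →
      (∀ e ∈ F', Alt (z, u) e → e = (x, y)) → F.card ≤ hh n := by
    intro u z hu1 hu2 hz hzV hcr
    have hzV' : z ∈ V' := by
      rw [hV', Finset.mem_sdiff, hmemJ z hzV]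
      exact ⟨hzV, by omega⟩
    refine hfinish (V'.filter (fun c => z ≤ c ∧ c ≤ x)) (V'.filter (fun c => ¬ (z < c ∧ c ≤ x)))
      (Finset.filter_subset _ _) (Finset.filter_subset _ _) ?_ ?_ ?_ ?_
    · have h1 : V'.filter (fun c => z ≤ c ∧ c ≤ x) =
          insert z (V'.filter (fun c => z < c ∧ c ≤ x)) := by
        ext c
        simp only [Finset.mem_filter, Finset.mem_insert]
        constructor
        · rintro ⟨h1, h2, h3⟩
          rcases eq_or_lt_of_le h2 with h | h
          · left; exact h.symm
          · right; exact ⟨h1, h, h3⟩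
        · rintro (rfl | ⟨h1, h2, h3⟩)
          · exact ⟨hzV', le_rfl, hz.le⟩
          · exact ⟨h1, h2.le, h3⟩
      rw [h1, Finset.card_insert_of_notMem (by simp)]
      have := Finset.card_filter_add_card_filter_not (s := V') (fun c : ℕ => z < c ∧ c ≤ x)
      omega
    · have : ({z, x} : Finset ℕ) ⊆ V'.filter (fun c => z ≤ c ∧ c ≤ x) := by
        intro c hc
        simp only [Finset.mem_insert, Finset.mem_singleton] at hc
        rw [Finset.mem_filter]
        rcases hc with rfl | rfl
        · exact ⟨hzV', le_rfl, hz.le⟩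
        · exact ⟨hxV', hz.le, le_rfl⟩
      have h := Finset.card_le_card this
      rwa [Finset.card_pair hz.ne] at h
    · have : ({z, y} : Finset ℕ) ⊆ V'.filter (fun c => ¬ (z < c ∧ c ≤ x)) := by
        intro c hc
        simp only [Finset.mem_insert, Finset.mem_singleton] at hc
        rw [Finset.mem_filter]
        rcases hc with rfl | rfl
        · exact ⟨hzV', by omega⟩
        · exact ⟨hyV', by omega⟩
      have h := Finset.card_le_card this
      rwa [Finset.card_pair (by omega)] at h
    · intro e he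
      obtain ⟨h1, h2⟩ := hF'mem e he
      have h3 : e.1 < e.2 := (hGF'.mem e he).2.2
      have hc := hcr e he
      have h1V := (Finset.mem_sdiff.mp h1).1
      have h2V := (Finset.mem_sdiff.mp h2).1
      have h1J : ¬ (x < e.1 ∧ e.1 < y) := fun h => (Finset.mem_sdiff.mp h1).2 ((hmemJ _ h1V).mpr h)
      have h2J : ¬ (x < e.2 ∧ e.2 < y) := fun h => (Finset.mem_sdiff.mp h2).2 ((hmemJ _ h2V).mpr h)
      by_cases hexy : e = (x, y)
      · left; exact hexy
      right
      have hnA : ¬ Alt (z, u) e := fun h => hexy (hc h)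
      simp only [Alt] at hnA
      simp only [Finset.mem_filter, h1, h2, true_and]
      omega
  -- a pair `g` of F with an interior end, crossing `f`
  have hsat : ∀ f ∈ F, ∀ g ∈ F, Alt f (x, y) → Alt f g → g ≠ (x, y) →
      (g.1 ∈ J ∨ g.2 ∈ J) → ∀ e ∈ F', Alt f e → e = (x, y) := by
    intro f hf g hg hfxy hfg hgne hgJ e he hfe
    by_contra hne
    have heF := (Finset.mem_filter.mp he).1
    have heJ := (Finset.mem_filter.mp he).2
    have hge : g ≠ e := by
      rintro rfl
      rcases hgJ with h | h
      · exact heJ.1 h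
      · exact heJ.2 h
    have hsub : ({(x, y), g, e} : Finset (ℕ × ℕ)) ⊆ F.filter (Alt f) := by
      intro c hc
      simp only [Finset.mem_insert, Finset.mem_singleton] at hc
      rw [Finset.mem_filter]
      rcases hc with rfl | rfl | rfl
      · exact ⟨he0F, hfxy⟩
      · exact ⟨hg, hfg⟩
      · exact ⟨heF, hfe⟩
    have h1 := (Finset.card_le_card hsub).trans (hGF.cr f hf)
    rw [Finset.card_insert_of_notMem, Finset.card_pair hge] at h1
    · omega
    · simp only [Finset.mem_insert, Finset.mem_singleton, not_or]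
      exact ⟨fun h => hgne h.symm, fun h => hne h.symm⟩
  -- leaving pairs
  have hleave : ∀ f ∈ F, Alt (x, y) f →
      (∃ u z, (u = p ∨ u = q) ∧ y < z ∧ z ∈ V ∧ f = (u, z)) ∨
      (∃ u z, (u = p ∨ u = q) ∧ z < x ∧ z ∈ V ∧ f = (z, u)) := by
    intro f hf hA
    obtain ⟨h1, h2, h3⟩ := hGF.mem f hf
    rcases hA with hA | hA
    · left
      refine ⟨f.1, f.2, honly _ h1 hA.1 hA.2.1, hA.2.2, h2, rfl⟩
    · right
      refine ⟨f.2, f.1, honly _ h2 hA.2.1 hA.2.2, hA.1, h1, rfl⟩
  -- leaving pair at p together with (x,q)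
  have hcaseP : (x, q) ∈ F → ∀ f ∈ F, Alt (x, y) f → (f.1 = p ∨ f.2 = p) → F.card ≤ hh n := by
    intro hxq f hf hA hfp
    rcases hleave f hf hA with ⟨u, z, hu, hz, hzV, rfl⟩ | ⟨u, z, hu, hz, hzV, rfl⟩
    · have hup : u = p := by
        rcases hfp with h | h
        · exact h
        · simp only at h; omega
      subst hup
      refine hsplitR u z hp.1 hp.2 hz hzV ?_
      refine hsat _ hf _ hxq ?_ ?_ ?_ (Or.inr hqJ)
      · right; simp only; omega
      · right; simp only; omega
      · simp only [ne_eq, Prod.mk.injEq]; omega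
    · have hup : u = p := by
        rcases hfp with h | h
        · simp only at h; omega
        · exact h
      subst hup
      refine hsplitL u z hp.1 hp.2 hz hzV ?_
      refine hsat _ hf _ hxq ?_ ?_ ?_ (Or.inr hqJ)
      · left; simp only; omega
      · left; simp only; omega
      · simp only [ne_eq, Prod.mk.injEq]; omega
  have hcaseQ : (p, y) ∈ F → ∀ f ∈ F, Alt (x, y) f → (f.1 = q ∨ f.2 = q) → F.card ≤ hh n := by
    intro hpy f hf hA hfq
    rcases hleave f hf hA with ⟨u, z, hu, hz, hzV, rfl⟩ | ⟨u, z, hu, hz, hzV, rfl⟩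
    · have huq : u = q := by
        rcases hfq with h | h
        · exact h
        · simp only at h; omega
      subst huq
      refine hsplitR u z hq.1 hq.2 hz hzV ?_
      refine hsat _ hf _ hpy ?_ ?_ ?_ (Or.inl hpJ)
      · right; simp only; omega
      · right; simp only; omega
      · simp only [ne_eq, Prod.mk.injEq]; omega
    · have huq : u = q := by
        rcases hfq with h | h
        · simp only at h; omega
        · exact h
      subst huq
      refine hsplitL u z hq.1 hq.2 hz hzV ?_
      refine hsat _ hf _ hpy ?_ ?_ ?_ (Or.inl hpJ)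
      · left; simp only; omega
      · left; simp only; omega
      · simp only [ne_eq, Prod.mk.injEq]; omega
  -- removing a single vertex with two incident pairs
  have hdeg : ∀ r ∈ V, (F.filter (fun e => ¬ (e.1 ≠ r ∧ e.2 ≠ r))).card ≤ 2 → F.card ≤ hh n := by
    intro r hr h2
    have h3 : F.card = (F.filter (fun e => e.1 ≠ r ∧ e.2 ≠ r)).card +
        (F.filter (fun e => ¬ (e.1 ≠ r ∧ e.2 ≠ r))).card :=
      (Finset.card_filter_add_card_filter_not (fun e : ℕ × ℕ => e.1 ≠ r ∧ e.2 ≠ r)).symm
    have h4 := ih (n - 1) (by omega) (V.erase r) (F.filter (fun e => e.1 ≠ r ∧ e.2 ≠ r))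
      (by rw [Finset.card_erase_of_mem hr, hV]) (by omega)
      (hGF.mono (Finset.filter_subset _ _) (by
        intro e he
        rw [Finset.mem_filter] at he
        obtain ⟨h5, h6, h7⟩ := he
        obtain ⟨h8, h9, -⟩ := hGF.mem e h5
        exact ⟨Finset.mem_erase.mpr ⟨h6, h8⟩, Finset.mem_erase.mpr ⟨h7, h9⟩⟩))
    have h5 := hh_step1 (n := n) (by omega)
    omega
  by_cases hxq : (x, q) ∈ F
  · by_cases hpy : (p, y) ∈ F
    · -- both present: there is a leaving pair
      have hLvne : Lv.Nonempty := by
        by_contra hcon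
        rw [Finset.not_nonempty_iff_eq_empty] at hcon
        have hsub : Rm ⊆ {(x, p), (p, q), (q, y), (x, q), (p, y)} := by
          intro e he
          simp only [Finset.mem_insert, Finset.mem_singleton]
          rcases hshape2 e he with h | h | h | h | h | h
          · tauto
          · tauto
          · tauto
          · tauto
          · tauto
          · exfalso
            have : e ∈ Lv := Finset.mem_filter.mpr ⟨(Finset.mem_filter.mp he).1, h⟩
            rw [hcon] at this
            simp at this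
        have := Finset.card_le_card hsub
        have h5 : ({(x, p), (p, q), (q, y), (x, q), (p, y)} : Finset (ℕ × ℕ)).card ≤ 5 :=
          Finset.card_le_five
        omega
      obtain ⟨f, hf⟩ := hLvne
      rw [hLv, Finset.mem_filter] at hf
      rcases hleave f hf.1 hf.2 with ⟨u, z, hu, hz, hzV, rfl⟩ | ⟨u, z, hu, hz, hzV, rfl⟩
      · rcases hu with rfl | rfl
        · exact hcaseP hxq _ hf.1 hf.2 (Or.inl rfl)
        · exact hcaseQ hpy _ hf.1 hf.2 (Or.inl rfl)
      · rcases hu with rfl | rfl
        · exact hcaseP hxq _ hf.1 hf.2 (Or.inr rfl)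
        · exact hcaseQ hpy _ hf.1 hf.2 (Or.inr rfl)
    · -- (p,y) missing
      by_cases hex : ∃ f ∈ F, Alt (x, y) f ∧ (f.1 = p ∨ f.2 = p)
      · obtain ⟨f, hf, hA, hfp⟩ := hex
        exact hcaseP hxq f hf hA hfp
      · push Not at hex
        refine hdeg p hpV ?_
        have hsub : F.filter (fun e => ¬ (e.1 ≠ p ∧ e.2 ≠ p)) ⊆ {(x, p), (p, q)} := by
          intro e he
          rw [Finset.mem_filter] at he
          have heRm : e ∈ Rm := by
            rw [hRm, Finset.mem_filter]
            refine ⟨he.1, fun h => he.2 ⟨?_, ?_⟩⟩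
            · rintro rfl; exact h.1 hpJ
            · rintro rfl; exact h.2 hpJ
          simp only [Finset.mem_insert, Finset.mem_singleton]
          rcases hshape2 e heRm with h | h | h | h | h | h
          · tauto
          · tauto
          · exfalso; rw [h] at he; simp only at he; omega
          · exfalso; rw [h] at he; simp only at he; omega
          · exfalso; rw [h] at he; exact hpy he.1
          · exfalso
            have h1 := hex e he.1 h
            exact he.2 ⟨h1.1, h1.2⟩
        exact (Finset.card_le_card hsub).trans Finset.card_le_two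
  · -- (x,q) missing
    by_cases hpy : (p, y) ∈ F
    · by_cases hex : ∃ f ∈ F, Alt (x, y) f ∧ (f.1 = q ∨ f.2 = q)
      · obtain ⟨f, hf, hA, hfq⟩ := hex
        exact hcaseQ hpy f hf hA hfq
      · push Not at hex
        refine hdeg q hqV ?_
        have hsub : F.filter (fun e => ¬ (e.1 ≠ q ∧ e.2 ≠ q)) ⊆ {(p, q), (q, y)} := by
          intro e he
          rw [Finset.mem_filter] at he
          have heRm : e ∈ Rm := by
            rw [hRm, Finset.mem_filter]
            refine ⟨he.1, fun h => he.2 ⟨?_, ?_⟩⟩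
            · rintro rfl; exact h.1 hqJ
            · rintro rfl; exact h.2 hqJ
          simp only [Finset.mem_insert, Finset.mem_singleton]
          rcases hshape2 e heRm with h | h | h | h | h | h
          · exfalso; rw [h] at he; simp only at he; omega
          · tauto
          · tauto
          · exfalso; rw [h] at he; exact hxq he.1
          · exfalso; rw [h] at he; simp only at he; omega
          · exfalso
            have h1 := hex e he.1 h
            exact he.2 ⟨h1.1, h1.2⟩
        exact (Finset.card_le_card hsub).trans Finset.card_le_two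
    · -- both missing: at most five removed pairs
      exfalso
      have hsub : Rm ⊆ {(x, p), (p, q), (q, y)} ∪ Lv := by
        intro e he
        rw [Finset.mem_union]
        simp only [Finset.mem_insert, Finset.mem_singleton]
        have heF := (Finset.mem_filter.mp he).1
        rcases hshape2 e he with h | h | h | h | h | h
        · tauto
        · tauto
        · tauto
        · exfalso; rw [h] at heF; exact hxq heF
        · exfalso; rw [h] at heF; exact hpy heF
        · right; exact Finset.mem_filter.mpr ⟨heF, h⟩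
      have h1 := (Finset.card_le_card hsub).trans (Finset.card_union_le _ _)
      have h3 : ({(x, p), (p, q), (q, y)} : Finset (ℕ × ℕ)).card ≤ 3 := Finset.card_le_three
      omega

end Pool.Agent.MP_df3d6f_co
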