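import Mathlib
import Pool.Agent.MP_df3d6f_co.Defs
import Pool.Agent.MP_df3d6f_co.Trans
import Pool.Agent.MP_df3d6f_co.TwoUpper
import Pool.Agent.MP_df3d6f_co.TwoLower

namespace Pool.Agent.MP_df3d6f_co.ExactTwo

open Pool.Agent.MP_df3d6f_co

/-- For `n ≥ 2` the maximum number of edges of an outer 2-planar graph on `n` vertices is
`3 n - 5` if `n ≡ 2 (mod 3)` and `3 n - 6` otherwise. -/
theorem result (n : ℕ) (hn : 2 ≤ n) :
    IsGreatest {m : ℕ | ∃ G : SimpleGraph (Fin n), OuterKPlanar 2 G ∧ G.edgeSet.ncard = m}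
      (if n % 3 = 2 then 3 * n - 5 else 3 * n - 6) := by
  refine ⟨⟨patGraph n, outer_patGraph n, card_patGraph n hn⟩, ?_⟩
  rintro m ⟨G, ⟨pos, hpos, hcr⟩, rfl⟩
  have hgood := good_of_outer hpos hcr
  have h := two_upper n (vset pos) (eset pos G) (by rw [card_vset hpos, Fintype.card_fin]) hn hgood
  rw [card_eset hpos] at h
  exact h

end Pool.Agent.MP_df3d6f_co.ExactTwo
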