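import Mathlib
import Pool.Agent.MP_df3d6f_co.Defs

namespace Pool.Agent.MP_df3d6f_co

open Finset

/-- Two rows of `N` vertices each; the vertex `x` of the first row is joined to the vertices
`x, x + 1, …, x + w` of the second row. -/
def ladder (N w : ℕ) : SimpleGraph (Fin N ⊕ Fin N) where
  Adj a b := (∃ x y : Fin N, ((a = Sum.inl x ∧ b = Sum.inr y) ∨ (a = Sum.inr y ∧ b = Sum.inl x)) ∧
    (x : ℕ) ≤ y ∧ (y : ℕ) ≤ x + w)
  symm := ⟨fun _ _ ⟨x, y, h, h'⟩ => ⟨x, y, h.symm.imp (fun h => ⟨h.2, h.1⟩) (fun h => ⟨h.2, h.1⟩), h'⟩⟩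
  loopless := ⟨fun a ⟨x, y, h, _⟩ => by
    rcases h with ⟨h1, h2⟩ | ⟨h1, h2⟩ <;> rw [h1] at h2 <;> cases h2⟩

/-- The first row in increasing order, followed by the second row in decreasing order. -/
def lpos (N : ℕ) : Fin N ⊕ Fin N → ℕ
  | Sum.inl x => x
  | Sum.inr y => 2 * N - 1 - y

lemma lpos_inj (N : ℕ) : Function.Injective (lpos N) := by
  rintro (a | a) (b | b) h
  · simp only [lpos] at h
    rw [Fin.ext h]
  · simp only [lpos] at h
    have := a.2
    have := b.2
    omega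
  · simp only [lpos] at h
    have := a.2
    have := b.2
    omega
  · simp only [lpos] at h
    have := a.2
    have := b.2
    congr 1
    apply Fin.ext
    omega

/-- casting to the integers -/
def lZ (N : ℕ) : Fin N ⊕ Fin N → ℤ ⊕ ℤ := Sum.map (fun i => ((i : ℕ) : ℤ)) (fun i => ((i : ℕ) : ℤ))

lemma lZ_inj (N : ℕ) : Function.Injective (Sym2.map (lZ N)) := by
  apply Sym2.map.injective
  apply Function.Injective.sumMap
  · intro a b h
    have h' : ((a : ℕ) : ℤ) = ((b : ℕ) : ℤ) := h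
    apply Fin.ext
    exact_mod_cast h'
  · intro a b h
    have h' : ((a : ℕ) : ℤ) = ((b : ℕ) : ℤ) := h
    apply Fin.ext
    exact_mod_cast h'

/-- pairs of positive numbers with sum at most `m` -/
def ltri (m : ℕ) : Finset (ℕ × ℕ) :=
  ((range m).sigma (fun p => range p)).image (fun p => (p.2 + 1, p.1 - p.2))

lemma card_ltri (m : ℕ) : (ltri m).card ≤ m * (m - 1) / 2 := by
  unfold ltri
  refine card_image_le.trans ?_
  rw [card_sigma]
  simp only [card_range]
  rw [Finset.sum_range_id]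

lemma mem_ltri {m α β : ℕ} (hα : 1 ≤ α) (hβ : 1 ≤ β) (h : α + β ≤ m) : (α, β) ∈ ltri m := by
  unfold ltri
  rw [mem_image]
  refine ⟨⟨α + β - 1, α - 1⟩, ?_, ?_⟩
  · simp only [mem_sigma, mem_range]
    omega
  · apply Prod.ext
    · simp only
      omega
    · simp only
      omega

lemma ltri_arith {δ w k : ℕ} (hδ : δ ≤ w) (hw : w * (w - 1) ≤ 2 * k) :
    δ * (δ - 1) / 2 + (w - δ) * (w - δ - 1) / 2 ≤ k := by
  obtain ⟨e, rfl⟩ : ∃ e, w = δ + e := ⟨w - δ, by omega⟩
  have h1 : δ * (δ - 1) + e * (e - 1) ≤ 2 * k := by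
    refine le_trans ?_ hw
    rcases δ with _ | δ
    · simp
    rcases e with _ | e
    · simp
    have e1 : δ + 1 + (e + 1) - 1 = δ + e + 1 := by omega
    rw [e1]
    simp only [Nat.add_sub_cancel]
    nlinarith
  have h2 : δ + e - δ = e := by omega
  rw [h2]
  have := Nat.div_mul_le_self (δ * (δ - 1)) 2
  have := Nat.div_mul_le_self (e * (e - 1)) 2
  omega

lemma ladder_alt {V : Type*} {pos : V → ℕ} {a b : V} {f : Sym2 V}
    (h : Crosses pos s(a, b) f) (hab : pos a < pos b) :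
    ∃ u v : V, f = s(u, v) ∧ pos a < pos u ∧ pos u < pos b ∧ (pos v < pos a ∨ pos b < pos v) := by
  obtain ⟨a', b', c', d', he, hf, h⟩ := h
  rw [Sym2.eq_iff] at he
  rcases he with ⟨rfl, rfl⟩ | ⟨rfl, rfl⟩
  · rcases h with h | h
    · exact ⟨c', d', hf, by omega⟩
    · exact ⟨d', c', by rw [hf, Sym2.eq_swap], by omega⟩
  · omega

lemma ladder_cross (N w k : ℕ) (hw : w * (w - 1) ≤ 2 * k) :
    ∀ e ∈ (ladder N w).edgeSet,
      {f ∈ (ladder N w).edgeSet | Crosses (lpos N) e f}.ncard ≤ k := by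
  have main : ∀ x y : Fin N, (x : ℕ) ≤ y → (y : ℕ) ≤ x + w →
      {f ∈ (ladder N w).edgeSet | Crosses (lpos N) s(Sum.inl x, Sum.inr y) f}.ncard ≤ k := by
    intro x y hxy hyw
    have hx := x.2
    have hy := y.2
    set δ := (y : ℕ) - x with hδ
    set F : Finset (Sym2 (ℤ ⊕ ℤ)) :=
      (ltri δ).image (fun p => s(Sum.inl ((x : ℕ) + (p.1 : ℤ)), Sum.inr ((y : ℕ) - (p.2 : ℤ)))) ∪
      (ltri (w - δ)).image (fun p => s(Sum.inl ((x : ℕ) - (p.1 : ℤ)), Sum.inr ((y : ℕ) + (p.2 : ℤ))))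
      with hF
    have hcardF : F.card ≤ k := by
      rw [hF]
      refine (card_union_le _ _).trans ?_
      have h1 := (card_image_le (s := ltri δ) (f := fun p : ℕ × ℕ =>
        (s(Sum.inl ((x : ℕ) + (p.1 : ℤ)), Sum.inr ((y : ℕ) - (p.2 : ℤ))) : Sym2 (ℤ ⊕ ℤ)))).trans
        (card_ltri δ)
      have h2 := (card_image_le (s := ltri (w - δ)) (f := fun p : ℕ × ℕ =>
        (s(Sum.inl ((x : ℕ) - (p.1 : ℤ)), Sum.inr ((y : ℕ) + (p.2 : ℤ))) : Sym2 (ℤ ⊕ ℤ)))).trans
        (card_ltri (w - δ))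
      exact (Nat.add_le_add h1 h2).trans (ltri_arith (by omega) hw)
    have hcov : (Sym2.map (lZ N)) ''
        {f ∈ (ladder N w).edgeSet | Crosses (lpos N) s(Sum.inl x, Sum.inr y) f} ⊆
        (F : Set (Sym2 (ℤ ⊕ ℤ))) := by
      rintro g ⟨f, ⟨hf, hc⟩, rfl⟩
      have hlt : lpos N (Sum.inl x) < lpos N (Sum.inr y) := by
        simp only [lpos]
        omega
      obtain ⟨u, v, rfl, h1, h2, h3⟩ := ladder_alt hc hlt
      rw [SimpleGraph.mem_edgeSet] at hf
      obtain ⟨x', y', h, h4, h5⟩ := hf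
      have hx' := x'.2
      have hy' := y'.2
      rw [mem_coe, hF, mem_union, mem_image, mem_image]
      rcases h with ⟨rfl, rfl⟩ | ⟨rfl, rfl⟩
      · simp only [lpos] at h1 h2 h3
        left
        refine ⟨((x' : ℕ) - x, (y : ℕ) - y'), mem_ltri (by omega) (by omega) (by omega), ?_⟩
        simp only [Sym2.map_mk, lZ, Sum.map_inl, Sum.map_inr]
        congr 3
        · rw [Nat.cast_sub (by omega)]
          ring
        · rw [Nat.cast_sub (by omega)]
          ring
      · simp only [lpos] at h1 h2 h3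
        right
        refine ⟨((x : ℕ) - x', (y' : ℕ) - y), mem_ltri (by omega) (by omega) (by omega), ?_⟩
        simp only [Sym2.map_mk, lZ, Sum.map_inl, Sum.map_inr]
        rw [Sym2.eq_swap]
        congr 3
        · rw [Nat.cast_sub (by omega)]
          ring
        · rw [Nat.cast_sub (by omega)]
          ring
    rw [← Set.ncard_image_of_injective _ (lZ_inj N)]
    refine (Set.ncard_le_ncard hcov (Finset.finite_toSet _)).trans ?_
    rw [Set.ncard_coe_finset]
    exact hcardF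
  intro e he
  induction e using Sym2.ind with
  | _ a b =>
    rw [SimpleGraph.mem_edgeSet] at he
    obtain ⟨x, y, h, h1, h2⟩ := he
    rcases h with ⟨rfl, rfl⟩ | ⟨rfl, rfl⟩
    · exact main x y h1 h2
    · rw [Sym2.eq_swap]
      exact main x y h1 h2

lemma sum_min_succ (c n : ℕ) :
    2 * ((c + 1) * n) ≤ 2 * (∑ j ∈ range n, min (c + 1) (j + 1)) + c * (c + 1) := by
  induction n with
  | zero => simp
  | succ n ih =>
    rw [sum_range_succ]
    rcases Nat.lt_or_ge n c with h | h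
    · have h1 : ∀ m : ℕ, m ≤ c → 2 * ((c + 1) * m) ≤ (m * (m + 1)) + c * (c + 1) := by
        intro m hm
        obtain ⟨d, rfl⟩ : ∃ d, c = m + d := ⟨c - m, by omega⟩
        nlinarith [Nat.zero_le (d * d), Nat.zero_le d]
      have h2 : ∀ m : ℕ, m ≤ c + 1 → 2 * (∑ j ∈ range m, min (c + 1) (j + 1)) = m * (m + 1) := by
        intro m hm
        induction m with
        | zero => simp
        | succ m ihm =>
          rw [sum_range_succ, mul_add, ihm (by omega), min_eq_right (by omega)]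
          ring
      have h3 := h2 n (by omega)
      have h4 := h1 (n + 1) (by omega)
      rw [min_eq_right (by omega)]
      nlinarith
    · rw [min_eq_left (by omega)]
      nlinarith

lemma ladder_edges (N w : ℕ) :
    2 * ((w + 1) * N) ≤ 2 * (ladder N w).edgeSet.ncard + w * (w + 1) := by
  refine (sum_min_succ w N).trans ?_
  have h : ∑ j ∈ range N, min (w + 1) (j + 1) ≤ (ladder N w).edgeSet.ncard := by
    have e1 : ∑ j ∈ range N, min (w + 1) (j + 1) =
        ((range N).sigma (fun j => range (min (w + 1) (j + 1)))).card := by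
      rw [card_sigma]
      simp
    rw [e1, ← Set.ncard_coe_finset]
    rcases Nat.eq_zero_or_pos N with h0 | hpos
    · subst h0
      simp
    refine Set.ncard_le_ncard_of_injOn (fun p : (_ : ℕ) × ℕ =>
      (s(Sum.inl (⟨(p.1 - p.2) % N, Nat.mod_lt _ hpos⟩ : Fin N),
        Sum.inr (⟨p.1 % N, Nat.mod_lt _ hpos⟩ : Fin N)) : Sym2 (Fin N ⊕ Fin N))) ?_ ?_
      (Set.toFinite _)
    · rintro ⟨j, i⟩ hp
      simp only [coe_sigma, Set.mem_sigma_iff, mem_coe, mem_range] at hp
      rw [SimpleGraph.mem_edgeSet]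
      refine ⟨_, _, Or.inl ⟨rfl, rfl⟩, ?_⟩
      simp only
      rw [Nat.mod_eq_of_lt (by omega), Nat.mod_eq_of_lt (by omega)]
      omega
    · rintro ⟨j, i⟩ hp ⟨j', i'⟩ hq hpq
      simp only [coe_sigma, Set.mem_sigma_iff, mem_coe, mem_range] at hp hq
      simp only [Sym2.eq_iff] at hpq
      rcases hpq with ⟨h1, h2⟩ | ⟨h1, h2⟩
      · rw [Sum.inl.injEq, Fin.mk.injEq, Nat.mod_eq_of_lt (by omega),
          Nat.mod_eq_of_lt (by omega)] at h1
        rw [Sum.inr.injEq, Fin.mk.injEq, Nat.mod_eq_of_lt (by omega),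
          Nat.mod_eq_of_lt (by omega)] at h2
        subst h2
        have : i = i' := by omega
        subst this
        rfl
      · cases h1
  omega

end Pool.Agent.MP_df3d6f_co
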