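import Mathlib
import Pool.Agent.MP_df3d6f_co.Bound

namespace Pool.Agent.MP_df3d6f_co

open Finset

/-- The pairs of `E` that contain `x`. -/
def star (E : Finset (ℕ × ℕ)) (x : ℕ) : Finset (ℕ × ℕ) :=
  E.filter (fun e => e.1 = x ∨ e.2 = x)

/-- Double counting of incidences. -/
lemma sum_star (E : Finset (ℕ × ℕ)) (S : Finset ℕ) :
    ∑ x ∈ S, (star E x).card = ∑ e ∈ E, (S.filter (fun x => e.1 = x ∨ e.2 = x)).card := by
  simp only [star, Finset.card_filter]
  rw [Finset.sum_comm]

/-- Side lemma: if a chord is crossed at most `k` times, then the degrees of the vertices strictly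
inside it sum up to at most `k + s (s + 1)`, where `s` is the number of these vertices. -/
theorem sum_star_side {k : ℕ} {V : Finset ℕ} {E : Finset (ℕ × ℕ)} (h : Good k V E) {a b : ℕ}
    (hlt : a < b) (hab : (E.filter (Alt (a, b))).card ≤ k) :
    ∑ x ∈ Ioo a b, (star E x).card ≤ k + (b - a - 1) * (b - a) := by
  have h1 : ∀ x ∈ Ioo a b, (star E x).card ≤ (b - a) + (star (E.filter (Alt (a, b))) x).card := by
    intro x hx
    rw [mem_Ioo] at hx
    have hsub : star E x ⊆ ((Icc a b).erase x).image
        (fun y => if y < x then (y, x) else (x, y)) ∪ star (E.filter (Alt (a, b))) x := by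
      intro e he
      obtain ⟨p, q⟩ := e
      simp only [star, mem_filter] at he
      obtain ⟨heE, hor⟩ := he
      have hpq : p < q := (h.mem _ heE).2.2
      rw [mem_union]
      by_cases hA : Alt (a, b) (p, q)
      · right
        simp only [star, mem_filter]
        exact ⟨⟨heE, hA⟩, hor⟩
      · left
        simp only [Alt] at hA
        rw [mem_image]
        rcases hor with rfl | rfl
        · refine ⟨q, ?_, ?_⟩
          · rw [mem_erase, mem_Icc]
            omega
          · rw [if_neg (by omega)]
        · refine ⟨p, ?_, ?_⟩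
          · rw [mem_erase, mem_Icc]
            omega
          · rw [if_pos hpq]
    refine (card_le_card hsub).trans ((card_union_le _ _).trans ?_)
    refine Nat.add_le_add_right (card_image_le.trans ?_) _
    rw [card_erase_of_mem (mem_Icc.mpr ⟨hx.1.le, hx.2.le⟩), Nat.card_Icc]
    omega
  have h2 : ∑ x ∈ Ioo a b, (star (E.filter (Alt (a, b))) x).card ≤ k := by
    rw [sum_star]
    refine le_trans ?_ hab
    rw [Finset.card_eq_sum_ones]
    refine Finset.sum_le_sum fun e he => ?_
    rw [mem_filter] at he
    have hA := he.2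
    simp only [Alt] at hA
    rw [Finset.card_le_one]
    intro x hx y hy
    rw [mem_filter, mem_Ioo] at hx hy
    omega
  calc ∑ x ∈ Ioo a b, (star E x).card
      ≤ ∑ x ∈ Ioo a b, ((b - a) + (star (E.filter (Alt (a, b))) x).card) := sum_le_sum h1
    _ = (b - a - 1) * (b - a) + ∑ x ∈ Ioo a b, (star (E.filter (Alt (a, b))) x).card := by
        rw [sum_add_distrib, sum_const, Nat.card_Ioo, smul_eq_mul]
    _ ≤ k + (b - a - 1) * (b - a) := by omega

/-- Handshake. -/
lemma sum_star_range {k N : ℕ} {E : Finset (ℕ × ℕ)} (h : Good k (range N) E) :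
    ∑ x ∈ range N, (star E x).card = 2 * E.card := by
  rw [sum_star, mul_comm, ← smul_eq_mul, ← Finset.sum_const]
  refine sum_congr rfl fun e he => ?_
  obtain ⟨h1, h2, h3⟩ := h.mem e he
  have : (range N).filter (fun x => e.1 = x ∨ e.2 = x) = {e.1, e.2} := by
    ext x
    simp only [mem_filter, mem_insert, mem_singleton]
    constructor
    · rintro ⟨-, h | h⟩
      · exact Or.inl h.symm
      · exact Or.inr h.symm
    · rintro (rfl | rfl)
      · exact ⟨h1, Or.inl rfl⟩
      · exact ⟨h2, Or.inr rfl⟩
  rw [this, card_pair h3.ne]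

lemma sum_star_le (E : Finset (ℕ × ℕ)) (P : Finset ℕ) :
    ∑ x ∈ P, (star E x).card ≤ 2 * (E.filter (fun e => e.1 ∈ P ∨ e.2 ∈ P)).card := by
  rw [sum_star, Finset.card_filter, Finset.mul_sum]
  refine sum_le_sum fun e he => ?_
  split_ifs with hP
  · have : P.filter (fun x => e.1 = x ∨ e.2 = x) ⊆ {e.1, e.2} := by
      intro x
      simp only [mem_filter, mem_insert, mem_singleton]
      rintro ⟨-, h | h⟩
      · exact Or.inl h.symm
      · exact Or.inr h.symm
    exact (card_le_card this).trans (card_le_two)
  · rw [mul_zero, Nat.le_zero, card_eq_zero, filter_eq_empty_iff]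
    rintro x hx (h | h)
    · exact hP (Or.inl (h ▸ hx))
    · exact hP (Or.inr (h ▸ hx))

end Pool.Agent.MP_df3d6f_co
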