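import Mathlib
import Pool.Agent.MP_df3d6f_co.Bound

namespace Pool.Agent.MP_df3d6f_co

open Finset

lemma card_high_le (s : ℕ) (U : Finset ℕ) :
    (U.filter (fun b => (U.filter (fun c => b < c)).card < s)).card ≤ s := by
  by_contra h
  push Not at h
  set T := U.filter (fun b => (U.filter (fun c => b < c)).card < s) with hT
  have hne : T.Nonempty := by
    rw [← Finset.card_pos]; omega
  have hmem := T.min'_mem hne
  have h1 : (U.filter (fun c => T.min' hne < c)).card < s := (Finset.mem_filter.mp hmem).2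
  have h2 : T.erase (T.min' hne) ⊆ U.filter (fun c => T.min' hne < c) := by
    intro c hc
    rw [Finset.mem_erase] at hc
    rw [Finset.mem_filter]
    refine ⟨(Finset.mem_filter.mp hc.2).1, ?_⟩
    exact lt_of_le_of_ne (T.min'_le c hc.2) (Ne.symm hc.1)
  have h3 := Finset.card_le_card h2
  rw [Finset.card_erase_of_mem hmem] at h3
  omega

lemma card_right_le {V : Finset ℕ} {F : Finset (ℕ × ℕ)} {s : ℕ}
    (hF : ∀ e ∈ F, e.1 ∈ V ∧ e.2 ∈ V ∧ e.1 < e.2) (hs : ∀ e ∈ F, (btw V e).card < s) (v : ℕ) :
    (F.filter (fun e => e.1 = v)).card ≤ s := by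
  have hsub : F.filter (fun e => e.1 = v) ⊆
      (((V.filter (fun c => v < c)).filter
        (fun b => ((V.filter (fun c => v < c)).filter (fun c => c < b)).card < s))).image
        (fun b => (v, b)) := by
    intro e he
    obtain ⟨p, q⟩ := e
    simp only [mem_filter] at he
    obtain ⟨heF, rfl⟩ := he
    obtain ⟨h1, h2, h3⟩ := hF _ heF
    rw [mem_image]
    refine ⟨q, ?_, rfl⟩
    rw [mem_filter, mem_filter]
    refine ⟨⟨h2, h3⟩, ?_⟩
    have := hs _ heF
    rwa [btw, ← filter_filter] at this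
  exact (card_le_card hsub).trans (card_image_le.trans (card_low_le _ _))

lemma card_left_le {V : Finset ℕ} {F : Finset (ℕ × ℕ)} {s : ℕ}
    (hF : ∀ e ∈ F, e.1 ∈ V ∧ e.2 ∈ V ∧ e.1 < e.2) (hs : ∀ e ∈ F, (btw V e).card < s) (v : ℕ) :
    (F.filter (fun e => e.2 = v)).card ≤ s := by
  have hsub : F.filter (fun e => e.2 = v) ⊆
      (((V.filter (fun c => c < v)).filter
        (fun b => ((V.filter (fun c => c < v)).filter (fun c => b < c)).card < s))).image
        (fun b => (b, v)) := by
    intro e he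
    obtain ⟨p, q⟩ := e
    simp only [mem_filter] at he
    obtain ⟨heF, rfl⟩ := he
    obtain ⟨h1, h2, h3⟩ := hF _ heF
    rw [mem_image]
    refine ⟨p, ?_, rfl⟩
    rw [mem_filter, mem_filter]
    refine ⟨⟨h1, h3⟩, ?_⟩
    have := hs _ heF
    rw [btw] at this
    refine lt_of_le_of_lt (card_le_card ?_) this
    intro c hc
    rw [mem_filter, mem_filter] at hc
    rw [mem_filter]
    exact ⟨hc.1.1, hc.2, hc.1.2⟩
  exact (card_le_card hsub).trans (card_image_le.trans (card_high_le _ _))

/-- Few short pairs are incident to a small set. -/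
lemma card_short_le {V : Finset ℕ} {F : Finset (ℕ × ℕ)} {s : ℕ}
    (hF : ∀ e ∈ F, e.1 ∈ V ∧ e.2 ∈ V ∧ e.1 < e.2) (hs : ∀ e ∈ F, (btw V e).card < s)
    (Q : Finset ℕ) (hQ : ∀ e ∈ F, e.1 ∈ Q ∨ e.2 ∈ Q) : F.card ≤ Q.card * (2 * s) := by
  have hsub : F ⊆ Q.biUnion (fun v => F.filter (fun e => e.1 = v) ∪ F.filter (fun e => e.2 = v)) := by
    intro e he
    rw [mem_biUnion]
    rcases hQ e he with h | h
    · exact ⟨e.1, h, mem_union_left _ (mem_filter.mpr ⟨he, rfl⟩)⟩
    · exact ⟨e.2, h, mem_union_right _ (mem_filter.mpr ⟨he, rfl⟩)⟩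
  refine (card_le_card hsub).trans (card_biUnion_le_card_mul _ _ _ fun v _ => ?_)
  refine (card_union_le _ _).trans ?_
  have h1 := card_right_le hF hs v
  have h2 := card_left_le hF hs v
  omega

/-- weight of a set of vertices: elements of `P` have weight `1 + κ`, the others `1`. -/
noncomputable def wgt (κ : ℝ) (P S : Finset ℕ) : ℝ := S.card + κ * (S.filter (fun v => v ∈ P)).card

lemma wgt_nonneg {κ : ℝ} (hκ : 0 < κ) (P S : Finset ℕ) : 0 ≤ wgt κ P S := by
  unfold wgt; positivity

lemma card_le_wgt {κ : ℝ} (hκ : 0 < κ) (P S : Finset ℕ) : (S.card : ℝ) ≤ wgt κ P S := by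
  unfold wgt
  have : 0 ≤ κ * ((S.filter (fun v => v ∈ P)).card : ℝ) := by positivity
  linarith

lemma kcard_le_wgt {κ : ℝ} (P S : Finset ℕ) :
    κ * ((S.filter (fun v => v ∈ P)).card : ℝ) ≤ wgt κ P S := by
  unfold wgt
  have : (0 : ℝ) ≤ (S.card : ℝ) := by positivity
  linarith

lemma wgt_lt {κ : ℝ} (hκ : 0 < κ) (P : Finset ℕ) {S T : Finset ℕ} (h : S ⊂ T) :
    wgt κ P S < wgt κ P T := by
  unfold wgt
  have h1 : (S.card : ℝ) < T.card := by exact_mod_cast card_lt_card h
  have h2 : ((S.filter (fun v => v ∈ P)).card : ℝ) ≤ (T.filter (fun v => v ∈ P)).card := by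
    exact_mod_cast card_le_card (filter_subset_filter _ h.subset)
  nlinarith

lemma wgt_sdiff {κ : ℝ} (P : Finset ℕ) {S T : Finset ℕ} (h : S ⊆ T) :
    wgt κ P T = wgt κ P (T \ S) + wgt κ P S := by
  unfold wgt
  have h1 : (T.card : ℝ) = (T \ S).card + S.card := by
    exact_mod_cast (card_sdiff_add_card_eq_card h).symm
  have h2 : ((T.filter (fun v => v ∈ P)).card : ℝ) =
      ((T \ S).filter (fun v => v ∈ P)).card + (S.filter (fun v => v ∈ P)).card := by
    rw [← Nat.cast_add, ← card_union_of_disjoint, ← filter_union, sdiff_union_of_subset h]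
    exact disjoint_filter_filter (sdiff_disjoint)
  rw [h1, h2]; ring

/-- Hub lemma: few edges are incident to a small set of vertices. -/
theorem hub_bound (k s : ℕ) (hs : 1 ≤ s) (κ A : ℝ) (hκ : 0 < κ)
    (hA : 2 * s / κ + (4 * s + k) / s ≤ A) (P : Finset ℕ) :
    ∀ (n : ℕ) (V : Finset ℕ) (E : Finset (ℕ × ℕ)), V.card = n → Good k V E →
      ((E.filter (fun e => e.1 ∈ P ∨ e.2 ∈ P)).card : ℝ) ≤ A * wgt κ P V := by
  have hs' : (1 : ℝ) ≤ s := by exact_mod_cast hs
  have hs0 : (0 : ℝ) < s := by linarith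
  have hk0 : (0 : ℝ) ≤ k := Nat.cast_nonneg k
  have hA1 : 2 * (s : ℝ) ≤ A * κ := by
    have h1 : 2 * (s : ℝ) / κ ≤ A := by
      have : 0 ≤ (4 * (s : ℝ) + k) / s := by positivity
      linarith
    rwa [div_le_iff₀ hκ] at h1
  have hA0 : 0 ≤ A := by
    by_contra hneg
    push Not at hneg
    nlinarith
  intro n
  induction n using Nat.strong_induction_on with
  | _ n ih =>
  intro V E hV hG
  set L := E.filter (fun e => (s : ℝ) ≤ wgt κ P (btw V e)) with hL
  by_cases hLne : L.Nonempty
  · obtain ⟨e0, he0, he0min⟩ := Finset.exists_min_image L (fun e => wgt κ P (btw V e)) hLne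
    rw [hL, Finset.mem_filter] at he0
    obtain ⟨he0E, he0s⟩ := he0
    obtain ⟨hx, hy, hxy⟩ := hG.mem e0 he0E
    obtain ⟨x, y⟩ := e0
    simp only at hx hy hxy
    set J := btw V (x, y) with hJ
    have hJV : J ⊆ V := Finset.filter_subset _ _
    have hmemJ : ∀ c, c ∈ V → (c ∈ J ↔ x < c ∧ c < y) := by
      intro c hc
      simp [hJ, btw, hc]
    have hJne : J.Nonempty := by
      rw [Finset.nonempty_iff_ne_empty]
      intro h0
      rw [h0] at he0s
      simp [wgt] at he0s
      omega
    have hJpos := Finset.card_pos.mpr hJne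
    set V' := V \ J with hV'
    set E' := E.filter (fun e => e.1 ∉ J ∧ e.2 ∉ J) with hE'
    have hcardV' : V'.card = V.card - J.card := by
      rw [hV', Finset.card_sdiff_of_subset hJV]
    have hJle := Finset.card_le_card hJV
    have hGE' : Good k V' E' := by
      refine hG.mono (Finset.filter_subset _ _) ?_
      intro e he
      rw [hE', Finset.mem_filter] at he
      obtain ⟨h1, h2, h3⟩ := he
      obtain ⟨h4, h5, -⟩ := hG.mem e h1
      exact ⟨Finset.mem_sdiff.mpr ⟨h4, h2⟩, Finset.mem_sdiff.mpr ⟨h5, h3⟩⟩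
    have hIH := ih V'.card (by omega) V' E' rfl hGE'
    have hw := wgt_sdiff (κ := κ) P hJV
    -- the removed edges
    set D := E.filter (fun e => e.1 ∈ P ∨ e.2 ∈ P) with hD
    set R := D.filter (fun e => ¬ (e.1 ∉ J ∧ e.2 ∉ J)) with hR
    have hsplit : D.card = (E'.filter (fun e => e.1 ∈ P ∨ e.2 ∈ P)).card + R.card := by
      have h1 := (Finset.card_filter_add_card_filter_not (s := D)
        (fun e : ℕ × ℕ => e.1 ∉ J ∧ e.2 ∉ J)).symm
      have h2 : D.filter (fun e : ℕ × ℕ => e.1 ∉ J ∧ e.2 ∉ J) =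
          E'.filter (fun e => e.1 ∈ P ∨ e.2 ∈ P) := by
        rw [hD, hE', filter_filter, filter_filter]
        refine filter_congr fun e _ => ?_
        tauto
      rw [h2] at h1
      exact h1
    set Rin := R.filter (fun e => ¬ Alt (x, y) e) with hRin
    have hRcard : R.card ≤ Rin.card + k := by
      have h1 : (R.filter (fun e => Alt (x, y) e)).card + Rin.card = R.card := by
        rw [hRin]
        exact Finset.card_filter_add_card_filter_not (s := R) (fun e : ℕ × ℕ => Alt (x, y) e)
      have h2 : (R.filter (fun e => Alt (x, y) e)).card ≤ k := by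
        refine (card_le_card ?_).trans (hG.cr _ he0E)
        refine filter_subset_filter _ ?_
        exact (filter_subset _ _).trans (filter_subset _ _)
      omega
    have hRinE : ∀ e ∈ Rin, e ∈ E ∧ (e.1 ∈ P ∨ e.2 ∈ P) ∧ (e.1 ∈ J ∨ e.2 ∈ J) ∧
        ¬ Alt (x, y) e := by
      intro e he
      rw [hRin, mem_filter, hR, mem_filter, hD, mem_filter] at he
      obtain ⟨⟨⟨h1, h2⟩, h3⟩, h4⟩ := he
      refine ⟨h1, h2, ?_, h4⟩
      by_contra hcon
      push Not at hcon
      exact h3 hcon
    have hRin2 : ∀ e ∈ Rin, x ≤ e.1 ∧ e.2 ≤ y := by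
      intro e he
      obtain ⟨h1, h2, h3, h4⟩ := hRinE e he
      obtain ⟨h5, h6, h7⟩ := hG.mem e h1
      obtain ⟨p, q⟩ := e
      simp only [Alt] at *
      rcases h3 with h3 | h3
      · rw [hmemJ p h5] at h3
        omega
      · rw [hmemJ q h6] at h3
        omega
    have hshort : ∀ e ∈ Rin, (btw V e).card < s := by
      intro e he
      obtain ⟨h1, h2, h3, h4⟩ := hRinE e he
      obtain ⟨h5, h6, h7⟩ := hG.mem e h1
      obtain ⟨h8, h9⟩ := hRin2 e he
      have hss : btw V e ⊂ J := by
        rw [Finset.ssubset_iff_of_subset]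
        · rcases h3 with hp | hq
          · exact ⟨e.1, hp, by simp [btw]⟩
          · exact ⟨e.2, hq, by simp [btw]⟩
        · intro c hc
          simp only [btw, Finset.mem_filter] at hc
          rw [hmemJ c hc.1]
          omega
      have hlt := wgt_lt hκ P hss
      by_contra hcon
      push Not at hcon
      have hmem : e ∈ L := by
        rw [hL, mem_filter]
        refine ⟨h1, le_trans ?_ (card_le_wgt hκ P _)⟩
        exact_mod_cast hcon
      have := he0min e hmem
      linarith
    have hQ : Rin.card ≤ (insert x (insert y (J.filter (fun v => v ∈ P)))).card * (2 * s) := by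
      refine card_short_le (V := V) (fun e he => hG.mem e (hRinE e he).1) hshort _ ?_
      intro e he
      obtain ⟨h1, h2, h3, h4⟩ := hRinE e he
      obtain ⟨h5, h6, h7⟩ := hG.mem e h1
      obtain ⟨h8, h9⟩ := hRin2 e he
      have key : ∀ c ∈ V, x ≤ c → c ≤ y → c ∈ P → c ∈ insert x (insert y (J.filter (fun v => v ∈ P))) := by
        intro c hc h1 h2 h3
        rw [mem_insert, mem_insert, mem_filter, hmemJ c hc]
        rcases eq_or_lt_of_le h1 with h | h
        · left; exact h.symm
        · rcases eq_or_lt_of_le h2 with h' | h'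
          · right; left; exact h'
          · right; right; exact ⟨⟨h, h'⟩, h3⟩
      rcases h2 with h2 | h2
      · left; exact key _ h5 h8 (by omega) h2
      · right; exact key _ h6 (by omega) h9 h2
    have hQcard : (insert x (insert y (J.filter (fun v => v ∈ P)))).card ≤
        (J.filter (fun v => v ∈ P)).card + 2 := by
      have h1 := card_insert_le x (insert y (J.filter (fun v => v ∈ P)))
      have h2 := card_insert_le y (J.filter (fun v => v ∈ P))
      omega
    set j := (J.filter (fun v => v ∈ P)).card with hj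
    have hRtot : (R.card : ℝ) ≤ (j + 2) * (2 * s) + k := by
      have : R.card ≤ (j + 2) * (2 * s) + k :=
        hRcard.trans (Nat.add_le_add_right (hQ.trans (Nat.mul_le_mul_right _ hQcard)) _)
      exact_mod_cast this
    have hfin : ((j : ℝ) + 2) * (2 * s) + k ≤ A * wgt κ P J := by
      have h1 : 2 * (s : ℝ) / κ * wgt κ P J + (4 * s + k) / s * wgt κ P J ≤ A * wgt κ P J := by
        rw [← add_mul]
        exact mul_le_mul_of_nonneg_right hA (wgt_nonneg hκ _ _)
      have h2 : 2 * (s : ℝ) * j ≤ 2 * (s : ℝ) / κ * wgt κ P J := by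
        have h3 := kcard_le_wgt (κ := κ) P J
        rw [← hj] at h3
        have : 2 * (s : ℝ) * j = 2 * (s : ℝ) / κ * (κ * j) := by
          field_simp
        rw [this]
        exact mul_le_mul_of_nonneg_left h3 (by positivity)
      have h3 : (4 * (s : ℝ) + k) ≤ (4 * s + k) / s * wgt κ P J := by
        have : (4 * (s : ℝ) + k) = (4 * s + k) / s * s := by
          field_simp
        calc (4 * (s : ℝ) + k) = (4 * s + k) / s * s := this
          _ ≤ _ := mul_le_mul_of_nonneg_left he0s (by positivity)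
      nlinarith
    have hsplitR : (D.card : ℝ) = (E'.filter (fun e => e.1 ∈ P ∨ e.2 ∈ P)).card + R.card := by
      exact_mod_cast hsplit
    rw [hsplitR, hw, mul_add]
    exact add_le_add hIH (hRtot.trans hfin)
  · -- no long edge
    rw [Finset.not_nonempty_iff_eq_empty] at hLne
    have hshort : ∀ e ∈ E, (btw V e).card < s := by
      intro e he
      by_contra hcon
      push Not at hcon
      have : e ∈ L := by
        rw [hL, mem_filter]
        refine ⟨he, le_trans ?_ (card_le_wgt hκ P _)⟩
        exact_mod_cast hcon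
      rw [hLne] at this
      simp at this
    have hQ : (E.filter (fun e => e.1 ∈ P ∨ e.2 ∈ P)).card ≤
        (V.filter (fun v => v ∈ P)).card * (2 * s) := by
      refine card_short_le (V := V) (fun e he => hG.mem e (mem_filter.mp he).1)
        (fun e he => hshort e (mem_filter.mp he).1) _ ?_
      intro e he
      rw [mem_filter] at he
      obtain ⟨h5, h6, h7⟩ := hG.mem e he.1
      rcases he.2 with h | h
      · left; exact mem_filter.mpr ⟨h5, h⟩
      · right; exact mem_filter.mpr ⟨h6, h⟩
    have h3 := kcard_le_wgt (κ := κ) P V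
    have hQR : ((E.filter (fun e => e.1 ∈ P ∨ e.2 ∈ P)).card : ℝ) ≤
        (V.filter (fun v => v ∈ P)).card * (2 * s) := by exact_mod_cast hQ
    set j := (V.filter (fun v => v ∈ P)).card with hj
    calc ((E.filter (fun e => e.1 ∈ P ∨ e.2 ∈ P)).card : ℝ) ≤ j * (2 * s) := hQR
      _ ≤ j * (A * κ) := mul_le_mul_of_nonneg_left hA1 (by positivity)
      _ = A * (κ * j) := by ring
      _ ≤ A * wgt κ P V := mul_le_mul_of_nonneg_left h3 hA0

end Pool.Agent.MP_df3d6f_co
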