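import Mathlib
import Pool.Agent.MP_df3d6f_co.Med1
import Pool.Agent.MP_df3d6f_co.Med2

namespace Pool.Agent.MP_df3d6f_co

open Finset

/-- Hub lemma, closed form. -/
theorem hub_closed {k N : ℕ} (hk : 1 ≤ k) (hN : 1 ≤ N) {E : Finset (ℕ × ℕ)}
    (h : Good k (range N) E) {P : Finset ℕ} (hP : P ⊆ range N) :
    ((E.filter (fun e => e.1 ∈ P ∨ e.2 ∈ P)).card : ℝ) ≤ 6 * √(k * P.card * N) + 12 * N := by
  rcases Nat.eq_zero_or_pos P.card with h0 | hp
  · rw [card_eq_zero] at h0
    subst h0
    simp only [notMem_empty, or_self, filter_false, card_empty, Nat.cast_zero]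
    positivity
  have hpN : P.card ≤ N := by
    have := card_le_card hP
    rwa [card_range] at this
  set p := P.card with hpdef
  have hkR : (1 : ℝ) ≤ k := by exact_mod_cast hk
  have hNR : (1 : ℝ) ≤ N := by exact_mod_cast hN
  have hpR : (1 : ℝ) ≤ p := by exact_mod_cast hp
  have hpNR : (p : ℝ) ≤ N := by exact_mod_cast hpN
  have hk0 : (0 : ℝ) < k := by linarith
  have hN0 : (0 : ℝ) < N := by linarith
  have hp0 : (0 : ℝ) < p := by linarith
  set κ : ℝ := N / p with hκdef
  have hκ1 : 1 ≤ κ := by rw [hκdef, le_div_iff₀ hp0]; linarith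
  have hκ0 : 0 < κ := by linarith
  set r : ℝ := √(k * p / N) with hr
  have hr0 : 0 < r := Real.sqrt_pos.mpr (by positivity)
  have hr2 : r * r = k * p / N := Real.mul_self_sqrt (by positivity)
  have hsq : √(k * p * N) = N * r := by
    have : (k : ℝ) * p * N = (N * r) * (N * r) := by
      have : (N * r) * (N * r) = N * N * (r * r) := by ring
      rw [this, hr2]; field_simp
    rw [this, Real.sqrt_mul_self (by positivity)]
  have hrk : r * r * κ = k := by
    rw [hr2, hκdef]; field_simp
  set s : ℕ := ⌈r * κ⌉₊ with hs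
  have hs1 : 1 ≤ s := Nat.one_le_iff_ne_zero.mpr (by
    intro h0
    rw [hs, Nat.ceil_eq_zero] at h0
    have : 0 < r * κ := by positivity
    linarith)
  have hsge : r * κ ≤ s := Nat.le_ceil _
  have hslt : (s : ℝ) ≤ r * κ + 1 := (Nat.ceil_lt_add_one (by positivity)).le
  have hs0 : (0 : ℝ) < s := by exact_mod_cast hs1
  have hA1 : 2 * (s : ℝ) / κ ≤ 2 * r + 2 := by
    rw [div_le_iff₀ hκ0]
    nlinarith
  have hA2 : (4 * (s : ℝ) + k) / s ≤ 4 + r := by
    rw [div_le_iff₀ hs0]
    nlinarith
  have hmain := hub_bound k s hs1 κ (3 * r + 6) hκ0 (by linarith) P (range N).card (range N) E rfl h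
  have hfil : (range N).filter (fun v => v ∈ P) = P := by
    ext v
    rw [mem_filter]
    exact ⟨fun h => h.2, fun h => ⟨hP h, h⟩⟩
  have hw : wgt κ P (range N) = 2 * N := by
    unfold wgt
    rw [hfil, card_range, ← hpdef, hκdef]
    field_simp
    ring
  rw [hw] at hmain
  rw [hsq]
  calc _ ≤ _ := hmain
    _ = 6 * (N * r) + 12 * N := by ring

/-- Greedy chain of windows.  The vertices satisfying `Tl` are set aside; every other vertex `x`
has degree at most `M + g x` or is the left end of a light chord. -/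
theorem exists_chain {k N : ℕ} {E : Finset (ℕ × ℕ)} (h : Good k (range N) E) (lo M : ℝ)
    (hlo : 0 < lo) (hM : 0 ≤ M) (Tl : ℕ → Prop) [DecidablePred Tl] (g : ℕ → ℝ)
    (hg : ∀ x, 0 ≤ g x)
    (hG : ∀ x, x < N → ¬ Tl x → ((star E x).card : ℝ) ≤ M + g x ∨
      ∃ t : ℕ, 1 ≤ t ∧ x + t < N ∧ (E.filter (Alt (x, x + t))).card ≤ k ∧ lo ≤ t ∧
        (k : ℝ) + (t - 1) * t ≤ M * t) :
    ∀ m x, x + m = N → ∃ P, P ⊆ Ico x N ∧
      (P.card : ℝ) ≤ m / lo + ((Ico x N).filter (fun v => Tl v)).card ∧
      ((∑ v ∈ Ico x N \ P, (star E v).card : ℕ) : ℝ) ≤ M * m + ∑ v ∈ Ico x N, g v := by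
  intro m
  induction m using Nat.strong_induction_on with
  | _ m ih =>
  intro x hx
  rcases Nat.eq_zero_or_pos m with rfl | hm
  · refine ⟨∅, by simp, by simp, ?_⟩
    have : Ico x N = ∅ := by rw [Ico_eq_empty_iff]; omega
    rw [this]
    simp
  have hgs : ∑ v ∈ Ico x N, g v = g x + ∑ v ∈ Ico (x + 1) N, g v :=
    Finset.sum_eq_sum_Ico_succ_bot (by omega) _
  have hgx0 := hg x
  by_cases hgx : ∃ t : ℕ, 1 ≤ t ∧ x + t < N ∧ (E.filter (Alt (x, x + t))).card ≤ k ∧ lo ≤ t ∧
      (k : ℝ) + (t - 1) * t ≤ M * t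
  · obtain ⟨t, ht1, hxt, htE, htlo, htM⟩ := hgx
    obtain ⟨P, hP1, hP2, hP3⟩ := ih (m - t) (by omega) (x + t) (by omega)
    have hxP : x ∉ P := by
      intro hh
      have := hP1 hh
      rw [mem_Ico] at this
      omega
    have hmt : ((m - t : ℕ) : ℝ) = m - t := by rw [Nat.cast_sub (by omega)]
    rw [hmt] at hP2 hP3
    have hgmono : ∑ v ∈ Ico (x + t) N, g v ≤ ∑ v ∈ Ico x N, g v :=
      sum_le_sum_of_subset_of_nonneg (Ico_subset_Ico_left (by omega)) fun v _ _ => hg v
    refine ⟨insert x P, ?_, ?_, ?_⟩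
    · intro v hv
      rw [mem_insert] at hv
      rcases hv with rfl | hv
      · rw [mem_Ico]; omega
      · have := hP1 hv
        rw [mem_Ico] at this ⊢
        omega
    · rw [card_insert_of_notMem hxP]
      push_cast
      have hb : (((Ico (x + t) N).filter (fun v => Tl v)).card : ℝ) ≤
          ((Ico x N).filter (fun v => Tl v)).card := by
        exact_mod_cast card_le_card (filter_subset_filter _ (Ico_subset_Ico_left (by omega)))
      have hdiv : ((m : ℝ) - t) / lo + 1 ≤ m / lo := by
        rw [sub_div]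
        have : 1 ≤ (t : ℝ) / lo := by rwa [le_div_iff₀ hlo, one_mul]
        linarith
      linarith
    · have hset : Ico x N \ insert x P = Ioo x (x + t) ∪ (Ico (x + t) N \ P) := by
        ext v
        simp only [mem_sdiff, mem_Ico, mem_insert, mem_union, mem_Ioo, not_or]
        constructor
        · rintro ⟨⟨h1, h2⟩, h3, h4⟩
          by_cases hv : v < x + t
          · left; omega
          · right; exact ⟨⟨by omega, h2⟩, h4⟩
        · rintro (⟨h1, h2⟩ | ⟨⟨h1, h2⟩, h3⟩)
          · refine ⟨⟨by omega, by omega⟩, by omega, fun hv => ?_⟩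
            have := hP1 hv
            rw [mem_Ico] at this
            omega
          · exact ⟨⟨by omega, h2⟩, by omega, h3⟩
      have hdis : Disjoint (Ioo x (x + t)) (Ico (x + t) N \ P) := by
        rw [disjoint_left]
        intro v hv hv'
        rw [mem_Ioo] at hv
        rw [mem_sdiff, mem_Ico] at hv'
        omega
      rw [hset, sum_union hdis]
      have hside := sum_star_side h (show x < x + t by omega) htE
      have h1 : x + t - x = t := by omega
      rw [h1] at hside
      have hsideR : ((∑ v ∈ Ioo x (x + t), (star E v).card : ℕ) : ℝ) ≤ k + (t - 1) * t := by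
        have : ((∑ v ∈ Ioo x (x + t), (star E v).card : ℕ) : ℝ) ≤ ((k + (t - 1) * t : ℕ) : ℝ) := by
          exact_mod_cast hside
        refine this.trans (le_of_eq ?_)
        push_cast [Nat.cast_sub ht1]
        ring
      rw [Nat.cast_add]
      nlinarith
  · obtain ⟨P, hP1, hP2, hP3⟩ := ih (m - 1) (by omega) (x + 1) (by omega)
    have hxP : x ∉ P := by
      intro hh
      have := hP1 hh
      rw [mem_Ico] at this
      omega
    have hmt : ((m - 1 : ℕ) : ℝ) = m - 1 := by rw [Nat.cast_sub (by omega)]; simp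
    rw [hmt] at hP2 hP3
    by_cases hdeg : ((star E x).card : ℝ) ≤ M + g x
    · refine ⟨P, ?_, ?_, ?_⟩
      · intro v hv
        have := hP1 hv
        rw [mem_Ico] at this ⊢
        omega
      · have hb : (((Ico (x + 1) N).filter (fun v => Tl v)).card : ℝ) ≤
            ((Ico x N).filter (fun v => Tl v)).card := by
          exact_mod_cast card_le_card (filter_subset_filter _ (Ico_subset_Ico_left (by omega)))
        have hdiv : ((m : ℝ) - 1) / lo ≤ m / lo := by
          apply div_le_div_of_nonneg_right _ hlo.le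
          linarith
        linarith
      · have hset : Ico x N \ P = insert x (Ico (x + 1) N \ P) := by
          ext v
          simp only [mem_sdiff, mem_Ico, mem_insert]
          constructor
          · rintro ⟨⟨h1, h2⟩, h3⟩
            rcases eq_or_lt_of_le h1 with h | h
            · left; exact h.symm
            · right; exact ⟨⟨h, h2⟩, h3⟩
          · rintro (rfl | ⟨⟨h1, h2⟩, h3⟩)
            · exact ⟨⟨le_rfl, by omega⟩, hxP⟩
            · exact ⟨⟨by omega, h2⟩, h3⟩
        have hnot : x ∉ Ico (x + 1) N \ P := by simp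
        rw [hset, sum_insert hnot, Nat.cast_add, hgs]
        nlinarith
    have hBx : Tl x := by
      by_contra hB
      rcases hG x (by omega) hB with h1 | h1
      · exact hdeg h1
      · exact hgx h1
    refine ⟨insert x P, ?_, ?_, ?_⟩
    · intro v hv
      rw [mem_insert] at hv
      rcases hv with rfl | hv
      · rw [mem_Ico]; omega
      · have := hP1 hv
        rw [mem_Ico] at this ⊢
        omega
    · rw [card_insert_of_notMem hxP]
      push_cast
      have hins : (Ico x N).filter (fun v => Tl v) =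
          insert x ((Ico (x + 1) N).filter (fun v => Tl v)) := by
        ext v
        simp only [mem_filter, mem_Ico, mem_insert]
        constructor
        · rintro ⟨⟨h1, h2⟩, h3⟩
          rcases eq_or_lt_of_le h1 with h | h
          · left; exact h.symm
          · right; exact ⟨⟨h, h2⟩, h3⟩
        · rintro (rfl | ⟨⟨h1, h2⟩, h3⟩)
          · exact ⟨⟨le_rfl, by omega⟩, hBx⟩
          · exact ⟨⟨by omega, h2⟩, h3⟩
      have hnot : x ∉ (Ico (x + 1) N).filter (fun v => Tl v) := by simp
      rw [hins, card_insert_of_notMem hnot]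
      push_cast
      have hdiv : ((m : ℝ) - 1) / lo ≤ m / lo := by
        apply div_le_div_of_nonneg_right _ hlo.le
        linarith
      linarith
    · have hset : Ico x N \ insert x P = Ico (x + 1) N \ P := by
        ext v
        simp only [mem_sdiff, mem_Ico, mem_insert, not_or]
        constructor
        · rintro ⟨⟨h1, h2⟩, h3, h4⟩
          exact ⟨⟨by omega, h2⟩, h4⟩
        · rintro ⟨⟨h1, h2⟩, h3⟩
          exact ⟨⟨by omega, h2⟩, by omega, h3⟩
      rw [hset, hgs]
      refine hP3.trans ?_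
      nlinarith

/-- The bound for graphs with few vertices without a light chord, linear model. -/
theorem medium_linear {k N : ℕ} (hk : 1 ≤ k) (hN : 1 ≤ N) {E : Finset (ℕ × ℕ)}
    (h : Good k (range N) E) (lo M : ℝ) (hlo : 0 < lo) (hM : 0 ≤ M) (Tl : ℕ → Prop)
    [DecidablePred Tl] (g : ℕ → ℝ) (hg : ∀ x, 0 ≤ g x)
    (hG : ∀ x, x < N → ¬ Tl x → ((star E x).card : ℝ) ≤ M + g x ∨
      ∃ t : ℕ, 1 ≤ t ∧ x + t < N ∧ (E.filter (Alt (x, x + t))).card ≤ k ∧ lo ≤ t ∧
        (k : ℝ) + (t - 1) * t ≤ M * t) :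
    (E.card : ℝ) ≤ M / 2 * N + (∑ v ∈ range N, g v) / 2 +
      6 * √(k * N * (N / lo + ((range N).filter (fun v => Tl v)).card)) + 12 * N := by
  obtain ⟨P, hP1, hP2, hP3⟩ := exists_chain h lo M hlo hM Tl g hg hG N 0 (by omega)
  have hI : Ico 0 N = range N := by rw [Finset.range_eq_Ico]
  rw [hI] at hP1 hP2 hP3
  have hhub := hub_closed hk hN h hP1
  have h1 := sum_star_range h
  have h2 : ∑ v ∈ range N \ P, (star E v).card + ∑ v ∈ P, (star E v).card =
      ∑ v ∈ range N, (star E v).card := sum_sdiff hP1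
  have h3 := sum_star_le E P
  have h4 : 2 * (E.card : ℝ) ≤ M * N + ∑ v ∈ range N, g v +
      2 * ((E.filter (fun e => e.1 ∈ P ∨ e.2 ∈ P)).card : ℝ) := by
    have h5 : 2 * (E.card : ℝ) = ((∑ v ∈ range N \ P, (star E v).card : ℕ) : ℝ) +
        ((∑ v ∈ P, (star E v).card : ℕ) : ℝ) := by
      rw [← Nat.cast_add, h2, h1]; push_cast; ring
    have h6 : ((∑ v ∈ P, (star E v).card : ℕ) : ℝ) ≤
        2 * ((E.filter (fun e => e.1 ∈ P ∨ e.2 ∈ P)).card : ℝ) := by exact_mod_cast h3
    linarith
  have h7 : √(k * P.card * N) ≤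
      √(k * N * (N / lo + ((range N).filter (fun v => Tl v)).card)) := by
    apply Real.sqrt_le_sqrt
    have : (0 : ℝ) ≤ (k : ℝ) * N := by positivity
    calc (k : ℝ) * P.card * N = k * N * P.card := by ring
      _ ≤ _ := mul_le_mul_of_nonneg_left hP2 this
  linarith

end Pool.Agent.MP_df3d6f_co
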