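import Mathlib
import Pool.Agent.MP_df3d6f_co.Defs

namespace Pool.Agent.MP_df3d6f_co

open Finset

/-- The zigzag position on the circle: odd numbers in decreasing order, followed by the even
numbers in increasing order. -/
def zpos (n : ℕ) (i : Fin n) : ℕ := if (i : ℕ) % 2 = 0 then n + i else n - i

lemma zpos_inj (n : ℕ) : Function.Injective (zpos n) := by
  intro i j h
  unfold zpos at h
  have := i.2
  have := j.2
  apply Fin.ext
  split_ifs at h <;> omega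

/-- The `c`-th power of the path on `n` vertices: `i` and `j` are adjacent if and only if
`1 ≤ |i - j| ≤ c`. -/
def pathPow (n c : ℕ) : SimpleGraph (Fin n) where
  Adj i j := i ≠ j ∧ (i : ℕ) ≤ j + c ∧ (j : ℕ) ≤ i + c
  symm := ⟨fun _ _ h => ⟨h.1.symm, h.2.2, h.2.1⟩⟩
  loopless := ⟨fun _ h => h.1 rfl⟩

/-- Pairs `(i - 2α, j + 2β)` with `α, β ≥ 1`, `α + β ≤ m`. -/
def RR (i j : ℤ) (m : ℕ) : Finset (Sym2 ℤ) :=
  ((range m).sigma (fun p => range p)).image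
    (fun p => s(i - 2 * ((p.2 : ℤ) + 1), j + 2 * ((p.1 : ℤ) - p.2)))

lemma card_RR (i j : ℤ) (m : ℕ) : (RR i j m).card ≤ m * (m - 1) / 2 := by
  unfold RR
  refine card_image_le.trans ?_
  rw [card_sigma]
  simp only [card_range]
  rw [Finset.sum_range_id]

lemma mem_RR {i j u v : ℤ} {m : ℕ} (hu : u < i) (hv : j < v) (hiu : (i - u) % 2 = 0)
    (hjv : (v - j) % 2 = 0) (h : (i - u) + (v - j) ≤ 2 * (m : ℤ)) : s(u, v) ∈ RR i j m := by
  unfold RR
  rw [mem_image]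
  obtain ⟨α, hα⟩ : ∃ α : ℕ, i - u = 2 * ((α : ℤ) + 1) := ⟨((i - u) / 2 - 1).toNat, by omega⟩
  obtain ⟨β, hβ⟩ : ∃ β : ℕ, v - j = 2 * ((β : ℤ) + 1) := ⟨((v - j) / 2 - 1).toNat, by omega⟩
  refine ⟨⟨α + β + 1, α⟩, ?_, ?_⟩
  · simp only [mem_sigma, mem_range]
    omega
  · have e1 : i - 2 * ((α : ℤ) + 1) = u := by omega
    have e2 : j + 2 * ((((α + β + 1 : ℕ)) : ℤ) - α) = v := by push_cast; omega
    simp only [e1, e2]

/-- Edges leaving the inside of the row edge `a, a + 2 s`. -/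
noncomputable def SS (a : ℤ) (s c : ℕ) : Finset (Sym2 ℤ) :=
  (range (s - 1)).biUnion fun t =>
    ((Icc (a + 2 * ((t : ℤ) + 1) - c) (a + 2 * ((t : ℤ) + 1) + c)) \
      ((range (s + 1)).image fun l : ℕ => a + 2 * (l : ℤ))).image
        fun w => s(a + 2 * ((t : ℤ) + 1), w)

lemma card_SS (a : ℤ) (s c : ℕ) (h : 2 * s ≤ c) : (SS a s c).card ≤ (s - 1) * (2 * c - s) := by
  unfold SS
  refine card_biUnion_le.trans ?_
  have : ∀ t ∈ range (s - 1), (((Icc (a + 2 * ((t : ℤ) + 1) - c) (a + 2 * ((t : ℤ) + 1) + c)) \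
      ((range (s + 1)).image fun l : ℕ => a + 2 * (l : ℤ))).image
        fun w => s(a + 2 * ((t : ℤ) + 1), w)).card ≤ 2 * c - s := by
    intro t ht
    rw [mem_range] at ht
    refine card_image_le.trans ?_
    have hsub : ((range (s + 1)).image fun l : ℕ => a + 2 * (l : ℤ)) ⊆
        (Icc (a + 2 * ((t : ℤ) + 1) - c) (a + 2 * ((t : ℤ) + 1) + c)) := by
      intro x hx
      rw [mem_image] at hx
      obtain ⟨l, hl, rfl⟩ := hx
      rw [mem_range] at hl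
      rw [mem_Icc]
      omega
    rw [card_sdiff_of_subset hsub, Int.card_Icc, card_image_of_injective, card_range]
    · omega
    · intro x y hxy
      simpa using hxy
  refine (sum_le_sum this).trans ?_
  rw [sum_const, card_range, smul_eq_mul]

lemma mem_SS {a u v : ℤ} {s c : ℕ} (h1 : a < u) (h2 : u < a + 2 * s) (h3 : (u - a) % 2 = 0)
    (h4 : u - c ≤ v) (h5 : v ≤ u + c)
    (h6 : (v - a) % 2 = 0 → v < a ∨ a + 2 * s < v) : s(u, v) ∈ SS a s c := by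
  unfold SS
  rw [mem_biUnion]
  obtain ⟨t, ht⟩ : ∃ t : ℕ, u - a = 2 * ((t : ℤ) + 1) := ⟨((u - a) / 2 - 1).toNat, by omega⟩
  refine ⟨t, by rw [mem_range]; omega, ?_⟩
  rw [mem_image]
  have e1 : a + 2 * ((t : ℤ) + 1) = u := by omega
  refine ⟨v, ?_, by rw [e1]⟩
  rw [mem_sdiff, mem_Icc, mem_image]
  refine ⟨by omega, ?_⟩
  rintro ⟨l, hl, hlv⟩
  rw [mem_range] at hl
  have := h6 (by omega)
  omega

/-- From a crossing, the alternation in both orders. -/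
lemma alt_of_crosses {V : Type*} {pos : V → ℕ} {a b : V} {f : Sym2 V}
    (h : Crosses pos s(a, b) f) :
    ∃ u v : V, f = s(u, v) ∧
      ((pos a < pos u ∧ pos u < pos b ∧ (pos v < pos a ∨ pos b < pos v)) ∨
       (pos b < pos u ∧ pos u < pos a ∧ (pos v < pos b ∨ pos a < pos v))) := by
  obtain ⟨a', b', c', d', he, hf, h⟩ := h
  rw [Sym2.eq_iff] at he
  rcases he with ⟨rfl, rfl⟩ | ⟨rfl, rfl⟩
  · rcases h with h | h
    · exact ⟨c', d', hf, by omega⟩
    · exact ⟨d', c', by rw [hf, Sym2.eq_swap], by omega⟩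
  · rcases h with h | h
    · exact ⟨c', d', hf, by omega⟩
    · exact ⟨d', c', by rw [hf, Sym2.eq_swap], by omega⟩

/-- Casting edges to the integers. -/
def toZ (n : ℕ) : Sym2 (Fin n) → Sym2 ℤ := Sym2.map (fun i : Fin n => ((i : ℕ) : ℤ))

lemma toZ_inj (n : ℕ) : Function.Injective (toZ n) := by
  apply Sym2.map.injective
  intro i j h
  apply Fin.ext
  have h' : ((i : ℕ) : ℤ) = ((j : ℕ) : ℤ) := h
  exact_mod_cast h'

lemma ncard_le_of_cover {n : ℕ} {X : Set (Sym2 (Fin n))} {F : Finset (Sym2 ℤ)}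
    (h : ∀ e ∈ X, toZ n e ∈ F) : X.ncard ≤ F.card := by
  rw [← Set.ncard_coe_finset F]
  refine Set.ncard_le_ncard_of_injOn (toZ n) ?_ ((toZ_inj n).injOn) (Finset.finite_toSet F)
  intro e he
  exact h e he

lemma cross_row {n c : ℕ} {a b : Fin n} (hab : (a : ℕ) < b) (hpar : ((b : ℕ) - a) % 2 = 0)
    (hc : (b : ℕ) ≤ a + c) :
    {f ∈ (pathPow n c).edgeSet | Crosses (zpos n) s(a, b) f}.ncard ≤
      ((((b : ℕ) - a) / 2) - 1) * (2 * c - ((b : ℕ) - a) / 2) := by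
  set s := ((b : ℕ) - a) / 2 with hs
  refine (ncard_le_of_cover (F := SS a s c) ?_).trans (card_SS _ _ _ (by omega))
  rintro f ⟨hf, hcr⟩
  obtain ⟨u, v, rfl, h⟩ := alt_of_crosses hcr
  rw [SimpleGraph.mem_edgeSet] at hf
  obtain ⟨huv, h1, h2⟩ := hf
  have ha := a.2
  have hb := b.2
  have hu := u.2
  have hv := v.2
  have key : ((a : ℕ) < u ∧ (u : ℕ) < b ∧ ((u : ℕ) - a) % 2 = 0 ∧
      (((v : ℕ) % 2 = (a : ℕ) % 2) → (v : ℕ) < a ∨ (b : ℕ) < v)) ∨
      ((a : ℕ) < v ∧ (v : ℕ) < b ∧ ((v : ℕ) - a) % 2 = 0 ∧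
      (((u : ℕ) % 2 = (a : ℕ) % 2) → (u : ℕ) < a ∨ (b : ℕ) < u)) := by
    unfold zpos at h
    split_ifs at h <;> omega
  have hm : toZ n s(u, v) = s(((u : ℕ) : ℤ), ((v : ℕ) : ℤ)) := rfl
  rw [hm]
  rcases key with ⟨k1, k2, k3, k4⟩ | ⟨k1, k2, k3, k4⟩
  · exact mem_SS (by omega) (by omega) (by omega) (by omega) (by omega) (by omega)
  · rw [Sym2.eq_swap]
    exact mem_SS (by omega) (by omega) (by omega) (by omega) (by omega) (by omega)

lemma cross_cross {n c : ℕ} {a b : Fin n} (hab : (a : ℕ) < b) (hpar : ((b : ℕ) - a) % 2 = 1)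
    (hc : (b : ℕ) ≤ a + c) :
    {f ∈ (pathPow n c).edgeSet | Crosses (zpos n) s(a, b) f}.ncard ≤
      2 * ((c / 2) * (c / 2 - 1) / 2)
      + ((c - ((b : ℕ) - a)) / 2) * ((c - ((b : ℕ) - a)) / 2 - 1) / 2
      + ((c + ((b : ℕ) - a)) / 2) * ((c + ((b : ℕ) - a)) / 2 - 1) / 2 := by
  set r := (b : ℕ) - a with hr
  refine (ncard_le_of_cover (F := (RR a a (c / 2) ∪ RR b b (c / 2)) ∪
    RR a b ((c - r) / 2) ∪ RR b a ((c + r) / 2)) ?_).trans ?_
  · rintro f ⟨hf, hcr⟩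
    obtain ⟨u, v, rfl, h⟩ := alt_of_crosses hcr
    rw [SimpleGraph.mem_edgeSet] at hf
    obtain ⟨huv, h1, h2⟩ := hf
    have ha := a.2
    have hb := b.2
    have hu := u.2
    have hv := v.2
    have key : ∃ x y : Fin n, s(u, v) = s(x, y) ∧ (x : ℕ) ≤ y + c ∧ (y : ℕ) ≤ x + c ∧
        ((((x : ℕ) % 2 = (a : ℕ) % 2) ∧ (x : ℕ) < a) ∨
          (((x : ℕ) % 2 = (b : ℕ) % 2) ∧ (x : ℕ) < b)) ∧
        ((((y : ℕ) % 2 = (a : ℕ) % 2) ∧ (a : ℕ) < y) ∨
          (((y : ℕ) % 2 = (b : ℕ) % 2) ∧ (b : ℕ) < y)) := by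
      by_cases hcase : ((((u : ℕ) % 2 = (a : ℕ) % 2) ∧ (u : ℕ) < a) ∨
          (((u : ℕ) % 2 = (b : ℕ) % 2) ∧ (u : ℕ) < b))
      · refine ⟨u, v, rfl, h1, h2, hcase, ?_⟩
        unfold zpos at h
        split_ifs at h <;> omega
      · refine ⟨v, u, Sym2.eq_swap, h2, h1, ?_, ?_⟩
        · unfold zpos at h
          split_ifs at h <;> omega
        · unfold zpos at h
          split_ifs at h <;> omega
    obtain ⟨x, y, hxy, h1, h2, hx, hy⟩ := key
    have hm : toZ n s(x, y) = s(((x : ℕ) : ℤ), ((y : ℕ) : ℤ)) := rfl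
    rw [hxy, hm]
    simp only [mem_union]
    rcases hx with ⟨hx1, hx2⟩ | ⟨hx1, hx2⟩ <;> rcases hy with ⟨hy1, hy2⟩ | ⟨hy1, hy2⟩
    · exact Or.inl (Or.inl (Or.inl (mem_RR (by omega) (by omega) (by omega) (by omega) (by omega))))
    · exact Or.inl (Or.inr (mem_RR (by omega) (by omega) (by omega) (by omega) (by omega)))
    · exact Or.inr (mem_RR (by omega) (by omega) (by omega) (by omega) (by omega))
    · exact Or.inl (Or.inl (Or.inr (mem_RR (by omega) (by omega) (by omega) (by omega) (by omega))))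
  · refine (card_union_le _ _).trans ?_
    refine (Nat.add_le_add_right (card_union_le _ _) _).trans ?_
    refine (Nat.add_le_add_right (Nat.add_le_add_right (card_union_le _ _) _) _).trans ?_
    have e1 := card_RR (a : ℤ) (a : ℤ) (c / 2)
    have e2 := card_RR (b : ℤ) (b : ℤ) (c / 2)
    have e3 := card_RR (a : ℤ) (b : ℤ) ((c - r) / 2)
    have e4 := card_RR (b : ℤ) (a : ℤ) ((c + r) / 2)
    omega

end Pool.Agent.MP_df3d6f_co
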