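import Mathlib
import Pool.Agent.MP_df3d6f_co.Trans
import Pool.Agent.MP_df3d6f_co.PathPow

namespace Pool.Agent.MP_df3d6f_co

open Finset

/-- The cyclic distance of `i` and `j` modulo `n` is at most `t`. -/
def Sh (n t i j : ℕ) : Prop := (i ≤ j + t ∧ j ≤ i + t) ∨ i + n ≤ j + t ∨ j + n ≤ i + t

/-- `i + j` differs by at most `w` from a multiple of `n`. -/
def Fa (n w i j : ℕ) : Prop :=
  i + j ≤ w ∨ (n ≤ i + j + w ∧ i + j ≤ n + w) ∨ 2 * n ≤ i + j + w

/-- Two rows: `i`, `j` are adjacent when their cyclic distance is at most `t` or `i + j` is within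
`w` of a multiple of `n`. -/
def twoRow (n t w : ℕ) : SimpleGraph (Fin n) where
  Adj i j := i ≠ j ∧ (Sh n t i j ∨ Fa n w i j)
  symm := ⟨fun i j h => by
    refine ⟨h.1.symm, ?_⟩
    have := h.2
    unfold Sh Fa at *
    omega⟩
  loopless := ⟨fun _ h => h.1 rfl⟩

lemma card_fin_filter (n : ℕ) (p : ℕ → Prop) [DecidablePred p] :
    (univ.filter (fun v : Fin n => p v)).card = ((range n).filter p).card := by
  rw [← card_map Fin.valEmbedding]
  congr 1
  ext x
  simp only [mem_map, mem_filter, mem_univ, true_and, Fin.valEmbedding_apply, mem_range]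
  constructor
  · rintro ⟨a, ha, rfl⟩
    exact ⟨a.2, ha⟩
  · rintro ⟨hx, hp⟩
    exact ⟨⟨x, hx⟩, hp, rfl⟩

open Classical in
lemma card_nbrs (n t w : ℕ) (u : Fin n) :
    (univ.filter (fun v => (twoRow n t w).Adj u v)).card ≤ 2 * t + 2 * w + 1 := by
  have hsub : univ.filter (fun v => (twoRow n t w).Adj u v) ⊆
      (univ.filter (fun v : Fin n => ((u : ℕ) < v ∧ (v : ℕ) ≤ u + t) ∨ ((v : ℕ) < u ∧ (v : ℕ) + n ≤ u + t)))
      ∪ ((univ.filter (fun v : Fin n => ((v : ℕ) < u ∧ (u : ℕ) ≤ v + t) ∨ ((u : ℕ) < v ∧ (u : ℕ) + n ≤ v + t)))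
      ∪ (univ.filter (fun v : Fin n => Fa n w u v))) := by
    intro v hv
    rw [mem_filter] at hv
    obtain ⟨-, hne, hv⟩ := hv
    have hne' : (u : ℕ) ≠ v := fun h => hne (Fin.ext h)
    simp only [mem_union, mem_filter, mem_univ, true_and]
    rcases hv with hv | hv
    · unfold Sh at hv
      have hu := u.2
      have hv2 := v.2
      rcases lt_or_gt_of_ne hne' with h | h
      · by_cases h2 : (v : ℕ) ≤ u + t
        · left; left; exact ⟨h, h2⟩
        · right; left; right; omega
      · by_cases h2 : (u : ℕ) ≤ v + t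
        · right; left; left; exact ⟨h, h2⟩
        · left; right; omega
    · right; right; exact hv
  refine (card_le_card hsub).trans ?_
  have h1 : (univ.filter (fun v : Fin n => ((u : ℕ) < v ∧ (v : ℕ) ≤ u + t) ∨ ((v : ℕ) < u ∧ (v : ℕ) + n ≤ u + t))).card ≤ t := by
    have : (Icc 1 t).card = t := by simp
    conv_rhs => rw [← this]
    refine card_le_card_of_injOn (fun v => if (u : ℕ) < v then (v : ℕ) - u else (v : ℕ) + n - u) ?_ ?_
    · intro v hv
      have hv2 := v.2
      have hu := u.2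
      rw [mem_coe, mem_filter] at hv
      simp only [coe_Icc, Set.mem_Icc]
      split_ifs with h <;> omega
    · intro v hv v' hv' hh
      have hv2 := v.2
      have hv2' := v'.2
      have hu := u.2
      rw [mem_coe, mem_filter] at hv hv'
      simp only at hh
      apply Fin.ext
      split_ifs at hh <;> omega
  have h2 : (univ.filter (fun v : Fin n => ((v : ℕ) < u ∧ (u : ℕ) ≤ v + t) ∨ ((u : ℕ) < v ∧ (u : ℕ) + n ≤ v + t))).card ≤ t := by
    have : (Icc 1 t).card = t := by simp
    conv_rhs => rw [← this]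
    refine card_le_card_of_injOn (fun v => if (v : ℕ) < u then (u : ℕ) - v else (u : ℕ) + n - v) ?_ ?_
    · intro v hv
      have hv2 := v.2
      have hu := u.2
      rw [mem_coe, mem_filter] at hv
      simp only [coe_Icc, Set.mem_Icc]
      split_ifs with h <;> omega
    · intro v hv v' hv' hh
      have hv2 := v.2
      have hv2' := v'.2
      have hu := u.2
      rw [mem_coe, mem_filter] at hv hv'
      simp only at hh
      apply Fin.ext
      split_ifs at hh <;> omega
  have h3 : (univ.filter (fun v : Fin n => Fa n w u v)).card ≤ 2 * w + 1 := by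
    have : (range (2 * w + 1)).card = 2 * w + 1 := by simp
    conv_rhs => rw [← this]
    refine card_le_card_of_injOn (fun v => if (u : ℕ) + v ≤ w then (u : ℕ) + v + w else
      if 2 * n ≤ (u : ℕ) + v + w then (u : ℕ) + v + w - 2 * n else (u : ℕ) + v + w - n) ?_ ?_
    · intro v hv
      have hv2 := v.2
      have hu := u.2
      rw [mem_coe, mem_filter] at hv
      have hv3 := hv.2
      unfold Fa at hv3
      simp only [coe_range, Set.mem_Iio]
      split_ifs <;> omega
    · intro v hv v' hv' hh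
      have hv2 := v.2
      have hv2' := v'.2
      have hu := u.2
      rw [mem_coe, mem_filter] at hv hv'
      have hv3 := hv.2
      have hv3' := hv'.2
      unfold Fa at hv3 hv3'
      simp only at hh
      apply Fin.ext
      split_ifs at hh <;> omega
  refine (card_union_le _ _).trans ?_
  refine (Nat.add_le_add h1 ((card_union_le _ _).trans (Nat.add_le_add h2 h3))).trans ?_
  omega

open Classical in
/-- Edges leaving a clique. -/
lemma ncard_side {n : ℕ} {G : SimpleGraph (Fin n)} {D : ℕ}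
    (hD : ∀ u, (univ.filter (fun v => G.Adj u v)).card ≤ D) (A B : Finset (Fin n))
    (hcl : ∀ u ∈ A, ∀ v ∈ B, u ≠ v → G.Adj u v) (hAB : A ⊆ B) (X : Set (Sym2 (Fin n)))
    (hX : ∀ f ∈ X, ∃ u v, f = s(u, v) ∧ G.Adj u v ∧ u ∈ A ∧ v ∉ B) :
    X.ncard ≤ A.card * (D + 1 - B.card) := by
  have hsub : X ⊆ ((A.biUnion (fun u => ((univ.filter (fun v => G.Adj u v)) \ B).image
      (fun v => s(u, v))) : Finset (Sym2 (Fin n))) : Set (Sym2 (Fin n))) := by
    intro f hf
    obtain ⟨u, v, rfl, h1, h2, h3⟩ := hX f hf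
    rw [mem_coe, mem_biUnion]
    refine ⟨u, h2, ?_⟩
    rw [mem_image]
    exact ⟨v, by rw [mem_sdiff, mem_filter]; exact ⟨⟨mem_univ _, h1⟩, h3⟩, rfl⟩
  refine (Set.ncard_le_ncard hsub (Finset.finite_toSet _)).trans ?_
  rw [Set.ncard_coe_finset]
  refine card_biUnion_le_card_mul _ _ _ fun u hu => ?_
  refine card_image_le.trans ?_
  have h1 : (univ.filter (fun v => G.Adj u v)) \ B ⊆ (univ.filter (fun v => G.Adj u v)) \ (B.erase u) :=
    sdiff_subset_sdiff (Subset.refl _) (erase_subset _ _)
  refine (card_le_card h1).trans ?_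
  have h2 : B.erase u ⊆ univ.filter (fun v => G.Adj u v) := by
    intro v hv
    rw [mem_erase] at hv
    rw [mem_filter]
    exact ⟨mem_univ _, hcl u hu v hv.2 (Ne.symm hv.1)⟩
  rw [card_sdiff_of_subset h2, card_erase_of_mem (hAB hu)]
  have := hD u
  have hB : 1 ≤ B.card := card_pos.mpr ⟨u, hAB hu⟩
  omega

lemma short_arith {s t w : ℕ} (hs : s ≤ t) (hs1 : 1 ≤ s) :
    (s - 1) * (2 * t + 2 * w + 1 + 1 - (s + 1)) ≤ (t - 1) * (t + 2 * w + 1) := by
  obtain ⟨r, rfl⟩ := Nat.exists_eq_add_of_le hs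
  obtain ⟨q, rfl⟩ := Nat.exists_eq_add_of_le hs1
  have e1 : 1 + q - 1 = q := by omega
  have e2 : 2 * (1 + q + r) + 2 * w + 1 + 1 - (1 + q + 1) = q + 2 * r + 2 * w + 2 := by omega
  have e3 : 1 + q + r - 1 = q + r := by omega
  rw [e1, e2, e3]
  nlinarith [Nat.zero_le (r * r), Nat.zero_le (r * w), Nat.zero_le (q * r)]

/-- crossings of a short edge -/
lemma cross_short {n t w : ℕ} {a b : Fin n} (hab : (a : ℕ) < b)
    (hsh : Sh n t a b) :
    {f ∈ (twoRow n t w).edgeSet | Crosses (fun x : Fin n => (x : ℕ)) s(a, b) f}.ncard ≤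
      (t - 1) * (t + 2 * w + 1) := by
  classical
  have ha := a.2
  have hb := b.2
  have hcase : (b : ℕ) ≤ a + t ∨ (a : ℕ) + n ≤ b + t := by
    unfold Sh at hsh
    omega
  rcases hcase with hc | hc
  · set s := (b : ℕ) - a with hs
    refine le_trans (ncard_side (D := 2 * t + 2 * w + 1) (G := twoRow n t w) ?_
      (univ.filter (fun v : Fin n => (a : ℕ) < v ∧ (v : ℕ) < b))
      (univ.filter (fun v : Fin n => (a : ℕ) ≤ v ∧ (v : ℕ) ≤ b)) ?_ ?_ _ ?_) ?_
    · intro u
      convert card_nbrs n t w u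
    · intro u hu v hv huv
      simp only [mem_filter, mem_univ, true_and] at hu hv
      refine ⟨huv, Or.inl (Or.inl ?_)⟩
      omega
    · intro u hu
      simp only [mem_filter, mem_univ, true_and] at hu ⊢
      omega
    · rintro f ⟨hf, hcr⟩
      obtain ⟨u, v, rfl, h⟩ := alt_of_crosses hcr
      rw [SimpleGraph.mem_edgeSet] at hf
      refine ⟨u, v, rfl, hf, ?_, ?_⟩
      · simp only [mem_filter, mem_univ, true_and]
        omega
      · simp only [mem_filter, mem_univ, true_and]
        omega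
    · rw [card_fin_filter n (fun v => (a : ℕ) < v ∧ v < b),
        card_fin_filter n (fun v => (a : ℕ) ≤ v ∧ v ≤ b)]
      have e1 : (range n).filter (fun v => (a : ℕ) < v ∧ v < b) = Ioo (a : ℕ) b := by
        ext v; simp only [mem_filter, mem_range, mem_Ioo]; omega
      have e2 : (range n).filter (fun v => (a : ℕ) ≤ v ∧ v ≤ b) = Icc (a : ℕ) b := by
        ext v; simp only [mem_filter, mem_range, mem_Icc]; omega
      rw [e1, e2, Nat.card_Ioo, Nat.card_Icc]
      have e3 : (b : ℕ) + 1 - a = s + 1 := by omega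
      rw [e3]
      exact short_arith (by omega) (by omega)
  · set s := n - ((b : ℕ) - a) with hs
    refine le_trans (ncard_side (D := 2 * t + 2 * w + 1) (G := twoRow n t w) ?_
      (univ.filter (fun v : Fin n => (v : ℕ) < a ∨ (b : ℕ) < v))
      (univ.filter (fun v : Fin n => (v : ℕ) ≤ a ∨ (b : ℕ) ≤ v)) ?_ ?_ _ ?_) ?_
    · intro u
      convert card_nbrs n t w u
    · intro u hu v hv huv
      simp only [mem_filter, mem_univ, true_and] at hu hv
      refine ⟨huv, Or.inl ?_⟩
      have hu2 := u.2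
      have hv2 := v.2
      unfold Sh
      omega
    · intro u hu
      simp only [mem_filter, mem_univ, true_and] at hu ⊢
      omega
    · rintro f ⟨hf, hcr⟩
      obtain ⟨u, v, rfl, h⟩ := alt_of_crosses hcr
      rw [SimpleGraph.mem_edgeSet] at hf
      refine ⟨v, u, Sym2.eq_swap, hf.symm, ?_, ?_⟩
      · simp only [mem_filter, mem_univ, true_and]
        omega
      · simp only [mem_filter, mem_univ, true_and]
        omega
    · rw [card_fin_filter n (fun v => v < (a : ℕ) ∨ (b : ℕ) < v),
        card_fin_filter n (fun v => v ≤ (a : ℕ) ∨ (b : ℕ) ≤ v)]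
      have e1 : (range n).filter (fun v => v < (a : ℕ) ∨ (b : ℕ) < v) = range n \ Icc (a : ℕ) b := by
        ext v; simp only [mem_filter, mem_range, mem_Icc, mem_sdiff]; omega
      have e2 : (range n).filter (fun v => v ≤ (a : ℕ) ∨ (b : ℕ) ≤ v) = range n \ Ioo (a : ℕ) b := by
        ext v; simp only [mem_filter, mem_range, mem_Ioo, mem_sdiff]; omega
      rw [e1, e2, card_sdiff_of_subset, card_sdiff_of_subset, Nat.card_Ioo, Nat.card_Icc, card_range]
      · have e3 : n - ((b : ℕ) - a - 1) = s + 1 := by omega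
        have e4 : n - ((b : ℕ) + 1 - a) = s - 1 := by omega
        rw [e3, e4]
        exact short_arith (by omega) (by omega)
      · intro v; simp only [mem_range, mem_Ioo]; omega
      · intro v; simp only [mem_range, mem_Icc]; omega

end Pool.Agent.MP_df3d6f_co
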