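import Mathlib
import Pool.Agent.MP_df3d6f_co.Med4

namespace Pool.Agent.MP_df3d6f_co

open Finset

/-- pairs of positive integers with sum at most `m` -/
def tri (m : ℕ) : Finset (ℕ × ℕ) :=
  ((range m).sigma (fun p => range p)).image (fun p => (p.2 + 1, p.1 - p.2))

lemma card_tri (m : ℕ) : (tri m).card ≤ m * (m - 1) / 2 := by
  unfold tri
  refine card_image_le.trans ?_
  rw [card_sigma]
  simp only [card_range]
  rw [Finset.sum_range_id]

lemma mem_tri {m α β : ℕ} (hα : 1 ≤ α) (hβ : 1 ≤ β) (h : α + β ≤ m) : (α, β) ∈ tri m := by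
  unfold tri
  rw [mem_image]
  refine ⟨⟨α + β - 1, α - 1⟩, ?_, ?_⟩
  · simp only [mem_sigma, mem_range]
    omega
  · simp only [Prod.mk.injEq]
    omega

/-- crossings of a far edge -/
lemma cross_far {n t w m3 m4 : ℕ} (hn : 2 * w < n) {a b : Fin n} (hab : (a : ℕ) < b)
    (h34 : m3 + m4 = 2 * w)
    (hm : (a : ℕ) + b + w = m4 ∨ (a : ℕ) + b + w = m4 + n ∨ (a : ℕ) + b + w = m4 + 2 * n) :
    {f ∈ (twoRow n t w).edgeSet | Crosses (fun x : Fin n => (x : ℕ)) s(a, b) f}.ncard ≤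
      (t * (t - 1) / 2 + t * (t - 1) / 2) + (m3 * (m3 - 1) / 2 + m4 * (m4 - 1) / 2) := by
  have ha := a.2
  have hb := b.2
  set φ1 : ℕ × ℕ → Sym2 ℤ := fun p => s((b : ℤ) - p.1,
    if (b : ℕ) + p.2 < n then (b : ℤ) + p.2 else (b : ℤ) + p.2 - n) with hφ1
  set φ2 : ℕ × ℕ → Sym2 ℤ := fun p => s((a : ℤ) + p.1,
    if p.2 ≤ (a : ℕ) then (a : ℤ) - p.2 else (a : ℤ) + n - p.2) with hφ2
  set φ3 : ℕ × ℕ → Sym2 ℤ := fun p => s((a : ℤ) + p.1,
    if (b : ℕ) + p.2 < n then (b : ℤ) + p.2 else (b : ℤ) + p.2 - n) with hφ3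
  set φ4 : ℕ × ℕ → Sym2 ℤ := fun p => s((b : ℤ) - p.1,
    if p.2 ≤ (a : ℕ) then (a : ℤ) - p.2 else (a : ℤ) + n - p.2) with hφ4
  refine (ncard_le_of_cover (F := ((tri t).image φ1 ∪ (tri t).image φ2) ∪
    ((tri m3).image φ3 ∪ (tri m4).image φ4)) ?_).trans ?_
  · rintro f ⟨hf, hcr⟩
    obtain ⟨u, v, rfl, h⟩ := alt_of_crosses hcr
    rw [SimpleGraph.mem_edgeSet] at hf
    obtain ⟨huv, hadj⟩ := hf
    have hu := u.2
    have hv := v.2
    have hm' : toZ n s(u, v) = s(((u : ℕ) : ℤ), ((v : ℕ) : ℤ)) := rfl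
    rw [hm']
    have hin : (a : ℕ) < u ∧ (u : ℕ) < b ∧ ((v : ℕ) < a ∨ (b : ℕ) < v) := by omega
    obtain ⟨hau, hub, hout⟩ := hin
    simp only [mem_union, mem_image]
    -- the parameters
    obtain ⟨y, hy⟩ : ∃ y : ℕ, (b : ℕ) + y = v ∨ ((v : ℕ) < a ∧ (b : ℕ) + y = v + n) := by
      rcases hout with h | h
      · exact ⟨(v : ℕ) + n - b, Or.inr ⟨h, by omega⟩⟩
      · exact ⟨(v : ℕ) - b, Or.inl (by omega)⟩
    obtain ⟨y', hy'⟩ : ∃ y' : ℕ, ((v : ℕ) + y' = a) ∨ ((b : ℕ) < v ∧ (v : ℕ) + y' = a + n) := by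
      rcases hout with h | h
      · exact ⟨(a : ℕ) - v, Or.inl (by omega)⟩
      · exact ⟨(a : ℕ) + n - v, Or.inr ⟨h, by omega⟩⟩
    obtain ⟨x, hx⟩ : ∃ x : ℕ, (a : ℕ) + x = u := ⟨(u : ℕ) - a, by omega⟩
    obtain ⟨x', hx'⟩ : ∃ x' : ℕ, (u : ℕ) + x' = b := ⟨(b : ℕ) - u, by omega⟩
    have hx1 : 1 ≤ x := by omega
    have hx1' : 1 ≤ x' := by omega
    have hy1 : 1 ≤ y := by omega
    have hy1' : 1 ≤ y' := by omega
    have hφv : (if (b : ℕ) + y < n then (b : ℤ) + y else (b : ℤ) + y - n) = ((v : ℕ) : ℤ) := by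
      split_ifs with hh <;> omega
    have hφv' : (if y' ≤ (a : ℕ) then (a : ℤ) - y' else (a : ℤ) + n - y') = ((v : ℕ) : ℤ) := by
      split_ifs with hh <;> omega
    have key : x' + y ≤ t ∨ x + y' ≤ t ∨ x + y ≤ m3 ∨ x' + y' ≤ m4 := by
      unfold Sh Fa at hadj
      omega
    rcases key with hk | hk | hk | hk
    · left; left
      refine ⟨(x', y), mem_tri hx1' hy1 hk, ?_⟩
      rw [hφ1]
      show s((b : ℤ) - x', _) = _
      rw [hφv]
      congr 2
      omega
    · left; right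
      refine ⟨(x, y'), mem_tri hx1 hy1' hk, ?_⟩
      rw [hφ2]
      show s((a : ℤ) + x, _) = _
      rw [hφv']
      congr 2
      omega
    · right; left
      refine ⟨(x, y), mem_tri hx1 hy1 hk, ?_⟩
      rw [hφ3]
      show s((a : ℤ) + x, _) = _
      rw [hφv]
      congr 2
      omega
    · right; right
      refine ⟨(x', y'), mem_tri hx1' hy1' hk, ?_⟩
      rw [hφ4]
      show s((b : ℤ) - x', _) = _
      rw [hφv']
      congr 2
      omega
  · refine (card_union_le _ _).trans (Nat.add_le_add ?_ ?_)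
    · exact (card_union_le _ _).trans (Nat.add_le_add (card_image_le.trans (card_tri _))
        (card_image_le.trans (card_tri _)))
    · exact (card_union_le _ _).trans (Nat.add_le_add (card_image_le.trans (card_tri _))
        (card_image_le.trans (card_tri _)))

lemma half_le (m : ℕ) : 2 * (m * (m - 1) / 2) ≤ m * (m - 1) := Nat.mul_div_le _ _

lemma far_arith {t w m3 m4 : ℕ} (hw : w < t) (h34 : m3 + m4 = 2 * w) :
    (t * (t - 1) / 2 + t * (t - 1) / 2) + (m3 * (m3 - 1) / 2 + m4 * (m4 - 1) / 2) ≤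
      (t - 1) * (t + 2 * w + 1) := by
  have h1 := half_le t
  have h2 := half_le m3
  have h3 := half_le m4
  have h4 : m3 * (m3 - 1) + m4 * (m4 - 1) ≤ 2 * w * (2 * w - 1) := by
    rw [← h34]
    rcases Nat.eq_zero_or_pos m3 with h0 | h0
    · subst h0; simp
    · rcases Nat.eq_zero_or_pos m4 with h0' | h0'
      · subst h0'; simp
      · obtain ⟨p, rfl⟩ := Nat.exists_eq_add_of_le h0
        obtain ⟨q, rfl⟩ := Nat.exists_eq_add_of_le h0'
        have e1 : 1 + p - 1 = p := by omega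
        have e2 : 1 + q - 1 = q := by omega
        have e3 : 1 + p + (1 + q) - 1 = 1 + p + q := by omega
        rw [e1, e2, e3]
        nlinarith [Nat.zero_le (p * q)]
  obtain ⟨r, rfl⟩ := Nat.exists_eq_add_of_lt hw
  have e1 : w + r + 1 - 1 = w + r := by omega
  rw [e1] at h1 ⊢
  rcases Nat.eq_zero_or_pos w with h0 | h0
  · subst h0
    have : m3 = 0 := by omega
    have : m4 = 0 := by omega
    subst m3 m4
    simp at *
    nlinarith
  · have e2 : 2 * w * (2 * w - 1) + 2 * w = 4 * w * w := by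
      obtain ⟨p, rfl⟩ := Nat.exists_eq_add_of_le h0
      have : 2 * (1 + p) - 1 = 2 * p + 1 := by omega
      rw [this]; ring
    nlinarith [Nat.zero_le (w * r), Nat.zero_le (r * r)]

/-- Every edge of `twoRow` is crossed at most `(t - 1)(t + 2 w + 1)` times. -/
theorem cross_twoRow {n t w : ℕ} (hw : w < t) (hn : 2 * w < n) :
    ∀ e ∈ (twoRow n t w).edgeSet,
      {f ∈ (twoRow n t w).edgeSet | Crosses (fun x : Fin n => (x : ℕ)) e f}.ncard ≤
        (t - 1) * (t + 2 * w + 1) := by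
  intro e he
  obtain ⟨a, b, rfl, hab, hadj⟩ := exists_rep (pos := fun x : Fin n => (x : ℕ))
    (fun i j h => Fin.ext h) he
  rcases hadj.2 with hsh | hfa
  · exact cross_short hab hsh
  · have ha := a.2
    have hb := b.2
    unfold Fa at hfa
    rcases hfa with h | h | h
    · exact (cross_far (m3 := w - ((a : ℕ) + b)) (m4 := (a : ℕ) + b + w) hn hab (by omega)
        (Or.inl rfl)).trans (far_arith hw (by omega))
    · exact (cross_far (m3 := n + w - ((a : ℕ) + b)) (m4 := (a : ℕ) + b + w - n) hn hab (by omega)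
        (Or.inr (Or.inl (by omega)))).trans (far_arith hw (by omega))
    · exact (cross_far (m3 := 2 * n + w - ((a : ℕ) + b)) (m4 := (a : ℕ) + b + w - 2 * n) hn hab
        (by omega) (Or.inr (Or.inr (by omega)))).trans (far_arith hw (by omega))

/-- Number of edges of `twoRow`. -/
theorem edges_twoRow {n t w : ℕ} (hw : w < t) (hn : 2 * t < n) :
    (2 * t + 2 * w + 1) * n ≤ 2 * (twoRow n t w).edgeSet.ncard + (2 * w + 1) * (2 * t + 2) := by
  classical
  set pos : Fin n → ℕ := fun x => (x : ℕ) with hpos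
  have hinj : Function.Injective pos := fun i j h => Fin.ext h
  rw [← card_eset hinj]
  have hmem : ∀ i j : ℕ, i < j → j < n → (Sh n t i j ∨ Fa n w i j) →
      (i, j) ∈ eset pos (twoRow n t w) := by
    intro i j hij hj hA
    have hi : i < n := by omega
    unfold eset
    rw [mem_image]
    refine ⟨s(⟨i, hi⟩, ⟨j, hj⟩), ?_, ?_⟩
    · rw [Set.Finite.mem_toFinset, SimpleGraph.mem_edgeSet]
      refine ⟨?_, hA⟩
      intro h
      rw [Fin.mk.injEq] at h
      omega
    · exact phi_mk pos _ _ hij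
  set L := (n - 2 * t - 1) / 2 with hL
  set f1 : ℕ × ℕ → ℕ × ℕ := fun p => if p.2 + p.1 + 1 < n then (p.2, p.2 + p.1 + 1) else
    (p.2 + p.1 + 1 - n, p.2) with hf1
  set f2 : ℕ × ℕ → ℕ × ℕ := fun p => ((p.1 + t - w) / 2 + 1 + p.2,
    n - w + p.1 - ((p.1 + t - w) / 2 + 1 + p.2)) with hf2
  set S1 := (range t ×ˢ range n).image f1 with hS1
  set S2 := (range (2 * w + 1) ×ˢ range L).image f2 with hS2
  have hc1 : S1.card = t * n := by
    rw [hS1, card_image_of_injOn, card_product, card_range, card_range]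
    rintro ⟨j, i⟩ hp ⟨j', i'⟩ hp' hh
    simp only [coe_product, coe_range, Set.mem_prod, Set.mem_Iio] at hp hp'
    simp only [hf1] at hh
    rw [Prod.mk.injEq]
    split_ifs at hh <;> rw [Prod.mk.injEq] at hh <;> omega
  have hc2 : S2.card = (2 * w + 1) * L := by
    rw [hS2, card_image_of_injOn, card_product, card_range, card_range]
    rintro ⟨j, i⟩ hp ⟨j', i'⟩ hp' hh
    simp only [coe_product, coe_range, Set.mem_prod, Set.mem_Iio] at hp hp'
    simp only [hf2] at hh
    rw [Prod.mk.injEq] at hh ⊢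
    omega
  have hdis : Disjoint S1 S2 := by
    rw [disjoint_left]
    intro e he he'
    rw [hS1, mem_image] at he
    rw [hS2, mem_image] at he'
    obtain ⟨⟨j, i⟩, hp, rfl⟩ := he
    obtain ⟨⟨j', i'⟩, hp', hh⟩ := he'
    simp only [mem_product, mem_range] at hp hp'
    simp only [hf1, hf2] at hh
    split_ifs at hh <;> rw [Prod.mk.injEq] at hh <;> omega
  have hsub : S1 ∪ S2 ⊆ eset pos (twoRow n t w) := by
    intro e he
    rw [mem_union] at he
    rcases he with he | he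
    · rw [hS1, mem_image] at he
      obtain ⟨⟨j, i⟩, hp, rfl⟩ := he
      simp only [mem_product, mem_range] at hp
      simp only [hf1]
      split_ifs with hh
      · exact hmem _ _ (by omega) hh (Or.inl (by unfold Sh; omega))
      · exact hmem _ _ (by omega) (by omega) (Or.inl (by unfold Sh; omega))
    · rw [hS2, mem_image] at he
      obtain ⟨⟨j, i⟩, hp, rfl⟩ := he
      simp only [mem_product, mem_range] at hp
      simp only [hf2]
      exact hmem _ _ (by omega) (by omega) (Or.inr (by unfold Fa; omega))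
  have hcard := card_le_card hsub
  rw [card_union_of_disjoint hdis, hc1, hc2] at hcard
  have hL2 : n ≤ 2 * L + 2 * t + 2 := by omega
  nlinarith [Nat.mul_le_mul_left (2 * w + 1) hL2]

end Pool.Agent.MP_df3d6f_co
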