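import Mathlib
import Pool.Agent.MP_df3d6f_co.Defs

namespace Pool.Agent.MP_df3d6f_co

/-- Clockwise distance from `x` to `y`, when the `n` vertices are numbered `0, 1, …, n - 1` along
the circle. -/
def cw {n : ℕ} (x y : Fin n) : ℕ := ((y : ℕ) + n - x) % n

/-- Every edge of `G` is crossed at most `k` times when the vertices are placed on a circle in the
order `0, 1, …, n - 1` and the edges are straight chords. -/
def Drawn {n : ℕ} (k : ℕ) (G : SimpleGraph (Fin n)) : Prop :=
  ∀ e ∈ G.edgeSet, {f ∈ G.edgeSet | Crosses (fun x : Fin n => (x : ℕ)) e f}.ncard ≤ k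

/-- The vertex `x` is bad (for the parameter `α`): it has more than `(α + 1/α) √k` neighbours, and
every chord `x y` with `y` at clockwise distance between `√k / α` and `α √k` from `x` is crossed by
more than `k` edges (so it is not an edge). -/
def Bad {n : ℕ} (k : ℕ) (α : ℝ) (G : SimpleGraph (Fin n)) (x : Fin n) : Prop :=
  (α + 1 / α) * √k < ((G.neighborSet x).ncard : ℝ) ∧
    ∀ y : Fin n, √k / α ≤ (cw x y : ℝ) → (cw x y : ℝ) ≤ α * √k →
      k < {f ∈ G.edgeSet | Crosses (fun x : Fin n => (x : ℕ)) s(x, y) f}.ncard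

open Classical in
/-- The excess of the degree over `(α + 1/α) √k` for bad vertices, and `0` for the others. -/
noncomputable def excess {n : ℕ} (k : ℕ) (α : ℝ) (G : SimpleGraph (Fin n)) (x : Fin n) : ℝ :=
  if Bad k α G x then ((G.neighborSet x).ncard : ℝ) - (α + 1 / α) * √k else 0

end Pool.Agent.MP_df3d6f_co
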