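import Mathlib
import Pool.Agent.MP_df3d6f_co.Med3
import Pool.Agent.MP_df3d6f_co.Med5
import Pool.Agent.MP_df3d6f_co.MedDefs

namespace Pool.Agent.MP_df3d6f_co

open Finset

lemma cw_lt {n : ℕ} {x y : Fin n} (h : (x : ℕ) < y) : (x : ℕ) + cw x y = y := by
  have hx := x.2
  have hy := y.2
  unfold cw
  have : (y : ℕ) + n - x = (y - x) + n := by omega
  rw [this, Nat.add_mod_right, Nat.mod_eq_of_lt (by omega)]
  omega

lemma cw_gt {n : ℕ} {x y : Fin n} (h : (y : ℕ) < x) : (x : ℕ) + cw x y = y + n := by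
  have hx := x.2
  have hy := y.2
  unfold cw
  rw [Nat.mod_eq_of_lt (by omega)]
  omega

lemma vset_val (n : ℕ) : vset (fun x : Fin n => (x : ℕ)) = range n := by
  classical
  unfold vset
  ext v
  simp only [mem_image, mem_univ, true_and, mem_range]
  constructor
  · rintro ⟨a, rfl⟩; exact a.2
  · intro h; exact ⟨⟨v, h⟩, rfl⟩

lemma mem_eset_val {n : ℕ} {G : SimpleGraph (Fin n)} {p : ℕ × ℕ}
    (hp : p ∈ eset (fun x : Fin n => (x : ℕ)) G) :
    ∃ a b : Fin n, G.Adj a b ∧ (a : ℕ) < b ∧ p = ((a : ℕ), (b : ℕ)) := by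
  classical
  have hinj : Function.Injective (fun x : Fin n => (x : ℕ)) := fun i j h => Fin.ext h
  unfold eset at hp
  rw [Finset.mem_image] at hp
  obtain ⟨e, he, rfl⟩ := hp
  rw [Set.Finite.mem_toFinset] at he
  obtain ⟨a, b, rfl, hab, hadj⟩ := exists_rep hinj he
  exact ⟨a, b, hadj, hab, phi_mk _ a b hab⟩

lemma eset_mem_val {n : ℕ} {G : SimpleGraph (Fin n)} {a b : Fin n} (h : G.Adj a b)
    (hab : (a : ℕ) < b) : ((a : ℕ), (b : ℕ)) ∈ eset (fun x : Fin n => (x : ℕ)) G := by
  classical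
  unfold eset
  rw [mem_image]
  exact ⟨s(a, b), by rw [Set.Finite.mem_toFinset, SimpleGraph.mem_edgeSet]; exact h,
    phi_mk (fun x : Fin n => (x : ℕ)) a b hab⟩

lemma card_star_le {n : ℕ} (G : SimpleGraph (Fin n)) (x : Fin n) :
    (star (eset (fun x : Fin n => (x : ℕ)) G) x).card ≤ (G.neighborSet x).ncard := by
  classical
  rw [Set.ncard_eq_toFinset_card _ (Set.toFinite (G.neighborSet x))]
  have hsub : star (eset (fun x : Fin n => (x : ℕ)) G) x ⊆
      ((Set.toFinite (G.neighborSet x)).toFinset).image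
        (fun y : Fin n => if (y : ℕ) < x then ((y : ℕ), (x : ℕ)) else ((x : ℕ), (y : ℕ))) := by
    intro e he
    unfold star at he
    rw [mem_filter] at he
    obtain ⟨he, hor⟩ := he
    obtain ⟨a, b, hadj, hab, rfl⟩ := mem_eset_val he
    rw [mem_image]
    rcases hor with h | h
    · have hax : a = x := Fin.ext h
      subst hax
      refine ⟨b, ?_, ?_⟩
      · rw [Set.Finite.mem_toFinset]; exact hadj
      · rw [if_neg (by omega)]
    · have hbx : b = x := Fin.ext h
      subst hbx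
      refine ⟨a, ?_, ?_⟩
      · rw [Set.Finite.mem_toFinset]; exact hadj.symm
      · rw [if_pos hab]
  exact (card_le_card hsub).trans card_image_le

lemma alt_card_le {n : ℕ} (G : SimpleGraph (Fin n)) (a b : Fin n) :
    ((eset (fun x : Fin n => (x : ℕ)) G).filter (Alt ((a : ℕ), (b : ℕ)))).card ≤
      {f ∈ G.edgeSet | Crosses (fun x : Fin n => (x : ℕ)) s(a, b) f}.ncard := by
  classical
  have hsub : (eset (fun x : Fin n => (x : ℕ)) G).filter (Alt ((a : ℕ), (b : ℕ))) ⊆
      ((Set.toFinite {f ∈ G.edgeSet | Crosses (fun x : Fin n => (x : ℕ)) s(a, b) f}).toFinset).image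
        (phi (fun x : Fin n => (x : ℕ))) := by
    intro q hq
    rw [Finset.mem_filter] at hq
    obtain ⟨hq, hA⟩ := hq
    obtain ⟨c, d, hadj', hcd, rfl⟩ := mem_eset_val hq
    rw [Finset.mem_image]
    refine ⟨s(c, d), ?_, phi_mk _ c d hcd⟩
    rw [Set.Finite.mem_toFinset]
    exact ⟨hadj', a, b, c, d, rfl, rfl, hA⟩
  refine (Finset.card_le_card hsub).trans (Finset.card_image_le.trans ?_)
  rw [← Set.ncard_eq_toFinset_card]

lemma excess_nonneg {n : ℕ} (k : ℕ) (α : ℝ) (G : SimpleGraph (Fin n)) (x : Fin n) :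
    0 ≤ excess k α G x := by
  unfold excess
  split_ifs with h
  · linarith [h.1]
  · exact le_rfl

lemma tail_card {n : ℕ} {β : ℝ} [DecidablePred fun v : ℕ => (n : ℝ) ≤ v + β] :
    ((range n).filter (fun v : ℕ => (n : ℝ) ≤ v + β)).card ≤ ⌊β⌋₊ := by
  have h3 : (Icc 1 ⌊β⌋₊).card = ⌊β⌋₊ := by simp
  conv_rhs => rw [← h3]
  refine card_le_card_of_injOn (fun v => n - v) ?_ ?_
  · intro v hv
    rw [mem_coe, mem_filter, mem_range] at hv
    rw [mem_coe, mem_Icc]
    show 1 ≤ n - v ∧ n - v ≤ ⌊β⌋₊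
    refine ⟨by omega, ?_⟩
    apply Nat.le_floor
    rw [Nat.cast_sub hv.1.le]
    linarith [hv.2]
  · intro v hv v' hv' hh
    rw [mem_coe, mem_filter, mem_range] at hv hv'
    simp only at hh
    omega

/-- A vertex that is not bad has small degree or a light chord, if it is not near the end. -/
lemma light_of_not_bad {α : ℝ} (hα : 1 ≤ α) {k n : ℕ} (hk : 1 ≤ k) {G : SimpleGraph (Fin n)}
    {x : ℕ} (hx : x < n) (hB2 : ¬ (n : ℝ) ≤ x + α * √k) (hB : ¬ Bad k α G ⟨x, hx⟩) :
    ((G.neighborSet ⟨x, hx⟩).ncard : ℝ) ≤ (α + 1 / α) * √k ∨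
      ∃ t : ℕ, 1 ≤ t ∧ x + t < n ∧
        ((eset (fun x : Fin n => (x : ℕ)) G).filter (Alt (x, x + t))).card ≤ k ∧ √k / α ≤ t ∧
        (k : ℝ) + (t - 1) * t ≤ (α + 1 / α) * √k * t := by
  have hkR : (1 : ℝ) ≤ k := by exact_mod_cast hk
  have hα0 : 0 < α := by linarith
  have hs2 : √(k : ℝ) * √(k : ℝ) = k := Real.mul_self_sqrt (by linarith)
  have hs0 : 0 < √(k : ℝ) := Real.sqrt_pos.mpr (by linarith)
  set s := √(k : ℝ) with hs
  unfold Bad at hB
  push Not at hB
  by_cases hdeg : (α + 1 / α) * √k < ((G.neighborSet ⟨x, hx⟩).ncard : ℝ)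
  · right
    obtain ⟨y, h1, h2, hcr⟩ := hB hdeg
    have hne : x ≠ (y : ℕ) := by
      intro h
      have h0 : cw (⟨x, hx⟩ : Fin n) y = 0 := by
        unfold cw
        have : (y : ℕ) + n - x = n := by omega
        show ((y : ℕ) + n - x) % n = 0
        rw [this, Nat.mod_self]
      rw [h0, Nat.cast_zero] at h1
      have : 0 < s / α := by positivity
      linarith
    have hxy : x < (y : ℕ) := by
      rcases lt_or_gt_of_ne hne with h | h
      · exact h
      · exfalso
        have h3 : x + cw (⟨x, hx⟩ : Fin n) y = y + n := cw_gt (x := ⟨x, hx⟩) (y := y) h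
        have h4 : (x : ℝ) + cw (⟨x, hx⟩ : Fin n) y = y + n := by exact_mod_cast h3
        have h5 : (0 : ℝ) ≤ ((y : ℕ) : ℝ) := by positivity
        apply hB2
        linarith
    have h3 : x + cw (⟨x, hx⟩ : Fin n) y = y := cw_lt (x := ⟨x, hx⟩) (y := y) hxy
    have hyn := y.2
    refine ⟨cw (⟨x, hx⟩ : Fin n) y, by omega, by omega, ?_, h1, ?_⟩
    · rw [h3]
      exact (alt_card_le G ⟨x, hx⟩ y).trans hcr
    · set τ : ℝ := (cw (⟨x, hx⟩ : Fin n) y : ℝ) with hτ
      have h4 : (τ - s / α) * (α * s - τ) ≥ 0 :=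
        mul_nonneg (by linarith) (by linarith)
      have h5 : (τ - s / α) * (α * s - τ) = (α + 1 / α) * s * τ - τ * τ - s * s := by
        field_simp
        ring
      have h6 : 0 ≤ τ := by positivity
      nlinarith
  · left
    push Not at hdeg
    exact hdeg

/-- Upper bound: a set `P` of vertices is set aside, the bad vertices outside `P` contribute their
excess. -/
theorem upper_set (α : ℝ) (hα : 1 ≤ α) (k n : ℕ) (hk : 1 ≤ k) (G : SimpleGraph (Fin n))
    (hG : Drawn k G) (P : Finset (Fin n)) :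
    (G.edgeSet.ncard : ℝ) ≤ (α + 1 / α) / 2 * √k * n + (∑ x ∈ Pᶜ, excess k α G x) / 2
      + 6 * √(k * n * (P.card + α * √k + α * n / √k)) + 12 * n := by
  classical
  rcases Nat.eq_zero_or_pos n with rfl | hn
  · have h0 : G.edgeSet = ∅ := by
      rw [Set.eq_empty_iff_forall_notMem]
      intro e
      induction e using Sym2.ind with
      | _ a b => exact a.elim0
    have h1 : Pᶜ = ∅ := by
      ext x
      exact x.elim0
    rw [h0, h1]
    simp
  set pos : Fin n → ℕ := fun x => (x : ℕ) with hpos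
  have hinj : Function.Injective pos := fun i j h => Fin.ext h
  have hGood := good_of_outer hinj hG
  rw [vset_val] at hGood
  have hkR : (1 : ℝ) ≤ k := by exact_mod_cast hk
  have hα0 : 0 < α := by linarith
  have hs0 : 0 < √(k : ℝ) := Real.sqrt_pos.mpr (by linarith)
  have hinv0 : 0 < 1 / α := by positivity
  set g : ℕ → ℝ := fun v => if h : v < n then
    (if (⟨v, h⟩ : Fin n) ∈ P then 0 else excess k α G ⟨v, h⟩) else 0 with hg
  have hg0 : ∀ v, 0 ≤ g v := by
    intro v
    simp only [hg]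
    split_ifs with h h2
    · exact le_rfl
    · exact excess_nonneg _ _ _ _
    · exact le_rfl
  set Bd : ℕ → Prop := fun v => (∃ h : v < n, (⟨v, h⟩ : Fin n) ∈ P) ∨
    (n : ℝ) ≤ v + α * √k with hBd
  have hlin := medium_linear hk hn hGood (√k / α) ((α + 1 / α) * √k) (by positivity) (by positivity)
    Bd g hg0 ?_
  · rw [card_eset hinj] at hlin
    refine hlin.trans ?_
    have hb : (((range n).filter (fun v => Bd v)).card : ℝ) ≤ P.card + α * √k := by
      have hsub : (range n).filter (fun v => Bd v) ⊆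
          (P.image (fun x : Fin n => (x : ℕ))) ∪
            (range n).filter (fun v : ℕ => (n : ℝ) ≤ v + α * √k) := by
        intro v hv
        rw [mem_filter, mem_range] at hv
        obtain ⟨hvn, hv⟩ := hv
        rw [mem_union]
        rcases hv with ⟨h, hB⟩ | hv
        · left
          rw [mem_image]
          exact ⟨⟨v, h⟩, hB, rfl⟩
        · right
          rw [mem_filter, mem_range]
          exact ⟨hvn, hv⟩
      have h2 := tail_card (n := n) (β := α * √k)
      have h4 : (⌊α * √k⌋₊ : ℝ) ≤ α * √k := Nat.floor_le (by positivity)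
      have h5 : ((range n).filter (fun v => Bd v)).card ≤ P.card + ⌊α * √k⌋₊ :=
        (card_le_card hsub).trans ((card_union_le _ _).trans (Nat.add_le_add card_image_le h2))
      have h6 : (((range n).filter (fun v => Bd v)).card : ℝ) ≤
          ((P.card + ⌊α * √k⌋₊ : ℕ) : ℝ) := by exact_mod_cast h5
      rw [Nat.cast_add] at h6
      linarith
    have h7 : (n : ℝ) / (√k / α) = α * n / √k := by field_simp
    have h8 : √(k * n * (n / (√k / α) + ((range n).filter (fun v => Bd v)).card)) ≤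
        √(k * n * (P.card + α * √k + α * n / √k)) := by
      apply Real.sqrt_le_sqrt
      apply mul_le_mul_of_nonneg_left _ (by positivity)
      rw [h7]
      linarith
    have h9 : (α + 1 / α) * √k / 2 * n = (α + 1 / α) / 2 * √k * n := by ring
    have h10 : ∑ v ∈ range n, g v = ∑ x ∈ Pᶜ, excess k α G x := by
      rw [Finset.sum_range]
      have h11 : ∀ x : Fin n, g x = if x ∈ Pᶜ then excess k α G x else 0 := by
        intro x
        simp only [hg]
        rw [dif_pos x.2]
        simp only [Fin.eta, mem_compl]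
        split_ifs <;> simp_all
      simp_rw [h11]
      rw [Finset.sum_ite_mem, univ_inter]
    rw [h10]
    linarith
  · intro x hx hBx
    simp only [hBd, not_or, not_exists] at hBx
    obtain ⟨hB1, hB2⟩ := hBx
    have hxP := hB1 hx
    have h' : ((star (eset (fun x : Fin n => (x : ℕ)) G) x).card : ℝ) ≤
          ((G.neighborSet ⟨x, hx⟩).ncard : ℝ) := by exact_mod_cast card_star_le G ⟨x, hx⟩
    by_cases hB : Bad k α G ⟨x, hx⟩
    · left
      have : g x = ((G.neighborSet ⟨x, hx⟩).ncard : ℝ) - (α + 1 / α) * √k := by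
        simp only [hg]
        rw [dif_pos hx, if_neg hxP, excess, if_pos hB]
      rw [this]
      linarith
    · rcases light_of_not_bad hα hk hx hB2 hB with h | h
      · left
        have := hg0 x
        linarith
      · right
        exact h

/-- If all edges have cyclic length at most `α √k`, then no vertex is bad. -/
theorem no_bad_of_short (α : ℝ) (hα : 1 ≤ α) (k n : ℕ) (hk : 1 ≤ k) (G : SimpleGraph (Fin n))
    (hG : Drawn k G)
    (hs : ∀ x y, G.Adj x y → (cw x y : ℝ) ≤ α * √k ∨ (cw y x : ℝ) ≤ α * √k) :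
    ∀ x, ¬ Bad k α G x := by
  classical
  intro x hB
  obtain ⟨h1, h2⟩ := hB
  have hkR : (1 : ℝ) ≤ k := by exact_mod_cast hk
  have hα0 : 0 < α := by linarith
  have hs0 : 0 < √(k : ℝ) := Real.sqrt_pos.mpr (by linarith)
  have hd0 : 0 < √(k : ℝ) / α := by positivity
  have hcw1 : ∀ y y' : Fin n, y ≠ y' → cw x y ≠ cw x y' := by
    intro y y' hne h
    have hx := x.2
    have hy := y.2
    have hy' := y'.2
    apply hne
    apply Fin.ext
    rcases lt_trichotomy (x : ℕ) y with h3 | h3 | h3 <;>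
      rcases lt_trichotomy (x : ℕ) y' with h4 | h4 | h4
    · have := cw_lt h3; have := cw_lt h4; omega
    · have := cw_lt h3
      have h5 : cw x y' = 0 := by unfold cw; rw [show (y' : ℕ) + n - x = n by omega, Nat.mod_self]
      omega
    · have := cw_lt h3; have := cw_gt h4; omega
    · have := cw_lt h4
      have h5 : cw x y = 0 := by unfold cw; rw [show (y : ℕ) + n - x = n by omega, Nat.mod_self]
      omega
    · omega
    · have := cw_gt h4
      have h5 : cw x y = 0 := by unfold cw; rw [show (y : ℕ) + n - x = n by omega, Nat.mod_self]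
      omega
    · have := cw_gt h3; have := cw_lt h4; omega
    · have := cw_gt h3
      have h5 : cw x y' = 0 := by unfold cw; rw [show (y' : ℕ) + n - x = n by omega, Nat.mod_self]
      omega
    · have := cw_gt h3; have := cw_gt h4; omega
  have hcw2 : ∀ y y' : Fin n, y ≠ y' → cw y x ≠ cw y' x := by
    intro y y' hne h
    have hx := x.2
    have hy := y.2
    have hy' := y'.2
    apply hne
    apply Fin.ext
    rcases lt_trichotomy (x : ℕ) y with h3 | h3 | h3 <;>
      rcases lt_trichotomy (x : ℕ) y' with h4 | h4 | h4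
    · have := cw_gt h3; have := cw_gt h4; omega
    · have := cw_gt h3
      have h5 : cw y' x = 0 := by unfold cw; rw [show (x : ℕ) + n - y' = n by omega, Nat.mod_self]
      omega
    · have := cw_gt h3; have := cw_lt h4; omega
    · have := cw_gt h4
      have h5 : cw y x = 0 := by unfold cw; rw [show (x : ℕ) + n - y = n by omega, Nat.mod_self]
      omega
    · omega
    · have := cw_lt h4
      have h5 : cw y x = 0 := by unfold cw; rw [show (x : ℕ) + n - y = n by omega, Nat.mod_self]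
      omega
    · have := cw_lt h3; have := cw_gt h4; omega
    · have := cw_lt h3
      have h5 : cw y' x = 0 := by unfold cw; rw [show (x : ℕ) + n - y' = n by omega, Nat.mod_self]
      omega
    · have := cw_lt h3; have := cw_lt h4; omega
  have hpos : ∀ y, G.Adj x y → 1 ≤ cw x y ∧ 1 ≤ cw y x := by
    intro y hy
    have hx := x.2
    have hy2 := y.2
    have hne : (x : ℕ) ≠ y := fun h => hy.ne (Fin.ext h)
    rcases lt_or_gt_of_ne hne with h | h
    · have := cw_lt h; have := cw_gt h; omega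
    · have := cw_lt h; have := cw_gt h; omega
  have hsub : G.neighborSet x ⊆
      (((univ.filter (fun y : Fin n => 1 ≤ cw x y ∧ (cw x y : ℝ) < √k / α)) ∪
        (univ.filter (fun y : Fin n => 1 ≤ cw y x ∧ (cw y x : ℝ) ≤ α * √k)) : Finset (Fin n)) :
        Set (Fin n)) := by
    intro y hy
    have hy' : G.Adj x y := hy
    rw [mem_coe, mem_union, mem_filter, mem_filter]
    obtain ⟨h3, h4⟩ := hpos y hy'
    by_cases h5 : (cw x y : ℝ) ≤ α * √k
    · left
      refine ⟨mem_univ _, h3, ?_⟩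
      by_contra h6
      push Not at h6
      have h7 := h2 y h6 h5
      have h8 := hG s(x, y) hy'
      omega
    · right
      refine ⟨mem_univ _, h4, ?_⟩
      rcases hs x y hy' with h6 | h6
      · exact absurd h6 h5
      · exact h6
  have hcard : (G.neighborSet x).ncard ≤
      (univ.filter (fun y : Fin n => 1 ≤ cw x y ∧ (cw x y : ℝ) < √k / α)).card +
        (univ.filter (fun y : Fin n => 1 ≤ cw y x ∧ (cw y x : ℝ) ≤ α * √k)).card := by
    refine (Set.ncard_le_ncard hsub (Finset.finite_toSet _)).trans ?_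
    rw [Set.ncard_coe_finset]
    exact card_union_le _ _
  have hA : (univ.filter (fun y : Fin n => 1 ≤ cw x y ∧ (cw x y : ℝ) < √k / α)).card ≤
      ⌊√(k : ℝ) / α⌋₊ := by
    have h3 : (Icc 1 ⌊√(k : ℝ) / α⌋₊).card = ⌊√(k : ℝ) / α⌋₊ := by simp
    conv_rhs => rw [← h3]
    refine card_le_card_of_injOn (fun y => cw x y) ?_ ?_
    · intro y hy
      rw [mem_coe, mem_filter] at hy
      rw [mem_coe, mem_Icc]
      exact ⟨hy.2.1, Nat.le_floor hy.2.2.le⟩
    · intro y _ y' _ hh
      by_contra hne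
      exact hcw1 y y' hne hh
  have hBc : (univ.filter (fun y : Fin n => 1 ≤ cw y x ∧ (cw y x : ℝ) ≤ α * √k)).card ≤
      ⌊α * √(k : ℝ)⌋₊ := by
    have h3 : (Icc 1 ⌊α * √(k : ℝ)⌋₊).card = ⌊α * √(k : ℝ)⌋₊ := by simp
    conv_rhs => rw [← h3]
    refine card_le_card_of_injOn (fun y => cw y x) ?_ ?_
    · intro y hy
      rw [mem_coe, mem_filter] at hy
      rw [mem_coe, mem_Icc]
      exact ⟨hy.2.1, Nat.le_floor hy.2.2⟩
    · intro y _ y' _ hh
      by_contra hne
      exact hcw2 y y' hne hh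
  have h5 : ((G.neighborSet x).ncard : ℝ) ≤ (⌊√(k : ℝ) / α⌋₊ : ℝ) + (⌊α * √(k : ℝ)⌋₊ : ℝ) := by
    exact_mod_cast hcard.trans (Nat.add_le_add hA hBc)
  have h6 : (⌊√(k : ℝ) / α⌋₊ : ℝ) ≤ √k / α := Nat.floor_le hd0.le
  have h7 : (⌊α * √(k : ℝ)⌋₊ : ℝ) ≤ α * √k := Nat.floor_le (by positivity)
  have h8 : (α + 1 / α) * √k = α * √k + √k / α := by ring
  linarith

/-- The number of edges of cyclic length at most `α √k`. -/
theorem short_edges (α : ℝ) (hα : 1 ≤ α) (k n : ℕ) (hk : 1 ≤ k) (G : SimpleGraph (Fin n))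
    (hG : Drawn k G) :
    ({e ∈ G.edgeSet | ∃ x y, e = s(x, y) ∧ (cw x y : ℝ) ≤ α * √k}.ncard : ℝ) ≤
      (α + 1 / α) / 2 * √k * n + 6 * √(k * n * (α * √k + α * n / √k)) + 12 * n := by
  classical
  set G' : SimpleGraph (Fin n) :=
    { Adj := fun x y => G.Adj x y ∧ ((cw x y : ℝ) ≤ α * √k ∨ (cw y x : ℝ) ≤ α * √k)
      symm := ⟨fun _ _ h => ⟨h.1.symm, h.2.symm⟩⟩
      loopless := ⟨fun _ h => h.1.ne rfl⟩ } with hG'
  have hle : G'.edgeSet ⊆ G.edgeSet := by
    intro e he
    induction e using Sym2.ind with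
    | _ a b => exact he.1
  have hD : Drawn k G' := by
    intro e he
    refine (Set.ncard_le_ncard ?_ (Set.toFinite _)).trans (hG e (hle he))
    rintro f ⟨hf, hcr⟩
    exact ⟨hle hf, hcr⟩
  have hnb := no_bad_of_short α hα k n hk G' hD (fun x y h => h.2)
  have hup := upper_set α hα k n hk G' hD ∅
  have hex : ∑ x ∈ (∅ : Finset (Fin n))ᶜ, excess k α G' x = 0 :=
    Finset.sum_eq_zero fun x _ => by rw [excess, if_neg (hnb x)]
  rw [hex, card_empty, Nat.cast_zero, zero_add, zero_div, add_zero] at hup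
  refine le_trans ?_ hup
  have hsub : {e ∈ G.edgeSet | ∃ x y, e = s(x, y) ∧ (cw x y : ℝ) ≤ α * √k} ⊆ G'.edgeSet := by
    rintro e ⟨he, x, y, rfl, h⟩
    exact ⟨he, Or.inl h⟩
  exact_mod_cast Set.ncard_le_ncard hsub (Set.toFinite _)

/-- Matching examples. -/
theorem lower (α : ℝ) (hα : 1 ≤ α) (k n : ℕ) (hk : 1 ≤ k) (h3 : α ≤ √3)
    (h2 : 2 ≤ (α - 1 / α) * √k) (hn : 2 * √k + 2 < n) :
    ∃ G : SimpleGraph (Fin n), Drawn k G ∧
      (∀ x, ∃ y, G.Adj x y ∧ √k / α ≤ (cw x y : ℝ) ∧ (cw x y : ℝ) ≤ α * √k) ∧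
      (α + 1 / α) / 2 * √k * n - n - 9 * k ≤ (G.edgeSet.ncard : ℝ) := by
  have hkR : (1 : ℝ) ≤ k := by exact_mod_cast hk
  have hα0 : 0 < α := by linarith
  set s := √(k : ℝ) with hs
  have hs2 : s * s = k := Real.mul_self_sqrt (by linarith)
  have hs0 : 0 < s := Real.sqrt_pos.mpr (by linarith)
  have hs1 : 1 ≤ s := by nlinarith
  have hα3 : α * α ≤ 3 := by
    have := Real.mul_self_sqrt (show (0 : ℝ) ≤ 3 by norm_num)
    nlinarith [Real.sqrt_nonneg 3]
  have hdiv1 : s / α ≤ s := div_le_self hs0.le hα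
  have hdiv0 : 0 < s / α := by positivity
  have h2' : s / α + 2 ≤ α * s := by
    have : (α - 1 / α) * s = α * s - s / α := by ring
    linarith
  have hdiv3 : α * s ≤ 3 * (s / α) := by
    have : α * s = (α * α) * (s / α) := by field_simp
    rw [this]
    exact mul_le_mul_of_nonneg_right hα3 hdiv0.le
  set t := ⌊s / α⌋₊ + 1 with ht
  have ht1 : s / α < t := by
    rw [ht]; push_cast; exact Nat.lt_floor_add_one _
  have ht2 : (t : ℝ) ≤ s / α + 1 := by
    rw [ht]; push_cast; linarith [Nat.floor_le hdiv0.le]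
  have hz0 : 0 ≤ (α * s - t - 1) / 2 := by linarith
  set w := ⌊(α * s - t - 1) / 2⌋₊ with hw
  have hw1 : (w : ℝ) ≤ (α * s - t - 1) / 2 := Nat.floor_le hz0
  have hw2 : (α * s - t - 1) / 2 < w + 1 := Nat.lt_floor_add_one _
  have hwt : w < t := by
    have : (w : ℝ) < t := by linarith
    exact_mod_cast this
  have htn : 2 * t < n := by
    have : (2 : ℝ) * t < n := by linarith
    exact_mod_cast this
  have hcr := cross_twoRow (n := n) hwt (by omega)
  have hed := edges_twoRow (n := n) hwt htn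
  have hkk : (t - 1) * (t + 2 * w + 1) ≤ k := by
    have h1 : ((t - 1 : ℕ) : ℝ) ≤ s / α := by
      rw [ht, Nat.add_sub_cancel]; exact Nat.floor_le hdiv0.le
    have h4 : (t : ℝ) + 2 * w + 1 ≤ α * s := by linarith
    have h5 : ((t - 1 : ℕ) : ℝ) * (t + 2 * w + 1) ≤ k := by
      calc ((t - 1 : ℕ) : ℝ) * (t + 2 * w + 1) ≤ (s / α) * (α * s) :=
            mul_le_mul h1 h4 (by positivity) hdiv0.le
        _ = s * s := by field_simp
        _ = k := hs2
    exact_mod_cast h5
  refine ⟨twoRow n t w, fun e he => (hcr e he).trans hkk, ?_, ?_⟩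
  · intro x
    have hx := x.2
    by_cases hxt : (x : ℕ) + t < n
    · refine ⟨⟨x + t, hxt⟩, ⟨?_, Or.inl (Or.inl ?_)⟩, ?_⟩
      · intro h
        have := congrArg Fin.val h
        simp only at this
        omega
      · simp only
        omega
      · have : (x : ℕ) + cw x ⟨x + t, hxt⟩ = x + t := cw_lt (x := x) (y := ⟨x + t, hxt⟩) (by
          show (x : ℕ) < x + t
          omega)
        have h4 : cw x ⟨x + t, hxt⟩ = t := by omega
        rw [h4]
        exact ⟨ht1.le, by linarith⟩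
    · have hlt : (x : ℕ) + t - n < n := by omega
      refine ⟨⟨x + t - n, hlt⟩, ⟨?_, Or.inl (Or.inr (Or.inr ?_))⟩, ?_⟩
      · intro h
        have := congrArg Fin.val h
        simp only at this
        omega
      · simp only
        omega
      · have : (x : ℕ) + cw x ⟨x + t - n, hlt⟩ = (x + t - n) + n :=
          cw_gt (x := x) (y := ⟨x + t - n, hlt⟩) (by
            show (x : ℕ) + t - n < x
            omega)
        have h4 : cw x ⟨x + t - n, hlt⟩ = t := by omega
        rw [h4]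
        exact ⟨ht1.le, by linarith⟩
  · have hedR : (2 * (t : ℝ) + 2 * w + 1) * n ≤
        2 * ((twoRow n t w).edgeSet.ncard : ℝ) + (2 * w + 1) * (2 * t + 2) := by
      exact_mod_cast hed
    have hn0 : (0 : ℝ) ≤ n := by positivity
    have h4 : (α + 1 / α) / 2 * s - 1 ≤ t + w + 1 / 2 := by
      have : (α + 1 / α) / 2 * s = (α * s + s / α) / 2 := by ring
      rw [this]
      linarith
    have h5 : ((α + 1 / α) / 2 * s - 1) * n ≤ (t + w + 1 / 2) * n :=
      mul_le_mul_of_nonneg_right h4 hn0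
    have h6 : (2 * (w : ℝ) + 1) * (2 * t + 2) ≤ 18 * k := by
      have h7 : (w : ℝ) + 1 ≤ t := by exact_mod_cast hwt
      have h8 : (t : ℝ) ≤ s + 1 := by linarith
      have h9 : (2 * (w : ℝ) + 1) ≤ 2 * s + 1 := by linarith
      have h10 : (2 * (t : ℝ) + 2) ≤ 2 * s + 4 := by linarith
      calc (2 * (w : ℝ) + 1) * (2 * t + 2) ≤ (2 * s + 1) * (2 * s + 4) :=
            mul_le_mul h9 h10 (by positivity) (by linarith)
        _ = 4 * (s * s) + 10 * s + 4 := by ring
        _ ≤ 18 * (s * s) := by nlinarith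
        _ = 18 * k := by rw [hs2]
    linarith

end Pool.Agent.MP_df3d6f_co
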