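import Mathlib

namespace Pool.Agent.MP_df3d6f_co

/-- normalised form, one side -/
lemma pair_aux {x y A B : ℝ} (hx : 0 < x) (hy : 0 < y) (hxy : y ≤ x) (hA : 0 < A) (hA2 : A ≤ 2)
    (hB : 0 < B) (hB2 : B ≤ 2)
    (h1 : A * (2 - A) * y ≤ (2 * A - 1) * x) (h2 : B * (2 - B) * x ≤ (2 * B - 1) * y) :
    (2 - (A + B - 2) ^ 2) * (x * y) ≤ A * B * (x ^ 2 + y ^ 2) := by
  have hxy0 : 0 < x * y := mul_pos hx hy
  -- `B ≥ 1`
  have hB1 : 1 ≤ B := by
    by_contra hlt
    push Not at hlt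
    have g1 : B * (2 - B) * y ≤ B * (2 - B) * x :=
      mul_le_mul_of_nonneg_left hxy (mul_nonneg hB.le (by linarith))
    have g2 : (B - 1) ^ 2 * y ≤ 0 := by nlinarith
    have g3 : 0 < (B - 1) ^ 2 * y := mul_pos (by nlinarith) hy
    linarith
  rcases le_or_gt 1 A with hA1 | hA1
  · have : 1 ≤ A * B := by nlinarith
    nlinarith [sq_nonneg (x - y), mul_nonneg (sub_nonneg.mpr this) (add_nonneg (sq_nonneg x) (sq_nonneg y)),
      mul_nonneg (sq_nonneg (A + B - 2)) hxy0.le]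
  · -- `A = 1 - a`, `B = 1 + b`
    obtain ⟨a, rfl⟩ : ∃ a, A = 1 - a := ⟨1 - A, by ring⟩
    obtain ⟨b, rfl⟩ : ∃ b, B = 1 + b := ⟨B - 1, by ring⟩
    have ha : 0 < a := by linarith
    have ha1 : a < 1 := by linarith
    have hb : 0 ≤ b := by linarith
    have hb1 : b ≤ 1 := by linarith
    have g1 : (1 - a ^ 2) * y ≤ (1 - 2 * a) * x := by nlinarith
    have g2 : (1 - b ^ 2) * x ≤ (1 + 2 * b) * y := by nlinarith
    have ha2 : 0 < 1 - 2 * a := by
      by_contra hlt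
      push Not at hlt
      have : 0 < (1 - a ^ 2) * y := mul_pos (by nlinarith) hy
      nlinarith
    have g3 : (1 - a ^ 2) * (1 - b ^ 2) ≤ (1 - 2 * a) * (1 + 2 * b) := by
      have k1 : (1 - b ^ 2) * ((1 - a ^ 2) * y) ≤ (1 - b ^ 2) * ((1 - 2 * a) * x) :=
        mul_le_mul_of_nonneg_left g1 (by nlinarith)
      have k2 : (1 - 2 * a) * ((1 - b ^ 2) * x) ≤ (1 - 2 * a) * ((1 + 2 * b) * y) :=
        mul_le_mul_of_nonneg_left g2 ha2.le
      have k3 : (1 - a ^ 2) * (1 - b ^ 2) * y ≤ (1 - 2 * a) * (1 + 2 * b) * y := by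
        nlinarith
      exact le_of_mul_le_mul_right k3 hy
    -- `b ≥ a + a^2`
    have g4 : a + a ^ 2 ≤ b := by
      by_contra hlt
      push Not at hlt
      have k1 : 0 < a ^ 3 := by positivity
      have k2 : 0 ≤ a ^ 5 := by positivity
      have k3 : 0 ≤ a ^ 6 := by positivity
      -- f(b) = 2 b + b^2 - a^2 b^2 - 4 a b is increasing
      have k4 : 2 * a - a ^ 2 ≤ 2 * b + b ^ 2 - a ^ 2 * b ^ 2 - 4 * a * b := by nlinarith
      have k5 : 2 * b + b ^ 2 - a ^ 2 * b ^ 2 - 4 * a * b ≤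
          2 * (a + a ^ 2) + (a + a ^ 2) ^ 2 - a ^ 2 * (a + a ^ 2) ^ 2 - 4 * a * (a + a ^ 2) := by
        have e : 2 * (a + a ^ 2) + (a + a ^ 2) ^ 2 - a ^ 2 * (a + a ^ 2) ^ 2
            - 4 * a * (a + a ^ 2) - (2 * b + b ^ 2 - a ^ 2 * b ^ 2 - 4 * a * b) =
            (a + a ^ 2 - b) * (2 - 4 * a + (1 - a ^ 2) * (a + a ^ 2 + b)) := by ring
        have : 0 ≤ (a + a ^ 2 - b) * (2 - 4 * a + (1 - a ^ 2) * (a + a ^ 2 + b)) := by
          refine mul_nonneg (by linarith) ?_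
          have : 0 ≤ (1 - a ^ 2) * (a + a ^ 2 + b) :=
            mul_nonneg (by nlinarith) (by positivity)
          linarith
        linarith
      nlinarith
    have g5 : 1 - a ^ 3 ≤ (1 - a) * (1 + b) := by nlinarith
    set G := (1 - a) * (1 + b) with hG
    have hG0 : 0 < G := mul_pos hA hB
    -- `(1 - 2 a) (x - y) ≥ (2 a - a^2) y`
    have g6 : (2 * a - a ^ 2) * y ≤ (1 - 2 * a) * (x - y) := by nlinarith
    have hd : 0 ≤ x - y := by linarith
    -- `(x - y)^2 ≥ 4 a^2 x y`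
    have g7 : 4 * a ^ 2 * (x * y) ≤ (x - y) ^ 2 := by
      have k0 : 0 ≤ 2 * a - a ^ 2 := by nlinarith
      -- set `d = x - y`, `m = (2 a - a^2) / (1 - 2 a)`, d ≥ m y
      have k1 : (2 * a - a ^ 2) * y * (x - y) ≤ (1 - 2 * a) * (x - y) ^ 2 := by
        have := mul_le_mul_of_nonneg_right g6 hd
        nlinarith
      have k2 : (2 * a - a ^ 2) * (y * ((2 * a - a ^ 2) * y)) ≤
          (2 * a - a ^ 2) * (y * ((1 - 2 * a) * (x - y))) :=
        mul_le_mul_of_nonneg_left (mul_le_mul_of_nonneg_left g6 hy.le) k0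
      -- 4 a^2 (x y) = 4 a^2 y^2 + 4 a^2 y d
      -- d^2 ≥ ((2a - a^2)/(1-2a)) y d, and y d ≥ ((2a-a^2)/(1-2a)) y^2
      -- multiply everything by (1 - 2 a)^2
      have hq : 0 < (1 - 2 * a) ^ 2 := by positivity
      have k3 : (1 - 2 * a) ^ 2 * (4 * a ^ 2 * (x * y)) ≤ (1 - 2 * a) ^ 2 * (x - y) ^ 2 := by
        have hyd : 0 ≤ y * (x - y) := mul_nonneg hy.le hd
        -- coefficient comparison
        have c1 : (1 - 2 * a) * ((2 * a - a ^ 2) * y * (x - y)) ≤
            (1 - 2 * a) * ((1 - 2 * a) * (x - y) ^ 2) := mul_le_mul_of_nonneg_left k1 ha2.le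
        -- need: (1-2a)(2a - a^2) y d ≥ (1-2a)^2 4 a^2 (y^2 + y d)
        have c2 : 4 * a ^ 2 * (1 - 2 * a) ^ 2 * (y ^ 2) + 4 * a ^ 2 * (1 - 2 * a) ^ 2 * (y * (x - y)) ≤
            (1 - 2 * a) * (2 * a - a ^ 2) * (y * (x - y)) := by
          -- from g6 times y: (2a - a^2) y^2 ≤ (1-2a) y d
          have c3 : (2 * a - a ^ 2) * y ^ 2 ≤ (1 - 2 * a) * (y * (x - y)) := by nlinarith
          -- (2a - a^2) * [..]
          have c4 : 4 * a ^ 2 * (1 - 2 * a) ^ 2 * (y ^ 2) * (2 - a) ≤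
              4 * a * (1 - 2 * a) ^ 3 * (y * (x - y)) := by
            have c5 : 0 ≤ 4 * a * (1 - 2 * a) ^ 2 := by positivity
            have := mul_le_mul_of_nonneg_left c3 c5
            nlinarith
          have c6 : 4 * a * (1 - 2 * a) ^ 3 + 4 * a ^ 2 * (1 - 2 * a) ^ 2 * (2 - a) ≤
              (1 - 2 * a) * (2 * a - a ^ 2) * (2 - a) := by
            have e : (1 - 2 * a) * (2 * a - a ^ 2) * (2 - a) - (4 * a * (1 - 2 * a) ^ 3 +
                4 * a ^ 2 * (1 - 2 * a) ^ 2 * (2 - a)) =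
                a * (1 - 2 * a) * ((2 - a) ^ 2 - 4 * (1 - 2 * a) ^ 2 -
                  4 * a * (1 - 2 * a) * (2 - a)) := by ring
            have e2 : (2 - a) ^ 2 - 4 * (1 - 2 * a) ^ 2 - 4 * a * (1 - 2 * a) * (2 - a) =
                a * (4 + 5 * a - 8 * a ^ 2) := by ring
            have : 0 ≤ a * (1 - 2 * a) * (a * (4 + 5 * a - 8 * a ^ 2)) := by
              refine mul_nonneg (mul_nonneg ha.le ha2.le) (mul_nonneg ha.le ?_)
              nlinarith
            rw [e2] at e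
            linarith
          have c7 := mul_le_mul_of_nonneg_right c6 hyd
          have h2a : 0 < 2 - a := by linarith
          refine le_of_mul_le_mul_right (a := 2 - a) ?_ h2a
          nlinarith
        nlinarith
      exact le_of_mul_le_mul_left k3 hq
    -- conclusion
    have hz : (1 + b) * (1 - a) = G := by rw [hG]; ring
    have key : 2 * (x * y) ≤ G * (x ^ 2 + y ^ 2) := by
      have k1 : G * (x ^ 2 + y ^ 2) = G * (x - y) ^ 2 + 2 * G * (x * y) := by ring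
      have k2 : G * (4 * a ^ 2 * (x * y)) ≤ G * (x - y) ^ 2 :=
        mul_le_mul_of_nonneg_left g7 hG0.le
      have k3 : 2 ≤ G * (4 * a ^ 2) + 2 * G := by
        have k4 : (1 - a ^ 3) * (4 * a ^ 2 + 2) ≤ G * (4 * a ^ 2 + 2) :=
          mul_le_mul_of_nonneg_right g5 (by positivity)
        have k5 : 2 ≤ (1 - a ^ 3) * (4 * a ^ 2 + 2) := by
          have : 0 ≤ a ^ 2 * (4 - 2 * a - 4 * a ^ 3) := by
            refine mul_nonneg (sq_nonneg _) ?_
            nlinarith [pow_pos ha 3, mul_pos ha ha]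
          nlinarith
        linarith
      have k6 := mul_le_mul_of_nonneg_right k3 hxy0.le
      nlinarith
    have hsq : 0 ≤ (1 - a + (1 + b) - 2) ^ 2 * (x * y) := mul_nonneg (sq_nonneg _) hxy0.le
    nlinarith

/-- The optimisation problem for two arcs, normalised (`k = 3`). -/
lemma pair_norm {u v m m' F : ℝ} (hu : 0 ≤ u) (hv : 0 ≤ v) (hm : 0 ≤ m) (hm' : 0 ≤ m')
    (hF : 0 ≤ F) (h0 : F ^ 2 ≤ m * m' * (6 - u ^ 2 - v ^ 2))
    (h1 : u * F ≤ (3 - u ^ 2) * m) (h2 : v * F ≤ (3 - v ^ 2) * m') :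
    u * m + v * m' + F ≤ 2 * (m + m') := by
  have side : ∀ {u m F : ℝ}, 0 ≤ u → 0 < m → 0 ≤ F → u * F ≤ (3 - u ^ 2) * m → u < 2 := by
    intro u m F hu hm hF h
    by_contra hlt
    push Not at hlt
    have h3 : 0 ≤ u * F := mul_nonneg hu hF
    have h4 : (3 - u ^ 2) * m < 0 := mul_neg_of_neg_of_pos (by nlinarith) hm
    linarith
  rcases hm.eq_or_lt with hm0 | hm0
  · rw [← hm0] at h0 ⊢
    have hF0 : F = 0 := by nlinarith [sq_nonneg F]
    rw [hF0]
    rcases hm'.eq_or_lt with hm0' | hm0'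
    · rw [← hm0']; simp
    · have := side hv hm0' hF h2
      nlinarith
  rcases hm'.eq_or_lt with hm0' | hm0'
  · rw [← hm0'] at h0 ⊢
    have hF0 : F = 0 := by nlinarith [sq_nonneg F]
    rw [hF0]
    have := side hu hm0 hF h1
    nlinarith
  have hu2 := side hu hm0 hF h1
  have hv2 := side hv hm0' hF h2
  by_contra hlt
  push Not at hlt
  -- `F > D`
  set A := 2 - u with hA
  set B := 2 - v with hB
  have eu : u = 2 - A := by rw [hA]; ring
  have ev : v = 2 - B := by rw [hB]; ring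
  have hA0 : 0 < A := by rw [hA]; linarith
  have hB0 : 0 < B := by rw [hB]; linarith
  have hD : A * m + B * m' < F := by rw [hA, hB]; nlinarith
  set x := A * m with hx
  set y := B * m' with hy
  have hx0 : 0 < x := mul_pos hA0 hm0
  have hy0 : 0 < y := mul_pos hB0 hm0'
  have k1 : A * (2 - A) * y ≤ (2 * A - 1) * x := by
    have g1 : u * (x + y) ≤ (3 - u ^ 2) * m := (mul_le_mul_of_nonneg_left hD.le hu).trans h1
    have g2 : A * (u * (x + y)) ≤ (3 - u ^ 2) * x := by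
      rw [hx]
      have := mul_le_mul_of_nonneg_left g1 hA0.le
      nlinarith
    rw [eu] at g2
    nlinarith
  have k2 : B * (2 - B) * x ≤ (2 * B - 1) * y := by
    have g1 : v * (x + y) ≤ (3 - v ^ 2) * m' := (mul_le_mul_of_nonneg_left hD.le hv).trans h2
    have g2 : B * (v * (x + y)) ≤ (3 - v ^ 2) * y := by
      rw [hy]
      have := mul_le_mul_of_nonneg_left g1 hB0.le
      nlinarith
    rw [ev] at g2
    nlinarith
  have k3 : (2 - (A + B - 2) ^ 2) * (x * y) ≤ A * B * (x ^ 2 + y ^ 2) := by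
    rcases le_total y x with h | h
    · exact pair_aux hx0 hy0 h hA0 (by linarith) hB0 (by linarith) k1 k2
    · have := pair_aux hy0 hx0 h hB0 (by linarith) hA0 (by linarith) k2 k1
      nlinarith
  have k4 : (x + y) ^ 2 < m * m' * (6 - u ^ 2 - v ^ 2) := by
    have : (x + y) ^ 2 < F ^ 2 := by
      apply pow_lt_pow_left₀ hD (by positivity) (by norm_num)
    linarith
  have k5 : A * B * (x + y) ^ 2 < x * y * (6 - u ^ 2 - v ^ 2) := by
    have := mul_lt_mul_of_pos_left k4 (mul_pos hA0 hB0)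
    have e : A * B * (m * m' * (6 - u ^ 2 - v ^ 2)) = x * y * (6 - u ^ 2 - v ^ 2) := by
      rw [hx, hy]; ring
    linarith
  rw [eu, ev] at k5
  nlinarith

/-- The optimisation problem for two arcs. -/
lemma pair_real {κ u v m m' F : ℝ} (hκ : 0 < κ) (hu : 0 ≤ u) (hv : 0 ≤ v) (hm : 0 ≤ m)
    (hm' : 0 ≤ m') (hF : 0 ≤ F) (h0 : F ^ 2 ≤ m * m' * (6 * κ ^ 2 - u ^ 2 - v ^ 2))
    (h1 : u * F ≤ (3 * κ ^ 2 - u ^ 2) * m) (h2 : v * F ≤ (3 * κ ^ 2 - v ^ 2) * m') :
    u * m + v * m' + F ≤ 2 * κ * (m + m') := by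
  have hκ2 : 0 < κ ^ 2 := by positivity
  have h := pair_norm (u := u / κ) (v := v / κ) (m := m) (m' := m') (F := F / κ)
    (by positivity) (by positivity) hm hm' (by positivity) ?_ ?_ ?_
  · have e1 : u / κ * m + v / κ * m' + F / κ = (u * m + v * m' + F) / κ := by ring
    rw [e1, div_le_iff₀ hκ] at h
    linarith
  · have e1 : m * m' * (6 - (u / κ) ^ 2 - (v / κ) ^ 2) =
        m * m' * (6 * κ ^ 2 - u ^ 2 - v ^ 2) / κ ^ 2 := by
      field_simp
    rw [e1, div_pow]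
    exact div_le_div_of_nonneg_right h0 hκ2.le
  · have e1 : (3 - (u / κ) ^ 2) * m = (3 * κ ^ 2 - u ^ 2) * m / κ ^ 2 := by
      field_simp
    have e2 : u / κ * (F / κ) = u * F / κ ^ 2 := by
      field_simp
    rw [e1, e2]
    exact div_le_div_of_nonneg_right h1 hκ2.le
  · have e1 : (3 - (v / κ) ^ 2) * m' = (3 * κ ^ 2 - v ^ 2) * m' / κ ^ 2 := by
      field_simp
    have e2 : v / κ * (F / κ) = v * F / κ ^ 2 := by
      field_simp
    rw [e1, e2]
    exact div_le_div_of_nonneg_right h2 hκ2.le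

end Pool.Agent.MP_df3d6f_co
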