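import Mathlib
import Pool.Agent.MP_df3d6f_co.PathPow

namespace Pool.Agent.MP_df3d6f_co

open Finset

lemma two_mul_half_choose (m : ℕ) : 2 * (m * (m - 1) / 2) = m * (m - 1) := by
  have h : 2 ∣ m * (m - 1) := by
    rcases m with _ | m
    · simp
    · have := Nat.even_mul_succ_self m
      rw [Nat.add_sub_cancel, mul_comm]
      exact this.two_dvd
  exact Nat.mul_div_cancel' h

lemma arith_row {c k s : ℕ} (h : 3 * (c - 1) ^ 2 ≤ 4 * k + 3) (hs : 2 * s ≤ c) :
    (s - 1) * (2 * c - s) ≤ k := by
  rcases Nat.eq_zero_or_pos s with rfl | hs0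
  · simp
  obtain ⟨t, rfl⟩ : ∃ t, s = t + 1 := ⟨s - 1, by omega⟩
  obtain ⟨d, rfl⟩ : ∃ d, c = 2 * (t + 1) + d := ⟨c - 2 * (t + 1), by omega⟩
  have e1 : 2 * (t + 1) + d - 1 = 2 * t + d + 1 := by omega
  have e2 : 2 * (2 * (t + 1) + d) - (t + 1) = 3 * t + 2 * d + 3 := by omega
  rw [e1] at h
  rw [Nat.add_sub_cancel, e2]
  -- 3 (2t+d+1)^2 <= 4k+3 ; want t(3t+2d+3) <= k
  have h4 : 4 * (t * (3 * t + 2 * d + 3)) ≤ 4 * k + 3 := by
    nlinarith [Nat.zero_le (t * d), Nat.zero_le (d * d)]
  omega

lemma arith_cross {c k r : ℕ} (h : 3 * (c - 1) ^ 2 ≤ 4 * k + 3) (hr : r % 2 = 1) (hrc : r ≤ c) :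
    2 * ((c / 2) * (c / 2 - 1) / 2) + ((c - r) / 2) * ((c - r) / 2 - 1) / 2
      + ((c + r) / 2) * ((c + r) / 2 - 1) / 2 ≤ k := by
  have f1 := two_mul_half_choose (c / 2)
  have f2 := two_mul_half_choose ((c - r) / 2)
  have f3 := two_mul_half_choose ((c + r) / 2)
  obtain ⟨t, rfl⟩ : ∃ t, r = 2 * t + 1 := ⟨r / 2, by omega⟩
  suffices hh : 2 * ((c / 2) * (c / 2 - 1)) + ((c - (2 * t + 1)) / 2) *
      ((c - (2 * t + 1)) / 2 - 1) + ((c + (2 * t + 1)) / 2) * ((c + (2 * t + 1)) / 2 - 1)
      ≤ 2 * k + 1 by omega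
  rcases Nat.even_or_odd' c with ⟨g, rfl | rfl⟩
  · -- c = 2 g, t ≤ g - 1
    obtain ⟨w, rfl⟩ : ∃ w, g = t + 1 + w := ⟨g - (t + 1), by omega⟩
    have e1 : 2 * (t + 1 + w) / 2 = t + 1 + w := by omega
    have e2 : (2 * (t + 1 + w) - (2 * t + 1)) / 2 = w := by omega
    have e3 : (2 * (t + 1 + w) + (2 * t + 1)) / 2 = 2 * t + 1 + w := by omega
    have e4 : 2 * (t + 1 + w) - 1 = 2 * t + 1 + 2 * w := by omega
    have e5 : t + 1 + w - 1 = t + w := by omega
    have e6 : 2 * t + 1 + w - 1 = 2 * t + w := by omega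
    rw [e4] at h
    rw [e1, e2, e3, e5, e6]
    have e7 : w * (w - 1) + w = w * w := by
      rcases w with _ | w
      · simp
      · simp; ring
    have h4 : 2 * (2 * ((t + 1 + w) * (t + w)) + w * (w - 1) + (2 * t + 1 + w) * (2 * t + w))
        ≤ 4 * k + 3 := by
      nlinarith [Nat.zero_le (t * w), Nat.zero_le (w * w), Nat.zero_le (t * t)]
    omega
  · obtain ⟨w, rfl⟩ : ∃ w, g = t + w := ⟨g - t, by omega⟩
    have e1 : (2 * (t + w) + 1) / 2 = t + w := by omega
    have e2 : (2 * (t + w) + 1 - (2 * t + 1)) / 2 = w := by omega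
    have e3 : (2 * (t + w) + 1 + (2 * t + 1)) / 2 = 2 * t + 1 + w := by omega
    have e4 : 2 * (t + w) + 1 - 1 = 2 * (t + w) := by omega
    have e6 : 2 * t + 1 + w - 1 = 2 * t + w := by omega
    rw [e4] at h
    rw [e1, e2, e3, e6]
    have e7 : w * (w - 1) + w = w * w := by
      rcases w with _ | w
      · simp
      · simp; ring
    have e8 : (t + w) * (t + w - 1) + (t + w) = (t + w) * (t + w) := by
      rcases (t + w) with _ | w
      · simp
      · simp; ring
    have h4 : 2 * (2 * ((t + w) * (t + w - 1)) + w * (w - 1) + (2 * t + 1 + w) * (2 * t + w))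
        ≤ 4 * k + 3 := by
      nlinarith [Nat.zero_le (t * w), Nat.zero_le (w * w), Nat.zero_le (t * t)]
    omega

lemma pathPow_cross {n c k : ℕ} (h : 3 * (c - 1) ^ 2 ≤ 4 * k + 3) :
    ∀ e ∈ (pathPow n c).edgeSet,
      {f ∈ (pathPow n c).edgeSet | Crosses (zpos n) e f}.ncard ≤ k := by
  have main : ∀ a b : Fin n, (a : ℕ) < b → (pathPow n c).Adj a b →
      {f ∈ (pathPow n c).edgeSet | Crosses (zpos n) s(a, b) f}.ncard ≤ k := by
    intro a b hab hadj
    obtain ⟨hne, h1, h2⟩ := hadj
    rcases Nat.mod_two_eq_zero_or_one ((b : ℕ) - a) with hp | hp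
    · exact (cross_row hab hp h2).trans (arith_row h (by omega))
    · exact (cross_cross hab hp h2).trans (arith_cross h hp (by omega))
  intro e he
  induction e with
  | _ a b =>
    rw [SimpleGraph.mem_edgeSet] at he
    rcases lt_trichotomy (a : ℕ) (b : ℕ) with hlt | heq | hgt
    · exact main a b hlt he
    · exact absurd (Fin.ext heq) he.1
    · rw [Sym2.eq_swap]
      exact main b a hgt he.symm

/-- Number of edges. -/
lemma sum_min (c n : ℕ) : 2 * (c * n) ≤ 2 * (∑ j ∈ range n, min j c) + c * (c + 1) := by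
  rcases le_total n c with hn | hn
  · have : ∑ j ∈ range n, min j c = ∑ j ∈ range n, j := by
      apply sum_congr rfl
      intro j hj
      rw [mem_range] at hj
      exact min_eq_left (by omega)
    rw [this, mul_comm 2 (∑ j ∈ range n, j), Finset.sum_range_id_mul_two]
    obtain ⟨d, rfl⟩ : ∃ d, c = n + d := ⟨c - n, by omega⟩
    rcases n with _ | n
    · simp
    · simp only [Nat.add_sub_cancel]
      rcases d with _ | d
      · nlinarith
      · nlinarith
  · induction n, hn using Nat.le_induction with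
    | base =>
      have : ∑ j ∈ range c, min j c = ∑ j ∈ range c, j := by
        apply sum_congr rfl
        intro j hj
        rw [mem_range] at hj
        exact min_eq_left (by omega)
      rw [this, mul_comm 2 (∑ j ∈ range c, j), Finset.sum_range_id_mul_two]
      rcases c with _ | c
      · simp
      · simp only [Nat.add_sub_cancel]
        nlinarith
    | succ m hm ih =>
      rw [sum_range_succ, min_eq_right hm]
      nlinarith

lemma pathPow_edges (n c : ℕ) :
    2 * (c * n) ≤ 2 * (pathPow n c).edgeSet.ncard + c * (c + 1) := by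
  refine (sum_min c n).trans ?_
  have hle : (∑ j ∈ range n, min j c) ≤ (pathPow n c).edgeSet.ncard := by
    have hcard : ((range n).sigma (fun j => Ico (j - c) j)).card = ∑ j ∈ range n, min j c := by
      rw [card_sigma]
      apply sum_congr rfl
      intro j _
      rw [Nat.card_Ico]
      omega
    rw [← hcard]
    -- map into Sym2 ℤ
    have himg : (toZ n '' (pathPow n c).edgeSet).ncard = (pathPow n c).edgeSet.ncard :=
      Set.ncard_image_of_injective _ (toZ_inj n)
    rw [← himg, ← Set.ncard_coe_finset]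
    refine Set.ncard_le_ncard_of_injOn (fun p : (_ : ℕ) × ℕ => s((p.2 : ℤ), (p.1 : ℤ))) ?_ ?_ ?_
    · intro p hp
      simp only [coe_sigma, Set.mem_sigma_iff, mem_coe, mem_range, mem_Ico] at hp
      obtain ⟨hp1, hp2, hp3⟩ := hp
      refine ⟨s(⟨p.2, by omega⟩, ⟨p.1, hp1⟩), ?_, rfl⟩
      rw [SimpleGraph.mem_edgeSet]
      refine ⟨?_, ?_, ?_⟩
      · intro h
        have := congrArg Fin.val h
        simp only at this
        omega
      · simp only
        omega
      · simp only
        omega
    · intro p hp q hq hpq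
      simp only [coe_sigma, Set.mem_sigma_iff, mem_coe, mem_range, mem_Ico] at hp hq
      obtain ⟨p1, p2⟩ := p
      obtain ⟨q1, q2⟩ := q
      simp only [Sym2.eq_iff] at hpq
      simp only at hp hq
      rcases hpq with ⟨h1, h2⟩ | ⟨h1, h2⟩
      · have h1' : p2 = q2 := by exact_mod_cast h1
        have h2' : p1 = q1 := by exact_mod_cast h2
        subst h1' h2'
        rfl
      · exfalso
        omega
    · exact Set.toFinite _
  omega

/-- Cyclically consecutive vertices are adjacent. -/
lemma pathPow_hull {n c : ℕ} (hc : 2 ≤ c) (a b : Fin n) (hab : zpos n a < zpos n b)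
    (h : (∀ v, ¬ (zpos n a < zpos n v ∧ zpos n v < zpos n b)) ∨
      (∀ v, zpos n a ≤ zpos n v ∧ zpos n v ≤ zpos n b)) : (pathPow n c).Adj a b := by
  have ha := a.2
  have hb := b.2
  rcases h with h | h
  · -- consecutive
    by_cases hbig : (a : ℕ) ≤ b + 2 ∧ (b : ℕ) ≤ a + 2
    · refine ⟨fun e => ?_, by omega, by omega⟩
      subst e
      exact lt_irrefl _ hab
    · exfalso
      by_cases hpar : (a : ℕ) % 2 = (b : ℕ) % 2
      · -- same parity, distance > 2
        have h' := h ⟨((a : ℕ) + (if (a : ℕ) < b then 2 else 0)) - (if (a : ℕ) < b then 0 else 2),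
          by split_ifs <;> omega⟩
        apply h'
        unfold zpos at hab ⊢
        simp only
        split_ifs at hab ⊢ <;> omega
      · -- a odd, b even
        have hodd : (a : ℕ) % 2 = 1 ∧ (b : ℕ) % 2 = 0 := by
          unfold zpos at hab
          split_ifs at hab <;> omega
        by_cases hb0 : (b : ℕ) = 0
        · -- then a ≥ 3, take v = 1
          have h1n : 1 < n := by omega
          have e1 : zpos n ⟨1, h1n⟩ = n - 1 := by simp [zpos]
          have e2 : zpos n a = n - a := by simp [zpos, hodd.1]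
          have e3 : zpos n b = n + b := by simp [zpos, hodd.2]
          have h' := h ⟨1, h1n⟩
          rw [e1, e2, e3] at h'
          omega
        · have h' := h ⟨0, by omega⟩
          apply h'
          unfold zpos at hab ⊢
          simp only
          split_ifs at hab ⊢ <;> omega
  · -- extreme vertices
    have hn2 : 2 ≤ n := by
      by_contra hlt
      have h1 : (a : ℕ) = b := by omega
      have : a = b := Fin.ext h1
      subst this
      exact lt_irrefl _ hab
    have h1 := h ⟨n - 1, by omega⟩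
    have h2 := h ⟨n - 2, by omega⟩
    refine ⟨fun e => ?_, ?_, ?_⟩
    · subst e
      exact lt_irrefl _ hab
    · unfold zpos at hab h1 h2
      simp only at h1 h2
      split_ifs at hab h1 h2 <;> omega
    · unfold zpos at hab h1 h2
      simp only at h1 h2
      split_ifs at hab h1 h2 <;> omega

end Pool.Agent.MP_df3d6f_co
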