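import Mathlib
import Pool.Agent.MP_df3d6f_co.Near2
import Pool.Agent.MP_df3d6f_co.Ladder
import Pool.Agent.MP_df3d6f_co.Multi
import Pool.Agent.MP_df3d6f_co.Med3

namespace Pool.Agent.MP_df3d6f_co

open Finset

/-- pairs spanning `u` with difference in `S` -/
def spanS (S : Finset ℕ) (u : ℕ) : Finset (ℕ × ℕ) :=
  (S.sigma (fun s => range (s - 1))).image (fun p => (u - (p.2 + 1), u + (p.1 - (p.2 + 1))))

lemma card_spanS {S : Finset ℕ} {l u : ℕ} (hl : ∀ s ∈ S, s ≤ l) (h : l ≤ u) :
    (spanS S u).card = ∑ s ∈ S, (s - 1) := by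
  unfold spanS
  rw [card_image_of_injOn, card_sigma]
  · simp only [card_range]
  · rintro ⟨a, b⟩ h1 ⟨a', b'⟩ h2 hh
    simp only [coe_sigma, Set.mem_sigma_iff, mem_coe, mem_range] at h1 h2
    have := hl a h1.1
    have := hl a' h2.1
    simp only [Prod.mk.injEq] at hh
    have e1 : a = a' := by omega
    have e2 : b = b' := by omega
    subst e1
    subst e2
    rfl

lemma mem_spanS {S : Finset ℕ} {l u a b : ℕ} (hl : ∀ s ∈ S, s ≤ l) (h : (a, b) ∈ spanS S u)
    (hu : l ≤ u) :
    a < u ∧ u < b ∧ b - a ∈ S ∧ b ≤ a + l ∧ u ≤ a + l ∧ b ≤ u + l := by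
  unfold spanS at h
  rw [mem_image] at h
  obtain ⟨⟨p, q⟩, h1, h2⟩ := h
  simp only [mem_sigma, mem_range] at h1
  have h3 := hl p h1.1
  simp only [Prod.mk.injEq] at h2
  have h4 : b - a = p := by omega
  refine ⟨by omega, by omega, by rw [h4]; exact h1.1, by omega, by omega, by omega⟩

lemma sum_pred_ge (S : Finset ℕ) (hS : ∀ s ∈ S, 1 ≤ s) :
    S.card * (S.card - 1) ≤ 2 * ∑ s ∈ S, (s - 1) := by
  induction S using Finset.induction_on_max with
  | empty => simp
  | insert a S ha ih =>
    have hnot : a ∉ S := fun h => lt_irrefl _ (ha a h)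
    have h1 := ih (fun s hs => hS s (mem_insert_of_mem hs))
    have h2 : S.card ≤ a - 1 := by
      have hsub : S ⊆ Ico 1 a := by
        intro s hs
        rw [mem_Ico]
        exact ⟨hS s (mem_insert_of_mem hs), ha s hs⟩
      have := card_le_card hsub
      rwa [Nat.card_Ico] at this
    rw [card_insert_of_notMem hnot, sum_insert hnot, Nat.add_sub_cancel, mul_add]
    have h3 : (S.card + 1) * S.card = S.card * (S.card - 1) + 2 * S.card := by
      rcases Nat.eq_zero_or_pos S.card with h | h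
      · rw [h]
      · obtain ⟨m, hm⟩ : ∃ m, S.card = m + 1 := ⟨S.card - 1, by omega⟩
        rw [hm, Nat.add_sub_cancel]
        ring
    omega

/-- `v` is at distance more than `2 w` from the ends of its interval -/
def Deep (n w : ℕ) (c : ℕ → ℕ) (v : ℕ) : Prop :=
  2 * w ≤ v ∧ v + 2 * w < n ∧ c (v - 2 * w) = c (v + 2 * w)

instance (n w : ℕ) (c : ℕ → ℕ) (v : ℕ) : Decidable (Deep n w c v) := by
  unfold Deep; infer_instance

lemma deep_eq {n w : ℕ} {c : ℕ → ℕ} (hc : Monotone c) {v u : ℕ} (h : Deep n w c v)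
    (h1 : v - 2 * w ≤ u) (h2 : u ≤ v + 2 * w) : c u = c v := by
  obtain ⟨a, b, d⟩ := h
  have g1 := hc h1
  have g2 := hc h2
  have g3 := hc (show v - 2 * w ≤ v by omega)
  have g4 := hc (show v ≤ v + 2 * w by omega)
  omega

/-- few vertices are not deep -/
lemma card_not_deep {n w r : ℕ} {c : ℕ → ℕ} (hc : Monotone c) (hr : ∀ v < n, c v < r) :
    ((range n).filter (fun v => ¬ Deep n w c v)).card ≤ 4 * w * (r + 1) := by
  classical
  have hf : ∀ t : ℕ, ∃ f : ℕ, (∃ u, t < c u) → (t < c f ∧ ∀ u, t < c u → f ≤ u) := by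
    intro t
    by_cases h : ∃ u, t < c u
    · exact ⟨Nat.find h, fun _ => ⟨Nat.find_spec h, fun u hu => Nat.find_min' h hu⟩⟩
    · exact ⟨0, fun h' => absurd h' h⟩
  choose f hf using hf
  have hsub : (range n).filter (fun v => ¬ Deep n w c v) ⊆
      (range (2 * w) ∪ Ico (n - 2 * w) n) ∪
        (range r).biUnion (fun t => Ico (f t - 2 * w) (f t + 2 * w)) := by
    intro v hv
    rw [mem_filter, mem_range] at hv
    obtain ⟨hvn, hnd⟩ := hv
    rw [mem_union, mem_union, mem_range, mem_Ico, mem_biUnion]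
    by_cases h1 : 2 * w ≤ v
    · by_cases h2 : v + 2 * w < n
      · right
        have h3 : c (v - 2 * w) ≠ c (v + 2 * w) := fun h => hnd ⟨h1, h2, h⟩
        have h4 := hc (show v - 2 * w ≤ v + 2 * w by omega)
        have h5 : c (v - 2 * w) < c (v + 2 * w) := by omega
        refine ⟨c (v - 2 * w), ?_, ?_⟩
        · rw [mem_range]
          have := hr _ h2
          omega
        · obtain ⟨g1, g2⟩ := hf (c (v - 2 * w)) ⟨_, h5⟩
          have g3 := g2 _ h5
          have g4 : v - 2 * w < f (c (v - 2 * w)) := by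
            by_contra hh
            have := hc (not_lt.mp hh)
            omega
          rw [mem_Ico]
          omega
      · left; right; omega
    · left; left; omega
  refine (card_le_card hsub).trans ((card_union_le _ _).trans ?_)
  have e1 : (range (2 * w) ∪ Ico (n - 2 * w) n).card ≤ 4 * w := by
    refine (card_union_le _ _).trans ?_
    rw [card_range, Nat.card_Ico]
    omega
  have e2 : ((range r).biUnion (fun t => Ico (f t - 2 * w) (f t + 2 * w))).card ≤ r * (4 * w) := by
    have := card_biUnion_le_card_mul (range r) (fun t => Ico (f t - 2 * w) (f t + 2 * w)) (4 * w)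
      (fun t _ => by rw [Nat.card_Ico]; omega)
    rwa [card_range] at this
  nlinarith

section
variable {n k r l : ℕ} {c : ℕ → ℕ} {E : Finset (ℕ × ℕ)} {S : Finset ℕ}

/-- pairs between deep vertices of different intervals -/
def farDeep (n w : ℕ) (c : ℕ → ℕ) (E : Finset (ℕ × ℕ)) : Finset (ℕ × ℕ) :=
  E.filter (fun e => c e.1 ≠ c e.2 ∧ Deep n w c e.1 ∧ Deep n w c e.2)

lemma farDeep_good (h : Good k (range n) E) (hc : Monotone c) (hl : ∀ s ∈ S, s ≤ l)
    (hpow : ∀ a b, a < b → b < n → c a = c b → b - a ∈ S → (a, b) ∈ E) :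
    Good (k - 2 * ∑ s ∈ S, (s - 1)) (range n) (farDeep n l c E) ∧
      ((farDeep n l c E).Nonempty → 2 * ∑ s ∈ S, (s - 1) ≤ k) := by
  have main : ∀ e ∈ farDeep n l c E,
      ((farDeep n l c E).filter (Alt e)).card + 2 * ∑ s ∈ S, (s - 1) ≤ k := by
    rintro ⟨u, v⟩ he
    unfold farDeep at he
    rw [mem_filter] at he
    obtain ⟨heE, hne, hdu, hdv⟩ := he
    simp only at hne hdu hdv
    obtain ⟨-, hvn, huv⟩ := h.mem _ heE
    simp only at hvn huv
    have hcuv : c u < c v := by
      have := hc (le_of_lt huv)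
      omega
    have hlt : ∀ a b, c a < c b → a < b := fun a b hab => by
      by_contra hh
      have := hc (not_lt.mp hh)
      omega
    have hwu : l ≤ u := by have := hdu.1; omega
    have hwv : l ≤ v := by have := hdv.1; omega
    have hspu : ∀ f ∈ spanS S u, f ∈ E ∧ Alt (u, v) f ∧ c f.1 = c u ∧ c f.2 = c u := by
      rintro ⟨a, b⟩ hf
      obtain ⟨h1, h2, h0, h3, h4, h5⟩ := mem_spanS hl hf hwu
      have c1 : c a = c u := deep_eq hc hdu (by omega) (by omega)
      have c2 : c b = c u := deep_eq hc hdu (by omega) (by omega)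
      have hb : b < v := hlt _ _ (by omega)
      have hn := hdu.2.1
      refine ⟨hpow a b (by omega) (by omega) (by omega) h0, ?_, c1, c2⟩
      right
      exact ⟨h1, h2, hb⟩
    have hspv : ∀ f ∈ spanS S v, f ∈ E ∧ Alt (u, v) f ∧ c f.1 = c v ∧ c f.2 = c v := by
      rintro ⟨a, b⟩ hf
      obtain ⟨h1, h2, h0, h3, h4, h5⟩ := mem_spanS hl hf hwv
      have c1 : c a = c v := deep_eq hc hdv (by omega) (by omega)
      have c2 : c b = c v := deep_eq hc hdv (by omega) (by omega)
      have ha : u < a := hlt _ _ (by omega)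
      have hn := hdv.2.1
      refine ⟨hpow a b (by omega) (by omega) (by omega) h0, ?_, c1, c2⟩
      left
      exact ⟨ha, h1, h2⟩
    have hsub : ((farDeep n l c E).filter (Alt (u, v)) ∪ spanS S u) ∪ spanS S v ⊆
        E.filter (Alt (u, v)) := by
      intro f hf
      rw [mem_union, mem_union, mem_filter] at hf
      rw [mem_filter]
      rcases hf with (⟨hf, hA⟩ | hf) | hf
      · exact ⟨(mem_filter.mp hf).1, hA⟩
      · exact ⟨(hspu f hf).1, (hspu f hf).2.1⟩
      · exact ⟨(hspv f hf).1, (hspv f hf).2.1⟩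
    have hd1 : Disjoint ((farDeep n l c E).filter (Alt (u, v))) (spanS S u) := by
      rw [disjoint_left]
      intro f hf hf'
      have h1 := (mem_filter.mp (mem_filter.mp hf).1).2.1
      have h2 := hspu f hf'
      exact h1 (h2.2.2.1.trans h2.2.2.2.symm)
    have hd2 : Disjoint ((farDeep n l c E).filter (Alt (u, v)) ∪ spanS S u) (spanS S v) := by
      rw [disjoint_left]
      intro f hf hf'
      have h2 := hspv f hf'
      rw [mem_union] at hf
      rcases hf with hf | hf
      · have h1 := (mem_filter.mp (mem_filter.mp hf).1).2.1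
        exact h1 (h2.2.2.1.trans h2.2.2.2.symm)
      · have h3 := hspu f hf
        have := h3.2.2.1
        have := h2.2.2.1
        omega
    have := card_le_card hsub
    rw [card_union_of_disjoint hd2, card_union_of_disjoint hd1] at this
    have e1 := card_spanS hl hwu
    have e2 := card_spanS hl hwv
    have e3 := h.cr _ heE
    omega
  refine ⟨⟨?_, ?_⟩, ?_⟩
  · intro e he
    exact h.mem e (mem_filter.mp he).1
  · intro e he
    have := main e he
    omega
  · rintro ⟨e, he⟩
    have := main e he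
    omega

/-- the number of pairs of a good set joining different intervals -/
lemma multi_pairs {F : Finset (ℕ × ℕ)} {k' : ℕ} (h : Good k' (range n) F) (hc : Monotone c)
    (hr : ∀ v < n, c v < r) (hne : ∀ e ∈ F, c e.1 ≠ c e.2) :
    (F.card : ℝ) ≤ (Real.sqrt (k' / 2) + 3 / 2) * (n + 4 * r) + 6 * k' * r := by
  have h1 := multi_arc (V := Fin n) (G := gr n F) (pos := fun x : Fin n => (x : ℕ))
    (c := fun x : Fin n => c x) (r := r) (val_inj n) (drawn_gr h)
    (fun u v huv => hc (le_of_lt huv)) (fun v => hr v v.2)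
  rw [Fintype.card_fin] at h1
  refine le_trans ?_ h1
  have h2 : {e ∈ (gr n F).edgeSet | ∃ u v : Fin n, e = s(u, v) ∧ c u ≠ c v} =
      (gr n F).edgeSet := by
    ext e
    constructor
    · exact fun h => h.1
    · intro he
      refine ⟨he, ?_⟩
      induction e using Sym2.ind with
      | _ a b =>
        rw [SimpleGraph.mem_edgeSet] at he
        rcases he with he | he
        · exact ⟨a, b, rfl, hne _ he.2⟩
        · exact ⟨a, b, rfl, (hne _ he.2).symm⟩
  rw [h2, card_gr h]

/-- far pairs, first bound -/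
theorem far_first (hn : 1 ≤ n) (hk : 1 ≤ k) (h : Good k (range n) E) (hc : Monotone c)
    (hr : ∀ v < n, c v < r) :
    ((E.filter (fun e => c e.1 ≠ c e.2)).card : ℝ) ≤ (farDeep n l c E).card +
      (15 * n + 12 * k * l * (r + 1)) := by
  set Z := (range n).filter (fun v => ¬ Deep n l c v) with hZ
  have hZc := card_not_deep (w := l) hc hr
  have hhub := hub_closed hk hn h (P := Z) (filter_subset _ _)
  have hsub : E.filter (fun e => c e.1 ≠ c e.2) ⊆
      farDeep n l c E ∪ E.filter (fun e => e.1 ∈ Z ∨ e.2 ∈ Z) := by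
    intro e he
    rw [mem_filter] at he
    rw [mem_union]
    by_cases h1 : Deep n l c e.1
    · by_cases h2 : Deep n l c e.2
      · left
        exact mem_filter.mpr ⟨he.1, he.2, h1, h2⟩
      · right
        exact mem_filter.mpr ⟨he.1, Or.inr (mem_filter.mpr ⟨(h.mem e he.1).2.1, h2⟩)⟩
    · right
      exact mem_filter.mpr ⟨he.1, Or.inl (mem_filter.mpr ⟨(h.mem e he.1).1, h1⟩)⟩
  have h1 : ((E.filter (fun e => c e.1 ≠ c e.2)).card : ℝ) ≤
      (farDeep n l c E).card + (E.filter (fun e => e.1 ∈ Z ∨ e.2 ∈ Z)).card := by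
    exact_mod_cast (card_le_card hsub).trans (card_union_le _ _)
  have h2 : √(k * Z.card * n) ≤ (k * Z.card + n) / 2 := by
    rw [Real.sqrt_le_left (by positivity)]
    nlinarith [sq_nonneg ((k : ℝ) * Z.card - n)]
  have h3 : (Z.card : ℝ) ≤ 4 * l * (r + 1) := by exact_mod_cast hZc
  have h4 : (k : ℝ) * Z.card ≤ k * (4 * l * (r + 1)) :=
    mul_le_mul_of_nonneg_left h3 (by positivity)
  nlinarith

/-- far pairs between deep vertices, second bound -/
theorem far_second (h : Good k (range n) E) (hc : Monotone c) (hl : ∀ s ∈ S, s ≤ l) (hlS : l ∈ S)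
    (hl1 : 1 ≤ l)
    (hpow : ∀ a b, a < b → b < n → c a = c b → b - a ∈ S → (a, b) ∈ E) :
    2 * (l - 1) * (farDeep n l c E).card + n * (2 * ∑ s ∈ S, (s - 1)) ≤ n * k ∨
      (farDeep n l c E) = ∅ := by
  by_cases hne : (farDeep n l c E) = ∅
  · exact Or.inr hne
  left
  set F := farDeep n l c E with hF
  set J := ∑ s ∈ S, (s - 1) with hJ
  have hFm : ∀ e ∈ F, e ∈ E ∧ c e.1 < c e.2 ∧ Deep n l c e.1 ∧ Deep n l c e.2 ∧ e.1 < e.2 ∧
      e.2 < n := by
    intro e he
    rw [hF] at he
    unfold farDeep at he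
    rw [mem_filter] at he
    obtain ⟨h1, h2, h3⟩ := h.mem e he.1
    have := hc (le_of_lt h3)
    refine ⟨he.1, ?_, he.2.2.1, he.2.2.2, h3, mem_range.mp h2⟩
    have := he.2.1
    omega
  have hww : 2 * J ≤ k := (farDeep_good h hc hl hpow).2 (nonempty_iff_ne_empty.mpr hne)
  -- the set of left ends of own pairs
  set VD := (range n).filter (fun x => l ≤ x ∧ x + 2 * l < n ∧ c (x - l) = c (x + 2 * l)) with hVD
  have hlt : ∀ a b, c a < c b → a < b := fun a b hab => by
    by_contra hh
    have := hc (not_lt.mp hh)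
    omega
  have hQ : ∀ x ∈ VD, (F.filter (fun e => e.1 ∈ Ioo x (x + l) ∨ e.2 ∈ Ioo x (x + l))).card +
      2 * J ≤ k := by
    intro x hx
    rw [hVD, mem_filter] at hx
    obtain ⟨-, hx1, hx2, hx3⟩ := hx
    have hcx : ∀ y, x - l ≤ y → y ≤ x + 2 * l → c y = c x := by
      intro y h1 h2
      have g1 := hc h1
      have g2 := hc h2
      have g3 := hc (show x - l ≤ x by omega)
      have g4 := hc (show x ≤ x + 2 * l by omega)
      omega
    have hxE : (x, x + l) ∈ E :=
      hpow x (x + l) (by omega) (by omega) (hcx _ (by omega) (by omega)).symm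
        (by rw [Nat.add_sub_cancel_left]; exact hlS)
    have hs1 : ∀ f ∈ spanS S x, f ∈ E ∧ Alt (x, x + l) f ∧ c f.1 = c f.2 ∧ f.1 < x := by
      rintro ⟨a, b⟩ hf
      obtain ⟨h1, h2, h0, h3, h4, h5⟩ := mem_spanS hl hf hx1
      have c1 : c a = c x := hcx _ (by omega) (by omega)
      have c2 : c b = c x := hcx _ (by omega) (by omega)
      refine ⟨hpow a b (by omega) (by omega) (by omega) h0, ?_, by simp only; omega, h1⟩
      right
      exact ⟨h1, h2, by simp only; omega⟩
    have hs2 : ∀ f ∈ spanS S (x + l), f ∈ E ∧ Alt (x, x + l) f ∧ c f.1 = c f.2 ∧ x < f.1 := by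
      rintro ⟨a, b⟩ hf
      obtain ⟨h1, h2, h0, h3, h4, h5⟩ := mem_spanS hl hf (by omega)
      have c1 : c a = c x := hcx _ (by omega) (by omega)
      have c2 : c b = c x := hcx _ (by omega) (by omega)
      refine ⟨hpow a b (by omega) (by omega) (by omega) h0, ?_, by simp only; omega,
        by simp only; omega⟩
      left
      exact ⟨by simp only; omega, h1, h2⟩
    have hs3 : ∀ f ∈ F.filter (fun e => e.1 ∈ Ioo x (x + l) ∨ e.2 ∈ Ioo x (x + l)),
        f ∈ E ∧ Alt (x, x + l) f ∧ c f.1 ≠ c f.2 := by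
      rintro ⟨a, b⟩ hf
      rw [mem_filter, mem_Ioo, mem_Ioo] at hf
      obtain ⟨hf1, hf2⟩ := hf
      obtain ⟨g1, g2, g3, g4, g5, g6⟩ := hFm _ hf1
      simp only at g2 g3 g4 g5 g6 hf2
      refine ⟨g1, ?_, by simp only; omega⟩
      rcases hf2 with hf2 | hf2
      · have c1 : c a = c x := hcx _ (by omega) (by omega)
        have c3 : c (x + l) = c x := hcx _ (by omega) (by omega)
        have : x + l < b := hlt _ _ (by omega)
        left
        exact ⟨hf2.1, hf2.2, this⟩
      · have c1 : c b = c x := hcx _ (by omega) (by omega)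
        have : a < x := hlt _ _ (by omega)
        right
        exact ⟨this, hf2.1, hf2.2⟩
    have hsub : (F.filter (fun e => e.1 ∈ Ioo x (x + l) ∨ e.2 ∈ Ioo x (x + l)) ∪ spanS S x) ∪
        spanS S (x + l) ⊆ E.filter (Alt (x, x + l)) := by
      intro f hf
      rw [mem_union, mem_union] at hf
      rw [mem_filter]
      rcases hf with (hf | hf) | hf
      · exact ⟨(hs3 f hf).1, (hs3 f hf).2.1⟩
      · exact ⟨(hs1 f hf).1, (hs1 f hf).2.1⟩
      · exact ⟨(hs2 f hf).1, (hs2 f hf).2.1⟩
    have hd1 : Disjoint (F.filter (fun e => e.1 ∈ Ioo x (x + l) ∨ e.2 ∈ Ioo x (x + l)))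
        (spanS S x) := by
      rw [disjoint_left]
      intro f hf hf'
      exact (hs3 f hf).2.2 (hs1 f hf').2.2.1
    have hd2 : Disjoint (F.filter (fun e => e.1 ∈ Ioo x (x + l) ∨ e.2 ∈ Ioo x (x + l)) ∪
        spanS S x) (spanS S (x + l)) := by
      rw [disjoint_left]
      intro f hf hf'
      rw [mem_union] at hf
      rcases hf with hf | hf
      · exact (hs3 f hf).2.2 (hs2 f hf').2.2.1
      · have := (hs1 f hf).2.2.2
        have := (hs2 f hf').2.2.2
        omega
    have := card_le_card hsub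
    rw [card_union_of_disjoint hd2, card_union_of_disjoint hd1] at this
    have e1 := card_spanS hl hx1
    have e2 := card_spanS (u := x + l) hl (by omega)
    have e3 := h.cr _ hxE
    omega
  -- double counting
  have hdc : 2 * (l - 1) * F.card ≤
      ∑ x ∈ VD, (F.filter (fun e => e.1 ∈ Ioo x (x + l) ∨ e.2 ∈ Ioo x (x + l))).card := by
    have e1 : ∑ x ∈ VD, (F.filter (fun e => e.1 ∈ Ioo x (x + l) ∨ e.2 ∈ Ioo x (x + l))).card =
        ∑ e ∈ F, (VD.filter (fun x => e.1 ∈ Ioo x (x + l) ∨ e.2 ∈ Ioo x (x + l))).card := by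
      simp only [card_filter]
      exact sum_comm
    rw [e1, mul_comm, ← smul_eq_mul, ← sum_const]
    refine sum_le_sum fun e he => ?_
    obtain ⟨g1, g2, g3, g4, g5, g6⟩ := hFm e he
    have hIco : ∀ y, Deep n l c y → ∀ x ∈ Ioo (y - l) y, x ∈ VD ∧ y ∈ Ioo x (x + l) ∧ c x = c y := by
      intro y hy x hx
      rw [mem_Ioo] at hx
      have y1 := hy.1
      have y2 := hy.2.1
      have q1 := deep_eq hc hy (u := x) (by omega) (by omega)
      have q2 := deep_eq hc hy (u := x - l) (by omega) (by omega)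
      have q3 := deep_eq hc hy (u := x + 2 * l) (by omega) (by omega)
      refine ⟨?_, ?_, q1⟩
      · rw [hVD, mem_filter, mem_range]
        refine ⟨by omega, by omega, by omega, by omega⟩
      · rw [mem_Ioo]
        omega
    have hsub : Ioo (e.1 - l) e.1 ∪ Ioo (e.2 - l) e.2 ⊆
        VD.filter (fun x => e.1 ∈ Ioo x (x + l) ∨ e.2 ∈ Ioo x (x + l)) := by
      intro x hx
      rw [mem_union] at hx
      rw [mem_filter]
      rcases hx with hx | hx
      · obtain ⟨q1, q2, -⟩ := hIco _ g3 x hx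
        exact ⟨q1, Or.inl q2⟩
      · obtain ⟨q1, q2, -⟩ := hIco _ g4 x hx
        exact ⟨q1, Or.inr q2⟩
    have hdisj : Disjoint (Ioo (e.1 - l) e.1) (Ioo (e.2 - l) e.2) := by
      rw [disjoint_left]
      intro x hx hx'
      have q1 := (hIco _ g3 x hx).2.2
      have q2 := (hIco _ g4 x hx').2.2
      omega
    have := card_le_card hsub
    rw [card_union_of_disjoint hdisj, Nat.card_Ioo, Nat.card_Ioo] at this
    have y1 := g3.1
    have y2 := g4.1
    omega
  have hsum : ∑ x ∈ VD, (F.filter (fun e => e.1 ∈ Ioo x (x + l) ∨ e.2 ∈ Ioo x (x + l))).card ≤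
      n * (k - 2 * J) := by
    calc _ ≤ ∑ x ∈ VD, (k - 2 * J) := sum_le_sum fun x hx => by
            have := hQ x hx
            omega
      _ = VD.card * (k - 2 * J) := by rw [sum_const, smul_eq_mul]
      _ ≤ n * (k - 2 * J) := by
          refine Nat.mul_le_mul_right _ ?_
          have := card_filter_le (range n) (fun x => l ≤ x ∧ x + 2 * l < n ∧ c (x - l) = c (x + 2 * l))
          rw [card_range] at this
          exact this
  have e5 : n * (k - 2 * J) + n * (2 * J) = n * k := by
    rw [← mul_add, Nat.sub_add_cancel hww]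
  omega

end

/-- inner pairs -/
lemma inner_card {n k : ℕ} {c : ℕ → ℕ} {E : Finset (ℕ × ℕ)} {S : Finset ℕ}
    (h : Good k (range n) E)
    (hpow : ∀ a b, (a, b) ∈ E → c a = c b → b - a ∈ S) :
    (E.filter (fun e => ¬ c e.1 ≠ c e.2)).card ≤ S.card * n := by
  have hsub : E.filter (fun e => ¬ c e.1 ≠ c e.2) ⊆
      ((range n) ×ˢ S).image (fun p => (p.1, p.1 + p.2)) := by
    rintro ⟨a, b⟩ he
    rw [mem_filter] at he
    obtain ⟨h1, h2, h3⟩ := h.mem _ he.1
    simp only at h1 h2 h3
    have h4 : c a = c b := by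
      have := he.2
      simp only at this
      push Not at this
      exact this
    have h5 := hpow a b he.1 h4
    rw [mem_image]
    refine ⟨(a, b - a), ?_, ?_⟩
    · rw [mem_product]
      exact ⟨h1, h5⟩
    · have h6 : a + (b - a) = b := by omega
      exact Prod.ext rfl h6
  refine (card_le_card hsub).trans (card_image_le.trans ?_)
  rw [card_product, card_range, mul_comm]

lemma real_caseA {k w : ℝ} (hk : 0 ≤ k) (hw : 0 ≤ w) (h : 3 * (w * (w - 1)) ≤ k) :
    w + √((k - w * (w - 1)) / 2) ≤ 2 * √(k / 3) + 3 / 2 := by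
  set a := √(k / 3) with ha
  have ha0 : 0 ≤ a := Real.sqrt_nonneg _
  have ha2 : a * a = k / 3 := Real.mul_self_sqrt (by positivity)
  by_cases hw1 : w ≤ a + 1 / 2
  · have hs : √((k - w * (w - 1)) / 2) ≤ 2 * a + 3 / 2 - w := by
      rw [Real.sqrt_le_left (by linarith)]
      nlinarith
    linarith
  · push Not at hw1
    -- `w - 1/2 > a`, but `(w - 1/2)^2 ≤ k / 3 + 1 / 4`
    have h1 : (w - 1 / 2) * (w - 1 / 2) ≤ a * a + 1 / 4 := by nlinarith
    have h2 : w - 1 / 2 ≤ a + 1 / 2 := by
      by_contra hh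
      push Not at hh
      nlinarith
    have hs : √((k - w * (w - 1)) / 2) ≤ 2 * a + 3 / 2 - w := by
      rw [Real.sqrt_le_left (by linarith)]
      nlinarith
    linarith

lemma real_caseB {k v : ℝ} (hk : 0 ≤ k) (hv : 1 ≤ v) (h1 : k < 3 * ((v + 1) * v))
    (h2 : (v + 1) * v ≤ k) : (v + 1 + k / v) / 2 ≤ 2 * √(k / 3) + 2 := by
  set a := √(k / 3) with ha
  have ha0 : 0 ≤ a := Real.sqrt_nonneg _
  have ha2 : a * a = k / 3 := Real.mul_self_sqrt (by positivity)
  have hv0 : 0 < v := by linarith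
  have h3 : v * (k / v) = k := by field_simp
  have h4 : k / v < 3 * (v + 1) := by
    rw [div_lt_iff₀ hv0]
    nlinarith
  by_cases hva : v < a
  · linarith
  · push Not at hva
    have h5 : v ≤ 3 * a := by
      by_contra hh
      push Not at hh
      nlinarith
    have h6 : v * v + k ≤ 4 * a * v := by nlinarith
    have h7 : v + k / v ≤ 4 * a := by
      have : v * (v + k / v) ≤ v * (4 * a) := by
        rw [mul_add, h3]
        linarith
      exact le_of_mul_le_mul_left this hv0
    linarith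

/-- Upper bounds for drawings cut into `r` intervals. -/
theorem power_bound {n k r : ℕ} {c : ℕ → ℕ} {E : Finset (ℕ × ℕ)} {S : Finset ℕ} (hn : 1 ≤ n)
    (hk : 1 ≤ k) (h : Good k (range n) E) (hc : Monotone c) (hr : ∀ v < n, c v < r)
    (hS1 : ∀ s ∈ S, 1 ≤ s) (hSk : 2 * ∑ s ∈ S, (s - 1) ≤ k)
    (hpow : ∀ a b, a < b → b < n → c a = c b → b - a ∈ S → (a, b) ∈ E) :
    ((E.filter (fun e => c e.1 ≠ c e.2)).card : ℝ) ≤
      (√((k - 2 * ((∑ s ∈ S, (s - 1) : ℕ) : ℝ)) / 2) + 17) * n + 40 * (k * k) * (r + 1) ∧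
    ((∀ a b, (a, b) ∈ E → c a = c b → b - a ∈ S) →
      (E.card : ℝ) ≤ (2 * √(k / 3) + 19) * n + 40 * (k * k) * (r + 1)) := by
  set l := S.sup id with hl
  have hlS : ∀ s ∈ S, s ≤ l := fun s hs => Finset.le_sup (f := id) hs
  have hlmem : S.Nonempty → l ∈ S := by
    intro hne
    obtain ⟨s, hs, h1⟩ := Finset.exists_mem_eq_sup S hne id
    rw [hl, h1]
    exact hs
  have hlk : 2 * l ≤ k + 2 := by
    rcases S.eq_empty_or_nonempty with h0 | hne
    · rw [hl, h0]
      simp
    · have h1 := Finset.single_le_sum (f := fun s => s - 1) (fun _ _ => Nat.zero_le _) (hlmem hne)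
      have h1' : l - 1 ≤ ∑ s ∈ S, (s - 1) := h1
      omega
  have hF := farDeep_good (l := l) h hc hlS hpow
  set J := ∑ s ∈ S, (s - 1) with hJ
  have h1 := multi_pairs (r := r) hF.1 hc hr (fun e he => (mem_filter.mp he).2.1)
  have h2 := far_first (l := l) hn hk h hc hr
  have hkR : (1 : ℝ) ≤ k := by exact_mod_cast hk
  have hr0 : (0 : ℝ) ≤ r := by positivity
  have hn0 : (0 : ℝ) ≤ n := by positivity
  have hJ0 : (0 : ℝ) ≤ J := by positivity
  have hJk : 2 * (J : ℝ) ≤ k := by exact_mod_cast hSk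
  have hkk : ((k - 2 * J : ℕ) : ℝ) = k - 2 * J := by
    rw [Nat.cast_sub hSk]
    push_cast
    ring
  rw [hkk] at h1
  set q := √((k - 2 * (J : ℝ)) / 2) with hq
  have hq0 : 0 ≤ q := Real.sqrt_nonneg _
  have hqk : q ≤ k := by
    rw [hq, Real.sqrt_le_left (by linarith)]
    nlinarith
  have hlR : 2 * (l : ℝ) ≤ k + 2 := by exact_mod_cast hlk
  have hkq : (k : ℝ) ≤ k * k := by nlinarith
  have hone : (1 : ℝ) ≤ k * k := by nlinarith
  -- error terms
  have herr : (q + 3 / 2) * (4 * r) + 6 * (k - 2 * (J : ℝ)) * r + 12 * k * l * (r + 1) ≤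
      40 * (k * k) * (r + 1) := by
    have g1 : (q + 3 / 2) * (4 * r) ≤ (5 / 2 * (k * k)) * (4 * r) := by
      refine mul_le_mul_of_nonneg_right ?_ (by positivity)
      linarith
    have g2 : 6 * ((k : ℝ) - 2 * J) * r ≤ 6 * (k * k) * r := by
      refine mul_le_mul_of_nonneg_right ?_ hr0
      linarith
    have g3 : 12 * (k : ℝ) * l * (r + 1) ≤ 18 * (k * k) * (r + 1) := by
      refine mul_le_mul_of_nonneg_right ?_ (by linarith)
      have : (k : ℝ) * (2 * l) ≤ k * (k + 2) := mul_le_mul_of_nonneg_left hlR (by linarith)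
      nlinarith
    have g4 : (0 : ℝ) ≤ (k * k) := by positivity
    nlinarith
  have hfirst : ((E.filter (fun e => c e.1 ≠ c e.2)).card : ℝ) ≤
      (q + 17) * n + 40 * (k * k) * (r + 1) := by
    nlinarith
  refine ⟨hfirst, ?_⟩
  intro hin
  have h3 := inner_card h hin
  have h4 : (E.filter (fun e => c e.1 ≠ c e.2)).card +
      (E.filter (fun e => ¬ c e.1 ≠ c e.2)).card = E.card := card_filter_add_card_filter_not _
  have h5 : (E.card : ℝ) ≤ (E.filter (fun e => c e.1 ≠ c e.2)).card + S.card * n := by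
    have : E.card ≤ (E.filter (fun e => c e.1 ≠ c e.2)).card + S.card * n := by omega
    exact_mod_cast this
  have hwJ : S.card * (S.card - 1) ≤ 2 * J := sum_pred_ge S hS1
  have hwR : (S.card : ℝ) * (S.card - 1) ≤ 2 * J := by
    rcases Nat.eq_zero_or_pos S.card with h0 | hp
    · rw [h0]; push_cast; linarith
    · have : ((S.card * (S.card - 1) : ℕ) : ℝ) ≤ ((2 * J : ℕ) : ℝ) := by exact_mod_cast hwJ
      rw [Nat.cast_mul, Nat.cast_sub hp] at this
      push_cast at this
      exact this
  have hw0 : (0 : ℝ) ≤ S.card := by positivity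
  rcases Nat.lt_or_ge k (3 * (S.card * (S.card - 1))) with hcase | hcase
  · -- second case
    have hw2 : 2 ≤ S.card := by
      by_contra hh
      have : S.card = 0 ∨ S.card = 1 := by omega
      rcases this with h0 | h0 <;> rw [h0] at hcase <;> simp at hcase
    have hne : S.Nonempty := by
      rw [← card_pos]
      omega
    have hlw : S.card ≤ l := by
      have hsub : S ⊆ Icc 1 l := by
        intro s hs
        rw [mem_Icc]
        exact ⟨hS1 s hs, hlS s hs⟩
      have := card_le_card hsub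
      rw [Nat.card_Icc] at this
      omega
    obtain ⟨v, hv⟩ : ∃ v, S.card = v + 1 := ⟨S.card - 1, by omega⟩
    rw [hv, Nat.add_sub_cancel] at hwJ hcase
    have hv1 : (1 : ℝ) ≤ v := by
      have : 1 ≤ v := by omega
      exact_mod_cast this
    have hc1 : (k : ℝ) < 3 * ((v + 1) * v) := by exact_mod_cast hcase
    have hc2 : ((v : ℝ) + 1) * v ≤ k := by
      have : (v + 1) * v ≤ k := hwJ.trans hSk
      exact_mod_cast this
    have hB := real_caseB (by linarith) hv1 hc1 hc2
    have hv0 : (0 : ℝ) < v := by linarith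
    have hFc : ((farDeep n l c E).card : ℝ) ≤ (k / v - (v + 1)) / 2 * n := by
      rcases far_second h hc hlS (hlmem hne) (by omega) hpow with hs | hs
      · have hs2 : 2 * v * (farDeep n l c E).card + n * ((v + 1) * v) ≤ n * k := by
          refine le_trans (Nat.add_le_add ?_ ?_) hs
          · refine Nat.mul_le_mul_right _ ?_
            omega
          · exact Nat.mul_le_mul_left _ hwJ
        have hs' : 2 * (v : ℝ) * (farDeep n l c E).card + n * ((v + 1) * v) ≤ n * k := by
          exact_mod_cast hs2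
        have e1 : (k / v - ((v : ℝ) + 1)) / 2 * n = (n * k - n * ((v + 1) * v)) / (2 * v) := by
          field_simp
        rw [e1, le_div_iff₀ (by positivity)]
        linarith
      · rw [hs]
        simp only [card_empty, Nat.cast_zero]
        have : (v : ℝ) + 1 ≤ k / v := by
          rw [le_div_iff₀ hv0]
          exact hc2
        have : 0 ≤ (k / v - ((v : ℝ) + 1)) / 2 := by linarith
        positivity
    have hvS : (S.card : ℝ) = v + 1 := by rw [hv]; push_cast; ring
    have g1 : (k / v - ((v : ℝ) + 1)) / 2 * n + (v + 1) * n = (v + 1 + k / v) / 2 * n := by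
      ring
    have g2 : ((v : ℝ) + 1 + k / v) / 2 * n ≤ (2 * √(k / 3) + 2) * n :=
      mul_le_mul_of_nonneg_right hB hn0
    have g3 : 0 ≤ (q + 3 / 2) * (4 * r) := by positivity
    have g4 : 0 ≤ 6 * ((k : ℝ) - 2 * J) * r := by
      refine mul_nonneg (mul_nonneg (by norm_num) ?_) hr0
      linarith
    rw [hvS] at h5
    nlinarith
  · have hcR : 3 * ((S.card : ℝ) * (S.card - 1)) ≤ k := by
      rcases Nat.eq_zero_or_pos S.card with h0 | hp
      · rw [h0]; push_cast; linarith
      · have : ((3 * (S.card * (S.card - 1)) : ℕ) : ℝ) ≤ k := by exact_mod_cast hcase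
        rw [Nat.cast_mul, Nat.cast_mul, Nat.cast_sub hp] at this
        simpa using this
    have hA := real_caseA (by linarith) hw0 hcR
    have hqq : q ≤ √((k - S.card * (S.card - 1)) / 2) := by
      apply Real.sqrt_le_sqrt
      linarith
    have g2 : ((S.card : ℝ) + q) * n ≤ (2 * √(k / 3) + 3 / 2) * n :=
      mul_le_mul_of_nonneg_right (by linarith) hn0
    nlinarith

end Pool.Agent.MP_df3d6f_co
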