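import Mathlib
import Pool.Agent.MP_df3d6f_co.Decomp
import Pool.Agent.MP_df3d6f_co.PairReal
import Pool.Agent.MP_df3d6f_co.Power

namespace Pool.Agent.MP_df3d6f_co

open Finset

/-- Decomposition of a good set of pairs joining different intervals. -/
theorem pair_decomp {n k r : ℕ} {c : ℕ → ℕ} {F : Finset (ℕ × ℕ)} (h : Good k (range n) F)
    (hc : Monotone c) (hr : ∀ v < n, c v < r) (hne : ∀ e ∈ F, c e.1 ≠ c e.2) :
    ∃ (P : Finset (ℕ × ℕ)) (GP : ℕ × ℕ → Finset (ℕ × ℕ)) (HX HY : ℕ × ℕ → Finset ℕ)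
      (U : Finset ℕ), P.card ≤ 2 * r ∧ (∀ p ∈ P, p.1 < p.2) ∧
      F.card ≤ 6 * k * r + ∑ p ∈ P, (GP p).card ∧
      (∀ p ∈ P, GP p ⊆ F ∧ ∀ e ∈ GP p, e.1 ∈ HX p ∧ e.2 ∈ HY p) ∧
      (∀ p ∈ P, (∃ a b, HX p = Ico a b) ∧ (∃ a b, HY p = Ico a b)) ∧
      (∀ p ∈ P, (∀ x ∈ HX p, c x = p.1 ∧ x < n ∧ (GP p).Nonempty) ∧
        ∀ x ∈ HY p, c x = p.2 ∧ x < n ∧ (GP p).Nonempty) ∧
      U ⊆ range n ∧ (∀ x ∈ U, ∃ p ∈ P, x ∈ HX p ∨ x ∈ HY p) ∧
      ∑ p ∈ P, ((HX p).card + (HY p).card) ≤ U.card + 4 * r := by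
  classical
  obtain ⟨P, GP, HX, HY, U, h1, h2, h3, h4, h5, h6, h7, h8⟩ :=
    arc_decomp (V := Fin n) (G := gr n F) (pos := fun x : Fin n => (x : ℕ))
      (c := fun x : Fin n => c x) (r := r) (val_inj n) (drawn_gr h)
      (fun u v huv => hc (le_of_lt huv)) (fun v => hr v v.2)
  have hfar : {e ∈ (gr n F).edgeSet | ∃ u v : Fin n, e = s(u, v) ∧ c u ≠ c v} =
      (gr n F).edgeSet := by
    ext e
    constructor
    · exact fun h => h.1
    · intro he
      refine ⟨he, ?_⟩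
      induction e using Sym2.ind with
      | _ a b =>
        rw [SimpleGraph.mem_edgeSet] at he
        rcases he with he | he
        · exact ⟨a, b, rfl, hne _ he.2⟩
        · exact ⟨a, b, rfl, (hne _ he.2).symm⟩
  rw [hfar, card_gr h] at h3
  have hpinj : Function.Injective (fun e : Fin n × Fin n => ((e.1 : ℕ), (e.2 : ℕ))) := by
    intro e f hef
    rw [Prod.mk.injEq] at hef
    exact Prod.ext (Fin.ext hef.1) (Fin.ext hef.2)
  have hicc : ∀ (T : Finset (Fin n × Fin n)) (H : Finset (Fin n)) (g : Fin n × Fin n → Fin n),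
      (∀ x : Fin n, x ∈ H ↔ ∃ e ∈ T, ∃ f ∈ T, (g e : ℕ) ≤ x ∧ (x : ℕ) ≤ g f) →
      ∃ a b, H.image (fun x : Fin n => (x : ℕ)) = Ico a b := by
    intro T H g hH
    rcases T.eq_empty_or_nonempty with hT | hT
    · refine ⟨0, 0, ?_⟩
      rw [Ico_self, image_eq_empty, eq_empty_iff_forall_notMem]
      intro x hx
      rw [hH, hT] at hx
      obtain ⟨e, he, _⟩ := hx
      exact absurd he (notMem_empty _)
    · obtain ⟨e0, he0, hmin⟩ := T.exists_min_image (fun e => (g e : ℕ)) hT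
      obtain ⟨f0, hf0, hmax⟩ := T.exists_max_image (fun e => (g e : ℕ)) hT
      refine ⟨g e0, g f0 + 1, ?_⟩
      ext x
      rw [mem_image, mem_Ico]
      constructor
      · rintro ⟨x', hx', rfl⟩
        rw [hH] at hx'
        obtain ⟨e, he, f, hf, g1, g2⟩ := hx'
        have := hmin e he
        have := hmax f hf
        omega
      · intro hx
        have hxn : x < n := by
          have := (g f0).2
          omega
        refine ⟨⟨x, hxn⟩, ?_, rfl⟩
        rw [hH]
        exact ⟨e0, he0, f0, hf0, hx.1, by simp only; omega⟩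
  refine ⟨P, fun p => (GP p).image (fun e => ((e.1 : ℕ), (e.2 : ℕ))),
    fun p => (HX p).image (fun x : Fin n => (x : ℕ)),
    fun p => (HY p).image (fun x : Fin n => (x : ℕ)),
    U.image (fun x : Fin n => (x : ℕ)), h1, fun p hp => (h2 p hp).1, ?_, ?_, ?_, ?_, ?_, ?_, ?_⟩
  · refine h3.trans (Nat.add_le_add_left (sum_le_sum fun p _ => ?_) _)
    rw [card_image_of_injective _ hpinj]
  · intro p hp
    refine ⟨?_, ?_⟩
    · intro e he
      rw [mem_image] at he
      obtain ⟨e, he, rfl⟩ := he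
      obtain ⟨g1, g2, g3⟩ := h4 p hp e he
      have g4 := (h2 p hp).1
      rcases g1 with g1 | g1
      · exact g1.2
      · have := hc (le_of_lt g1.1)
        omega
    · intro e he
      rw [mem_image] at he
      obtain ⟨e, he, rfl⟩ := he
      refine ⟨mem_image_of_mem _ ?_, mem_image_of_mem _ ?_⟩
      · rw [h5 p hp]
        exact ⟨e, he, e, he, le_rfl, le_rfl⟩
      · rw [h6 p hp]
        exact ⟨e, he, e, he, le_rfl, le_rfl⟩
  · intro p hp
    exact ⟨hicc _ _ Prod.fst (h5 p hp), hicc _ _ Prod.snd (h6 p hp)⟩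
  · intro p hp
    refine ⟨?_, ?_⟩
    · intro x hx
      rw [mem_image] at hx
      obtain ⟨x, hx, rfl⟩ := hx
      rw [h5 p hp] at hx
      obtain ⟨e, he, f, hf, g1, g2⟩ := hx
      have k1 := (h4 p hp e he).2.1
      have k2 := (h4 p hp f hf).2.1
      have k3 := hc g1
      have k4 := hc g2
      exact ⟨by omega, x.2, ⟨_, mem_image_of_mem _ he⟩⟩
    · intro x hx
      rw [mem_image] at hx
      obtain ⟨x, hx, rfl⟩ := hx
      rw [h6 p hp] at hx
      obtain ⟨e, he, f, hf, g1, g2⟩ := hx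
      have k1 := (h4 p hp e he).2.2
      have k2 := (h4 p hp f hf).2.2
      have k3 := hc g1
      have k4 := hc g2
      exact ⟨by omega, x.2, ⟨_, mem_image_of_mem _ he⟩⟩
  · intro x hx
    rw [mem_image] at hx
    obtain ⟨x, _, rfl⟩ := hx
    exact mem_range.mpr x.2
  · intro x hx
    rw [mem_image] at hx
    obtain ⟨x, hx, rfl⟩ := hx
    obtain ⟨p, hp, hh⟩ := h7 x hx
    exact ⟨p, hp, hh.imp (fun h => mem_image_of_mem _ h) (fun h => mem_image_of_mem _ h)⟩
  · rw [card_image_of_injective _ (val_inj n)]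
    refine le_trans (sum_le_sum fun p _ => ?_) h8
    rw [card_image_of_injective _ (val_inj n), card_image_of_injective _ (val_inj n)]

/-- pairs between two separated sets -/
lemma part_sep {n k : ℕ} {F : Finset (ℕ × ℕ)} {X Y : Finset ℕ} (h : Good k (range n) F)
    (hF : ∀ e ∈ F, e.1 ∈ X ∧ e.2 ∈ Y) (hX : ∀ x ∈ X, x < n) (hY : ∀ y ∈ Y, y < n)
    (hXY : ∀ x ∈ X, ∀ y ∈ Y, x < y) :
    (F.card : ℝ) ≤ √(2 * k * X.card * Y.card) + 2 * X.card + Y.card := by
  classical
  have hcard : ∀ Z : Finset ℕ, (∀ z ∈ Z, z < n) →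
      ((univ : Finset (Fin n)).filter (fun x : Fin n => (x : ℕ) ∈ Z)).card = Z.card := by
    intro Z hZ
    rw [← card_image_of_injective _ (val_inj n)]
    congr 1
    ext z
    rw [mem_image]
    constructor
    · rintro ⟨x, hx, rfl⟩
      exact (mem_filter.mp hx).2
    · intro hz
      exact ⟨⟨z, hZ z hz⟩, mem_filter.mpr ⟨mem_univ _, hz⟩, rfl⟩
  have h1 := sep_bound (V := Fin n) (G := gr n F) (pos := fun x : Fin n => (x : ℕ)) (val_inj n)
    (drawn_gr h) (X := univ.filter (fun x : Fin n => (x : ℕ) ∈ X))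
    (Y := univ.filter (fun x : Fin n => (x : ℕ) ∈ Y)) ?_ ?_
  · rw [hcard X hX, hcard Y hY] at h1
    refine le_trans ?_ h1
    have h2 : (gr n F).edgeSet ⊆ {e ∈ (gr n F).edgeSet |
        ∃ x ∈ (univ : Finset (Fin n)).filter (fun x : Fin n => (x : ℕ) ∈ X),
        ∃ y ∈ (univ : Finset (Fin n)).filter (fun x : Fin n => (x : ℕ) ∈ Y), e = s(x, y)} := by
      intro e he
      refine ⟨he, ?_⟩
      induction e using Sym2.ind with
      | _ a b =>
        rw [SimpleGraph.mem_edgeSet] at he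
        rcases he with he | he
        · obtain ⟨g1, g2⟩ := hF _ he.2
          exact ⟨a, mem_filter.mpr ⟨mem_univ _, g1⟩, b, mem_filter.mpr ⟨mem_univ _, g2⟩, rfl⟩
        · obtain ⟨g1, g2⟩ := hF _ he.2
          exact ⟨b, mem_filter.mpr ⟨mem_univ _, g1⟩, a, mem_filter.mpr ⟨mem_univ _, g2⟩,
            Sym2.eq_swap⟩
    have h3 := Set.ncard_le_ncard h2 (Set.toFinite _)
    rw [card_gr h] at h3
    exact_mod_cast h3
  · rw [disjoint_left]
    intro x hx hy
    exact lt_irrefl _ (hXY _ (mem_filter.mp hx).2 _ (mem_filter.mp hy).2)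
  · rintro x hx x' hx' y hy y' hy' ⟨a, b, c', d', h1, h2, h3⟩
    have l1 := hXY _ (mem_filter.mp hx).2 _ (mem_filter.mp hy).2
    have l2 := hXY _ (mem_filter.mp hx).2 _ (mem_filter.mp hy').2
    have l3 := hXY _ (mem_filter.mp hx').2 _ (mem_filter.mp hy).2
    have l4 := hXY _ (mem_filter.mp hx').2 _ (mem_filter.mp hy').2
    rw [Sym2.eq_iff] at h1 h2
    simp only at h3
    rcases h1 with ⟨rfl, rfl⟩ | ⟨rfl, rfl⟩ <;> rcases h2 with ⟨rfl, rfl⟩ | ⟨rfl, rfl⟩ <;> omega

section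
variable {n k w : ℕ} {c : ℕ → ℕ} {E : Finset (ℕ × ℕ)} {S : ℕ → Finset ℕ}

lemma far_cross (h : Good k (range n) E) (hc : Monotone c) (hw : ∀ i, ∀ s ∈ S i, s ≤ w)
    (hpow : ∀ a b, a < b → b < n → c a = c b → b - a ∈ S (c a) → (a, b) ∈ E) :
    ∀ e ∈ farDeep n w c E, ((farDeep n w c E).filter (Alt e)).card +
      (∑ s ∈ S (c e.1), (s - 1) + ∑ s ∈ S (c e.2), (s - 1)) ≤ k := by
  rintro ⟨u, v⟩ he
  unfold farDeep at he
  rw [mem_filter] at he
  obtain ⟨heE, hne, hdu, hdv⟩ := he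
  simp only at hne hdu hdv ⊢
  obtain ⟨-, hvn, huv⟩ := h.mem _ heE
  simp only at hvn huv
  have hcuv : c u < c v := by
    have := hc (le_of_lt huv)
    omega
  have hlt : ∀ a b, c a < c b → a < b := fun a b hab => by
    by_contra hh
    have := hc (not_lt.mp hh)
    omega
  have hwu : w ≤ u := by have := hdu.1; omega
  have hwv : w ≤ v := by have := hdv.1; omega
  have hspu : ∀ f ∈ spanS (S (c u)) u, f ∈ E ∧ Alt (u, v) f ∧ c f.1 = c u ∧ c f.2 = c u := by
    rintro ⟨a, b⟩ hf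
    obtain ⟨h1, h2, h0, h3, h4, h5⟩ := mem_spanS (hw _) hf hwu
    have c1 : c a = c u := deep_eq hc hdu (by omega) (by omega)
    have c2 : c b = c u := deep_eq hc hdu (by omega) (by omega)
    have hb : b < v := hlt _ _ (by omega)
    have hn := hdu.2.1
    refine ⟨hpow a b (by omega) (by omega) (by omega) (by rw [c1]; exact h0), ?_, c1, c2⟩
    right
    exact ⟨h1, h2, hb⟩
  have hspv : ∀ f ∈ spanS (S (c v)) v, f ∈ E ∧ Alt (u, v) f ∧ c f.1 = c v ∧ c f.2 = c v := by
    rintro ⟨a, b⟩ hf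
    obtain ⟨h1, h2, h0, h3, h4, h5⟩ := mem_spanS (hw _) hf hwv
    have c1 : c a = c v := deep_eq hc hdv (by omega) (by omega)
    have c2 : c b = c v := deep_eq hc hdv (by omega) (by omega)
    have ha : u < a := hlt _ _ (by omega)
    have hn := hdv.2.1
    refine ⟨hpow a b (by omega) (by omega) (by omega) (by rw [c1]; exact h0), ?_, c1, c2⟩
    left
    exact ⟨ha, h1, h2⟩
  have hsub : ((farDeep n w c E).filter (Alt (u, v)) ∪ spanS (S (c u)) u) ∪ spanS (S (c v)) v ⊆
      E.filter (Alt (u, v)) := by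
    intro f hf
    rw [mem_union, mem_union, mem_filter] at hf
    rw [mem_filter]
    rcases hf with (⟨hf, hA⟩ | hf) | hf
    · exact ⟨(mem_filter.mp hf).1, hA⟩
    · exact ⟨(hspu f hf).1, (hspu f hf).2.1⟩
    · exact ⟨(hspv f hf).1, (hspv f hf).2.1⟩
  have hd1 : Disjoint ((farDeep n w c E).filter (Alt (u, v))) (spanS (S (c u)) u) := by
    rw [disjoint_left]
    intro f hf hf'
    have h1 := (mem_filter.mp (mem_filter.mp hf).1).2.1
    have h2 := hspu f hf'
    exact h1 (h2.2.2.1.trans h2.2.2.2.symm)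
  have hd2 : Disjoint ((farDeep n w c E).filter (Alt (u, v)) ∪ spanS (S (c u)) u)
      (spanS (S (c v)) v) := by
    rw [disjoint_left]
    intro f hf hf'
    have h2 := hspv f hf'
    rw [mem_union] at hf
    rcases hf with hf | hf
    · have h1 := (mem_filter.mp (mem_filter.mp hf).1).2.1
      exact h1 (h2.2.2.1.trans h2.2.2.2.symm)
    · have h3 := hspu f hf
      have := h3.2.2.1
      have := h2.2.2.1
      omega
  have := card_le_card hsub
  rw [card_union_of_disjoint hd2, card_union_of_disjoint hd1] at this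
  have e1 := card_spanS (hw (c u)) hwu
  have e2 := card_spanS (hw (c v)) hwv
  have e3 := h.cr _ heE
  omega

/-- crossings of the longest inner pair at `x` -/
lemma own_cross {T : Finset ℕ} {l i : ℕ} (h : Good k (range n) E) (hc : Monotone c)
    (hl : ∀ s ∈ T, s ≤ l) (hlT : l ∈ T) (hl1 : 1 ≤ l)
    (hpow : ∀ a b, a < b → b < n → c a = i → c b = i → b - a ∈ T → (a, b) ∈ E)
    {F : Finset (ℕ × ℕ)} (hF : F ⊆ farDeep n w c E) {x : ℕ} (hx1 : l ≤ x) (hx2 : x + 2 * l < n)
    (hx3 : c (x - l) = i) (hx4 : c (x + 2 * l) = i) :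
    (F.filter (fun e => e.1 ∈ Ioo x (x + l) ∨ e.2 ∈ Ioo x (x + l))).card +
      2 * ∑ s ∈ T, (s - 1) ≤ k := by
  have hFm : ∀ e ∈ F, e ∈ E ∧ c e.1 < c e.2 ∧ e.1 < e.2 ∧ e.2 < n := by
    intro e he
    have he := hF he
    unfold farDeep at he
    rw [mem_filter] at he
    obtain ⟨h1, h2, h3⟩ := h.mem e he.1
    have := hc (le_of_lt h3)
    refine ⟨he.1, ?_, h3, mem_range.mp h2⟩
    have := he.2.1
    omega
  have hlt : ∀ a b, c a < c b → a < b := fun a b hab => by
    by_contra hh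
    have := hc (not_lt.mp hh)
    omega
  have hcx : ∀ y, x - l ≤ y → y ≤ x + 2 * l → c y = i := by
    intro y h1 h2
    have g1 := hc h1
    have g2 := hc h2
    omega
  have hxE : (x, x + l) ∈ E :=
    hpow x (x + l) (by omega) (by omega) (hcx _ (by omega) (by omega)) (hcx _ (by omega) (by omega))
      (by rw [Nat.add_sub_cancel_left]; exact hlT)
  have hs1 : ∀ f ∈ spanS T x, f ∈ E ∧ Alt (x, x + l) f ∧ c f.1 = c f.2 ∧ f.1 < x := by
    rintro ⟨a, b⟩ hf
    obtain ⟨h1, h2, h0, h3, h4, h5⟩ := mem_spanS hl hf hx1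
    have c1 : c a = i := hcx _ (by omega) (by omega)
    have c2 : c b = i := hcx _ (by omega) (by omega)
    refine ⟨hpow a b (by omega) (by omega) c1 c2 h0, ?_, by simp only; omega, h1⟩
    right
    exact ⟨h1, h2, by simp only; omega⟩
  have hs2 : ∀ f ∈ spanS T (x + l), f ∈ E ∧ Alt (x, x + l) f ∧ c f.1 = c f.2 ∧ x < f.1 := by
    rintro ⟨a, b⟩ hf
    obtain ⟨h1, h2, h0, h3, h4, h5⟩ := mem_spanS hl hf (by omega)
    have c1 : c a = i := hcx _ (by omega) (by omega)
    have c2 : c b = i := hcx _ (by omega) (by omega)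
    refine ⟨hpow a b (by omega) (by omega) c1 c2 h0, ?_, by simp only; omega,
      by simp only; omega⟩
    left
    exact ⟨by simp only; omega, h1, h2⟩
  have hs3 : ∀ f ∈ F.filter (fun e => e.1 ∈ Ioo x (x + l) ∨ e.2 ∈ Ioo x (x + l)),
      f ∈ E ∧ Alt (x, x + l) f ∧ c f.1 ≠ c f.2 := by
    rintro ⟨a, b⟩ hf
    rw [mem_filter, mem_Ioo, mem_Ioo] at hf
    obtain ⟨hf1, hf2⟩ := hf
    obtain ⟨g1, g2, g5, g6⟩ := hFm _ hf1
    simp only at g2 g5 g6 hf2
    refine ⟨g1, ?_, by simp only; omega⟩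
    rcases hf2 with hf2 | hf2
    · have c1 : c a = i := hcx _ (by omega) (by omega)
      have c3 : c (x + l) = i := hcx _ (by omega) (by omega)
      have : x + l < b := hlt _ _ (by omega)
      left
      exact ⟨hf2.1, hf2.2, this⟩
    · have c1 : c b = i := hcx _ (by omega) (by omega)
      have c3 : c x = i := hcx _ (by omega) (by omega)
      have : a < x := hlt _ _ (by omega)
      right
      exact ⟨this, hf2.1, hf2.2⟩
  have hsub : (F.filter (fun e => e.1 ∈ Ioo x (x + l) ∨ e.2 ∈ Ioo x (x + l)) ∪ spanS T x) ∪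
      spanS T (x + l) ⊆ E.filter (Alt (x, x + l)) := by
    intro f hf
    rw [mem_union, mem_union] at hf
    rw [mem_filter]
    rcases hf with (hf | hf) | hf
    · exact ⟨(hs3 f hf).1, (hs3 f hf).2.1⟩
    · exact ⟨(hs1 f hf).1, (hs1 f hf).2.1⟩
    · exact ⟨(hs2 f hf).1, (hs2 f hf).2.1⟩
  have hd1 : Disjoint (F.filter (fun e => e.1 ∈ Ioo x (x + l) ∨ e.2 ∈ Ioo x (x + l)))
      (spanS T x) := by
    rw [disjoint_left]
    intro f hf hf'
    exact (hs3 f hf).2.2 (hs1 f hf').2.2.1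
  have hd2 : Disjoint (F.filter (fun e => e.1 ∈ Ioo x (x + l) ∨ e.2 ∈ Ioo x (x + l)) ∪
      spanS T x) (spanS T (x + l)) := by
    rw [disjoint_left]
    intro f hf hf'
    rw [mem_union] at hf
    rcases hf with hf | hf
    · exact (hs3 f hf).2.2 (hs2 f hf').2.2.1
    · have := (hs1 f hf).2.2.2
      have := (hs2 f hf').2.2.2
      omega
  have := card_le_card hsub
  rw [card_union_of_disjoint hd2, card_union_of_disjoint hd1] at this
  have e1 := card_spanS hl hx1
  have e2 := card_spanS (u := x + l) hl (by omega)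
  have e3 := h.cr _ hxE
  omega

/-- own pairs against the far pairs of a part -/
lemma part_own {T : Finset ℕ} {l i a b : ℕ} (h : Good k (range n) E) (hc : Monotone c)
    (hl : ∀ s ∈ T, s ≤ l) (hlT : l ∈ T) (hl1 : 1 ≤ l) (hlw : l ≤ w)
    (hpow : ∀ a b, a < b → b < n → c a = i → c b = i → b - a ∈ T → (a, b) ∈ E)
    {F : Finset (ℕ × ℕ)} (hF : F ⊆ farDeep n w c E) (hne : F.Nonempty) {g : ℕ × ℕ → ℕ}
    (hg : ∀ e ∈ F, (g e = e.1 ∨ g e = e.2) ∧ g e ∈ Ico a b ∧ c (g e) = i) :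
    (l - 1) * F.card + (b - a + l) * (2 * ∑ s ∈ T, (s - 1)) ≤ (b - a + l) * k := by
  set J := ∑ s ∈ T, (s - 1) with hJ
  have hdeep : ∀ e ∈ F, Deep n w c (g e) := by
    intro e he
    have he' := hF he
    unfold farDeep at he'
    rw [mem_filter] at he'
    rcases (hg e he).1 with h1 | h1
    · rw [h1]; exact he'.2.2.1
    · rw [h1]; exact he'.2.2.2
  have hwin : ∀ y, Deep n w c y → c y = i → ∀ x, y - l ≤ x → x ≤ y →
      l ≤ x ∧ x + 2 * l < n ∧ c (x - l) = i ∧ c (x + 2 * l) = i := by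
    intro y hy hyi x h1 h2
    have y1 := hy.1
    have y2 := hy.2.1
    have q2 := deep_eq hc hy (u := x - l) (by omega) (by omega)
    have q3 := deep_eq hc hy (u := x + 2 * l) (by omega) (by omega)
    refine ⟨by omega, by omega, by omega, by omega⟩
  have hQ : ∀ x, l ≤ x → x + 2 * l < n → c (x - l) = i → c (x + 2 * l) = i →
      (F.filter (fun e => g e ∈ Ioo x (x + l))).card + 2 * J ≤ k := by
    intro x h1 h2 h3 h4
    refine le_trans (Nat.add_le_add_right (card_le_card ?_) _)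
      (own_cross h hc hl hlT hl1 hpow hF h1 h2 h3 h4)
    intro e he
    rw [mem_filter] at he ⊢
    refine ⟨he.1, ?_⟩
    rcases (hg e he.1).1 with h5 | h5
    · rw [h5] at he; exact Or.inl he.2
    · rw [h5] at he; exact Or.inr he.2
  obtain ⟨e0, he0⟩ := hne
  have h0 := (hg e0 he0).2.1
  rw [mem_Ico] at h0
  have hJk : 2 * J ≤ k := by
    obtain ⟨h1, h2, h3, h4⟩ := hwin (g e0) (hdeep e0 he0) (hg e0 he0).2.2 (g e0) (by omega) le_rfl
    have := hQ _ h1 h2 h3 h4
    omega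
  set VD := (Ico (a - l) b).filter (fun x => l ≤ x ∧ x + 2 * l < n ∧ c (x - l) = i ∧
    c (x + 2 * l) = i) with hVD
  have hdc : (l - 1) * F.card ≤ ∑ x ∈ VD, (F.filter (fun e => g e ∈ Ioo x (x + l))).card := by
    have e1 : ∑ x ∈ VD, (F.filter (fun e => g e ∈ Ioo x (x + l))).card =
        ∑ e ∈ F, (VD.filter (fun x => g e ∈ Ioo x (x + l))).card := by
      simp only [card_filter]
      exact sum_comm
    rw [e1, mul_comm, ← smul_eq_mul, ← sum_const]
    refine sum_le_sum fun e he => ?_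
    have hd := hdeep e he
    obtain ⟨-, g2, g3⟩ := hg e he
    rw [mem_Ico] at g2
    have hsub : Ioo (g e - l) (g e) ⊆ VD.filter (fun x => g e ∈ Ioo x (x + l)) := by
      intro x hx
      rw [mem_Ioo] at hx
      obtain ⟨q1, q2, q3, q4⟩ := hwin (g e) hd g3 x (by omega) (by omega)
      rw [mem_filter, hVD, mem_filter, mem_Ico, mem_Ioo]
      refine ⟨⟨⟨by omega, by omega⟩, q1, q2, q3, q4⟩, by omega, by omega⟩
    have := card_le_card hsub
    rw [Nat.card_Ioo] at this
    have y1 := hd.1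
    omega
  have hsum : ∑ x ∈ VD, (F.filter (fun e => g e ∈ Ioo x (x + l))).card ≤
      (b - a + l) * (k - 2 * J) := by
    calc _ ≤ ∑ x ∈ VD, (k - 2 * J) := sum_le_sum fun x hx => by
            obtain ⟨-, q1, q2, q3, q4⟩ := mem_filter.mp hx
            have := hQ x q1 q2 q3 q4
            omega
      _ = VD.card * (k - 2 * J) := by rw [sum_const, smul_eq_mul]
      _ ≤ (b - a + l) * (k - 2 * J) := by
          refine Nat.mul_le_mul_right _ ((card_filter_le _ _).trans ?_)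
          rw [Nat.card_Ico]
          omega
  have e5 : (b - a + l) * (k - 2 * J) + (b - a + l) * (2 * J) = (b - a + l) * k := by
    rw [← mul_add, Nat.sub_add_cancel hJk]
  omega

/-- inner pairs with difference in the given sets -/
lemma inner_cardS (h : Good k (range n) E) :
    (E.filter (fun e => c e.1 = c e.2 ∧ e.2 - e.1 ∈ S (c e.1))).card ≤
      ∑ x ∈ range n, (S (c x)).card := by
  have hsub : E.filter (fun e => c e.1 = c e.2 ∧ e.2 - e.1 ∈ S (c e.1)) ⊆
      ((range n).sigma (fun x => S (c x))).image (fun p => (p.1, p.1 + p.2)) := by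
    rintro ⟨a, b⟩ he
    rw [mem_filter] at he
    obtain ⟨h1, h2, h3⟩ := h.mem _ he.1
    obtain ⟨-, h4, h5⟩ := he
    simp only at h1 h2 h3 h4 h5
    rw [mem_image]
    refine ⟨⟨a, b - a⟩, ?_, ?_⟩
    · rw [mem_sigma]
      exact ⟨h1, h5⟩
    · have h6 : a + (b - a) = b := by omega
      exact Prod.ext rfl h6
  refine (card_le_card hsub).trans (card_image_le.trans ?_)
  rw [card_sigma]

end

end Pool.Agent.MP_df3d6f_co
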