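import Mathlib
import Pool.Agent.MP_df3d6f_co.Piece

namespace Pool.Agent.MP_df3d6f_co

open Finset

lemma sum_biUnion_le' (P : Finset (ℕ × ℕ)) (t : ℕ × ℕ → Finset ℕ) (f : ℕ → ℕ) :
    ∑ x ∈ P.biUnion t, f x ≤ ∑ p ∈ P, ∑ x ∈ t p, f x := by
  induction P using Finset.induction_on with
  | empty => simp
  | insert a P ha ih =>
    rw [biUnion_insert, sum_insert ha]
    have := sum_union_inter (s₁ := t a) (s₂ := P.biUnion t) (f := f)
    omega

section
variable {n k : ℕ} {c : ℕ → ℕ} {E : Finset (ℕ × ℕ)} {S : ℕ → Finset ℕ}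

lemma part_good (h : Good k (range n) E) (hc : Monotone c) (hS : ∀ i, ∀ s ∈ S i, s ≤ k)
    (hpow : ∀ a b, a < b → b < n → c a = c b → b - a ∈ S (c a) → (a, b) ∈ E)
    {F : Finset (ℕ × ℕ)} {X Y : Finset ℕ} {i j : ℕ} (hF : F ⊆ farDeep n k c E)
    (hXY : ∀ e ∈ F, e.1 ∈ X ∧ e.2 ∈ Y) (hXc : ∀ x ∈ X, c x = i) (hYc : ∀ y ∈ Y, c y = j) :
    Good (k - (∑ s ∈ S i, (s - 1) + ∑ s ∈ S j, (s - 1))) (range n) F ∧
      (F.Nonempty → ∑ s ∈ S i, (s - 1) + ∑ s ∈ S j, (s - 1) ≤ k) := by
  have main : ∀ e ∈ F, (F.filter (Alt e)).card +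
      (∑ s ∈ S i, (s - 1) + ∑ s ∈ S j, (s - 1)) ≤ k := by
    intro e he
    have h1 := far_cross h hc hS hpow e (hF he)
    rw [hXc _ (hXY e he).1, hYc _ (hXY e he).2] at h1
    have h2 : (F.filter (Alt e)).card ≤ ((farDeep n k c E).filter (Alt e)).card :=
      card_le_card (filter_subset_filter _ hF)
    omega
  refine ⟨⟨?_, ?_⟩, ?_⟩
  · intro e he
    exact h.mem e (mem_filter.mp (hF he)).1
  · intro e he
    have := main e he
    omega
  · rintro ⟨e, he⟩
    have := main e he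
    omega

lemma sqrt_xy {k' x y : ℝ} (hk : 0 ≤ k') (hx : 0 ≤ x) (hy : 0 ≤ y) :
    √(2 * k' * x * y) ≤ √(k' / 2) * (x + y) := by
  have h0 : 0 ≤ √(k' / 2) := Real.sqrt_nonneg _
  have h1 : √(k' / 2) ^ 2 = k' / 2 := Real.sq_sqrt (by positivity)
  rw [Real.sqrt_le_left (by positivity), mul_pow, h1]
  nlinarith [mul_nonneg hk (sq_nonneg (x - y))]

/-- number of far pairs of a part -/
lemma part_far (h : Good k (range n) E) (hc : Monotone c) (hS : ∀ i, ∀ s ∈ S i, s ≤ k)
    (hpow : ∀ a b, a < b → b < n → c a = c b → b - a ∈ S (c a) → (a, b) ∈ E)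
    {F : Finset (ℕ × ℕ)} {X Y : Finset ℕ} {i j : ℕ} (hF : F ⊆ farDeep n k c E)
    (hXY : ∀ e ∈ F, e.1 ∈ X ∧ e.2 ∈ Y) (hXc : ∀ x ∈ X, c x = i ∧ x < n)
    (hYc : ∀ y ∈ Y, c y = j ∧ y < n) (hij : i < j) :
    (F.card : ℝ) ≤ √(2 * ((k - (∑ s ∈ S i, (s - 1) + ∑ s ∈ S j, (s - 1)) : ℕ) : ℝ) *
      X.card * Y.card) + 2 * X.card + Y.card := by
  obtain ⟨h1, -⟩ := part_good h hc hS hpow hF hXY (fun x hx => (hXc x hx).1)
    (fun y hy => (hYc y hy).1)
  refine part_sep h1 hXY (fun x hx => (hXc x hx).2) (fun y hy => (hYc y hy).2) ?_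
  intro x hx y hy
  by_contra hlt
  push Not at hlt
  have := hc hlt
  have := (hXc x hx).1
  have := (hYc y hy).1
  omega

/-- `u F' ≤ (k - u^2) m` for the own pairs -/
lemma part_u {T : Finset ℕ} {i a b : ℕ} (h : Good k (range n) E) (hc : Monotone c)
    (hT : ∀ s ∈ T, 1 ≤ s ∧ s ≤ k)
    (hpow : ∀ a b, a < b → b < n → c a = i → c b = i → b - a ∈ T → (a, b) ∈ E)
    {F : Finset (ℕ × ℕ)} (hF : F ⊆ farDeep n k c E) (hne : F.Nonempty) {g : ℕ × ℕ → ℕ}
    (hg : ∀ e ∈ F, (g e = e.1 ∨ g e = e.2) ∧ g e ∈ Ico a b ∧ c (g e) = i) :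
    ((T.card - 1 : ℕ) : ℝ) * F.card ≤
      (k - ((T.card - 1 : ℕ) : ℝ) ^ 2) * ((Ico a b).card + k) := by
  rcases T.eq_empty_or_nonempty with h0 | hTne
  · rw [h0]
    simp only [card_empty, Nat.zero_sub, Nat.cast_zero, zero_mul]
    have e : (k : ℝ) - (0 : ℝ) ^ 2 = k := by ring
    rw [e]
    positivity
  set l := T.sup id with hl
  have hlT : ∀ s ∈ T, s ≤ l := fun s hs => Finset.le_sup (f := id) hs
  have hlmem : l ∈ T := by
    obtain ⟨s, hs, h1⟩ := Finset.exists_mem_eq_sup T hTne id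
    rw [hl, h1]
    exact hs
  obtain ⟨hl1, hlk⟩ := hT l hlmem
  have h1 := part_own h hc hlT hlmem hl1 hlk hpow hF hne hg
  have hJ := sum_pred_ge T (fun s hs => (hT s hs).1)
  set J := ∑ s ∈ T, (s - 1) with hJdef
  have hlw : T.card ≤ l := by
    have hsub : T ⊆ Icc 1 l := by
      intro s hs
      rw [mem_Icc]
      exact ⟨(hT s hs).1, hlT s hs⟩
    have := card_le_card hsub
    rw [Nat.card_Icc] at this
    omega
  have hab : a < b := by
    obtain ⟨e0, he0⟩ := hne
    have h0 := (hg e0 he0).2.1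
    rw [mem_Ico] at h0
    omega
  obtain ⟨u, hu⟩ : ∃ u, T.card = u + 1 := ⟨T.card - 1, by
    have := card_pos.mpr hTne
    omega⟩
  rw [hu, Nat.add_sub_cancel] at hJ ⊢
  rw [Nat.card_Ico]
  have h2 : u * u ≤ 2 * J := by nlinarith
  have hm : 0 < b - a + l := by omega
  have h2J : 2 * J ≤ k := by
    by_contra hlt
    push Not at hlt
    have : (b - a + l) * k < (b - a + l) * (2 * J) := Nat.mul_lt_mul_of_pos_left hlt hm
    omega
  have h3 : u * F.card + (b - a + l) * (u * u) ≤ (b - a + l) * k := by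
    have g1 : u * F.card ≤ (l - 1) * F.card := Nat.mul_le_mul_right _ (by omega)
    have g2 : (b - a + l) * (u * u) ≤ (b - a + l) * (2 * J) := Nat.mul_le_mul_left _ h2
    omega
  have h4 : (u : ℝ) * F.card + ((b - a : ℕ) + l) * (u * u) ≤ ((b - a : ℕ) + l) * k := by
    exact_mod_cast h3
  have h5 : (u : ℝ) * u ≤ k := by exact_mod_cast h2.trans h2J
  have h6 : (l : ℝ) ≤ k := by exact_mod_cast hlk
  have h7 : ((k : ℝ) - u ^ 2) * l ≤ (k - u ^ 2) * k :=
    mul_le_mul_of_nonneg_left h6 (by nlinarith)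
  nlinarith

/-- the inequality for a part -/
lemma part_ineq (hk : 1 ≤ k) (h : Good k (range n) E) (hc : Monotone c)
    (hS : ∀ i, ∀ s ∈ S i, 1 ≤ s ∧ s ≤ k)
    (hpow : ∀ a b, a < b → b < n → c a = c b → b - a ∈ S (c a) → (a, b) ∈ E)
    {F : Finset (ℕ × ℕ)} {X Y : Finset ℕ} {i j : ℕ} (hF : F ⊆ farDeep n k c E)
    (hXY : ∀ e ∈ F, e.1 ∈ X ∧ e.2 ∈ Y) (hX : ∃ a b, X = Ico a b) (hY : ∃ a b, Y = Ico a b)
    (hXc : ∀ x ∈ X, c x = i ∧ x < n)
    (hYc : ∀ y ∈ Y, c y = j ∧ y < n) (hij : i < j) (hne : F.Nonempty) :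
    ((S i).card : ℝ) * X.card + (S j).card * Y.card + F.card ≤
      (2 * √(k / 3) + 3) * (X.card + Y.card) + 4 * √(k / 3) * k := by
  obtain ⟨a, b, hXab⟩ := hX
  obtain ⟨a', b', hYab⟩ := hY
  have hu1 := part_u (T := S i) (i := i) (a := a) (b := b) (g := Prod.fst) h hc (hS i)
    (fun a b h1 h2 h3 h4 h5 => hpow a b h1 h2 (by rw [h3, h4]) (by rw [h3]; exact h5)) hF hne
    (fun e he => ⟨Or.inl rfl, hXab ▸ (hXY e he).1, (hXc _ (hXY e he).1).1⟩)
  have hu2 := part_u (T := S j) (i := j) (a := a') (b := b') (g := Prod.snd) h hc (hS j)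
    (fun a b h1 h2 h3 h4 h5 => hpow a b h1 h2 (by rw [h3, h4]) (by rw [h3]; exact h5)) hF hne
    (fun e he => ⟨Or.inr rfl, hYab ▸ (hXY e he).2, (hYc _ (hXY e he).2).1⟩)
  rw [← hXab] at hu1
  rw [← hYab] at hu2
  have hS' : ∀ i, ∀ s ∈ S i, s ≤ k := fun i s hs => (hS i s hs).2
  have hfar := part_far h hc hS' hpow hF hXY hXc hYc hij
  obtain ⟨-, hJk⟩ := part_good h hc hS' hpow hF hXY (fun x hx => (hXc x hx).1)
    (fun y hy => (hYc y hy).1)
  have hJk := hJk hne
  have hJ1 := sum_pred_ge (S i) (fun s hs => (hS i s hs).1)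
  have hJ2 := sum_pred_ge (S j) (fun s hs => (hS j s hs).1)
  rw [Nat.cast_sub hJk, Nat.cast_add] at hfar
  set J := ∑ s ∈ S i, (s - 1) with hJ
  set J' := ∑ s ∈ S j, (s - 1) with hJ'
  have hkR : (1 : ℝ) ≤ k := by exact_mod_cast hk
  set κ := √((k : ℝ) / 3) with hκ
  have hκ0 : 0 < κ := Real.sqrt_pos.mpr (by positivity)
  have hκ2 : κ ^ 2 = k / 3 := Real.sq_sqrt (by positivity)
  set u : ℝ := (((S i).card - 1 : ℕ) : ℝ) with hu
  set v : ℝ := (((S j).card - 1 : ℕ) : ℝ) with hv
  have hu0 : 0 ≤ u := by positivity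
  have hv0 : 0 ≤ v := by positivity
  have husq : u ^ 2 ≤ 2 * J := by
    have : ((S i).card - 1) * ((S i).card - 1) ≤ 2 * J :=
      le_trans (Nat.mul_le_mul_right _ (Nat.sub_le _ _)) hJ1
    have h2 : (((((S i).card - 1) * ((S i).card - 1) : ℕ)) : ℝ) ≤ ((2 * J : ℕ) : ℝ) := by
      exact_mod_cast this
    push_cast at h2
    rw [pow_two]
    exact h2
  have hvsq : v ^ 2 ≤ 2 * J' := by
    have : ((S j).card - 1) * ((S j).card - 1) ≤ 2 * J' :=
      le_trans (Nat.mul_le_mul_right _ (Nat.sub_le _ _)) hJ2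
    have h2 : (((((S j).card - 1) * ((S j).card - 1) : ℕ)) : ℝ) ≤ ((2 * J' : ℕ) : ℝ) := by
      exact_mod_cast this
    push_cast at h2
    rw [pow_two]
    exact h2
  have hsu : ((S i).card : ℝ) ≤ u + 1 := by
    have : (S i).card ≤ ((S i).card - 1) + 1 := by omega
    have h2 : ((S i).card : ℝ) ≤ ((((S i).card - 1) + 1 : ℕ) : ℝ) := by exact_mod_cast this
    push_cast at h2
    exact h2
  have hsv : ((S j).card : ℝ) ≤ v + 1 := by
    have : (S j).card ≤ ((S j).card - 1) + 1 := by omega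
    have h2 : ((S j).card : ℝ) ≤ ((((S j).card - 1) + 1 : ℕ) : ℝ) := by exact_mod_cast this
    push_cast at h2
    exact h2
  set m : ℝ := (X.card : ℝ) with hm
  set m' : ℝ := (Y.card : ℝ) with hm'
  have hm0 : 0 ≤ m := by positivity
  have hm0' : 0 ≤ m' := by positivity
  have hJkR : (J : ℝ) + J' ≤ k := by exact_mod_cast hJk
  set F' : ℝ := max ((F.card : ℝ) - 2 * m - m') 0 with hF'
  have hF'0 : 0 ≤ F' := le_max_right _ _
  have hF'1 : (F.card : ℝ) ≤ F' + 2 * m + m' := by
    have := le_max_left ((F.card : ℝ) - 2 * m - m') 0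
    linarith
  have hF'2 : F' ≤ F.card := by
    apply max_le
    · linarith
    · positivity
  have hF'3 : F' ≤ √(2 * ((k : ℝ) - (J + J')) * m * m') := by
    apply max_le
    · linarith
    · exact Real.sqrt_nonneg _
  have hkey := pair_real (κ := κ) (u := u) (v := v) (m := m + k) (m' := m' + k) (F := F') hκ0 hu0
    hv0 (by positivity) (by positivity) hF'0 ?_ ?_ ?_
  · have g1 : ((S i).card : ℝ) * m ≤ (u + 1) * m := mul_le_mul_of_nonneg_right hsu hm0
    have g2 : ((S j).card : ℝ) * m' ≤ (v + 1) * m' := mul_le_mul_of_nonneg_right hsv hm0'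
    have g3 : 0 ≤ u * k := by positivity
    have g4 : 0 ≤ v * k := by positivity
    nlinarith
  · have g1 : F' ^ 2 ≤ 2 * ((k : ℝ) - (J + J')) * m * m' := by
      have h0 : 0 ≤ 2 * ((k : ℝ) - (J + J')) * m * m' :=
        mul_nonneg (mul_nonneg (by linarith) hm0) hm0'
      have := pow_le_pow_left₀ hF'0 hF'3 2
      rwa [Real.sq_sqrt h0] at this
    have g2 : m * m' ≤ (m + k) * (m' + k) :=
      mul_le_mul (by linarith) (by linarith) hm0' (by positivity)
    have g3 : 2 * ((k : ℝ) - (J + J')) ≤ 6 * κ ^ 2 - u ^ 2 - v ^ 2 := by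
      rw [hκ2]; linarith
    have g4 : 0 ≤ m * m' := mul_nonneg hm0 hm0'
    have g5 : 2 * ((k : ℝ) - (J + J')) * (m * m') ≤ (6 * κ ^ 2 - u ^ 2 - v ^ 2) * ((m + k) * (m' + k)) :=
      mul_le_mul g3 g2 g4 (by linarith)
    nlinarith
  · have g1 : u * F' ≤ u * F.card := mul_le_mul_of_nonneg_left hF'2 hu0
    have g2 : 3 * κ ^ 2 = k := by rw [hκ2]; ring
    rw [g2]
    exact g1.trans hu1
  · have g1 : v * F' ≤ v * F.card := mul_le_mul_of_nonneg_left hF'2 hv0
    have g2 : 3 * κ ^ 2 = k := by rw [hκ2]; ring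
    rw [g2]
    exact g1.trans hu2

/-- a distance graph around a deep vertex has few distances -/
lemma deep_small (h : Good k (range n) E) (hc : Monotone c)
    (hS : ∀ i, ∀ s ∈ S i, 1 ≤ s ∧ s ≤ k)
    (hpow : ∀ a b, a < b → b < n → c a = c b → b - a ∈ S (c a) → (a, b) ∈ E) {x : ℕ}
    (hx : Deep n k c x) : ((S (c x)).card : ℝ) ≤ 2 * √(k / 3) + 1 := by
  rcases (S (c x)).eq_empty_or_nonempty with h0 | hTne
  · rw [h0]
    simp only [card_empty, Nat.cast_zero]
    positivity
  set T := S (c x) with hT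
  set l := T.sup id with hl
  have hlT : ∀ s ∈ T, s ≤ l := fun s hs => Finset.le_sup (f := id) hs
  have hlmem : l ∈ T := by
    obtain ⟨s, hs, h1⟩ := Finset.exists_mem_eq_sup T hTne id
    rw [hl, h1]
    exact hs
  obtain ⟨hl1, hlk⟩ := hS _ l hlmem
  have y1 := hx.1
  have y2 := hx.2.1
  have q2 := deep_eq hc hx (u := x - l) (by omega) (by omega)
  have q3 := deep_eq hc hx (u := x + 2 * l) (by omega) (by omega)
  have h1 := own_cross (w := k) (F := ∅) h hc hlT hlmem hl1
    (fun a b h1 h2 h3 h4 h5 => hpow a b h1 h2 (by rw [h3, h4]) (by rw [h3]; exact h5))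
    (empty_subset _) (x := x) (by omega) (by omega) q2 q3
  have hJ := sum_pred_ge T (fun s hs => (hS _ s hs).1)
  have h2 : T.card * (T.card - 1) ≤ k := by
    rw [filter_empty, card_empty] at h1
    omega
  have hTp := card_pos.mpr hTne
  obtain ⟨u, hu⟩ : ∃ u, T.card = u + 1 := ⟨T.card - 1, by omega⟩
  rw [hu, Nat.add_sub_cancel] at h2
  rw [hu]
  have h3 : ((u : ℝ) + 1) * u ≤ k := by exact_mod_cast h2
  have hκ0 : 0 ≤ √((k : ℝ) / 3) := Real.sqrt_nonneg _
  have hκ2 : √((k : ℝ) / 3) ^ 2 = k / 3 := Real.sq_sqrt (by positivity)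
  have hu0 : (0 : ℝ) ≤ u := by positivity
  have h4 : (u : ℝ) ≤ 2 * √((k : ℝ) / 3) := by
    by_contra hlt
    push Not at hlt
    nlinarith
  push_cast
  linarith

end

/-- Upper bounds for drawings cut into `r` intervals. -/
theorem piece_bound {n k r : ℕ} {c : ℕ → ℕ} {E : Finset (ℕ × ℕ)} {S : ℕ → Finset ℕ} (hn : 1 ≤ n)
    (hk : 1 ≤ k) (h : Good k (range n) E) (hc : Monotone c) (hr : ∀ v < n, c v < r)
    (hS : ∀ i, ∀ s ∈ S i, 1 ≤ s ∧ s ≤ k)
    (hpow : ∀ a b, a < b → b < n → c a = c b → b - a ∈ S (c a) → (a, b) ∈ E) :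
    (∀ J : ℕ, (∀ v < n, J ≤ ∑ s ∈ S (c v), (s - 1)) →
      ((E.filter (fun e => c e.1 ≠ c e.2)).card : ℝ) ≤
        (√((k - 2 * J) / 2) + 17) * n + 50 * (k * k) * (r + 1)) ∧
    (E.card : ℝ) ≤ (2 * √(k / 3) + 18) * n + 50 * (k * k) * (r + 1) +
      (E.filter (fun e => c e.1 = c e.2 ∧ e.2 - e.1 ∉ S (c e.1))).card := by
  have hS' : ∀ i, ∀ s ∈ S i, s ≤ k := fun i s hs => (hS i s hs).2
  have hkR : (1 : ℝ) ≤ k := by exact_mod_cast hk
  have hr0 : (0 : ℝ) ≤ r := by positivity
  have hn0 : (0 : ℝ) ≤ n := by positivity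
  have hkk : (k : ℝ) ≤ k * k := by nlinarith
  set F := farDeep n k c E with hF
  have hFgood : Good k (range n) F := h.mono (filter_subset _ _) (fun e he =>
    ⟨(h.mem e (mem_filter.mp he).1).1, (h.mem e (mem_filter.mp he).1).2.1⟩)
  obtain ⟨P, GP, HX, HY, U, p1, p2, p3, p4, p5, p6, p7, p8, p9⟩ :=
    pair_decomp hFgood hc hr (fun e he => (mem_filter.mp he).2.1)
  have hfirst := far_first (l := k) hn hk h hc hr
  have hU : U.card ≤ n := by
    have := card_le_card p7
    rwa [card_range] at this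
  have p3R : (F.card : ℝ) ≤ 6 * k * r + ∑ p ∈ P, ((GP p).card : ℝ) := by exact_mod_cast p3
  have p9R : ∑ p ∈ P, (((HX p).card : ℝ) + (HY p).card) ≤ U.card + 4 * r := by exact_mod_cast p9
  have hUR : (U.card : ℝ) ≤ n := by exact_mod_cast hU
  have p1R : (P.card : ℝ) ≤ 2 * r := by exact_mod_cast p1
  refine ⟨?_, ?_⟩
  · intro J hJ
    rcases F.eq_empty_or_nonempty with h0 | hFne
    · rw [← hF, h0, card_empty] at hfirst
      have g1 : 0 ≤ √(((k : ℝ) - 2 * J) / 2) := Real.sqrt_nonneg _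
      have g2 : 0 ≤ √(((k : ℝ) - 2 * J) / 2) * n := mul_nonneg g1 hn0
      push_cast at hfirst
      nlinarith
    · have h2J : 2 * J ≤ k := by
        obtain ⟨e, he⟩ := hFne
        have h1 := far_cross h hc hS' hpow e he
        have heE := h.mem e (mem_filter.mp he).1
        have h2 := hJ e.1 (mem_range.mp heE.1)
        have h3 := hJ e.2 (mem_range.mp heE.2.1)
        omega
      have h2JR : 2 * (J : ℝ) ≤ k := by exact_mod_cast h2J
      set q := √(((k : ℝ) - 2 * J) / 2) with hq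
      have hq0 : 0 ≤ q := Real.sqrt_nonneg _
      have hqk : q ≤ k := by
        rw [hq, Real.sqrt_le_left (by linarith)]
        nlinarith
      have hpart : ∀ p ∈ P, ((GP p).card : ℝ) ≤ (q + 2) * (((HX p).card : ℝ) + (HY p).card) := by
        intro p hp
        rcases (GP p).eq_empty_or_nonempty with h0 | hne
        · rw [h0, card_empty]
          simp only [Nat.cast_zero]
          positivity
        · have g1 := part_far h hc hS' hpow (p4 p hp).1 (p4 p hp).2
            (fun x hx => ⟨((p6 p hp).1 x hx).1, ((p6 p hp).1 x hx).2.1⟩)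
            (fun x hx => ⟨((p6 p hp).2 x hx).1, ((p6 p hp).2 x hx).2.1⟩) (p2 p hp)
          refine g1.trans ?_
          have g2 := sqrt_xy (k' := ((k - (∑ s ∈ S p.1, (s - 1) + ∑ s ∈ S p.2, (s - 1)) : ℕ) : ℝ))
            (x := (HX p).card) (y := (HY p).card) (by positivity) (by positivity) (by positivity)
          have g3 : √(((k - (∑ s ∈ S p.1, (s - 1) + ∑ s ∈ S p.2, (s - 1)) : ℕ) : ℝ) / 2) ≤ q := by
            apply Real.sqrt_le_sqrt
            obtain ⟨e, he⟩ := hne
            have k1 := (p4 p hp).2 e he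
            have k2 := (p6 p hp).1 _ k1.1
            have k3 := (p6 p hp).2 _ k1.2
            have k4 := hJ _ k2.2.1
            have k5 := hJ _ k3.2.1
            rw [k2.1] at k4
            rw [k3.1] at k5
            have k6 : ((k - (∑ s ∈ S p.1, (s - 1) + ∑ s ∈ S p.2, (s - 1)) : ℕ) : ℝ) ≤
                ((k - 2 * J : ℕ) : ℝ) := by
              exact_mod_cast Nat.sub_le_sub_left (by omega) k
            rw [Nat.cast_sub h2J] at k6
            push_cast at k6 ⊢
            linarith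
          have g4 : √(((k - (∑ s ∈ S p.1, (s - 1) + ∑ s ∈ S p.2, (s - 1)) : ℕ) : ℝ) / 2) *
              (((HX p).card : ℝ) + (HY p).card) ≤ q * (((HX p).card : ℝ) + (HY p).card) :=
            mul_le_mul_of_nonneg_right g3 (by positivity)
          have g5 : (0 : ℝ) ≤ (HY p).card := by positivity
          nlinarith
      have hsum : ∑ p ∈ P, ((GP p).card : ℝ) ≤ (q + 2) * (U.card + 4 * r) := by
        calc ∑ p ∈ P, ((GP p).card : ℝ) ≤
            ∑ p ∈ P, (q + 2) * (((HX p).card : ℝ) + (HY p).card) := sum_le_sum hpart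
          _ = (q + 2) * ∑ p ∈ P, (((HX p).card : ℝ) + (HY p).card) := by rw [mul_sum]
          _ ≤ (q + 2) * (U.card + 4 * r) := mul_le_mul_of_nonneg_left p9R (by linarith)
      have g1 : (q + 2) * ((U.card : ℝ) + 4 * r) ≤ (q + 2) * (n + 4 * r) :=
        mul_le_mul_of_nonneg_left (by linarith) (by linarith)
      have g2 : q * r ≤ (k * k) * r := mul_le_mul_of_nonneg_right (by linarith) hr0
      have g3 : (r : ℝ) ≤ (k * k) * r := by nlinarith
      have g4 : (k : ℝ) * r ≤ (k * k) * r := mul_le_mul_of_nonneg_right hkk hr0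
      have g5 : (0 : ℝ) ≤ k * k := by positivity
      nlinarith
  · set κ := √((k : ℝ) / 3) with hκ
    have hκ0 : 0 ≤ κ := Real.sqrt_nonneg _
    have hκk : κ ≤ k := by
      rw [hκ, Real.sqrt_le_left (by linarith)]
      nlinarith
    -- parts
    have hpart : ∀ p ∈ P, ((S p.1).card : ℝ) * (HX p).card + (S p.2).card * (HY p).card +
        (GP p).card ≤ (2 * κ + 3) * (((HX p).card : ℝ) + (HY p).card) + 4 * κ * k := by
      intro p hp
      rcases (GP p).eq_empty_or_nonempty with h0 | hne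
      · have e1 : HX p = ∅ := by
          rw [eq_empty_iff_forall_notMem]
          intro x hx
          have := ((p6 p hp).1 x hx).2.2
          rw [h0] at this
          exact absurd this not_nonempty_empty
        have e2 : HY p = ∅ := by
          rw [eq_empty_iff_forall_notMem]
          intro x hx
          have := ((p6 p hp).2 x hx).2.2
          rw [h0] at this
          exact absurd this not_nonempty_empty
        rw [e1, e2, h0]
        simp only [card_empty, Nat.cast_zero, mul_zero, add_zero, zero_add]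
        positivity
      · exact part_ineq hk h hc hS hpow (p4 p hp).1 (p4 p hp).2 (p5 p hp).1 (p5 p hp).2
            (fun x hx => ⟨((p6 p hp).1 x hx).1, ((p6 p hp).1 x hx).2.1⟩)
            (fun x hx => ⟨((p6 p hp).2 x hx).1, ((p6 p hp).2 x hx).2.1⟩) (p2 p hp) hne
    have hsum : ∑ p ∈ P, (((S p.1).card : ℝ) * (HX p).card + (S p.2).card * (HY p).card +
        (GP p).card) ≤ (2 * κ + 3) * (U.card + 4 * r) + 4 * κ * k * (2 * r) := by
      calc _ ≤ ∑ p ∈ P, ((2 * κ + 3) * (((HX p).card : ℝ) + (HY p).card) + 4 * κ * k) :=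
            sum_le_sum hpart
        _ = (2 * κ + 3) * ∑ p ∈ P, (((HX p).card : ℝ) + (HY p).card) + P.card * (4 * κ * k) := by
            rw [sum_add_distrib, mul_sum, sum_const, nsmul_eq_mul]
        _ ≤ (2 * κ + 3) * (U.card + 4 * r) + (2 * r) * (4 * κ * k) := by
            refine add_le_add (mul_le_mul_of_nonneg_left p9R (by linarith))
              (mul_le_mul_of_nonneg_right p1R (by positivity))
        _ = _ := by ring
    -- inner pairs
    have hinner := inner_cardS (S := S) (c := c) h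
    have hsplit : ∑ x ∈ range n, (S (c x)).card =
        ∑ x ∈ U, (S (c x)).card + ∑ x ∈ range n \ U, (S (c x)).card := by
      rw [add_comm, sum_sdiff p7]
    have hUsum : ∑ x ∈ U, (S (c x)).card ≤
        ∑ p ∈ P, ((S p.1).card * (HX p).card + (S p.2).card * (HY p).card) := by
      have hsub : U ⊆ P.biUnion (fun p => HX p ∪ HY p) := by
        intro x hx
        obtain ⟨p, hp, hh⟩ := p8 x hx
        rw [mem_biUnion]
        exact ⟨p, hp, mem_union.mpr hh⟩
      calc ∑ x ∈ U, (S (c x)).card ≤ ∑ x ∈ P.biUnion (fun p => HX p ∪ HY p), (S (c x)).card :=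
            sum_le_sum_of_subset hsub
        _ ≤ ∑ p ∈ P, ∑ x ∈ HX p ∪ HY p, (S (c x)).card := sum_biUnion_le' _ _ _
        _ ≤ ∑ p ∈ P, ((S p.1).card * (HX p).card + (S p.2).card * (HY p).card) := by
            refine sum_le_sum fun p hp => ?_
            have k1 : ∑ x ∈ HX p, (S (c x)).card = (S p.1).card * (HX p).card := by
              rw [sum_congr rfl (fun x hx => by rw [((p6 p hp).1 x hx).1]), sum_const, smul_eq_mul,
                mul_comm]
            have k2 : ∑ x ∈ HY p, (S (c x)).card = (S p.2).card * (HY p).card := by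
              rw [sum_congr rfl (fun x hx => by rw [((p6 p hp).2 x hx).1]), sum_const, smul_eq_mul,
                mul_comm]
            rw [← k1, ← k2]
            have := sum_union_inter (s₁ := HX p) (s₂ := HY p) (f := fun x => (S (c x)).card)
            omega
    have hVsum : ((∑ x ∈ range n \ U, (S (c x)).card : ℕ) : ℝ) ≤
        (2 * κ + 1) * (n - U.card) + 4 * (k * k) * (r + 1) := by
      set Z := (range n).filter (fun v => ¬ Deep n k c v) with hZ
      have hZc := card_not_deep (w := k) hc hr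
      have g1 : ∀ x ∈ range n \ U, ((S (c x)).card : ℝ) ≤
          (2 * κ + 1) + (if x ∈ Z then (k : ℝ) else 0) := by
        intro x hx
        by_cases hd : Deep n k c x
        · have := deep_small h hc hS hpow hd
          have h0 : (0 : ℝ) ≤ (if x ∈ Z then (k : ℝ) else 0) := by split_ifs <;> positivity
          linarith
        · have hxZ : x ∈ Z := mem_filter.mpr ⟨(mem_sdiff.mp hx).1, hd⟩
          rw [if_pos hxZ]
          have : (S (c x)).card ≤ k := by
            have hsub : S (c x) ⊆ Icc 1 k := by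
              intro s hs
              rw [mem_Icc]
              exact hS _ s hs
            have := card_le_card hsub
            rw [Nat.card_Icc] at this
            omega
          have h1 : ((S (c x)).card : ℝ) ≤ k := by exact_mod_cast this
          linarith
      rw [Nat.cast_sum]
      refine (sum_le_sum g1).trans ?_
      rw [sum_add_distrib, sum_const, nsmul_eq_mul, card_sdiff_of_subset p7, card_range,
        Nat.cast_sub hU]
      have g2 : ∑ x ∈ range n \ U, (if x ∈ Z then (k : ℝ) else 0) ≤ k * Z.card := by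
        rw [← sum_filter, sum_const, nsmul_eq_mul, mul_comm]
        refine mul_le_mul_of_nonneg_left ?_ (by positivity)
        have : ((range n \ U).filter (fun x => x ∈ Z)).card ≤ Z.card :=
          card_le_card (fun x hx => (mem_filter.mp hx).2)
        exact_mod_cast this
      have g3 : (Z.card : ℝ) ≤ 4 * k * (r + 1) := by exact_mod_cast hZc
      have g4 : (k : ℝ) * Z.card ≤ k * (4 * k * (r + 1)) :=
        mul_le_mul_of_nonneg_left g3 (by positivity)
      nlinarith
    have h4 : E.card ≤ (E.filter (fun e => c e.1 ≠ c e.2)).card +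
        ((E.filter (fun e => c e.1 = c e.2 ∧ e.2 - e.1 ∈ S (c e.1))).card +
          (E.filter (fun e => c e.1 = c e.2 ∧ e.2 - e.1 ∉ S (c e.1))).card) := by
      have hsub : E ⊆ E.filter (fun e => c e.1 ≠ c e.2) ∪
          (E.filter (fun e => c e.1 = c e.2 ∧ e.2 - e.1 ∈ S (c e.1)) ∪
            E.filter (fun e => c e.1 = c e.2 ∧ e.2 - e.1 ∉ S (c e.1))) := by
        intro e he
        rw [mem_union, mem_union, mem_filter, mem_filter, mem_filter]
        by_cases h1 : c e.1 = c e.2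
        · by_cases h2 : e.2 - e.1 ∈ S (c e.1)
          · exact Or.inr (Or.inl ⟨he, h1, h2⟩)
          · exact Or.inr (Or.inr ⟨he, h1, h2⟩)
        · exact Or.inl ⟨he, h1⟩
      exact (card_le_card hsub).trans ((card_union_le _ _).trans
        (Nat.add_le_add_left (card_union_le _ _) _))
    have h5 : (E.card : ℝ) ≤ (E.filter (fun e => c e.1 ≠ c e.2)).card +
        (∑ p ∈ P, (((S p.1).card : ℝ) * (HX p).card + (S p.2).card * (HY p).card) +
          ((∑ x ∈ range n \ U, (S (c x)).card : ℕ) : ℝ)) +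
          (E.filter (fun e => c e.1 = c e.2 ∧ e.2 - e.1 ∉ S (c e.1))).card := by
      have : E.card ≤ (E.filter (fun e => c e.1 ≠ c e.2)).card +
          (∑ p ∈ P, ((S p.1).card * (HX p).card + (S p.2).card * (HY p).card) +
            ∑ x ∈ range n \ U, (S (c x)).card) +
          (E.filter (fun e => c e.1 = c e.2 ∧ e.2 - e.1 ∉ S (c e.1))).card := by omega
      exact_mod_cast this
    rw [sum_add_distrib] at hsum
    have g2 : κ * r ≤ (k * k) * r := mul_le_mul_of_nonneg_right (by linarith) hr0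
    have g3 : (r : ℝ) ≤ (k * k) * r := by nlinarith
    have g4 : (k : ℝ) * r ≤ (k * k) * r := mul_le_mul_of_nonneg_right hkk hr0
    have g5 : (0 : ℝ) ≤ k * k := by positivity
    have g6 : κ * k * r ≤ (k * k) * r :=
      mul_le_mul_of_nonneg_right (mul_le_mul_of_nonneg_right hκk (by positivity)) hr0
    have g7 : 0 ≤ κ * ((n : ℝ) - U.card) := mul_nonneg hκ0 (by linarith)
    nlinarith

end Pool.Agent.MP_df3d6f_co
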